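import Pool.Agent.NLG.Defs

/-!
NLG-Count: lattice points in the triangle a + n b ≤ Z.

PLAN.  For b with n b ≤ Z there are ⌊Z - n b⌋ + 1 > Z - n b values of a.  So the number is at least
∑ (b < B) max (Z - n b) 0, and this is ≥ Z^2/(2n): for Z = n z it is n ∑ b max (z - b) 0, and with
m = ⌊z⌋, f = z - m: ∑ (b ≤ m) (z - b) = (m+1) z - m (m+1)/2 = ((m+1)/2) (2 z - m) ≥ z^2/2, because
(m+1)(2m + 2f - m) - (m+f)^2 = (m+1)(m+2f) - (m+f)^2 = m + 2 f - f^2 ≥ 0.
card_rows: the number of (s, β) with s + n β < lam n is ∑ (β < lam) (lam - β) n = n lam (lam+1)/2.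
-/

namespace Pool.Agent.NLG

open Finset

private lemma row_ge {n A b : ℕ} {Z : ℝ} (hA : Z < A) (hb : (n : ℝ) * b ≤ Z) :
    Z - (n : ℝ) * b ≤ (((range A).filter fun a : ℕ => (a : ℝ) + (n : ℝ) * b ≤ Z).card : ℝ) := by
  have hnb : (0 : ℝ) ≤ (n : ℝ) * b := by positivity
  have h0 : 0 ≤ Z - (n : ℝ) * b := by linarith
  have hsub : range (⌊Z - (n : ℝ) * b⌋₊ + 1) ⊆
      (range A).filter fun a : ℕ => (a : ℝ) + (n : ℝ) * b ≤ Z := by
    intro a ha
    rw [mem_range] at ha
    have h1 : a ≤ ⌊Z - (n : ℝ) * b⌋₊ := by omega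
    have h2 : (a : ℝ) ≤ Z - (n : ℝ) * b := (Nat.le_floor_iff h0).mp h1
    rw [mem_filter, mem_range]
    refine ⟨?_, by linarith⟩
    have h3 : (a : ℝ) < A := by linarith
    exact_mod_cast h3
  have hc := card_le_card hsub
  rw [card_range] at hc
  have hc' : ((⌊Z - (n : ℝ) * b⌋₊ + 1 : ℕ) : ℝ) ≤
      (((range A).filter fun a : ℕ => (a : ℝ) + (n : ℝ) * b ≤ Z).card : ℝ) := by
    exact_mod_cast hc
  have h4 := Nat.lt_floor_add_one (Z - (n : ℝ) * b)
  push_cast at hc'
  linarith

private lemma sum_lin (z : ℝ) (m : ℕ) :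
    ∑ b ∈ range (m + 1), (z - (b : ℝ)) = (m + 1) * z - m * (m + 1) / 2 := by
  induction m with
  | zero => simp
  | succ k ih =>
    rw [sum_range_succ, ih]
    push_cast
    ring

theorem count_ge {n : ℕ} (hn : 1 ≤ n) {Z : ℝ} (hZ : 0 ≤ Z) {B A : ℕ} (hB : Z < n * B) (hA : Z < A) :
    Z ^ 2 / (2 * n) ≤ (((range B ×ˢ range A).filter
      fun p : ℕ × ℕ => (p.2 : ℝ) + (n : ℝ) * p.1 ≤ Z).card : ℝ) := by
  have hn0 : (0 : ℝ) < n := by exact_mod_cast hn
  set z : ℝ := Z / n with hz
  have hz0 : 0 ≤ z := by positivity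
  have hZz : Z = n * z := by rw [hz]; field_simp
  set m : ℕ := ⌊z⌋₊ with hm
  have hm1 : (m : ℝ) ≤ z := Nat.floor_le hz0
  have hm2 : z < m + 1 := Nat.lt_floor_add_one z
  have hmB : m < B := by
    have h1 : (n : ℝ) * z < n * B := by rw [← hZz]; exact hB
    have h2 : z < B := lt_of_mul_lt_mul_left h1 hn0.le
    have h3 : (m : ℝ) < B := lt_of_le_of_lt hm1 h2
    exact_mod_cast h3
  have hcard : ((range B ×ˢ range A).filter
      fun p : ℕ × ℕ => (p.2 : ℝ) + (n : ℝ) * p.1 ≤ Z).card =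
      ∑ b ∈ range B, ((range A).filter fun a : ℕ => (a : ℝ) + (n : ℝ) * b ≤ Z).card := by
    rw [card_filter, sum_product]
    refine sum_congr rfl fun b _ => ?_
    rw [card_filter]
  rw [hcard]
  push_cast
  have hsub : ∑ b ∈ range (m + 1), (Z - (n : ℝ) * b) ≤
      ∑ b ∈ range B, (((range A).filter fun a : ℕ => (a : ℝ) + (n : ℝ) * b ≤ Z).card : ℝ) := by
    calc ∑ b ∈ range (m + 1), (Z - (n : ℝ) * b)
        ≤ ∑ b ∈ range (m + 1),
          (((range A).filter fun a : ℕ => (a : ℝ) + (n : ℝ) * b ≤ Z).card : ℝ) := by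
          refine sum_le_sum fun b hb => row_ge hA ?_
          rw [mem_range] at hb
          have hb' : (b : ℝ) ≤ m := by
            have : b ≤ m := by omega
            exact_mod_cast this
          rw [hZz]
          exact mul_le_mul_of_nonneg_left (hb'.trans hm1) hn0.le
      _ ≤ _ := by
          refine sum_le_sum_of_subset_of_nonneg ?_ fun _ _ _ => Nat.cast_nonneg _
          intro b hb
          rw [mem_range] at hb ⊢
          omega
  refine le_trans ?_ hsub
  have hfac : ∑ b ∈ range (m + 1), (Z - (n : ℝ) * b) =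
      n * ((m + 1) * z - m * (m + 1) / 2) := by
    rw [← sum_lin, mul_sum]
    refine sum_congr rfl fun b _ => ?_
    rw [hZz]; ring
  rw [hfac]
  have hL : Z ^ 2 / (2 * n) = n * (z ^ 2 / 2) := by
    rw [hZz]; field_simp
  rw [hL]
  refine mul_le_mul_of_nonneg_left ?_ hn0.le
  have hm0 : (0 : ℝ) ≤ m := by positivity
  nlinarith [mul_nonneg (sub_nonneg.mpr hm1) (sub_nonneg.mpr hm2.le)]

private lemma sum_tri (lam : ℕ) : ∀ k : ℕ, k ≤ lam →
    2 * ∑ b ∈ range k, (lam - b) = k * (2 * lam + 1 - k) := by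
  intro k
  induction k with
  | zero => intro _; simp
  | succ k ih =>
    intro hk
    rw [sum_range_succ, mul_add, ih (by omega)]
    obtain ⟨d, rfl⟩ := Nat.exists_eq_add_of_le hk
    have e1 : 2 * (k + 1 + d) + 1 - k = k + 2 * d + 3 := by omega
    have e2 : k + 1 + d - k = d + 1 := by omega
    have e3 : 2 * (k + 1 + d) + 1 - (k + 1) = k + 2 * d + 2 := by omega
    rw [e1, e2, e3]
    ring

theorem card_rows {n lam : ℕ} (hn : 1 ≤ n) :
    2 * ((range lam ×ˢ range (lam * n)).filter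
      fun p : ℕ × ℕ => p.2 + n * p.1 < lam * n).card = n * (lam * (lam + 1)) := by
  have hcard : ((range lam ×ˢ range (lam * n)).filter
      fun p : ℕ × ℕ => p.2 + n * p.1 < lam * n).card =
      ∑ b ∈ range lam, ((range (lam * n)).filter fun a : ℕ => a + n * b < lam * n).card := by
    rw [card_filter, sum_product]
    refine sum_congr rfl fun b _ => ?_
    rw [card_filter]
  rw [hcard]
  have hrow : ∀ b ∈ range lam,
      ((range (lam * n)).filter fun a : ℕ => a + n * b < lam * n).card = n * (lam - b) := by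
    intro b hb
    rw [mem_range] at hb
    have hset : (range (lam * n)).filter (fun a : ℕ => a + n * b < lam * n) =
        range (n * (lam - b)) := by
      ext a
      rw [mem_filter, mem_range, mem_range]
      obtain ⟨d, rfl⟩ := Nat.exists_eq_add_of_le hb.le
      have e1 : b + d - b = d := by omega
      rw [e1]
      have e2 : (b + d) * n = n * b + n * d := by ring
      rw [e2]
      constructor
      · rintro ⟨_, h⟩; omega
      · intro h; exact ⟨by omega, by omega⟩
    rw [hset, card_range]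
  rw [sum_congr rfl hrow, ← mul_sum, mul_left_comm, sum_tri lam lam le_rfl]
  have e : 2 * lam + 1 - lam = lam + 1 := by omega
  rw [e]

end Pool.Agent.NLG
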