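import Pool.Agent.NLG.Kap

/-!
NLG-NilEv: the truncated power `ev q j N r a = (1 - a)^(j/q)` at a nilpotent element.

PLAN.  `r a` is nilpotent of order N: (r a)^N = 0 because a^N = 0.  ev_mul: expand the product, group
by s = m + m', the terms with s ≥ N vanish, the others give KZ_add.  ev_self: N = 1: a = 0 and both
sides are 1; N ≥ 2: KZ_zero_right, KZ_self_one, KZ_self and r q^2 = 1.  ev_natMul: induction with
ev_mul.  ev_dvd: the term m = 0 is 1, all others are divisible by a.  ev_neg_pow: ev (-1)^q = ev (-q),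
ev (-q) * ev q = ev 0 = 1, ev q = 1 - a.
root_sum: (Y - T) * ∑ = Y^q - T^q (geom_sum₂_mul).
sum_zero: put T = ev (-1) x * ev 1 w; T^q (1-x) = 1 - w, T^i = ev (-i) x * ev i w; 1 - x is a unit,
so T^q = Y^q; T - 1 is nilpotent (a multiple of x plus a multiple of w), Y - T = (Y - 1) - (T - 1) is
a unit (IsNilpotent.isUnit_add_left_of_commute or similar), T is a unit.  root_sum gives
∑ Y^i T^(q-1-i) = 0; (∑ A_i Y^i) T^(q-1) = ∑ A_i T^i Y^i T^(q-1-i) = A_0 ∑ Y^i T^(q-1-i) = 0.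
-/

namespace Pool.Agent.NLG

open Finset Polynomial

variable {R : Type*} [CommRing R]

theorem ev_mul {q N : ℕ} (hq : 1 ≤ q) (i j : ℤ) (r a : R) (ha : a ^ N = 0) :
    ev q i N r a * ev q j N r a = ev q (i + j) N r a := by
  have hb : ∀ s, N ≤ s → (r * a) ^ s = 0 := by
    intro s hs
    rw [mul_pow, ← Nat.sub_add_cancel hs, pow_add a, ha, mul_zero, mul_zero]
  unfold ev
  generalize r * a = b at hb
  have h1 : ∀ m ∈ range N, ∑ m' ∈ range N, (KZ q i m : R) * b ^ m * ((KZ q j m' : R) * b ^ m') =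
      ∑ s ∈ Ico m N, ((KZ q i m : R) * (KZ q j (s - m) : R)) * b ^ s := by
    intro m hm
    have hm' : m < N := mem_range.1 hm
    have e1 : ∑ m' ∈ range N, (KZ q i m : R) * b ^ m * ((KZ q j m' : R) * b ^ m') =
        ∑ s ∈ Ico m (m + N), ((KZ q i m : R) * (KZ q j (s - m) : R)) * b ^ s := by
      rw [sum_Ico_eq_sum_range, Nat.add_sub_cancel_left]
      refine sum_congr rfl fun m' _ => ?_
      rw [Nat.add_sub_cancel_left, pow_add]
      ring
    rw [e1, ← sum_Ico_consecutive _ hm'.le (Nat.le_add_left N m)]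
    have e2 : ∑ s ∈ Ico N (m + N), ((KZ q i m : R) * (KZ q j (s - m) : R)) * b ^ s = 0 := by
      refine sum_eq_zero fun s hs => ?_
      rw [hb s (mem_Ico.1 hs).1, mul_zero]
    rw [e2, add_zero]
  rw [sum_mul_sum, sum_congr rfl h1, range_eq_Ico, sum_Ico_Ico_comm]
  refine sum_congr rfl fun s _ => ?_
  rw [KZ_add hq i j s, ← sum_mul]
  push_cast
  rw [range_eq_Ico]

theorem ev_zero {q N : ℕ} (hq : 1 ≤ q) (hN : 1 ≤ N) (r a : R) : ev q 0 N r a = 1 := by
  unfold ev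
  rw [sum_eq_single 0]
  · rw [KZ_zero_right hq, pow_zero]
    simp
  · intro m _ hm
    rw [KZ_zero_left hq (Nat.one_le_iff_ne_zero.2 hm)]
    simp
  · intro h
    exact absurd (mem_range.2 hN) h

theorem ev_self {q N : ℕ} (hq : 1 ≤ q) (hN : 1 ≤ N) {r a : R} (hr : r * (q : R) ^ 2 = 1)
    (ha : a ^ N = 0) : ev q q N r a = 1 - a := by
  rcases Nat.lt_or_ge N 2 with h2 | h2
  · have h3 : N = 1 := by omega
    subst h3
    rw [pow_one] at ha
    unfold ev
    rw [sum_range_one, KZ_zero_right hq, pow_zero, ha]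
    simp
  · obtain ⟨M, rfl⟩ : ∃ M, N = M + 2 := ⟨N - 2, by omega⟩
    unfold ev
    rw [add_comm M 2, sum_range_add]
    have e1 : ∑ m ∈ range M, (KZ q q (2 + m) : R) * (r * a) ^ (2 + m) = 0 := by
      refine sum_eq_zero fun m _ => ?_
      rw [KZ_self hq (Nat.le_add_right 2 m)]
      simp
    rw [e1, add_zero, sum_range_succ, sum_range_one, KZ_zero_right hq, KZ_self_one hq]
    push_cast
    linear_combination (-a) * hr

theorem ev_natMul {q N : ℕ} (hq : 1 ≤ q) (hN : 1 ≤ N) (i : ℕ) (j : ℤ) (r a : R)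
    (ha : a ^ N = 0) : ev q (i * j) N r a = ev q j N r a ^ i := by
  induction i with
  | zero =>
    rw [Nat.cast_zero, zero_mul, ev_zero hq hN, pow_zero]
  | succ i ih =>
    rw [pow_succ, ← ih, ev_mul hq _ _ _ _ ha]
    congr 1
    push_cast
    ring

theorem ev_dvd {q N : ℕ} (hq : 1 ≤ q) (hN : 1 ≤ N) (j : ℤ) (r a : R) :
    a ∣ ev q j N r a - 1 := by
  obtain ⟨M, rfl⟩ : ∃ M, N = M + 1 := ⟨N - 1, by omega⟩
  unfold ev
  rw [sum_range_succ', KZ_zero_right hq, pow_zero]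
  have e1 : ∑ m ∈ range M, (KZ q j (m + 1) : R) * (r * a) ^ (m + 1) + ((1 : ℤ) : R) * 1 - 1 =
      ∑ m ∈ range M, (KZ q j (m + 1) : R) * (r * a) ^ (m + 1) := by
    push_cast
    ring
  rw [e1]
  refine dvd_sum fun m _ => ?_
  refine Dvd.dvd.mul_left ?_ _
  rw [mul_pow]
  exact Dvd.dvd.mul_left (dvd_pow_self a (Nat.succ_ne_zero m)) _

theorem ev_neg_pow {q N : ℕ} (hq : 1 ≤ q) (hN : 1 ≤ N) {r a : R} (hr : r * (q : R) ^ 2 = 1)
    (ha : a ^ N = 0) : ev q (-1) N r a ^ q * (1 - a) = 1 := by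
  rw [← ev_natMul hq hN q (-1) r a ha, ← ev_self hq hN hr ha, ev_mul hq _ _ _ _ ha]
  have e1 : (q : ℤ) * -1 + (q : ℤ) = 0 := by ring
  rw [e1, ev_zero hq hN]

theorem root_sum {q : ℕ} {Y T : R} (h : Y ^ q = T ^ q) (hu : IsUnit (Y - T)) :
    ∑ i ∈ range q, Y ^ i * T ^ (q - 1 - i) = 0 := by
  have h1 := Commute.geom_sum₂_mul (Commute.all Y T) q
  rw [h, sub_self] at h1
  exact (hu.mul_left_eq_zero).1 h1

theorem sum_zero {q N : ℕ} (hq : 1 ≤ q) (hN : 1 ≤ N) {r x w Y : R} (hr : r * (q : R) ^ 2 = 1)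
    (hx : x ^ N = 0) (hw : w ^ N = 0) (hY : Y ^ q * (1 - x) = 1 - w) (hu : IsUnit (Y - 1))
    (A : ℕ → R) (hA : ∀ i, 1 ≤ i → i < q →
      A i * (ev q (-(i : ℤ)) N r x * ev q i N r w) = A 0) :
    ∑ i ∈ range q, A i * Y ^ i = 0 := by
  obtain ⟨T, hT⟩ : ∃ T, T = ev q (-1) N r x * ev q 1 N r w := ⟨_, rfl⟩
  have hTi : ∀ i : ℕ, T ^ i = ev q (-(i : ℤ)) N r x * ev q i N r w := by
    intro i
    rw [hT, mul_pow, ← ev_natMul hq hN i (-1) r x hx, ← ev_natMul hq hN i 1 r w hw, mul_neg_one, mul_one]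
  have hnx : IsNilpotent x := ⟨N, hx⟩
  have hux : IsUnit (1 - x) := hnx.isUnit_one_sub
  have hTq : T ^ q = Y ^ q := by
    have h1 : T ^ q * (1 - x) = Y ^ q * (1 - x) := by
      have h2 := ev_neg_pow hq hN hr hx
      have h3 := ev_self hq hN hr hw
      have h4 := ev_natMul hq hN q 1 r w hw
      rw [mul_one, h3] at h4
      rw [hY, hT, mul_pow, ← h4]
      linear_combination (1 - w) * h2
    exact hux.mul_right_cancel h1
  have hnil : ∀ (j : ℤ) (a : R), a ^ N = 0 → ev q j N r a - 1 ∈ nilradical R := by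
    intro j a ha
    obtain ⟨c, hc⟩ := ev_dvd hq hN j r a
    rw [hc]
    exact Ideal.mul_mem_right c _ (mem_nilradical.2 ⟨N, ha⟩)
  have hT1 : T - 1 ∈ nilradical R := by
    have e1 : T - 1 = (ev q (-1) N r x - 1) * ev q 1 N r w + (ev q 1 N r w - 1) := by
      rw [hT]
      ring
    rw [e1]
    exact Ideal.add_mem _ (Ideal.mul_mem_right _ _ (hnil _ _ hx)) (hnil _ _ hw)
  have hT1' : IsNilpotent (T - 1) := mem_nilradical.1 hT1
  have hTu : IsUnit T := by
    have h1 := hT1'.isUnit_one_add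
    rwa [add_sub_cancel] at h1
  have hYT : IsUnit (Y - T) := by
    have h1 : IsNilpotent (-(T - 1)) := hT1'.neg
    have h2 := h1.isUnit_add_left_of_commute hu (Commute.all _ _)
    have e1 : Y - 1 + -(T - 1) = Y - T := by ring
    rwa [e1] at h2
  have hroot := root_sum hTq.symm hYT
  have hfin : (∑ i ∈ range q, A i * Y ^ i) * T ^ (q - 1) = 0 := by
    have h1 : (∑ i ∈ range q, A i * Y ^ i) * T ^ (q - 1) =
        A 0 * ∑ i ∈ range q, Y ^ i * T ^ (q - 1 - i) := by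
      rw [sum_mul, mul_sum]
      refine sum_congr rfl fun i hi => ?_
      have hi' : i < q := mem_range.1 hi
      have h2 : T ^ (q - 1) = T ^ i * T ^ (q - 1 - i) := by
        rw [← pow_add]
        congr 1
        omega
      have h3 : A i * T ^ i = A 0 := by
        rcases Nat.eq_zero_or_pos i with rfl | h0
        · rw [pow_zero, mul_one]
        · rw [hTi i]
          exact hA i h0 hi'
      rw [h2, ← h3]
      ring
    rw [h1, hroot, mul_zero]
  exact ((hTu.pow (q - 1)).mul_left_eq_zero).1 hfin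

end Pool.Agent.NLG
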