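import Pool.Agent.NLG.Defs
import Pool.Agent.NL.PadeCoef

/-!
NLG-Kap: the numbers `kap ρ m` and `KZ q j m`.

PLAN.  `kap ρ m = (-1)^m Ring.choose ρ m`; recursion from the recursion of `Ring.choose` (see the
private lemma `choose_succ_mul` in NL/PadeCoef.lean: (k+1) choose r (k+1) = (r-k) choose r k).
kap_add: Vandermonde `Ring.add_choose_eq` (used in NL/PadeId.lean) and antidiagonal sum.
KZ_cast: `Pool.Agent.NL.choose_integral` says q^(2m) choose (j/q) m is an integer, so is the product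
with (-1)^m, and the floor of an integer is this integer.  KZ_add: cast to ℚ, kap_add, and
(i + j : ℤ)/q = i/q + j/q.  KZ_self: kap 1 m = 0 for m ≥ 2, kap 1 1 = -1.  abs_KZ_le: by kap_succ the
factor is |(m - j/q)/(m+1)| ≤ 1 for |j| ≤ q.  abs_KZ_le_two_pow: kap (d - i/q) m =
∑ u ≤ m, kap d u * kap (-i/q) (m-u), |kap d u| = choose d u, ∑ choose d u ≤ 2^d.
KZ_poly: KZ q j m = q^(2m)/m! ∏ (u < m) (u - j/q): a polynomial of degree m in j.
-/

namespace Pool.Agent.NLG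

open Finset Polynomial

private theorem Kap_choose_succ_mul (r : ℚ) (k : ℕ) :
    ((k : ℚ) + 1) * Ring.choose r (k + 1) = (r - k) * Ring.choose r k := by
  have h1 := Ring.descPochhammer_eq_factorial_smul_choose r (k + 1)
  have h2 := Ring.descPochhammer_eq_factorial_smul_choose r k
  rw [descPochhammer_succ_right, Polynomial.smeval_mul, h2] at h1
  have h3 : (Polynomial.X - (k : Polynomial ℤ)).smeval r = r - k := by
    rw [Polynomial.smeval_sub, Polynomial.smeval_X, pow_one, Polynomial.smeval_natCast, pow_zero,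
      nsmul_eq_mul, mul_one]
  rw [h3, nsmul_eq_mul, nsmul_eq_mul, Nat.factorial_succ] at h1
  have h4 : (k.factorial : ℚ) ≠ 0 := by exact_mod_cast Nat.factorial_ne_zero k
  push_cast at h1
  apply mul_left_cancel₀ h4
  linarith

theorem kap_zero (ρ : ℚ) : kap ρ 0 = 1 := by
  simp [kap]

theorem kap_succ (ρ : ℚ) (m : ℕ) : ((m : ℚ) + 1) * kap ρ (m + 1) = ((m : ℚ) - ρ) * kap ρ m := by
  unfold kap
  have h := Kap_choose_succ_mul ρ m
  rw [pow_succ]
  linear_combination (-(-1 : ℚ) ^ m) * h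

theorem kap_add (ρ σ : ℚ) (s : ℕ) :
    kap (ρ + σ) s = ∑ m ∈ range (s + 1), kap ρ m * kap σ (s - m) := by
  unfold kap
  rw [Ring.add_choose_eq s (Commute.all _ _), Finset.mul_sum,
    Finset.Nat.sum_antidiagonal_eq_sum_range_succ (fun a b => (-1 : ℚ) ^ s * (Ring.choose ρ a * Ring.choose σ b))]
  refine sum_congr rfl fun m hm => ?_
  have hms : m ≤ s := Nat.lt_succ_iff.mp (mem_range.mp hm)
  have h1 : (-1 : ℚ) ^ s = (-1) ^ m * (-1) ^ (s - m) := by
    rw [← pow_add, Nat.add_sub_cancel' hms]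
  rw [h1]
  ring

theorem KZ_cast {q : ℕ} (hq : 1 ≤ q) (j : ℤ) (m : ℕ) :
    (KZ q j m : ℚ) = (q : ℚ) ^ (2 * m) * kap ((j : ℚ) / q) m := by
  obtain ⟨k, hk⟩ := Pool.Agent.NL.choose_integral q hq j m
  have h1 : (q : ℚ) ^ (2 * m) * kap ((j : ℚ) / q) m = (((-1) ^ m * k : ℤ) : ℚ) := by
    unfold kap
    push_cast
    rw [← hk]
    ring
  unfold KZ
  rw [h1, Int.floor_intCast]

theorem KZ_zero_right {q : ℕ} (hq : 1 ≤ q) (j : ℤ) : KZ q j 0 = 1 := by
  have h := KZ_cast hq j 0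
  rw [kap_zero] at h
  simp only [mul_zero, pow_zero, mul_one] at h
  exact_mod_cast h

theorem KZ_add {q : ℕ} (hq : 1 ≤ q) (i j : ℤ) (s : ℕ) :
    KZ q (i + j) s = ∑ m ∈ range (s + 1), KZ q i m * KZ q j (s - m) := by
  have h : (KZ q (i + j) s : ℚ) = ((∑ m ∈ range (s + 1), KZ q i m * KZ q j (s - m) : ℤ) : ℚ) := by
    rw [KZ_cast hq]
    push_cast
    rw [add_div, kap_add, mul_sum]
    refine sum_congr rfl fun m hm => ?_
    have hms : m ≤ s := Nat.lt_succ_iff.mp (mem_range.mp hm)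
    rw [KZ_cast hq, KZ_cast hq]
    have h1 : (q : ℚ) ^ (2 * s) = (q : ℚ) ^ (2 * m) * (q : ℚ) ^ (2 * (s - m)) := by
      rw [← pow_add, ← mul_add, Nat.add_sub_cancel' hms]
    rw [h1]
    ring
  exact_mod_cast h

private theorem Kap_one_one : kap 1 1 = -1 := by
  have h := kap_succ 1 0
  rw [kap_zero] at h
  norm_num at h
  linarith

private theorem Kap_one_ge (m : ℕ) : kap 1 (m + 2) = 0 := by
  induction m with
  | zero =>
    have h := kap_succ 1 1
    norm_num at h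
    exact h
  | succ m ih =>
    have h := kap_succ 1 (m + 2)
    rw [ih, mul_zero] at h
    have h2 : (((m + 2 : ℕ) : ℚ) + 1) ≠ 0 := by positivity
    exact (mul_eq_zero.mp h).resolve_left h2

theorem KZ_self_one {q : ℕ} (hq : 1 ≤ q) : KZ q q 1 = -(q : ℤ) ^ 2 := by
  have hq0 : (q : ℚ) ≠ 0 := by
    have : q ≠ 0 := by omega
    exact_mod_cast this
  have h := KZ_cast hq (q : ℤ) 1
  rw [Int.cast_natCast, div_self hq0, Kap_one_one] at h
  have h2 : (KZ q q 1 : ℚ) = ((-(q : ℤ) ^ 2 : ℤ) : ℚ) := by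
    rw [h]
    push_cast
    ring
  exact_mod_cast h2

theorem KZ_self {q : ℕ} (hq : 1 ≤ q) {m : ℕ} (hm : 2 ≤ m) : KZ q q m = 0 := by
  have hq0 : (q : ℚ) ≠ 0 := by
    have : q ≠ 0 := by omega
    exact_mod_cast this
  obtain ⟨k, rfl⟩ := Nat.exists_eq_add_of_le' hm
  have h := KZ_cast hq (q : ℤ) (k + 2)
  rw [Int.cast_natCast, div_self hq0, Kap_one_ge, mul_zero] at h
  exact_mod_cast h

theorem KZ_zero_left {q : ℕ} (hq : 1 ≤ q) {m : ℕ} (hm : 1 ≤ m) : KZ q 0 m = 0 := by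
  obtain ⟨k, rfl⟩ := Nat.exists_eq_add_of_le' hm
  have h := KZ_cast hq 0 (k + 1)
  have h2 : kap 0 (k + 1) = 0 := by
    unfold kap
    rw [Ring.choose_zero_succ, mul_zero]
  rw [Int.cast_zero, zero_div, h2, mul_zero] at h
  exact_mod_cast h

private theorem Kap_abs_le_one {ρ : ℚ} (h1 : -1 ≤ ρ) (h2 : ρ ≤ 1) (m : ℕ) : |kap ρ m| ≤ 1 := by
  induction m with
  | zero => rw [kap_zero, abs_one]
  | succ m ih =>
    have h := kap_succ ρ m
    have hm : (0 : ℚ) < (m : ℚ) + 1 := by positivity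
    have h3 : ((m : ℚ) + 1) * |kap ρ (m + 1)| = |(m : ℚ) - ρ| * |kap ρ m| := by
      rw [← abs_mul, ← h, abs_mul, abs_of_pos hm]
    have h4 : |(m : ℚ) - ρ| ≤ (m : ℚ) + 1 := by
      rw [abs_le]
      constructor
      · have : (0 : ℚ) ≤ m := by positivity
        linarith
      · linarith
    have h5 : ((m : ℚ) + 1) * |kap ρ (m + 1)| ≤ ((m : ℚ) + 1) * 1 := by
      rw [h3]
      exact mul_le_mul h4 ih (abs_nonneg _) hm.le
    exact le_of_mul_le_mul_left h5 hm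

private theorem Kap_succ_left (ρ : ℚ) (m : ℕ) : kap (ρ + 1) (m + 1) = kap ρ (m + 1) - kap ρ m := by
  unfold kap
  rw [Ring.choose_succ_succ, pow_succ]
  ring

private theorem Kap_abs_le_two_pow {ρ : ℚ} (h1 : -1 ≤ ρ) (h2 : ρ ≤ 1) (d : ℕ) (m : ℕ) :
    |kap ((d : ℚ) + ρ) m| ≤ 2 ^ d := by
  induction d generalizing m with
  | zero =>
    rw [Nat.cast_zero, zero_add, pow_zero]
    exact Kap_abs_le_one h1 h2 m
  | succ d ih =>
    have h3 : (((d + 1 : ℕ) : ℚ) + ρ) = ((d : ℚ) + ρ) + 1 := by push_cast; ring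
    rw [h3]
    cases m with
    | zero =>
      rw [kap_zero, abs_one]
      exact one_le_pow₀ (by norm_num)
    | succ m =>
      rw [Kap_succ_left]
      have h4 := ih (m + 1)
      have h5 := ih m
      have h6 : |kap ((d : ℚ) + ρ) (m + 1) - kap ((d : ℚ) + ρ) m| ≤
          |kap ((d : ℚ) + ρ) (m + 1)| + |kap ((d : ℚ) + ρ) m| := abs_sub _ _
      rw [pow_succ]
      linarith

private theorem Kap_abs_KZ {q : ℕ} (hq : 1 ≤ q) (j : ℤ) (m : ℕ) {B : ℕ}
    (h : |kap ((j : ℚ) / q) m| ≤ B) : |KZ q j m| ≤ (q : ℤ) ^ (2 * m) * B := by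
  have h1 : |(KZ q j m : ℚ)| ≤ (q : ℚ) ^ (2 * m) * B := by
    rw [KZ_cast hq, abs_mul, abs_of_nonneg (by positivity : (0 : ℚ) ≤ (q : ℚ) ^ (2 * m))]
    exact mul_le_mul_of_nonneg_left h (by positivity)
  exact_mod_cast h1

theorem abs_KZ_le {q : ℕ} (hq : 1 ≤ q) {j : ℤ} (hj : |j| ≤ q) (m : ℕ) :
    |KZ q j m| ≤ (q : ℤ) ^ (2 * m) := by
  have hq0 : (0 : ℚ) < (q : ℚ) := by
    have : 0 < q := by omega
    exact_mod_cast this
  rw [abs_le] at hj
  have h := Kap_abs_KZ hq j m (B := 1) (by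
    rw [Nat.cast_one]
    refine Kap_abs_le_one ?_ ?_ m
    · rw [le_div_iff₀ hq0]
      have : -(q : ℚ) ≤ (j : ℚ) := by exact_mod_cast hj.1
      linarith
    · rw [div_le_one hq0]
      exact_mod_cast hj.2)
  rw [Nat.cast_one, mul_one] at h
  exact h

theorem abs_KZ_le_two_pow {q : ℕ} (hq : 1 ≤ q) (d i m : ℕ) (hi : i ≤ q) :
    |KZ q ((q : ℤ) * d - i) m| ≤ (q : ℤ) ^ (2 * m) * 2 ^ d := by
  have hq0 : (0 : ℚ) < (q : ℚ) := by
    have : 0 < q := by omega
    exact_mod_cast this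
  have hiq : (i : ℚ) / q ≤ 1 := by
    rw [div_le_one hq0]
    exact_mod_cast hi
  have hi0 : (0 : ℚ) ≤ (i : ℚ) / q := by positivity
  have h := Kap_abs_KZ hq ((q : ℤ) * d - i) m (B := 2 ^ d) (by
    have h1 : ((((q : ℤ) * d - i : ℤ) : ℚ) / q) = (d : ℚ) + (-((i : ℚ) / q)) := by
      push_cast
      field_simp
      ring
    rw [h1]
    push_cast
    exact Kap_abs_le_two_pow (by linarith) (by linarith) d m)
  push_cast at h
  exact h

private theorem Kap_prod (ρ : ℚ) (m : ℕ) :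
    (m.factorial : ℚ) * kap ρ m = ∏ u ∈ range m, ((u : ℚ) - ρ) := by
  induction m with
  | zero => simp [kap_zero]
  | succ m ih =>
    rw [prod_range_succ, ← ih, Nat.factorial_succ]
    have h := kap_succ ρ m
    push_cast
    linear_combination (m.factorial : ℚ) * h

theorem KZ_poly {q : ℕ} (hq : 1 ≤ q) (m : ℕ) : ∃ f : ℚ[X], f.natDegree = m ∧ f ≠ 0 ∧
    ∀ j : ℤ, (KZ q j m : ℚ) = f.eval (j : ℚ) := by
  have hq0 : (q : ℚ) ≠ 0 := by
    have : q ≠ 0 := by omega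
    exact_mod_cast this
  have hf : (m.factorial : ℚ) ≠ 0 := by exact_mod_cast Nat.factorial_ne_zero m
  have hc : (q : ℚ) ^ (2 * m) / m.factorial ≠ 0 := div_ne_zero (pow_ne_zero _ hq0) hf
  have hdeg : ∀ u : ℕ, (C (-(1 / (q : ℚ))) * X + C (u : ℚ)).natDegree = 1 := fun u =>
    Polynomial.natDegree_linear (neg_ne_zero.mpr (one_div_ne_zero hq0))
  have hne : ∀ u : ℕ, (C (-(1 / (q : ℚ))) * X + C (u : ℚ)) ≠ 0 := by
    intro u h
    have := hdeg u
    rw [h, natDegree_zero] at this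
    omega
  refine ⟨C ((q : ℚ) ^ (2 * m) / m.factorial) * ∏ u ∈ range m, (C (-(1 / (q : ℚ))) * X + C (u : ℚ)),
    ?_, ?_, ?_⟩
  · rw [natDegree_C_mul hc, natDegree_prod _ _ (fun u _ => hne u), sum_congr rfl (fun u _ => hdeg u)]
    simp
  · exact mul_ne_zero (C_ne_zero.mpr hc) (prod_ne_zero_iff.mpr fun u _ => hne u)
  · intro j
    rw [KZ_cast hq, eval_mul, eval_C, eval_prod]
    have h1 : ∏ u ∈ range m, eval (j : ℚ) (C (-(1 / (q : ℚ))) * X + C (u : ℚ)) =
        ∏ u ∈ range m, ((u : ℚ) - (j : ℚ) / q) := by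
      refine prod_congr rfl fun u _ => ?_
      rw [eval_add, eval_mul, eval_C, eval_X, eval_C]
      ring
    rw [h1, ← Kap_prod]
    field_simp

end Pool.Agent.NLG
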