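import Mathlib

/-!
NLG-Thet: the Euler operator.
-/

namespace Pool.Agent.NLG

open Finset Polynomial

/-- Multiplication of the coefficient of `X ^ e` by `e ^ l`: the `l`-th power of `X d/dX`. -/
noncomputable def thet {R : Type*} [CommRing R] (l : ℕ) (F : R[X]) : R[X] :=
  F.sum fun e c => monomial e (c * (e : R) ^ l)

/-- `P (X ^ q) X ^ (q - 1 - i)`: the monomial `X ^ d` becomes `X ^ (q d + (q - 1 - i))`. -/
noncomputable def fq (q i : ℕ) (P : ℤ[X]) : ℚ[X] :=
  ((P.map (Int.castRingHom ℚ)).comp (X ^ q)) * X ^ (q - 1 - i)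

/-- Multiplication of the coefficient of `X ^ d` by `(q d + (q - 1 - i)) ^ l`. -/
noncomputable def went (q i l : ℕ) (P : ℤ[X]) : ℤ[X] :=
  P.sum fun d c => monomial d (c * ((q * d + (q - 1 - i) : ℕ) : ℤ) ^ l)

end Pool.Agent.NLG
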