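import Mathlib

/-!
NLG-Dist: linearly independent polynomials can be combined to polynomials of distinct degrees.

PLAN.  Induction on L.  L = 0 trivial.  L + 1: let k* maximise natDegree, d = natDegree (F k*).
For j : Fin L put F' j = F (k*.succAbove j) - c_j F k*, c_j = coeff_d (F (..)) / coeff_d (F k*); the
coefficient of X^d vanishes, so F' j has degree < d (it is non-zero by independence; if d = 0 then
F' j = 0 would be forced, so L = 0).  F' is linearly independent; the induction gives T' for F'; put
T k* = unit vector at k*, and T (k*.succAbove k) = the row of ∑ j T' k j (F (k*.succAbove j) - c_j F k*).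
All new polynomials have natDegree < d, so they differ from k*.
-/

namespace Pool.Agent.NLG

open Finset Polynomial

private theorem indep_sub {K : Type*} [Field K] {L : ℕ} (F : Fin (L + 1) → K[X])
    (hF : LinearIndependent K F) (k₀ : Fin (L + 1)) (c : Fin L → K) :
    LinearIndependent K (fun j : Fin L => F (k₀.succAbove j) - C (c j) * F k₀) := by
  rw [Fintype.linearIndependent_iff] at hF ⊢
  intro g hg
  have h1 := hF (Fin.insertNth (α := fun _ => K) k₀ (-∑ j, g j * c j) g) (by
    rw [Fin.sum_univ_succAbove _ k₀]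
    simp only [Fin.insertNth_apply_same, Fin.insertNth_apply_succAbove]
    have h2 : ∑ j, g j • (F (k₀.succAbove j) - C (c j) * F k₀)
        = ∑ j, g j • F (k₀.succAbove j) - (∑ j, g j * c j) • F k₀ := by
      rw [Finset.sum_smul, ← Finset.sum_sub_distrib]
      refine Finset.sum_congr rfl fun j _ => ?_
      rw [smul_sub, C_mul', smul_smul]
    rw [h2] at hg
    rw [neg_smul]
    rw [neg_add_eq_sub]
    exact hg)
  intro j
  have h3 := h1 (k₀.succAbove j)
  simpa only [Fin.insertNth_apply_succAbove] using h3

theorem exists_distinct {K : Type*} [Field K] : ∀ {L : ℕ} (F : Fin L → K[X]),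
    LinearIndependent K F → ∃ T : Matrix (Fin L) (Fin L) K,
      (∀ k, ∑ j, C (T k j) * F j ≠ 0) ∧
        Function.Injective fun k => (∑ j, C (T k j) * F j).natDegree := by
  intro L
  induction L with
  | zero =>
    intro F _
    exact ⟨fun k _ => k.elim0, fun k => k.elim0, fun k => k.elim0⟩
  | succ L ih =>
    intro F hF
    obtain ⟨k₀, hk₀⟩ := Finite.exists_max (fun k => (F k).natDegree)
    have hne : F k₀ ≠ 0 := hF.ne_zero k₀
    set d := (F k₀).natDegree with hd
    set lc := (F k₀).coeff d with hlc
    have hlc0 : lc ≠ 0 := by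
      rw [hlc, hd]
      exact leadingCoeff_ne_zero.mpr hne
    set c : Fin L → K := fun j => (F (k₀.succAbove j)).coeff d / lc with hc
    have hind := indep_sub F hF k₀ c
    obtain ⟨T', hT1, hT2⟩ := ih _ hind
    have hdeg : ∀ j : Fin L, F (k₀.succAbove j) - C (c j) * F k₀ ∈ degreeLT K d := by
      intro j
      have h0 : F (k₀.succAbove j) - C (c j) * F k₀ ≠ 0 := hind.ne_zero j
      rw [mem_degreeLT, ← natDegree_lt_iff_degree_lt h0]
      have h1 : (F (k₀.succAbove j) - C (c j) * F k₀).natDegree ≤ d := by
        refine (natDegree_sub_le _ _).trans (max_le (hk₀ _) ?_)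
        exact (natDegree_C_mul_le _ _).trans le_rfl
      refine lt_of_le_of_ne h1 fun h2 => h0 ?_
      rw [← leadingCoeff_eq_zero, leadingCoeff, h2, coeff_sub, coeff_C_mul]
      simp only [hc]
      rw [div_mul_cancel₀ _ hlc0, sub_self]
    have hG : ∀ k : Fin L,
        (∑ j, C (T' k j) * (F (k₀.succAbove j) - C (c j) * F k₀)).natDegree < d := by
      intro k
      rw [natDegree_lt_iff_degree_lt (hT1 k), ← mem_degreeLT]
      refine Submodule.sum_mem _ fun j _ => ?_
      rw [C_mul']
      exact Submodule.smul_mem _ _ (hdeg j)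
    let T : Matrix (Fin (L + 1)) (Fin (L + 1)) K :=
      Fin.insertNth (α := fun _ => Fin (L + 1) → K) k₀
        (Fin.insertNth (α := fun _ => K) k₀ 1 (fun _ => 0))
        (fun k => Fin.insertNth (α := fun _ => K) k₀ (-∑ j, T' k j * c j) (T' k))
    have hTa : ∑ j, C (T k₀ j) * F j = F k₀ := by
      rw [Fin.sum_univ_succAbove _ k₀]
      simp [T]
    have hTb : ∀ k : Fin L, ∑ j, C (T (k₀.succAbove k) j) * F j
        = ∑ j, C (T' k j) * (F (k₀.succAbove j) - C (c j) * F k₀) := by
      intro k
      rw [Fin.sum_univ_succAbove _ k₀]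
      simp only [T, Fin.insertNth_apply_same, Fin.insertNth_apply_succAbove]
      simp only [mul_sub, Finset.sum_sub_distrib]
      rw [C_neg, map_sum, neg_mul, Finset.sum_mul, neg_add_eq_sub]
      congr 1
      refine Finset.sum_congr rfl fun j _ => ?_
      rw [C_mul, mul_assoc]
    refine ⟨T, ?_, ?_⟩
    · intro k
      rcases Fin.eq_self_or_eq_succAbove k₀ k with rfl | ⟨j, rfl⟩
      · rw [hTa]; exact hne
      · rw [hTb]; exact hT1 j
    · intro k l hkl
      simp only at hkl
      rcases Fin.eq_self_or_eq_succAbove k₀ k with rfl | ⟨j, rfl⟩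
      · rcases Fin.eq_self_or_eq_succAbove k l with rfl | ⟨i, rfl⟩
        · rfl
        · rw [hTa, hTb] at hkl
          exact absurd hkl (hG i).ne'
      · rcases Fin.eq_self_or_eq_succAbove k₀ l with rfl | ⟨i, rfl⟩
        · rw [hTa, hTb] at hkl
          exact absurd hkl (hG j).ne
        · rw [hTb, hTb] at hkl
          rw [hT2 hkl]

end Pool.Agent.NLG
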