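import Pool.Agent.NLG.Thet
import Pool.Agent.NLG.Dist

/-!
NLG-EWr: the Wronskian (for the Euler operator) of linearly independent polynomials is not zero.

PLAN.  thet l is additive and thet l (C a * F) = C a * thet l F, so for G = T F (exists_distinct)
det (thet l (G k)) = C (det T) * det (thet l (F k)) (up to transposition) and it is enough to show
det (thet l (G k)) ≠ 0 for G k ≠ 0 with distinct natDegrees d_k.  The entries have natDegree ≤ d_k, so
the coefficient of X^(∑ d_k) of the determinant (det_apply; coefficient of a product of polynomials of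
natDegree ≤ d_k at the sum of the d_k is the product of the coefficients at d_k) is
det ((d_k)^l * lc_k) = ∏ lc_k * Vandermonde (d_k) ≠ 0 (Matrix.det_vandermonde_ne_zero_iff, CharZero).
-/

namespace Pool.Agent.NLG

open Finset Polynomial

private theorem coeff_thet {R : Type*} [CommRing R] (l : ℕ) (F : R[X]) (n : ℕ) :
    (thet l F).coeff n = F.coeff n * (n : R) ^ l := by
  unfold thet
  rw [Polynomial.sum, finsetSum_coeff]
  simp only [coeff_monomial]
  rw [Finset.sum_ite_eq' F.support n (fun e => F.coeff e * (e : R) ^ l)]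
  split_ifs with h
  · rfl
  · rw [notMem_support_iff.1 h, zero_mul]

private theorem thet_comb {K : Type*} [Field K] {L : ℕ} (l : ℕ) (F : Fin L → K[X])
    (t : Fin L → K) :
    thet l (∑ j, C (t j) * F j) = ∑ j, thet l (F j) * C (t j) := by
  ext n
  rw [coeff_thet, finsetSum_coeff, finsetSum_coeff, Finset.sum_mul]
  refine Finset.sum_congr rfl fun j _ => ?_
  rw [coeff_C_mul, coeff_mul_C, coeff_thet]
  ring

private theorem natDegree_thet_le {R : Type*} [CommRing R] (l : ℕ) (F : R[X]) :
    (thet l F).natDegree ≤ F.natDegree := by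
  rw [natDegree_le_iff_coeff_eq_zero]
  intro N hN
  rw [coeff_thet, coeff_eq_zero_of_natDegree_lt hN, zero_mul]

private theorem coeff_prod_le {K ι : Type*} [Field K] (s : Finset ι) (f : ι → K[X]) (d : ι → ℕ)
    (h : ∀ i ∈ s, (f i).natDegree ≤ d i) :
    (∏ i ∈ s, f i).coeff (∑ i ∈ s, d i) = ∏ i ∈ s, (f i).coeff (d i) := by
  classical
  induction s using Finset.induction_on with
  | empty => simp
  | insert a s ha ih =>
    have h1 : ∀ i ∈ s, (f i).natDegree ≤ d i := fun i hi => h i (Finset.mem_insert_of_mem hi)
    rw [Finset.prod_insert ha, Finset.sum_insert ha, Finset.prod_insert ha, ← ih h1]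
    refine coeff_mul_add_eq_of_natDegree_le (h a (Finset.mem_insert_self a s)) ?_
    exact (natDegree_prod_le s f).trans (Finset.sum_le_sum h1)

private theorem det_distinct {K : Type*} [Field K] [CharZero K] {L : ℕ} (G : Fin L → K[X])
    (h0 : ∀ k, G k ≠ 0) (hi : Function.Injective fun k => (G k).natDegree) :
    (Matrix.of fun l k : Fin L => thet (l : ℕ) (G k)).det ≠ 0 := by
  intro hd
  have h1 := congrArg (fun P : K[X] => P.coeff (∑ k, (G k).natDegree)) hd
  simp only [coeff_zero] at h1
  rw [Matrix.det_apply, finsetSum_coeff] at h1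
  have h2 : (Matrix.of fun l k : Fin L => (G k).leadingCoeff *
      (Matrix.vandermonde (fun k => (((G k).natDegree : ℕ) : K))).transpose l k).det = 0 := by
    rw [Matrix.det_apply, ← h1]
    refine Finset.sum_congr rfl fun σ _ => ?_
    rw [Units.smul_def, Units.smul_def, coeff_smul]
    congr 1
    rw [coeff_prod_le Finset.univ _ _ (fun k _ => by
      rw [Matrix.of_apply]
      exact natDegree_thet_le _ _)]
    refine Finset.prod_congr rfl fun k _ => ?_
    rw [Matrix.of_apply, Matrix.of_apply, coeff_thet, Matrix.transpose_apply,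
      Matrix.vandermonde_apply]
    rfl
  rw [Matrix.det_mul_row, Matrix.det_transpose] at h2
  rcases mul_eq_zero.1 h2 with h3 | h3
  · obtain ⟨k, -, hk⟩ := Finset.prod_eq_zero_iff.1 h3
    exact h0 k (leadingCoeff_eq_zero.1 hk)
  · refine Matrix.det_vandermonde_ne_zero_iff.2 ?_ h3
    intro a b hab
    exact hi (Nat.cast_injective hab)

theorem det_thet_ne_zero {K : Type*} [Field K] [CharZero K] {L : ℕ} (F : Fin L → K[X])
    (h : LinearIndependent K F) :
    (Matrix.of fun l k : Fin L => thet (l : ℕ) (F k)).det ≠ 0 := by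
  obtain ⟨T, hT0, hTi⟩ := exists_distinct F h
  intro hd
  apply det_distinct (fun k => ∑ j, C (T k j) * F j) hT0 hTi
  have h1 : (Matrix.of fun l k : Fin L => thet (l : ℕ) (∑ j, C (T k j) * F j)) =
      (Matrix.of fun l k : Fin L => thet (l : ℕ) (F k)) *
        (Matrix.of fun j k : Fin L => C (T k j)) := by
    ext1 l k
    rw [Matrix.mul_apply, Matrix.of_apply, thet_comb]
    rfl
  rw [h1, Matrix.det_mul, hd, zero_mul]

end Pool.Agent.NLG
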