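import Pool.Agent.NLG.Thet

/-!
NLG-Mult: a high order zero of a combination forces a high order zero of the Wronskian.

PLAN.  Φ = ∑ k, C (γ k) * F k.  Hypothesis: ∑ (k, e) γ_k c_{k,e} v^e e^m = 0 for all m < M, hence for
every polynomial f(e) of degree < M instead of e^m.  The m-th Hasse derivative of Φ at v is
∑ γ c choose(e, m) v^(e-m) = v^(-m) ∑ γ c v^e choose(e,m) = 0 for m < M (choose(e,m) is a polynomial in
e of degree m: descPochhammer / m!), v ≠ 0; so (X - v)^M ∣ Φ (all Taylor coefficients below M vanish: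
Polynomial.taylor, or hasseDeriv criteria).  thet 1 F = X F', so (X-v)^(M-l) ∣ thet l Φ (induction:
thet (l+1) = thet 1 (thet l), derivative lemma pow_sub_one_dvd_derivative_of_pow_dvd).  Replace the
column k0 of the matrix by ∑ k γ_k (column k) = (thet l Φ)_l: the determinant is multiplied by
C (γ k0) (Matrix.det_updateCol_sum or det_updateCol_add_smul..); expand along this column (or: each
product in det_apply contains the factor thet l Φ with l ≤ L - 1): divisible by (X-v)^(M-(L-1)).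
M + 1 - L in ℕ (L ≥ 1 because k0 : Fin L); if M + 1 < L the statement is trivial.
dvd_of_comp: write W = (X - C (v^q))^r * W1 with W1(v^q) ≠ 0 (W ≠ 0; rootMultiplicity); then
X^S W(X^q) = X^S (X^q - C (v^q))^r W1(X^q), v is a simple root of X^q - v^q (derivative q v^(q-1) ≠ 0),
not a root of X^S W1(X^q); so the multiplicity of v is r, m ≤ r.
-/

namespace Pool.Agent.NLG

open Finset Polynomial

private theorem mu_coeff {R : Type*} [CommRing R] (l : ℕ) (F : R[X]) (e : ℕ) :
    (thet l F).coeff e = F.coeff e * (e : R) ^ l := by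
  unfold thet
  rw [Polynomial.sum_def, finsetSum_coeff]
  simp only [coeff_monomial]
  rw [Finset.sum_ite_eq']
  split_ifs with h
  · rfl
  · rw [notMem_support_iff.1 h, zero_mul]

private theorem mu_zero {R : Type*} [CommRing R] (F : R[X]) : thet 0 F = F := by
  ext e
  rw [mu_coeff, pow_zero, mul_one]

private theorem mu_thet {R : Type*} [CommRing R] (l m : ℕ) (F : R[X]) :
    thet m (thet l F) = thet (m + l) F := by
  ext e
  rw [mu_coeff, mu_coeff, mu_coeff, pow_add]
  ring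

private theorem mu_one {R : Type*} [CommRing R] (F : R[X]) : thet 1 F = X * derivative F := by
  ext e
  rw [mu_coeff]
  rcases e with _ | e
  · simp
  · rw [coeff_X_mul, coeff_derivative]
    push_cast
    ring

private theorem mu_sum {R : Type*} [CommRing R] {L : ℕ} (l : ℕ) (F : Fin L → R[X]) (γ : Fin L → R) :
    thet l (∑ k, C (γ k) * F k) = ∑ k, C (γ k) * thet l (F k) := by
  ext e
  rw [mu_coeff, finsetSum_coeff, finsetSum_coeff, Finset.sum_mul]
  refine Finset.sum_congr rfl fun k _ => ?_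
  rw [coeff_C_mul, coeff_C_mul, mu_coeff]
  ring

private theorem mu_eval {R : Type*} [CommRing R] (l : ℕ) (F : R[X]) (v : R) :
    (thet l F).eval v = F.sum (fun e c => c * v ^ e * (e : R) ^ l) := by
  unfold thet
  rw [Polynomial.sum_def, Polynomial.sum_def, eval_finsetSum]
  refine Finset.sum_congr rfl fun e _ => ?_
  rw [eval_monomial]
  ring

private theorem mu_root {v : ℂ} (hv : v ≠ 0) (M : ℕ) : ∀ Φ : ℂ[X],
    (∀ m < M, (thet m Φ).eval v = 0) → (X - C v) ^ M ∣ Φ := by
  induction M with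
  | zero =>
    intro Φ _
    rw [pow_zero]
    exact one_dvd _
  | succ M ih =>
    intro Φ h
    by_cases hΦ : Φ = 0
    · rw [hΦ]
      exact dvd_zero _
    have h0 : Φ.IsRoot v := by
      have := h 0 (Nat.succ_pos M)
      rwa [mu_zero] at this
    have h1 : (X - C v) ^ M ∣ X * derivative Φ := by
      rw [← mu_one]
      refine ih _ fun m hm => ?_
      rw [mu_thet]
      exact h (m + 1) (Nat.succ_lt_succ hm)
    have hX : ¬ (X - C v) ∣ (X : ℂ[X]) := by
      rw [dvd_iff_isRoot, IsRoot.def, eval_X]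
      exact hv
    have h2 : (X - C v) ^ M ∣ derivative Φ :=
      (prime_X_sub_C v).pow_dvd_of_dvd_mul_left M hX h1
    have hd : derivative Φ ≠ 0 := by
      intro hd
      have h3 := derivative_eq_zero.1 hd
      rw [eq_C_of_natDegree_eq_zero h3] at h0 hΦ
      rw [IsRoot.def, eval_C] at h0
      rw [h0, C_0] at hΦ
      exact hΦ rfl
    have h3 : M ≤ (derivative Φ).rootMultiplicity v := (le_rootMultiplicity_iff hd).2 h2
    rw [derivative_rootMultiplicity_of_root h0] at h3
    have h4 : 0 < Φ.rootMultiplicity v := (rootMultiplicity_pos hΦ).2 h0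
    exact (le_rootMultiplicity_iff hΦ).1 (by omega)

private theorem mu_dvd {v : ℂ} {M : ℕ} {Φ : ℂ[X]} (h : (X - C v) ^ M ∣ Φ) (l : ℕ) :
    (X - C v) ^ (M - l) ∣ thet l Φ := by
  induction l with
  | zero => rwa [mu_zero, Nat.sub_zero]
  | succ l ih =>
    have h1 : thet (l + 1) Φ = X * derivative (thet l Φ) := by
      rw [← mu_one, mu_thet, Nat.add_comm]
    rw [h1]
    have h2 := pow_sub_one_dvd_derivative_of_pow_dvd ih
    rw [Nat.sub_sub] at h2
    exact Dvd.dvd.mul_left h2 X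

theorem dvd_det {L M : ℕ} (F : Fin L → ℂ[X]) (γ : Fin L → ℂ) {k0 : Fin L} (hk0 : γ k0 ≠ 0)
    {v : ℂ} (hv : v ≠ 0)
    (h : ∀ m < M, ∑ k, γ k * (F k).sum (fun e c => c * v ^ e * (e : ℂ) ^ m) = 0) :
    (X - C v) ^ (M + 1 - L) ∣ (Matrix.of fun l k : Fin L => thet (l : ℕ) (F k)).det := by
  set Φ : ℂ[X] := ∑ k, C (γ k) * F k with hΦ
  have h1 : (X - C v) ^ M ∣ Φ := by
    refine mu_root hv M Φ fun m hm => ?_
    rw [hΦ, mu_sum, eval_finsetSum]
    rw [← h m hm]
    refine Finset.sum_congr rfl fun k _ => ?_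
    rw [eval_mul, eval_C, mu_eval]
  have h2 : ∀ l : Fin L, (X - C v) ^ (M + 1 - L) ∣ thet (l : ℕ) Φ := by
    intro l
    refine dvd_trans (pow_dvd_pow _ ?_) (mu_dvd h1 (l : ℕ))
    have := l.2
    omega
  choose w hw using h2
  set A : Matrix (Fin L) (Fin L) ℂ[X] := Matrix.of fun l k : Fin L => thet (l : ℕ) (F k) with hA
  have h3 := Matrix.det_updateCol_sum A k0 (fun k => C (γ k))
  have h4 : (fun l : Fin L => ∑ k, (C (γ k) : ℂ[X]) • A l k) = ((X - C v) ^ (M + 1 - L)) • w := by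
    funext l
    rw [Pi.smul_apply, smul_eq_mul, ← hw l, hΦ, mu_sum]
    rfl
  rw [h4, Matrix.det_updateCol_smul, smul_eq_mul] at h3
  have h5 : (X - C v) ^ (M + 1 - L) ∣ C (γ k0) * A.det := ⟨_, h3.symm⟩
  have hu : IsUnit (C (γ k0) : ℂ[X]) := isUnit_C.2 (isUnit_iff_ne_zero.2 hk0)
  exact (hu.dvd_mul_left).1 h5

theorem dvd_of_comp {q S m : ℕ} (hq : 1 ≤ q) {v : ℂ} (hv : v ≠ 0) {W : ℂ[X]}
    (h : (X - C v) ^ m ∣ X ^ S * W.comp (X ^ q)) : (X - C (v ^ q)) ^ m ∣ W := by
  by_cases hW : W = 0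
  · rw [hW]
    exact dvd_zero _
  have hX : ¬ (X - C v) ∣ (X ^ S : ℂ[X]) := by
    rw [dvd_iff_isRoot, IsRoot.def, eval_pow, eval_X]
    exact pow_ne_zero _ hv
  have h1 : (X - C v) ^ m ∣ W.comp (X ^ q) :=
    (prime_X_sub_C v).pow_dvd_of_dvd_mul_left m hX h
  obtain ⟨W1, hW1, hnd⟩ := exists_eq_pow_rootMultiplicity_mul_and_not_dvd W hW (v ^ q)
  set r := W.rootMultiplicity (v ^ q) with hr
  obtain ⟨U, hU⟩ : (X - C v) ∣ (X ^ q - C (v ^ q) : ℂ[X]) := by
    rw [dvd_iff_isRoot, IsRoot.def]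
    simp
  have hUv : U.eval v ≠ 0 := by
    have h2 := congrArg (fun p : ℂ[X] => (derivative p).eval v) hU
    simp only [derivative_sub, derivative_C, derivative_X_pow, derivative_mul, derivative_X,
      sub_zero, eval_add, eval_mul, eval_sub, eval_X, eval_C, eval_pow, one_mul, sub_self,
      zero_mul, add_zero] at h2
    rw [← h2]
    exact mul_ne_zero (Nat.cast_ne_zero.2 (by omega)) (pow_ne_zero _ hv)
  by_cases hmr : m ≤ r
  · rw [hW1]
    exact dvd_mul_of_dvd_left (pow_dvd_pow _ hmr) _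
  · exfalso
    have h2 : W.comp (X ^ q) = (X - C v) ^ r * (U ^ r * W1.comp (X ^ q)) := by
      conv_lhs => rw [hW1]
      rw [mul_comp, pow_comp, sub_comp, X_comp, C_comp, hU, mul_pow, mul_assoc]
    rw [h2] at h1
    have h3 : (X - C v) ^ (r + 1) ∣ (X - C v) ^ r * (U ^ r * W1.comp (X ^ q)) :=
      dvd_trans (pow_dvd_pow _ (by omega)) h1
    rw [pow_succ] at h3
    have h4 : (X - C v) ∣ U ^ r * W1.comp (X ^ q) :=
      (mul_dvd_mul_iff_left (pow_ne_zero _ (X_sub_C_ne_zero v))).1 h3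
    rw [dvd_iff_isRoot, IsRoot.def, eval_mul, eval_pow, eval_comp, eval_pow, eval_X] at h4
    rcases mul_eq_zero.1 h4 with h5 | h5
    · exact pow_ne_zero r hUv h5
    · exact hnd (dvd_iff_isRoot.2 h5)

end Pool.Agent.NLG
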