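import Pool.Agent.NL.Pade
import Pool.Agent.NL.Defs

/-!
NLG-FixB: for a fixed base x and a fixed exponent q ≥ 3 there are only finitely many solutions.

PLAN (Thue, with one solution as anchor).  Suppose infinitely many n with y^q = rep x n.  Then for some
residue r infinitely many n = r mod q.  Take n1 < n2 both = r mod q, n1 as large as we like, then n2
≥ 12 n1.  X1 = x^n1, X2 = x^n2.  (x-1) y_i^q = X_i - 1.  Put k = (n2-n1)/q,
so (y2/(y1 x^k))^q = (1 - 1/X2)/(1 - 1/X1) ; write g(X) = (1 - 1/X)^(1/q): y2 g(X1) = y1 x^k g(X2).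
pade_exists q: C, a, b : |b N X| ≤ C^(N+1) X^N, |a N X - g(X) b N X| ≤ C^(N+1)/X^(N+1),
a N X b (N+1) X ≠ a (N+1) X b N X.  Use X = X1: Δ = a N X1 * y2 - b N X1 * y1 x^k =
(a - g b) y2 + b (g(X1) y2 - y1 x^k), |g(X1) y2 - y1 x^k| = y1 x^k |g(X2) - 1| ≤ y1 x^k / X2.  With
y_i ≤ X_i^(1/q) and y1 x^k ≤ 2 y2: |Δ| ≤ C^(N+1) X1^(-N-1) X2^(1/q) + 2 C^(N+1) X1^N X2^(1/q-1).
Take n2 ≥ 12 n1, ξ = n2/n1 (X2 = X1^ξ) and N = n2 / (2 n1) (natural division), so N ≤ ξ/2 < N + 1: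
the first exponent of X1 is ≤ -ξ/2 + ξ/3 = -ξ/6, the second, for N and for N + 1, is
≤ ξ/2 + 1 - 2ξ/3 = 1 - ξ/6 ≤ -ξ/12; and C^(N+2) ≤ C^ξ < X1^(ξ/12)/4 as soon as X1^(1/12) > 4 C.
So Δ = 0 for N and for N+1, which contradicts the independence (y2 ≠ 0): same end as in
NL/FixedOne.lean (fixed_one).
-/

namespace Pool.Agent.NLG

open Finset

private theorem FixB_rep {q x n y : ℕ} (h : y ^ q = NL.rep x n) :
    (y : ℝ) ^ q * ((x : ℝ) - 1) = (x : ℝ) ^ n - 1 := by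
  have h1 := NL.rep_mul_int x n
  rw [← h] at h1
  have h2 : (((y ^ q : ℕ) : ℤ) : ℝ) * (((x : ℤ) : ℝ) - 1) = ((x : ℤ) : ℝ) ^ n - 1 := by
    exact_mod_cast h1
  push_cast at h2
  exact h2

/-- The real estimate for one index `N`. -/
private theorem FixB_zero {q x n1 n2 k N : ℕ} {D : ℝ} (hq : 3 ≤ q) (hx : 2 ≤ x) (hn1 : 1 ≤ n1)
    (hk : n2 = n1 + q * k) {y1 y2 : ℕ} (h1 : y1 ^ q = NL.rep x n1) (h2 : y2 ^ q = NL.rep x n2)
    (hD : 4 ≤ D) (hi : 8 * D ^ (3 * N + 3) * (x : ℝ) ^ n2 ≤ ((x : ℝ) ^ n1) ^ (3 * N + 3))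
    (hii : 64 * D ^ (3 * N + 3) * ((x : ℝ) ^ n1) ^ (3 * N) ≤ ((x : ℝ) ^ n2) ^ 2) {a b : ℤ}
    (hb : |(b : ℝ)| ≤ D ^ (N + 1) * ((x : ℝ) ^ n1) ^ N)
    (hab : |(a : ℝ) - (1 - 1 / ((x : ℝ) ^ n1)) ^ ((1 : ℝ) / q) * (b : ℝ)| ≤
        D ^ (N + 1) / ((x : ℝ) ^ n1) ^ (N + 1)) : a * y2 = b * (y1 * (x : ℤ) ^ k) := by
  have hX2 : (2 : ℝ) ≤ x := by exact_mod_cast hx
  have hD0 : (0 : ℝ) < D := by linarith
  have hq0 : q ≠ 0 := by omega
  set X1 : ℝ := (x : ℝ) ^ n1 with hX1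
  set X2 : ℝ := (x : ℝ) ^ n2 with hX2'
  have hX1p : 0 < X1 := by positivity
  have hX2p : 0 < X2 := by positivity
  have hX12 : 2 ≤ X1 := by
    have : (x : ℝ) ^ 1 ≤ X1 := pow_le_pow_right₀ (by linarith) hn1
    rw [pow_one] at this
    linarith
  have hX22 : 2 ≤ X2 := by
    have : (x : ℝ) ^ 1 ≤ X2 := pow_le_pow_right₀ (by linarith) (by omega)
    rw [pow_one] at this
    linarith
  set g1 : ℝ := (1 - 1 / X1) ^ ((1 : ℝ) / q) with hg1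
  set g2 : ℝ := (1 - 1 / X2) ^ ((1 : ℝ) / q) with hg2
  have hi1 : 1 / X1 ≤ 1 / 2 := one_div_le_one_div_of_le (by norm_num) hX12
  have hi2 : 1 / X2 ≤ 1 / 2 := one_div_le_one_div_of_le (by norm_num) hX22
  have hi1p : 0 < 1 / X1 := by positivity
  have hi2p : 0 < 1 / X2 := by positivity
  have hb1 : 0 ≤ 1 - 1 / X1 := by linarith
  have hb2 : 0 ≤ 1 - 1 / X2 := by linarith
  have hg10 : 0 ≤ g1 := Real.rpow_nonneg hb1 _
  have hg20 : 0 ≤ g2 := Real.rpow_nonneg hb2 _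
  have hinv : (1 : ℝ) / q = (q : ℝ)⁻¹ := one_div _
  have hg1q : g1 ^ q = 1 - 1 / X1 := by rw [hg1, hinv, Real.rpow_inv_natCast_pow hb1 hq0]
  have hg2q : g2 ^ q = 1 - 1 / X2 := by rw [hg2, hinv, Real.rpow_inv_natCast_pow hb2 hq0]
  have hg1le : g1 ≤ 1 := by
    refine le_of_pow_le_pow_left₀ hq0 zero_le_one ?_
    rw [hg1q, one_pow]
    linarith
  have hg2le : g2 ≤ 1 := by
    refine le_of_pow_le_pow_left₀ hq0 zero_le_one ?_
    rw [hg2q, one_pow]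
    linarith
  have hg2ge : 1 - 1 / X2 ≤ g2 := by
    refine le_of_pow_le_pow_left₀ hq0 hg20 ?_
    rw [hg2q]
    exact pow_le_of_le_one hb2 (by linarith) hq0
  have hy1 : (0 : ℝ) ≤ y1 := Nat.cast_nonneg y1
  have hy2 : (0 : ℝ) ≤ y2 := Nat.cast_nonneg y2
  have hr1 := FixB_rep h1
  have hr2 := FixB_rep h2
  have hxm : (0 : ℝ) < (x : ℝ) - 1 := by linarith
  have hXk : X2 = X1 * ((x : ℝ) ^ k) ^ q := by
    rw [hX2', hk, pow_add, hX1, ← pow_mul, mul_comm q k]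
  -- the two products agree
  have heq : (y2 : ℝ) * g1 = y1 * (x : ℝ) ^ k * g2 := by
    have h3 : ((y2 : ℝ) * g1) ^ q = ((y1 : ℝ) * (x : ℝ) ^ k * g2) ^ q := by
      have e1 : ((y2 : ℝ) * g1) ^ q * ((x : ℝ) - 1) = (X2 - 1) * (1 - 1 / X1) := by
        rw [mul_pow, hg1q, ← hr2]; ring
      have e2 : ((y1 : ℝ) * (x : ℝ) ^ k * g2) ^ q * ((x : ℝ) - 1) =
          (X1 - 1) * ((x : ℝ) ^ k) ^ q * (1 - 1 / X2) := by
        rw [mul_pow, mul_pow, hg2q, ← hr1]; ring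
      have e3 : (X2 - 1) * (1 - 1 / X1) = (X1 - 1) * ((x : ℝ) ^ k) ^ q * (1 - 1 / X2) := by
        have e4 : ((x : ℝ) ^ k) ^ q = X2 / X1 := by rw [hXk]; field_simp
        rw [e4]
        field_simp
      have e5 : ((y2 : ℝ) * g1) ^ q * ((x : ℝ) - 1) =
          ((y1 : ℝ) * (x : ℝ) ^ k * g2) ^ q * ((x : ℝ) - 1) := by rw [e1, e2, e3]
      exact mul_right_cancel₀ hxm.ne' e5
    exact (pow_left_inj₀ (mul_nonneg hy2 hg10) (by positivity) hq0).1 h3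
  set Y : ℝ := (y1 : ℝ) * (x : ℝ) ^ k with hY
  have hY0 : 0 ≤ Y := by positivity
  have hY2 : Y ≤ 2 * y2 := by
    have h3 : (1 / 2 : ℝ) ≤ g2 := by linarith
    have h4 : Y * (1 / 2) ≤ Y * g2 := mul_le_mul_of_nonneg_left h3 hY0
    have h5 : (y2 : ℝ) * g1 ≤ y2 * 1 := mul_le_mul_of_nonneg_left hg1le hy2
    linarith
  have hdiff : |(y2 : ℝ) * g1 - Y| ≤ 2 * y2 / X2 := by
    have h3 : (y2 : ℝ) * g1 - Y = -(Y * (1 - g2)) := by rw [heq]; ring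
    rw [h3, abs_neg, abs_of_nonneg (mul_nonneg hY0 (by linarith))]
    have h4 : Y * (1 - g2) ≤ (2 * y2) * (1 / X2) :=
      mul_le_mul hY2 (by linarith) (by linarith) (by linarith)
    rw [mul_one_div] at h4
    exact h4
  -- size of `y2`
  have hcube : (y2 : ℝ) ^ 3 < X2 := by
    have h3 : (y2 : ℝ) ^ q < X2 := by
      have h4 : (y2 : ℝ) ^ q * 1 ≤ (y2 : ℝ) ^ q * ((x : ℝ) - 1) :=
        mul_le_mul_of_nonneg_left (by linarith) (by positivity)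
      rw [hr2] at h4
      linarith
    rcases Nat.eq_zero_or_pos y2 with h0 | h0
    · rw [h0]
      simpa using hX2p
    · have h4 : (1 : ℝ) ≤ y2 := by exact_mod_cast h0
      exact lt_of_le_of_lt (pow_le_pow_right₀ h4 hq) h3
  have hA : 2 * D ^ (N + 1) * y2 < X1 ^ (N + 1) := by
    refine lt_of_pow_lt_pow_left₀ 3 (by positivity) ?_
    have h3 : (2 * D ^ (N + 1) * (y2 : ℝ)) ^ 3 = 8 * D ^ (3 * N + 3) * (y2 : ℝ) ^ 3 := by
      have e1 : 3 * N + 3 = (N + 1) * 3 := by ring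
      rw [mul_pow, mul_pow, e1, pow_mul]
      norm_num
    have h4 : (X1 ^ (N + 1)) ^ 3 = X1 ^ (3 * N + 3) := by
      rw [← pow_mul]; congr 1; ring
    rw [h3, h4]
    exact lt_of_lt_of_le (mul_lt_mul_of_pos_left hcube (by positivity)) hi
  have hB : 4 * D ^ (N + 1) * X1 ^ N * y2 < X2 := by
    refine lt_of_pow_lt_pow_left₀ 3 (by positivity) ?_
    have h3 : (4 * D ^ (N + 1) * X1 ^ N * (y2 : ℝ)) ^ 3 =
        64 * D ^ (3 * N + 3) * X1 ^ (3 * N) * (y2 : ℝ) ^ 3 := by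
      have e1 : 3 * N + 3 = (N + 1) * 3 := by ring
      have e2 : 3 * N = N * 3 := by ring
      rw [mul_pow, mul_pow, mul_pow, e1, e2, pow_mul, pow_mul]
      norm_num
    rw [h3]
    have h5 : 64 * D ^ (3 * N + 3) * X1 ^ (3 * N) * (y2 : ℝ) ^ 3 < X2 ^ 2 * X2 := by
      refine lt_of_lt_of_le (mul_lt_mul_of_pos_left hcube (by positivity)) ?_
      exact mul_le_mul_of_nonneg_right hii hX2p.le
    calc _ < X2 ^ 2 * X2 := h5
      _ = X2 ^ 3 := by ring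
  have hT1 : |(y2 : ℝ) * ((a : ℝ) - g1 * b)| < 1 / 2 := by
    rw [abs_mul, abs_of_nonneg hy2]
    have h3 : (y2 : ℝ) * |(a : ℝ) - g1 * b| ≤ y2 * (D ^ (N + 1) / X1 ^ (N + 1)) :=
      mul_le_mul_of_nonneg_left hab hy2
    have h4 : (y2 : ℝ) * (D ^ (N + 1) / X1 ^ (N + 1)) = (D ^ (N + 1) * y2) / X1 ^ (N + 1) := by ring
    have h5 : (D ^ (N + 1) * y2) / X1 ^ (N + 1) < 1 / 2 := by
      rw [div_lt_iff₀ (by positivity)]
      linarith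
    linarith
  have hT2 : |(b : ℝ) * ((y2 : ℝ) * g1 - Y)| < 1 / 2 := by
    rw [abs_mul]
    have h3 : |(b : ℝ)| * |(y2 : ℝ) * g1 - Y| ≤ (D ^ (N + 1) * X1 ^ N) * (2 * y2 / X2) :=
      mul_le_mul hb hdiff (abs_nonneg _) (by positivity)
    have h4 : (D ^ (N + 1) * X1 ^ N) * (2 * y2 / X2) = (2 * D ^ (N + 1) * X1 ^ N * y2) / X2 := by ring
    have h5 : (2 * D ^ (N + 1) * X1 ^ N * y2) / X2 < 1 / 2 := by
      rw [div_lt_iff₀ hX2p]
      linarith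
    linarith
  have hDl : |((a * y2 - b * (y1 * (x : ℤ) ^ k) : ℤ) : ℝ)| < 1 := by
    push_cast
    have h3 : (a : ℝ) * y2 - b * (y1 * (x : ℝ) ^ k) =
        (y2 : ℝ) * ((a : ℝ) - g1 * b) + (b : ℝ) * ((y2 : ℝ) * g1 - Y) := by
      rw [hY]; ring
    rw [h3]
    have h4 := abs_add_le ((y2 : ℝ) * ((a : ℝ) - g1 * b)) ((b : ℝ) * ((y2 : ℝ) * g1 - Y))
    linarith
  have hD2 : |a * y2 - b * (y1 * (x : ℤ) ^ k)| < 1 := by exact_mod_cast hDl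
  have hD3 := Int.abs_lt_one_iff.1 hD2
  linarith

theorem fixed_base {q x : ℕ} (hq : 3 ≤ q) (hx : 2 ≤ x) :
    {n : ℕ | ∃ y : ℕ, y ^ q = NL.rep x n}.Finite := by
  by_contra hfin
  obtain ⟨C, hC1, a, b, hab, hind⟩ := NL.pade_exists q (by omega)
  set D : ℝ := max C 4 with hD
  have hCD : C ≤ D := le_max_left _ _
  have hD4 : 4 ≤ D := le_max_right _ _
  -- a residue class with infinitely many solutions
  obtain ⟨r, hr⟩ : ∃ r : ℕ, ({n : ℕ | ∃ y : ℕ, y ^ q = NL.rep x n} ∩ {n | n % q = r}).Infinite := by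
    by_contra hcon
    push Not at hcon
    apply hfin
    refine ((Set.finite_lt_nat q).biUnion fun r _ => hcon r).subset ?_
    intro n hn
    simp only [Set.mem_iUnion]
    exact ⟨n % q, Nat.mod_lt _ (by omega), hn, rfl⟩
  have hx2 : (2 : ℝ) ≤ x := by exact_mod_cast hx
  have hx1 : (1 : ℝ) ≤ x := by linarith
  obtain ⟨m, hm⟩ : ∃ m : ℕ, D ^ 9 ≤ (x : ℝ) ^ m := by
    obtain ⟨m, hm⟩ := pow_unbounded_of_one_lt (D ^ 9) (by linarith : (1 : ℝ) < x)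
    exact ⟨m, hm.le⟩
  obtain ⟨n1, ⟨⟨y1, hy1⟩, hn1r⟩, hn1⟩ := hr.exists_gt m
  obtain ⟨n2, ⟨⟨y2, hy2⟩, hn2r⟩, hn2⟩ := hr.exists_gt (12 * n1)
  have hn1r : n1 % q = r := hn1r
  have hn2r : n2 % q = r := hn2r
  obtain ⟨k, hk⟩ : ∃ k, n2 = n1 + q * k := by
    have h1 := Nat.div_add_mod n1 q
    have h2 := Nat.div_add_mod n2 q
    refine ⟨n2 / q - n1 / q, ?_⟩
    have h3 : n1 / q ≤ n2 / q := Nat.div_le_div_right (by omega)
    rw [Nat.mul_sub]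
    have h4 : q * (n1 / q) ≤ q * (n2 / q) := Nat.mul_le_mul_left _ h3
    omega
  have hn1p : 1 ≤ n1 := by omega
  set X1 : ℝ := (x : ℝ) ^ n1 with hX1
  have hX1D : D ^ 9 ≤ X1 := hm.trans (pow_le_pow_right₀ hx1 hn1.le)
  have hX10 : 0 < X1 := by positivity
  have hD0 : 0 < D := by linarith
  have hD1 : 1 ≤ D := by linarith
  have hX11 : 1 ≤ X1 := le_trans (one_le_pow₀ hD1) hX1D
  set N0 : ℕ := n2 / (2 * n1) with hN0
  have hN06 : 6 ≤ N0 := by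
    rw [hN0, Nat.le_div_iff_mul_le (by omega)]
    omega
  have hlow : 2 * n1 * N0 ≤ n2 := Nat.mul_div_le _ _
  have hupp : n2 < 2 * n1 * (N0 + 1) := Nat.lt_mul_div_succ _ (by omega)
  have hXlow : X1 ^ (2 * N0) ≤ (x : ℝ) ^ n2 := by
    rw [hX1, ← pow_mul]
    exact pow_le_pow_right₀ hx1 (by nlinarith)
  have hXupp : (x : ℝ) ^ n2 ≤ X1 ^ (2 * N0 + 2) := by
    rw [hX1, ← pow_mul]
    exact pow_le_pow_right₀ hx1 (by nlinarith)
  have h8 : (8 : ℝ) ≤ D ^ 2 := by nlinarith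
  have h64 : (64 : ℝ) ≤ D ^ 3 := by
    have : (4 : ℝ) ^ 3 ≤ D ^ 3 := pow_le_pow_left₀ (by norm_num) hD4 3
    linarith
  have hpowX : ∀ e : ℕ, D ^ (9 * e) ≤ X1 ^ e := fun e => by
    rw [pow_mul]
    exact pow_le_pow_left₀ (by positivity) hX1D e
  have hI : ∀ N : ℕ, N0 ≤ N → N ≤ N0 + 1 →
      8 * D ^ (3 * N + 3) * (x : ℝ) ^ n2 ≤ X1 ^ (3 * N + 3) := by
    intro N h1 h2
    have e1 : X1 ^ (3 * N + 3) = X1 ^ (3 * N + 1 - 2 * N0) * X1 ^ (2 * N0 + 2) := by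
      rw [← pow_add]; congr 1; omega
    rw [e1]
    refine mul_le_mul ?_ hXupp (by positivity) (by positivity)
    calc 8 * D ^ (3 * N + 3) ≤ D ^ 2 * D ^ (3 * N + 3) := mul_le_mul_of_nonneg_right h8 (by positivity)
      _ = D ^ (2 + (3 * N + 3)) := (pow_add _ _ _).symm
      _ ≤ D ^ (9 * (3 * N + 1 - 2 * N0)) := pow_le_pow_right₀ hD1 (by omega)
      _ ≤ _ := hpowX _
  have hII : ∀ N : ℕ, N0 ≤ N → N ≤ N0 + 1 →
      64 * D ^ (3 * N + 3) * X1 ^ (3 * N) ≤ ((x : ℝ) ^ n2) ^ 2 := by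
    intro N h1 h2
    have e1 : X1 ^ (4 * N0) ≤ ((x : ℝ) ^ n2) ^ 2 := by
      have e2 : X1 ^ (4 * N0) = (X1 ^ (2 * N0)) ^ 2 := by
        rw [← pow_mul X1 (2 * N0) 2]; congr 1; ring
      rw [e2]
      exact pow_le_pow_left₀ (by positivity) hXlow 2
    refine le_trans ?_ e1
    have e3 : X1 ^ (4 * N0) = X1 ^ (4 * N0 - 3 * N) * X1 ^ (3 * N) := by
      rw [← pow_add]; congr 1; omega
    rw [e3]
    refine mul_le_mul_of_nonneg_right ?_ (by positivity)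
    calc 64 * D ^ (3 * N + 3) ≤ D ^ 3 * D ^ (3 * N + 3) := mul_le_mul_of_nonneg_right h64 (by positivity)
      _ = D ^ (3 + (3 * N + 3)) := (pow_add _ _ _).symm
      _ ≤ D ^ (9 * (4 * N0 - 3 * N)) := pow_le_pow_right₀ hD1 (by omega)
      _ ≤ _ := hpowX _
  have hxn : 2 ≤ x ^ n1 := by
    calc 2 ≤ x := hx
      _ = x ^ 1 := (pow_one x).symm
      _ ≤ x ^ n1 := Nat.pow_le_pow_right (by omega) hn1p
  have hcast : ((x ^ n1 : ℕ) : ℝ) = X1 := by rw [hX1]; push_cast; rfl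
  have hpow : ∀ N : ℕ, C ^ (N + 1) ≤ D ^ (N + 1) := fun N =>
    pow_le_pow_left₀ (by linarith) hCD _
  have hb : ∀ N : ℕ, |(b N (x ^ n1) : ℝ)| ≤ D ^ (N + 1) * X1 ^ N := fun N => by
    have h1 := (hab N (x ^ n1) hxn).1
    rw [hcast] at h1
    exact h1.trans (mul_le_mul_of_nonneg_right (hpow N) (by positivity))
  have ha : ∀ N : ℕ, |(a N (x ^ n1) : ℝ) - (1 - 1 / X1) ^ ((1 : ℝ) / q) * (b N (x ^ n1) : ℝ)| ≤
      D ^ (N + 1) / X1 ^ (N + 1) := fun N => by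
    have h1 := (hab N (x ^ n1) hxn).2
    rw [hcast] at h1
    exact h1.trans (div_le_div_of_nonneg_right (hpow N) (by positivity))
  have e0 := FixB_zero (N := N0) hq hx hn1p hk hy1 hy2 hD4 (hI _ le_rfl (by omega))
    (hII _ le_rfl (by omega)) (hb _) (ha _)
  have e1 := FixB_zero (N := N0 + 1) hq hx hn1p hk hy1 hy2 hD4 (hI _ (by omega) le_rfl)
    (hII _ (by omega) le_rfl) (hb _) (ha _)
  have hy : (y2 : ℤ) ≠ 0 := by
    intro h0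
    have h1 : y2 = 0 := by exact_mod_cast h0
    have h2 := NL.rep_pos (x := x) (n := n2) (by omega)
    rw [← hy2, h1, zero_pow (by omega)] at h2
    exact lt_irrefl _ h2
  apply hind N0 (x ^ n1) hxn
  have h3 : (y2 : ℤ) * (a N0 (x ^ n1) * b (N0 + 1) (x ^ n1)) =
      y2 * (a (N0 + 1) (x ^ n1) * b N0 (x ^ n1)) := by
    linear_combination (b (N0 + 1) (x ^ n1)) * e0 - (b N0 (x ^ n1)) * e1
  exact mul_left_cancel₀ hy h3

end Pool.Agent.NLG
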