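import Mathlib

/-!
NLG-Gau: Gauss's lemma for a root of high multiplicity, and the size of a determinant.

PLAN.  gauss: W = (X - C z)^m * V in ℤ[X]; trailing coefficients multiply (Polynomial.trailingCoeff_mul)
and the trailing coefficient of (X - C z)^m is (-z)^m (z ≠ 0), so z^m ∣ trailingCoeff W ≠ 0.
gauss_complex: divisibility by the monic (X - C z)^m over ℂ implies divisibility over ℤ
(Polynomial.map_dvd_map with Int.castRingHom ℂ injective, monic).
det_coeff_le: det_apply, L! products; each coefficient of a product of L polynomials with at most R+1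
coefficients ≤ E is ≤ (R+1)^L E^L (induction with coeff_mul, or: |coefficient| ≤ product of the sums of
the absolute values of the coefficients).
-/

namespace Pool.Agent.NLG

open Finset Polynomial

private lemma gauss_trailing_lin {z : ℤ} (hz : z ≠ 0) :
    (X - C z : ℤ[X]).trailingCoeff = -z := by
  have h0 : (X - C z : ℤ[X]).coeff 0 = -z := by simp
  have h1 : (X - C z : ℤ[X]).natTrailingDegree = 0 := by
    apply natTrailingDegree_eq_zero_of_constantCoeff_ne_zero
    rw [constantCoeff_apply, h0]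
    exact neg_ne_zero.mpr hz
  rw [trailingCoeff, h1, h0]

private lemma gauss_trailing_pow {z : ℤ} (hz : z ≠ 0) (m : ℕ) :
    ((X - C z : ℤ[X]) ^ m).trailingCoeff = (-z) ^ m := by
  induction m with
  | zero =>
    rw [pow_zero, pow_zero, ← C_1, ← monomial_zero_left, trailingCoeff, natTrailingDegree_monomial one_ne_zero,
      coeff_monomial, if_pos rfl]
  | succ m ih =>
    rw [pow_succ, trailingCoeff_mul, ih, gauss_trailing_lin hz, pow_succ]

theorem gauss {W : ℤ[X]} (hW : W ≠ 0) {z : ℤ} (hz : z ≠ 0) {m : ℕ} (h : (X - C z) ^ m ∣ W)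
    {K : ℤ} (hK : ∀ d, |W.coeff d| ≤ K) : |z| ^ m ≤ K := by
  obtain ⟨V, rfl⟩ := h
  have hV : V ≠ 0 := by
    rintro rfl
    exact hW (mul_zero _)
  have h1 : (((X - C z : ℤ[X]) ^ m) * V).trailingCoeff = (-z) ^ m * V.trailingCoeff := by
    rw [trailingCoeff_mul, gauss_trailing_pow hz]
  have h2 : V.trailingCoeff ≠ 0 := trailingCoeff_nonzero_iff_nonzero.mpr hV
  have h3 : (1 : ℤ) ≤ |V.trailingCoeff| := Int.one_le_abs h2
  have h4 := hK (((X - C z : ℤ[X]) ^ m) * V).natTrailingDegree
  have h5 : (((X - C z : ℤ[X]) ^ m) * V).coeff (((X - C z : ℤ[X]) ^ m) * V).natTrailingDegree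
      = (-z) ^ m * V.trailingCoeff := h1
  rw [h5, abs_mul, abs_pow, abs_neg] at h4
  have h6 : |z| ^ m * 1 ≤ |z| ^ m * |V.trailingCoeff| :=
    mul_le_mul_of_nonneg_left h3 (pow_nonneg (abs_nonneg z) m)
  rw [mul_one] at h6
  exact le_trans h6 h4

theorem dvd_int_of_complex {W : ℤ[X]} {z : ℤ} {m : ℕ}
    (h : (X - C (z : ℂ)) ^ m ∣ W.map (Int.castRingHom ℂ)) : (X - C z) ^ m ∣ W := by
  have hinj : Function.Injective (Int.castRingHom ℂ) := RingHom.injective_int _
  have hm : ((X - C z : ℤ[X]) ^ m).Monic := (monic_X_sub_C z).pow m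
  have he : ((X - C z : ℤ[X]) ^ m).map (Int.castRingHom ℂ) = (X - C (z : ℂ)) ^ m := by
    simp
  rw [← he] at h
  exact (map_dvd_map (Int.castRingHom ℂ) hinj hm).mp h

private lemma coeff_mul_le {R : ℕ} {E B : ℤ} (hE : 0 ≤ E) (hB : 0 ≤ B) (p q : ℤ[X])
    (hdeg : p.natDegree ≤ R) (hp : ∀ d, |p.coeff d| ≤ E) (hq : ∀ d, |q.coeff d| ≤ B) (d : ℕ) :
    |(p * q).coeff d| ≤ (((R : ℤ) + 1) * E) * B := by
  have h1 : (p * q).coeff d = ∑ i ∈ range (R + 1), p.coeff i * (if i ≤ d then q.coeff (d - i) else 0) := by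
    rw [coeff_mul, Nat.sum_antidiagonal_eq_sum_range_succ_mk]
    have hA : ∑ k ∈ range d.succ, p.coeff k * q.coeff (d - k)
        = ∑ k ∈ range (d + 1 + (R + 1)), p.coeff k * (if k ≤ d then q.coeff (d - k) else 0) := by
      have hs : range d.succ ⊆ range (d + 1 + (R + 1)) := by
        apply range_subset_range.mpr
        omega
      rw [← sum_subset hs]
      · apply sum_congr rfl
        intro k hk
        have hk' : k ≤ d := by
          have := mem_range.mp hk
          omega
        rw [if_pos hk']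
      · intro k _ hk
        have hk' : ¬ k ≤ d := by
          intro hh
          exact hk (mem_range.mpr (by omega))
        rw [if_neg hk', mul_zero]
    have hBB : ∑ i ∈ range (R + 1), p.coeff i * (if i ≤ d then q.coeff (d - i) else 0)
        = ∑ k ∈ range (d + 1 + (R + 1)), p.coeff k * (if k ≤ d then q.coeff (d - k) else 0) := by
      have hs : range (R + 1) ⊆ range (d + 1 + (R + 1)) := by
        apply range_subset_range.mpr
        omega
      apply sum_subset hs
      intro k _ hk
      have hk' : R < k := by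
        by_contra hh
        exact hk (mem_range.mpr (by omega))
      rw [coeff_eq_zero_of_natDegree_lt (lt_of_le_of_lt hdeg hk'), zero_mul]
    exact hA.trans hBB.symm
  rw [h1]
  calc |∑ i ∈ range (R + 1), p.coeff i * (if i ≤ d then q.coeff (d - i) else 0)|
      ≤ ∑ i ∈ range (R + 1), |p.coeff i * (if i ≤ d then q.coeff (d - i) else 0)| :=
        abs_sum_le_sum_abs _ _
    _ ≤ ∑ i ∈ range (R + 1), E * B := by
        apply sum_le_sum
        intro i _
        rw [abs_mul]
        apply mul_le_mul (hp i) _ (abs_nonneg _) hE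
        split_ifs
        · exact hq _
        · simpa using hB
    _ = (((R : ℤ) + 1) * E) * B := by
        rw [sum_const, card_range, nsmul_eq_mul]
        push_cast
        ring

private lemma coeff_prod_le {ι : Type*} {R : ℕ} {E : ℤ} (hE : 0 ≤ E) (s : Finset ι) (f : ι → ℤ[X])
    (hdeg : ∀ i, (f i).natDegree ≤ R) (hc : ∀ i d, |(f i).coeff d| ≤ E) (d : ℕ) :
    |(∏ i ∈ s, f i).coeff d| ≤ (((R : ℤ) + 1) * E) ^ s.card := by
  classical
  have hR : (0 : ℤ) ≤ (R : ℤ) + 1 := by positivity
  induction s using Finset.induction_on generalizing d with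
  | empty =>
    simp only [prod_empty, card_empty, pow_zero, coeff_one]
    split_ifs <;> simp
  | insert a s ha ih =>
    rw [prod_insert ha, card_insert_of_notMem ha, pow_succ, mul_comm (_ ^ _)]
    exact coeff_mul_le hE (pow_nonneg (mul_nonneg hR hE) _) _ _ (hdeg a) (hc a) ih d

theorem det_coeff_le {L R : ℕ} {E : ℤ} (hE : 0 ≤ E) (M : Matrix (Fin L) (Fin L) ℤ[X])
    (hdeg : ∀ l k, (M l k).natDegree ≤ R) (hc : ∀ l k d, |(M l k).coeff d| ≤ E) (d : ℕ) :
    |M.det.coeff d| ≤ L.factorial * (((R : ℤ) + 1) * E) ^ L := by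
  rw [Matrix.det_apply, finsetSum_coeff]
  calc |∑ σ : Equiv.Perm (Fin L), (Equiv.Perm.sign σ • ∏ i, M (σ i) i).coeff d|
      ≤ ∑ σ : Equiv.Perm (Fin L), |(Equiv.Perm.sign σ • ∏ i, M (σ i) i).coeff d| :=
        abs_sum_le_sum_abs _ _
    _ ≤ ∑ σ : Equiv.Perm (Fin L), (((R : ℤ) + 1) * E) ^ L := by
        apply sum_le_sum
        intro σ _
        have h1 := coeff_prod_le hE (univ : Finset (Fin L)) (fun i => M (σ i) i)
          (fun i => hdeg _ _) (fun i d => hc _ _ d) d
        rw [card_univ, Fintype.card_fin] at h1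
        have h2 : |(Equiv.Perm.sign σ • ∏ i, M (σ i) i).coeff d| = |(∏ i, M (σ i) i).coeff d| := by
          rcases Int.units_eq_one_or (Equiv.Perm.sign σ) with h | h
          · rw [h, one_smul]
          · rw [h, Units.neg_smul, one_smul, coeff_neg, abs_neg]
        rw [h2]
        exact h1
    _ = L.factorial * (((R : ℤ) + 1) * E) ^ L := by
        rw [sum_const, card_univ, Fintype.card_perm, Fintype.card_fin, nsmul_eq_mul]

end Pool.Agent.NLG
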