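import Pool.Agent.NLG.Kap

/-!
NLG-Aux1: the auxiliary polynomials in one variable (only existence, no bound).

PLAN.  Unknowns: pairs (i, a), i < q, a + i n/q ≤ δ n (δ = del q lam), a < A = ⌊δ n⌋₊ + 1: the number U
is at least ∑ i (δ n - i n/q) = q δ n - (q-1) n/2 (count of a: ⌊Z⌋ + 1 > Z).  Rows: (i, s),
1 ≤ i < q, s < lam n: E = (q-1) lam n.  δ = α (lam+1) + 1 with α = √(1-1/q) ≥ 1 - 1/q (because
0 ≤ 1 - 1/q ≤ 1), so q δ ≥ (q-1)(lam+1) + q and q δ - (q-1)/2 > (q-1) lam: U > E.  An integer kernel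
vector exists: Int.Matrix.exists_ne_zero_int_vec_norm_le (forget the bound) or
Matrix.exists_mulVec_eq_zero over ℚ and clear denominators.  p i = ∑ a, t (i,a) X^a; Van1 is the
system A t = 0: entry at (i,a): ∑ β ≤ s/n with a ≤ s - nβ of q^(2a) KZ(-i)(s-nβ-a) KZ i β q^(2nβ-2β),
entry at (0,s): - q^(2s).
-/

namespace Pool.Agent.NLG

open Finset Polynomial

private noncomputable def Aux1_Z (q lam n i : ℕ) : ℝ := del q lam * n - (i : ℝ) * n / q

private abbrev Aux1_U (q lam n : ℕ) : Type := (i : Fin q) × Fin (⌊Aux1_Z q lam n i⌋₊ + 1)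

private noncomputable def Aux1_T {q lam n : ℕ} (t : Aux1_U q lam n → ℤ) (i a : ℕ) : ℤ :=
  if h : i < q ∧ a < ⌊Aux1_Z q lam n i⌋₊ + 1 then t ⟨⟨i, h.1⟩, ⟨a, h.2⟩⟩ else 0

private theorem Aux1_T_add {q lam n : ℕ} (t t' : Aux1_U q lam n → ℤ) (i a : ℕ) :
    Aux1_T (t + t') i a = Aux1_T t i a + Aux1_T t' i a := by
  unfold Aux1_T
  by_cases h : i < q ∧ a < ⌊Aux1_Z q lam n i⌋₊ + 1
  · rw [dif_pos h, dif_pos h, dif_pos h]
    rfl
  · rw [dif_neg h, dif_neg h, dif_neg h, add_zero]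

private theorem Aux1_T_smul {q lam n : ℕ} (c : ℤ) (t : Aux1_U q lam n → ℤ) (i a : ℕ) :
    Aux1_T (c • t) i a = c * Aux1_T t i a := by
  unfold Aux1_T
  by_cases h : i < q ∧ a < ⌊Aux1_Z q lam n i⌋₊ + 1
  · rw [dif_pos h, dif_pos h]
    rfl
  · rw [dif_neg h, dif_neg h, mul_zero]

private noncomputable def Aux1_L (q lam n : ℕ) :
    (Aux1_U q lam n → ℤ) →ₗ[ℤ] (Fin (q - 1) × Fin (lam * n) → ℤ) where
  toFun t r := (∑ β ∈ range ((r.2 : ℕ) / n + 1), ∑ a ∈ range ((r.2 : ℕ) - n * β + 1),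
      Aux1_T t ((r.1 : ℕ) + 1) a * (q : ℤ) ^ (2 * a) *
        KZ q (-(((r.1 : ℕ) + 1 : ℕ) : ℤ)) ((r.2 : ℕ) - n * β - a) *
        (KZ q (((r.1 : ℕ) + 1 : ℕ) : ℤ) β * (q : ℤ) ^ (2 * (n * β) - 2 * β))) -
    Aux1_T t 0 r.2 * (q : ℤ) ^ (2 * (r.2 : ℕ))
  map_add' t t' := by
    funext r
    simp only [Aux1_T_add, add_mul, Finset.sum_add_distrib, Pi.add_apply]
    ring
  map_smul' c t := by
    funext r
    simp only [Aux1_T_smul, Pi.smul_apply, smul_eq_mul, RingHom.id_apply, mul_sub, Finset.mul_sum,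
      mul_assoc]

private theorem Aux1_del {q lam : ℕ} (hq : 2 ≤ q) :
    ((q : ℝ) - 1) * (lam + 1) + q ≤ q * del q lam := by
  have hq0 : (0 : ℝ) < q := by
    have : 0 < q := by omega
    exact_mod_cast this
  have hq1 : (1 : ℝ) ≤ q := by
    have : 1 ≤ q := by omega
    exact_mod_cast this
  have h1 : 0 ≤ 1 - 1 / (q : ℝ) := by
    rw [sub_nonneg, div_le_one hq0]
    exact hq1
  have h2 : 1 - 1 / (q : ℝ) ≤ 1 := by
    have : 0 ≤ 1 / (q : ℝ) := by positivity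
    linarith
  have h3 : 1 - 1 / (q : ℝ) ≤ Real.sqrt (1 - 1 / q) := by
    apply Real.le_sqrt_of_sq_le
    nlinarith
  unfold del
  have h4 : (q : ℝ) * (1 - 1 / q) = q - 1 := by
    field_simp
  have h5 : (0 : ℝ) ≤ (lam : ℝ) + 1 := by positivity
  have h6 : (q : ℝ) * ((1 - 1 / q) * (lam + 1)) ≤ q * (Real.sqrt (1 - 1 / q) * (lam + 1)) :=
    mul_le_mul_of_nonneg_left (mul_le_mul_of_nonneg_right h3 h5) hq0.le
  calc ((q : ℝ) - 1) * (lam + 1) + q = q * ((1 - 1 / q) * (lam + 1)) + q := by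
        rw [← h4]; ring
    _ ≤ q * (Real.sqrt (1 - 1 / q) * (lam + 1)) + q := by linarith
    _ = q * (Real.sqrt (1 - 1 / q) * (lam + 1) + 1) := by ring

private theorem Aux1_Z_nonneg {q lam n i : ℕ} (hq : 2 ≤ q) (hi : i < q) : 0 ≤ Aux1_Z q lam n i := by
  have hq0 : (0 : ℝ) < q := by
    have : 0 < q := by omega
    exact_mod_cast this
  have hd := Aux1_del (lam := lam) hq
  have hq1 : (1 : ℝ) ≤ q := by
    have : 1 ≤ q := by omega
    exact_mod_cast this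
  have h1 : (1 : ℝ) ≤ del q lam := by
    have h2 : (q : ℝ) * 1 ≤ q * del q lam := by
      have h3 : 0 ≤ ((q : ℝ) - 1) * (lam + 1) := mul_nonneg (by linarith) (by positivity)
      linarith
    exact le_of_mul_le_mul_left h2 hq0
  have h4 : (i : ℝ) / q ≤ 1 := by
    rw [div_le_one hq0]
    exact_mod_cast hi.le
  have h5 : (0 : ℝ) ≤ n := by positivity
  unfold Aux1_Z
  have h6 : (i : ℝ) * n / q = (i : ℝ) / q * n := by ring
  rw [h6, ← sub_mul]
  exact mul_nonneg (by linarith) h5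

private theorem Aux1_card {q lam n : ℕ} (hq : 2 ≤ q) (hn : 1 ≤ n) :
    (q - 1) * (lam * n) < Fintype.card (Aux1_U q lam n) := by
  have hq0 : (0 : ℝ) < q := by
    have : 0 < q := by omega
    exact_mod_cast this
  have hq1 : (1 : ℝ) ≤ q := by
    have : 1 ≤ q := by omega
    exact_mod_cast this
  have hn1 : (0 : ℝ) < n := by
    have : 0 < n := by omega
    exact_mod_cast this
  have hcard : Fintype.card (Aux1_U q lam n) =
      ∑ i ∈ range q, (⌊Aux1_Z q lam n i⌋₊ + 1) := by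
    rw [Fintype.card_sigma, ← Fin.sum_univ_eq_sum_range (fun i => ⌊Aux1_Z q lam n i⌋₊ + 1) q]
    exact Finset.sum_congr rfl fun i _ => Fintype.card_fin _
  have h1 : ∑ i ∈ range q, Aux1_Z q lam n i < ((Fintype.card (Aux1_U q lam n) : ℕ) : ℝ) := by
    rw [hcard]
    push_cast
    refine Finset.sum_lt_sum_of_nonempty ⟨0, Finset.mem_range.mpr (by omega)⟩ fun i _ => ?_
    exact Nat.lt_floor_add_one _
  have h2 : ∑ i ∈ range q, Aux1_Z q lam n i = q * del q lam * n - ((q : ℝ) - 1) * n / 2 := by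
    have h3 : (∑ i ∈ range q, (i : ℝ)) = (q : ℝ) * (q - 1) / 2 := by
      have h4 := Finset.sum_range_id_mul_two q
      have h5 : ((∑ i ∈ range q, i : ℕ) : ℝ) * 2 = (q : ℝ) * ((q - 1 : ℕ) : ℝ) := by
        exact_mod_cast h4
      rw [Nat.cast_sum, Nat.cast_sub (by omega : 1 ≤ q), Nat.cast_one] at h5
      linarith
    unfold Aux1_Z
    rw [Finset.sum_sub_distrib, Finset.sum_const, Finset.card_range, nsmul_eq_mul]
    have h6 : ∑ i ∈ range q, (i : ℝ) * n / q = (∑ i ∈ range q, (i : ℝ)) * (n / q) := by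
      rw [Finset.sum_mul]
      exact Finset.sum_congr rfl fun i _ => by ring
    rw [h6, h3]
    field_simp
  have hd := Aux1_del (lam := lam) hq
  have h7 : ((q : ℝ) - 1) * (lam * n) < ∑ i ∈ range q, Aux1_Z q lam n i := by
    rw [h2]
    have h8 : (((q : ℝ) - 1) * (lam + 1) + q) * n ≤ q * del q lam * n :=
      mul_le_mul_of_nonneg_right hd hn1.le
    have h9 : 0 ≤ ((q : ℝ) - 1) * n := mul_nonneg (by linarith) hn1.le
    have h10 : 0 < (q : ℝ) * n := mul_pos hq0 hn1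
    nlinarith
  have h11 : (((q - 1) * (lam * n) : ℕ) : ℝ) < ((Fintype.card (Aux1_U q lam n) : ℕ) : ℝ) := by
    rw [Nat.cast_mul, Nat.cast_mul, Nat.cast_sub (by omega : 1 ≤ q), Nat.cast_one]
    exact h7.trans h1
  exact_mod_cast h11

private noncomputable def Aux1_p {q lam n : ℕ} (t : Aux1_U q lam n → ℤ) (i : ℕ) : ℤ[X] :=
  ∑ a ∈ range (⌊Aux1_Z q lam n i⌋₊ + 1), monomial a (Aux1_T t i a)

private theorem Aux1_coeff {q lam n : ℕ} (t : Aux1_U q lam n → ℤ) (i a : ℕ) :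
    (Aux1_p t i).coeff a = Aux1_T t i a := by
  unfold Aux1_p
  rw [Polynomial.finsetSum_coeff]
  simp only [Polynomial.coeff_monomial]
  rw [Finset.sum_ite_eq']
  by_cases h : a ∈ range (⌊Aux1_Z q lam n i⌋₊ + 1)
  · rw [if_pos h]
  · rw [if_neg h]
    unfold Aux1_T
    rw [dif_neg]
    intro h2
    exact h (Finset.mem_range.mpr h2.2)

theorem aux1 {q lam n : ℕ} (hq : 2 ≤ q) (hl : 1 ≤ lam) (hn : 1 ≤ n) : ∃ p : ℕ → ℤ[X],
    (∃ i, i < q ∧ p i ≠ 0) ∧
      (∀ i a, (p i).coeff a ≠ 0 → i < q ∧ (a : ℝ) + (i : ℝ) * n / q ≤ del q lam * n) ∧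
      Van1 q n (lam * n) p := by
  classical
  have hc := Aux1_card (lam := lam) hq hn
  have hrow : Fintype.card (Fin (q - 1) × Fin (lam * n)) = (q - 1) * (lam * n) := by
    rw [Fintype.card_prod, Fintype.card_fin, Fintype.card_fin]
  have hpos : 0 < Fintype.card (Fin (q - 1) × Fin (lam * n)) := by
    rw [hrow]
    exact Nat.mul_pos (by omega) (Nat.mul_pos (by omega) (by omega))
  obtain ⟨t, ht0, ht, -⟩ := Int.Matrix.exists_ne_zero_int_vec_norm_le
    (LinearMap.toMatrix' (Aux1_L q lam n)) (by rw [hrow]; exact hc) hpos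
  rw [LinearMap.toMatrix'_mulVec] at ht
  refine ⟨Aux1_p t, ?_, ?_, ?_⟩
  · obtain ⟨u, hu⟩ : ∃ u, t u ≠ 0 := by
      by_contra hcon
      push Not at hcon
      exact ht0 (funext hcon)
    refine ⟨u.1, u.1.2, fun h0 => hu ?_⟩
    have h1 := Aux1_coeff t (u.1 : ℕ) (u.2 : ℕ)
    rw [h0, Polynomial.coeff_zero] at h1
    unfold Aux1_T at h1
    rw [dif_pos ⟨u.1.2, u.2.2⟩] at h1
    exact h1.symm
  · intro i a hia
    rw [Aux1_coeff] at hia
    by_cases h : i < q ∧ a < ⌊Aux1_Z q lam n i⌋₊ + 1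
    · refine ⟨h.1, ?_⟩
      have h1 : (a : ℝ) ≤ Aux1_Z q lam n i :=
        (Nat.cast_le.mpr (Nat.lt_succ_iff.mp h.2)).trans (Nat.floor_le (Aux1_Z_nonneg hq h.1))
      unfold Aux1_Z at h1
      linarith
    · exact absurd (by unfold Aux1_T; rw [dif_neg h]) hia
  · intro i hi hiq s hs
    have h1 := congrFun ht (⟨i - 1, by omega⟩, ⟨s, hs⟩)
    have h2 : i - 1 + 1 = i := by omega
    simp only [Aux1_L, LinearMap.coe_mk, AddHom.coe_mk, h2, Pi.zero_apply] at h1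
    simp only [Aux1_coeff]
    linarith

end Pool.Agent.NLG
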