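import Pool.Agent.NLG.Defs2
import Pool.Agent.NLG.Kap

/-!
NLG-Aux1G: the auxiliary polynomials in one variable (only existence), two families of conditions.

One general kernel lemma (Aux1G_gen) for r families of linear conditions on the coefficients of cf1; aux1E: r = q - 1, aux1D: r = 1.
-/

namespace Pool.Agent.NLG

open Finset Polynomial

private noncomputable def Aux1G_Z (δ : ℝ) (q n i : ℕ) : ℝ := δ * n - (i : ℝ) * n / q

private abbrev Aux1G_U (δ : ℝ) (q n : ℕ) : Type := (i : Fin q) × Fin (⌊Aux1G_Z δ q n i⌋₊ + 1)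

private noncomputable def Aux1G_T {δ : ℝ} {q n : ℕ} (t : Aux1G_U δ q n → ℤ) (i a : ℕ) : ℤ :=
  if h : i < q ∧ a < ⌊Aux1G_Z δ q n i⌋₊ + 1 then t ⟨⟨i, h.1⟩, ⟨a, h.2⟩⟩ else 0

private theorem Aux1G_T_add {δ : ℝ} {q n : ℕ} (t t' : Aux1G_U δ q n → ℤ) (i a : ℕ) :
    Aux1G_T (t + t') i a = Aux1G_T t i a + Aux1G_T t' i a := by
  unfold Aux1G_T
  by_cases h : i < q ∧ a < ⌊Aux1G_Z δ q n i⌋₊ + 1
  · rw [dif_pos h, dif_pos h, dif_pos h]
    rfl
  · rw [dif_neg h, dif_neg h, dif_neg h, add_zero]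

private theorem Aux1G_T_smul {δ : ℝ} {q n : ℕ} (c : ℤ) (t : Aux1G_U δ q n → ℤ) (i a : ℕ) :
    Aux1G_T (c • t) i a = c * Aux1G_T t i a := by
  unfold Aux1G_T
  by_cases h : i < q ∧ a < ⌊Aux1G_Z δ q n i⌋₊ + 1
  · rw [dif_pos h, dif_pos h]
    rfl
  · rw [dif_neg h, dif_neg h, mul_zero]

private noncomputable def Aux1G_c {δ : ℝ} {q n : ℕ} (t : Aux1G_U δ q n → ℤ) (i s : ℕ) : ℤ :=
  ∑ β ∈ range (s / n + 1), ∑ a ∈ range (s - n * β + 1),
    Aux1G_T t i a * (q : ℤ) ^ (2 * a) * KZ q (-i) (s - n * β - a) *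
      (KZ q i β * (q : ℤ) ^ (2 * (n * β) - 2 * β))

private theorem Aux1G_c_add {δ : ℝ} {q n : ℕ} (t t' : Aux1G_U δ q n → ℤ) (i s : ℕ) :
    Aux1G_c (t + t') i s = Aux1G_c t i s + Aux1G_c t' i s := by
  unfold Aux1G_c
  simp only [Aux1G_T_add, add_mul, Finset.sum_add_distrib]

private theorem Aux1G_c_smul {δ : ℝ} {q n : ℕ} (c : ℤ) (t : Aux1G_U δ q n → ℤ) (i s : ℕ) :
    Aux1G_c (c • t) i s = c * Aux1G_c t i s := by
  unfold Aux1G_c
  simp only [Aux1G_T_smul, Finset.mul_sum, mul_assoc]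

private noncomputable def Aux1G_L (δ : ℝ) (q n r N : ℕ) (ε : ℕ → ℕ → ℤ) :
    (Aux1G_U δ q n → ℤ) →ₗ[ℤ] (Fin r × Fin N → ℤ) where
  toFun t k := ∑ i ∈ range q, ε k.1 i * Aux1G_c t i k.2
  map_add' t t' := by
    funext k
    simp only [Aux1G_c_add, mul_add, Finset.sum_add_distrib, Pi.add_apply]
  map_smul' c t := by
    funext k
    simp only [Aux1G_c_smul, Pi.smul_apply, smul_eq_mul, RingHom.id_apply, Finset.mul_sum]
    exact Finset.sum_congr rfl fun i _ => by ring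

private theorem Aux1G_Z_nonneg {δ : ℝ} {q n i : ℕ} (hδ : 1 ≤ δ) (hi : i < q) :
    0 ≤ Aux1G_Z δ q n i := by
  have hq0 : (0 : ℝ) < q := by
    have : 0 < q := by omega
    exact_mod_cast this
  have h4 : (i : ℝ) / q ≤ 1 := by
    rw [div_le_one hq0]
    exact_mod_cast hi.le
  have h5 : (0 : ℝ) ≤ n := by positivity
  unfold Aux1G_Z
  have h6 : (i : ℝ) * n / q = (i : ℝ) / q * n := by ring
  rw [h6, ← sub_mul]
  exact mul_nonneg (by linarith) h5

private theorem Aux1G_card {δ : ℝ} {q lam n r : ℕ} (hq : 2 ≤ q) (hn : 1 ≤ n)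
    (hc : (r : ℝ) * lam < q * δ - ((q : ℝ) - 1) / 2) :
    r * (lam * n) < Fintype.card (Aux1G_U δ q n) := by
  have hq0 : (0 : ℝ) < q := by
    have : 0 < q := by omega
    exact_mod_cast this
  have hn1 : (0 : ℝ) < n := by
    have : 0 < n := by omega
    exact_mod_cast this
  have hcard : Fintype.card (Aux1G_U δ q n) =
      ∑ i ∈ range q, (⌊Aux1G_Z δ q n i⌋₊ + 1) := by
    rw [Fintype.card_sigma, ← Fin.sum_univ_eq_sum_range (fun i => ⌊Aux1G_Z δ q n i⌋₊ + 1) q]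
    exact Finset.sum_congr rfl fun i _ => Fintype.card_fin _
  have h1 : ∑ i ∈ range q, Aux1G_Z δ q n i < ((Fintype.card (Aux1G_U δ q n) : ℕ) : ℝ) := by
    rw [hcard]
    push_cast
    refine Finset.sum_lt_sum_of_nonempty ⟨0, Finset.mem_range.mpr (by omega)⟩ fun i _ => ?_
    exact Nat.lt_floor_add_one _
  have h2 : ∑ i ∈ range q, Aux1G_Z δ q n i = q * δ * n - ((q : ℝ) - 1) * n / 2 := by
    have h3 : (∑ i ∈ range q, (i : ℝ)) = (q : ℝ) * (q - 1) / 2 := by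
      have h4 := Finset.sum_range_id_mul_two q
      have h5 : ((∑ i ∈ range q, i : ℕ) : ℝ) * 2 = (q : ℝ) * ((q - 1 : ℕ) : ℝ) := by
        exact_mod_cast h4
      rw [Nat.cast_sum, Nat.cast_sub (by omega : 1 ≤ q), Nat.cast_one] at h5
      linarith
    unfold Aux1G_Z
    rw [Finset.sum_sub_distrib, Finset.sum_const, Finset.card_range, nsmul_eq_mul]
    have h6 : ∑ i ∈ range q, (i : ℝ) * n / q = (∑ i ∈ range q, (i : ℝ)) * (n / q) := by
      rw [Finset.sum_mul]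
      exact Finset.sum_congr rfl fun i _ => by ring
    rw [h6, h3]
    field_simp
  have h7 : (r : ℝ) * (lam * n) < ∑ i ∈ range q, Aux1G_Z δ q n i := by
    rw [h2]
    have h8 : (r : ℝ) * lam * n < (q * δ - ((q : ℝ) - 1) / 2) * n :=
      mul_lt_mul_of_pos_right hc hn1
    calc (r : ℝ) * (lam * n) = (r : ℝ) * lam * n := by ring
      _ < (q * δ - ((q : ℝ) - 1) / 2) * n := h8
      _ = q * δ * n - ((q : ℝ) - 1) * n / 2 := by ring
  have h11 : ((r * (lam * n) : ℕ) : ℝ) < ((Fintype.card (Aux1G_U δ q n) : ℕ) : ℝ) := by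
    push_cast at h7 ⊢
    exact h7.trans (by exact_mod_cast h1)
  exact_mod_cast h11

private noncomputable def Aux1G_p {δ : ℝ} {q n : ℕ} (t : Aux1G_U δ q n → ℤ) (i : ℕ) : ℤ[X] :=
  ∑ a ∈ range (⌊Aux1G_Z δ q n i⌋₊ + 1), monomial a (Aux1G_T t i a)

private theorem Aux1G_coeff {δ : ℝ} {q n : ℕ} (t : Aux1G_U δ q n → ℤ) (i a : ℕ) :
    (Aux1G_p t i).coeff a = Aux1G_T t i a := by
  unfold Aux1G_p
  rw [Polynomial.finsetSum_coeff]
  simp only [Polynomial.coeff_monomial]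
  rw [Finset.sum_ite_eq']
  by_cases h : a ∈ range (⌊Aux1G_Z δ q n i⌋₊ + 1)
  · rw [if_pos h]
  · rw [if_neg h]
    unfold Aux1G_T
    rw [dif_neg]
    intro h2
    exact h (Finset.mem_range.mpr h2.2)

private theorem Aux1G_gen {δ : ℝ} {q lam n r : ℕ} (hq : 2 ≤ q) (hl : 1 ≤ lam) (hn : 1 ≤ n)
    (hr : 1 ≤ r) (hδ : 1 ≤ δ) (hc : (r : ℝ) * lam < q * δ - ((q : ℝ) - 1) / 2)
    (ε : ℕ → ℕ → ℤ) : ∃ p : ℕ → ℤ[X],
    (∃ i, i < q ∧ p i ≠ 0) ∧
      (∀ i a, (p i).coeff a ≠ 0 → i < q ∧ (a : ℝ) + (i : ℝ) * n / q ≤ δ * n) ∧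
      ∀ k, k < r → ∀ s, s < lam * n → ∑ i ∈ range q, ε k i * cf1 q n i (p i) s = 0 := by
  classical
  have hc := Aux1G_card (lam := lam) hq hn hc
  have hrow : Fintype.card (Fin r × Fin (lam * n)) = r * (lam * n) := by
    rw [Fintype.card_prod, Fintype.card_fin, Fintype.card_fin]
  have hpos : 0 < Fintype.card (Fin r × Fin (lam * n)) := by
    rw [hrow]
    exact Nat.mul_pos (by omega) (Nat.mul_pos (by omega) (by omega))
  obtain ⟨t, ht0, ht, -⟩ := Int.Matrix.exists_ne_zero_int_vec_norm_le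
    (LinearMap.toMatrix' (Aux1G_L δ q n r (lam * n) ε)) (by rw [hrow]; exact hc) hpos
  rw [LinearMap.toMatrix'_mulVec] at ht
  refine ⟨Aux1G_p t, ?_, ?_, ?_⟩
  · obtain ⟨u, hu⟩ : ∃ u, t u ≠ 0 := by
      by_contra hcon
      push Not at hcon
      exact ht0 (funext hcon)
    refine ⟨u.1, u.1.2, fun h0 => hu ?_⟩
    have h1 := Aux1G_coeff t (u.1 : ℕ) (u.2 : ℕ)
    rw [h0, Polynomial.coeff_zero] at h1
    unfold Aux1G_T at h1
    rw [dif_pos ⟨u.1.2, u.2.2⟩] at h1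
    exact h1.symm
  · intro i a hia
    rw [Aux1G_coeff] at hia
    by_cases h : i < q ∧ a < ⌊Aux1G_Z δ q n i⌋₊ + 1
    · refine ⟨h.1, ?_⟩
      have h1 : (a : ℝ) ≤ Aux1G_Z δ q n i :=
        (Nat.cast_le.mpr (Nat.lt_succ_iff.mp h.2)).trans (Nat.floor_le (Aux1G_Z_nonneg hδ h.1))
      unfold Aux1G_Z at h1
      linarith
    · exact absurd (by unfold Aux1G_T; rw [dif_neg h]) hia
  · intro k hk s hs
    have h1 := congrFun ht (⟨k, hk⟩, ⟨s, hs⟩)
    simp only [Aux1G_L, LinearMap.coe_mk, AddHom.coe_mk, Pi.zero_apply] at h1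
    rw [← h1]
    refine Finset.sum_congr rfl fun i _ => ?_
    unfold cf1 Aux1G_c
    simp only [Aux1G_coeff]

private theorem Aux1G_cf1_zero {q n : ℕ} (hq : 1 ≤ q) (p : ℤ[X]) (s : ℕ) :
    cf1 q n 0 p s = p.coeff s * (q : ℤ) ^ (2 * s) := by
  unfold cf1
  rw [Finset.sum_eq_single 0]
  · rw [Finset.sum_eq_single s]
    · simp [KZ_zero_right hq]
    · intro a ha has
      have h1 := Finset.mem_range.mp ha
      have h2 : 1 ≤ s - n * 0 - a := by omega
      have h3 : KZ q (-((0 : ℕ) : ℤ)) (s - n * 0 - a) = 0 := by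
        rw [Nat.cast_zero, neg_zero]
        exact KZ_zero_left hq h2
      rw [h3, mul_zero, zero_mul]
    · intro h
      exact absurd (Finset.mem_range.mpr (by omega)) h
  · intro β _ hβ
    have h2 : 1 ≤ β := Nat.one_le_iff_ne_zero.mpr hβ
    refine Finset.sum_eq_zero fun a _ => ?_
    have h3 : KZ q (((0 : ℕ) : ℤ)) β = 0 := by
      rw [Nat.cast_zero]
      exact KZ_zero_left hq h2
    rw [h3, zero_mul, mul_zero]
  · intro h
    exact absurd (Finset.mem_range.mpr (Nat.succ_pos _)) h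

theorem aux1E {q lam n : ℕ} (hq : 2 ≤ q) (hl : 1 ≤ lam) (hn : 1 ≤ n) : ∃ p : ℕ → ℤ[X],
    (∃ i, i < q ∧ p i ≠ 0) ∧
      (∀ i a, (p i).coeff a ≠ 0 →
        i < q ∧ (a : ℝ) + (i : ℝ) * n / q ≤ ((1 - 1 / (q : ℝ)) * lam + 1) * n) ∧
      Van1 q n (lam * n) p := by
  have hq0 : (0 : ℝ) < q := by
    have : 0 < q := by omega
    exact_mod_cast this
  have hq1 : (1 : ℝ) ≤ q := by
    have : 1 ≤ q := by omega
    exact_mod_cast this
  have hl0 : (0 : ℝ) ≤ lam := by positivity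
  have h1 : 0 ≤ 1 - 1 / (q : ℝ) := by
    rw [sub_nonneg, div_le_one hq0]
    exact hq1
  have h2 : 0 ≤ (1 - 1 / (q : ℝ)) * lam := mul_nonneg h1 hl0
  have h3 : (q : ℝ) * ((1 - 1 / (q : ℝ)) * lam + 1) = (q - 1) * lam + q := by
    field_simp
  obtain ⟨p, hp1, hp2, hp3⟩ := Aux1G_gen (δ := (1 - 1 / (q : ℝ)) * lam + 1) (r := q - 1)
    (lam := lam) hq hl hn (by omega) (by linarith)
    (by
      rw [h3, Nat.cast_sub (by omega : 1 ≤ q), Nat.cast_one]
      linarith)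
    (fun k i => if i = k + 1 then 1 else if i = 0 then -1 else 0)
  refine ⟨p, hp1, hp2, ?_⟩
  intro i hi hiq s hs
  have h4 := hp3 (i - 1) (by omega) s hs
  have h5 : i - 1 + 1 = i := by omega
  simp only [h5] at h4
  have h6 : ∑ j ∈ range q, (if j = i then (1 : ℤ) else if j = 0 then -1 else 0) *
      cf1 q n j (p j) s = cf1 q n i (p i) s - cf1 q n 0 (p 0) s := by
    have h7 : ∀ j ∈ range q, (if j = i then (1 : ℤ) else if j = 0 then -1 else 0) *
        cf1 q n j (p j) s = (if j = i then cf1 q n j (p j) s else 0) -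
          (if j = 0 then cf1 q n j (p j) s else 0) := by
      intro j _
      by_cases hji : j = i
      · have hj0 : j ≠ 0 := by omega
        rw [if_pos hji, if_pos hji, if_neg hj0]
        ring
      · by_cases hj0 : j = 0
        · rw [if_neg hji, if_pos hj0, if_neg hji, if_pos hj0]
          ring
        · rw [if_neg hji, if_neg hj0, if_neg hji, if_neg hj0]
          ring
    rw [Finset.sum_congr rfl h7, Finset.sum_sub_distrib, Finset.sum_ite_eq', Finset.sum_ite_eq',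
      if_pos (Finset.mem_range.mpr hiq), if_pos (Finset.mem_range.mpr (by omega))]
  rw [h6, Aux1G_cf1_zero (by omega)] at h4
  have h8 : cf1 q n i (p i) s = (p 0).coeff s * (q : ℤ) ^ (2 * s) := by linarith
  exact h8

theorem aux1D {q lam n : ℕ} (hq : 2 ≤ q) (hl : 1 ≤ lam) (hn : 1 ≤ n) : ∃ p : ℕ → ℤ[X],
    (∃ i, i < q ∧ p i ≠ 0) ∧
      (∀ i a, (p i).coeff a ≠ 0 →
        i < q ∧ (a : ℝ) + (i : ℝ) * n / q ≤ ((lam : ℝ) / q + 1) * n) ∧
      VanD1 q n (lam * n) p := by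
  have hq0 : (0 : ℝ) < q := by
    have : 0 < q := by omega
    exact_mod_cast this
  have hl0 : (0 : ℝ) ≤ lam := by positivity
  have h2 : 0 ≤ (lam : ℝ) / q := by positivity
  have h3 : (q : ℝ) * ((lam : ℝ) / q + 1) = lam + q := by
    field_simp
  obtain ⟨p, hp1, hp2, hp3⟩ := Aux1G_gen (δ := (lam : ℝ) / q + 1) (r := 1)
    (lam := lam) hq hl hn le_rfl (by linarith)
    (by
      rw [h3, Nat.cast_one]
      linarith)
    (fun _ _ => 1)
  refine ⟨p, hp1, hp2, ?_⟩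
  intro s hs
  have h4 := hp3 0 (by omega) s hs
  simpa only [one_mul] using h4

end Pool.Agent.NLG
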