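import Pool.Agent.NLG.Kap
import Pool.Agent.NLG.Count

/-!
NLG-AuxB: the auxiliary polynomials (Siegel's lemma, two variables x and w = x^n).

PLAN.  δ = del q lam = α (lam+1) + 1, α = √(1 - 1/q).  B = ⌊δ⌋₊ + 1, A = ⌊δ n⌋₊ + 1 (so δ < B,
δ n < A).  Unknowns: triples (i, b, a), i < q, b < B, a < A with a + n b + i n / q ≤ δ n (a subtype of
a finset; U of them), rows: (i, β, s), 1 ≤ i < q, β < lam, s + n β < lam n (E = (q-1) n lam (lam+1)/2 of
them by card_rows; if lam ≥ 1, q ≥ 2, n ≥ 1 then E > 0).  U ≥ ∑ (i < q) (δ - i/q)^2 n / 2 by count_ge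
(Z = (δ - i/q) n < n B; δ - i/q ≥ δ - 1 = α (lam+1) ≥ 0) ≥ q α^2 (lam+1)^2 n/2 = (q-1)(lam+1)^2 n/2
(q α^2 = q - 1).  So U - E ≥ (q-1)(lam+1) n/2 and E/(U-E) ≤ lam.
Matrix entry of row (i, β, s): at (i, b, a) with b ≤ β, a ≤ s:
q^(2(a+b)) KZ q (-i) (s-a) KZ q i (β-b), at (0, β, s) (i ≥ 1, so another column): - q^(2(s+β)), else 0.
All entries are ≤ q^(2(s+β)) ≤ q^(2 lam n) in absolute value (abs_KZ_le).  The kernel vector t of
Int.Matrix.exists_ne_zero_int_vec_norm_le (Mathlib.NumberTheory.SiegelsLemma) gives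
P i b = ∑ a, t (i,b,a) X^a; ‖t‖ ≤ (U q^(2 lam n))^(E/(U-E)) ≤ (U q^(2 lam n))^lam, U ≤ q B A ≤ C₁ n ≤
(2 C₁)^n: so C = (2 C₁ q^(2 lam))^lam or so (n ≤ 2^n, n ≥ 1).
-/

namespace Pool.Agent.NLG

open Finset Polynomial

attribute [local instance] Matrix.seminormedAddCommGroup

private theorem AuxB_siegel {α β : Type} [Fintype α] [Fintype β] (A : Matrix α β ℤ) (lam : ℕ)
    (hlt : Fintype.card α < Fintype.card β) (h0 : 0 < Fintype.card α)
    (h : (Fintype.card α : ℝ) ≤ lam * ((Fintype.card β : ℝ) - Fintype.card α)) (M : ℝ) (hM : 1 ≤ M)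
    (hA : ∀ i j, |(A i j : ℝ)| ≤ M) :
    ∃ t : β → ℤ, t ≠ 0 ∧ A.mulVec t = 0 ∧ ∀ j, |(t j : ℝ)| ≤ ((Fintype.card β : ℝ) * M) ^ lam := by
  obtain ⟨t, ht0, ht1, ht2⟩ := Int.Matrix.exists_ne_zero_int_vec_norm_le A hlt h0
  refine ⟨t, ht0, ht1, fun j => ?_⟩
  have hβ : (1 : ℝ) ≤ Fintype.card β := by exact_mod_cast (h0.trans hlt)
  have hAn : ‖A‖ ≤ M := by
    rw [Matrix.norm_le_iff (by linarith)]
    intro i j
    rw [Int.norm_eq_abs]
    exact hA i j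
  have hmax : max 1 ‖A‖ ≤ M := max_le hM hAn
  have hb1 : (1 : ℝ) ≤ Fintype.card β * max 1 ‖A‖ := by nlinarith [le_max_left (1 : ℝ) ‖A‖]
  have hlt' : (Fintype.card α : ℝ) < Fintype.card β := by exact_mod_cast hlt
  have hexp : (Fintype.card α : ℝ) / (Fintype.card β - Fintype.card α) ≤ lam := by
    rw [div_le_iff₀ (by linarith)]
    exact h
  have h4 := norm_le_pi_norm t j
  rw [Int.norm_eq_abs] at h4
  calc |(t j : ℝ)| ≤ ‖t‖ := h4
    _ ≤ _ := ht2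
    _ ≤ ((Fintype.card β : ℝ) * max 1 ‖A‖) ^ (lam : ℝ) := Real.rpow_le_rpow_of_exponent_le hb1 hexp
    _ = ((Fintype.card β : ℝ) * max 1 ‖A‖) ^ lam := Real.rpow_natCast _ _
    _ ≤ _ := pow_le_pow_left₀ (by linarith) (mul_le_mul_of_nonneg_left hmax (by linarith)) _

/-- the unknowns -/
private noncomputable def AuxB_cs (q n B A : ℕ) (δ : ℝ) : Finset ((_ : ℕ) × (ℕ × ℕ)) :=
  (range q).sigma fun i => (range B ×ˢ range A).filter
    fun p : ℕ × ℕ => (p.2 : ℝ) + (n : ℝ) * p.1 ≤ (δ - (i : ℝ) / q) * n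

/-- the equations -/
private def AuxB_rs (q n lam : ℕ) : Finset ((_ : ℕ) × (ℕ × ℕ)) :=
  (Ico 1 q).sigma fun _ => (range lam ×ˢ range (lam * n)).filter
    fun p : ℕ × ℕ => p.2 + n * p.1 < lam * n

private noncomputable def AuxB_f (q : ℕ) (v u : (_ : ℕ) × (ℕ × ℕ)) : ℤ :=
  if u.1 = v.1 ∧ u.2.1 ≤ v.2.1 ∧ u.2.2 ≤ v.2.2 then
    (q : ℤ) ^ (2 * (u.2.2 + u.2.1)) * KZ q (-(v.1 : ℤ)) (v.2.2 - u.2.2) *
      KZ q (v.1 : ℤ) (v.2.1 - u.2.1) else 0

private def AuxB_g (q : ℕ) (v u : (_ : ℕ) × (ℕ × ℕ)) : ℤ :=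
  if u.1 = 0 ∧ u.2.1 = v.2.1 ∧ u.2.2 = v.2.2 then (q : ℤ) ^ (2 * (v.2.2 + v.2.1)) else 0

private theorem AuxB_le {q : ℕ} (hq : 1 ≤ q) (v u : (_ : ℕ) × (ℕ × ℕ)) (hv : 1 ≤ v.1)
    (hv' : v.1 < q) : |AuxB_f q v u - AuxB_g q v u| ≤ (q : ℤ) ^ (2 * (v.2.2 + v.2.1)) := by
  have hq0 : (0 : ℤ) < q := by exact_mod_cast hq
  by_cases h1 : u.1 = v.1 ∧ u.2.1 ≤ v.2.1 ∧ u.2.2 ≤ v.2.2
  · have h2 : AuxB_g q v u = 0 := by
      unfold AuxB_g
      rw [if_neg]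
      rintro ⟨h3, -⟩
      have := h1.1
      omega
    rw [h2, sub_zero]
    unfold AuxB_f
    rw [if_pos h1, abs_mul, abs_mul, abs_of_pos (pow_pos hq0 _)]
    have h3 := abs_KZ_le hq (j := -(v.1 : ℤ)) (by
      rw [abs_neg, abs_of_nonneg (by positivity)]
      exact_mod_cast hv'.le) (v.2.2 - u.2.2)
    have h4 := abs_KZ_le hq (j := (v.1 : ℤ)) (by
      rw [abs_of_nonneg (by positivity)]
      exact_mod_cast hv'.le) (v.2.1 - u.2.1)
    calc (q : ℤ) ^ (2 * (u.2.2 + u.2.1)) * |KZ q (-(v.1 : ℤ)) (v.2.2 - u.2.2)| *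
        |KZ q (v.1 : ℤ) (v.2.1 - u.2.1)| ≤ (q : ℤ) ^ (2 * (u.2.2 + u.2.1)) *
          (q : ℤ) ^ (2 * (v.2.2 - u.2.2)) * (q : ℤ) ^ (2 * (v.2.1 - u.2.1)) := by
          refine mul_le_mul (mul_le_mul_of_nonneg_left h3 (pow_pos hq0 _).le) h4 (abs_nonneg _) ?_
          positivity
      _ = (q : ℤ) ^ (2 * (v.2.2 + v.2.1)) := by
          rw [← pow_add, ← pow_add]
          congr 1
          have := h1.2.1
          have := h1.2.2
          omega
  · have h2 : AuxB_f q v u = 0 := by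
      unfold AuxB_f
      rw [if_neg h1]
    rw [h2, zero_sub, abs_neg]
    unfold AuxB_g
    split_ifs
    · rw [abs_of_pos (pow_pos hq0 _)]
    · rw [abs_zero]
      positivity

private theorem AuxB_sum_f (q : ℕ) (c : Finset ((_ : ℕ) × (ℕ × ℕ))) (T : ((_ : ℕ) × (ℕ × ℕ)) → ℤ)
    (hT : ∀ u, u ∉ c → T u = 0) (i β s : ℕ) :
    ∑ u ∈ c, AuxB_f q ⟨i, (β, s)⟩ u * T u =
      ∑ b ∈ range (β + 1), ∑ a ∈ range (s + 1),
        T ⟨i, (b, a)⟩ * (q : ℤ) ^ (2 * (a + b)) * KZ q (-i) (s - a) * KZ q i (β - b) := by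
  have h1 : ∑ u ∈ c, AuxB_f q ⟨i, (β, s)⟩ u * T u =
      ∑ u ∈ ({i} : Finset ℕ).sigma fun _ => range (β + 1) ×ˢ range (s + 1),
        AuxB_f q ⟨i, (β, s)⟩ u * T u := by
    refine Finset.sum_congr_of_eq_on_inter (fun u _ hu => ?_) (fun u _ hu => ?_) fun u _ _ => rfl
    · unfold AuxB_f
      rw [if_neg, zero_mul]
      rintro ⟨h1, h2, h3⟩
      apply hu
      rw [mem_sigma, mem_product, mem_range, mem_range]
      exact ⟨Finset.mem_singleton.2 h1, Nat.lt_succ_of_le h2, Nat.lt_succ_of_le h3⟩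
    · rw [hT u hu, mul_zero]
  rw [h1, Finset.sum_sigma, Finset.sum_singleton, Finset.sum_product]
  refine Finset.sum_congr rfl fun b hb => Finset.sum_congr rfl fun a ha => ?_
  unfold AuxB_f
  have h2 := Nat.lt_succ_iff.1 (mem_range.1 hb)
  have h3 := Nat.lt_succ_iff.1 (mem_range.1 ha)
  rw [if_pos ⟨rfl, h2, h3⟩]
  ring

private theorem AuxB_sum_g (q : ℕ) (c : Finset ((_ : ℕ) × (ℕ × ℕ))) (T : ((_ : ℕ) × (ℕ × ℕ)) → ℤ)
    (hT : ∀ u, u ∉ c → T u = 0) (i β s : ℕ) :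
    ∑ u ∈ c, AuxB_g q ⟨i, (β, s)⟩ u * T u = T ⟨0, (β, s)⟩ * (q : ℤ) ^ (2 * (s + β)) := by
  have h1 : ∑ u ∈ c, AuxB_g q ⟨i, (β, s)⟩ u * T u =
      ∑ u ∈ ({⟨0, (β, s)⟩} : Finset ((_ : ℕ) × (ℕ × ℕ))), AuxB_g q ⟨i, (β, s)⟩ u * T u := by
    refine Finset.sum_congr_of_eq_on_inter (fun u _ hu => ?_) (fun u _ hu => ?_) fun u _ _ => rfl
    · unfold AuxB_g
      rw [if_neg, zero_mul]
      rintro ⟨h1, h2, h3⟩
      apply hu
      obtain ⟨u1, u2, u3⟩ := u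
      simp only at h1 h2 h3
      rw [Finset.mem_singleton, h1, h2, h3]
    · rw [hT u hu, mul_zero]
  rw [h1, Finset.sum_singleton]
  unfold AuxB_g
  rw [if_pos ⟨rfl, rfl, rfl⟩]
  ring

private theorem AuxB_van {q n lam B A : ℕ} {δ : ℝ} (T : ((_ : ℕ) × (ℕ × ℕ)) → ℤ)
    (hT : ∀ u, u ∉ AuxB_cs q n B A δ → T u = 0)
    (hk : ∀ v ∈ AuxB_rs q n lam, ∑ u ∈ AuxB_cs q n B A δ, (AuxB_f q v u - AuxB_g q v u) * T u = 0)
    (P : ℕ → ℕ → ℤ[X]) (hP : ∀ i b a, (P i b).coeff a = T ⟨i, (b, a)⟩) : Van q n (lam * n) P := by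
  intro i hi hiq β s hs
  have hv : (⟨i, (β, s)⟩ : (_ : ℕ) × (ℕ × ℕ)) ∈ AuxB_rs q n lam := by
    unfold AuxB_rs
    rw [mem_sigma, mem_filter, mem_product, mem_range, mem_range]
    refine ⟨Finset.mem_Ico.2 ⟨hi, hiq⟩, ⟨?_, ?_⟩, hs⟩
    · by_contra hlt
      have h1 : lam * n ≤ n * β := by
        rw [mul_comm]
        exact Nat.mul_le_mul_left n (not_lt.1 hlt)
      omega
    · exact lt_of_le_of_lt (Nat.le_add_right _ _) hs
  have h1 := hk _ hv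
  simp only [sub_mul] at h1
  rw [Finset.sum_sub_distrib, AuxB_sum_f q _ T hT, AuxB_sum_g q _ T hT, sub_eq_zero] at h1
  simp only [hP]
  exact h1

private theorem AuxB_count {q n lam : ℕ} (hq : 2 ≤ q) (hn : 1 ≤ n) {B A : ℕ}
    (hB : del q lam < B) (hA : del q lam * n < A) :
    ((AuxB_rs q n lam).card : ℝ) = ((q : ℝ) - 1) * n * lam * (lam + 1) / 2 ∧
      ((q : ℝ) - 1) * (lam + 1) ^ 2 * n / 2 ≤ ((AuxB_cs q n B A (del q lam)).card : ℝ) := by
  have hq0 : (0 : ℝ) < q := by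
    have : 0 < q := by omega
    exact_mod_cast this
  have hn0 : (0 : ℝ) < n := by exact_mod_cast hn
  constructor
  · unfold AuxB_rs
    rw [Finset.card_sigma, Finset.sum_const, Nat.card_Ico, smul_eq_mul]
    have h1 := card_rows (lam := lam) hn
    have h2 : ((2 * ((range lam ×ˢ range (lam * n)).filter
      fun p : ℕ × ℕ => p.2 + n * p.1 < lam * n).card : ℕ) : ℝ) = ((n * (lam * (lam + 1)) : ℕ) : ℝ) := by
      rw [h1]
    push_cast at h2
    rw [Nat.cast_mul, Nat.cast_sub (by omega : 1 ≤ q), Nat.cast_one]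
    linear_combination (((q : ℝ) - 1) / 2) * h2
  · unfold AuxB_cs
    rw [Finset.card_sigma, Nat.cast_sum]
    obtain ⟨α, hα⟩ : ∃ α : ℝ, α = Real.sqrt (1 - 1 / q) := ⟨_, rfl⟩
    have hα0 : 0 ≤ α := by rw [hα]; exact Real.sqrt_nonneg _
    have hqi : 1 / (q : ℝ) ≤ 1 := by
      rw [div_le_one hq0]
      have : 1 ≤ q := by omega
      exact_mod_cast this
    have hα2 : α ^ 2 = 1 - 1 / q := by
      rw [hα]
      exact Real.sq_sqrt (by linarith)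
    have hδ : del q lam = α * (lam + 1) + 1 := by rw [hα]; rfl
    have hterm : ∀ i ∈ range q, α ^ 2 * (lam + 1) ^ 2 * n / 2 ≤
        ((((range B ×ˢ range A).filter
          fun p : ℕ × ℕ => (p.2 : ℝ) + (n : ℝ) * p.1 ≤ (del q lam - (i : ℝ) / q) * n).card : ℕ) : ℝ) := by
      intro i hi
      have hi1 : (i : ℝ) / q ≤ 1 := by
        rw [div_le_one hq0]
        exact_mod_cast (mem_range.1 hi).le
      have hi0 : (0 : ℝ) ≤ (i : ℝ) / q := by positivity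
      have h1 : α * (lam + 1) ≤ del q lam - (i : ℝ) / q := by rw [hδ]; linarith
      have h0 : 0 ≤ α * ((lam : ℝ) + 1) := by positivity
      have h2 := count_ge hn (Z := (del q lam - (i : ℝ) / q) * n)
        (mul_nonneg (h0.trans h1) hn0.le) (B := B) (A := A) (by nlinarith) (by nlinarith)
      refine le_trans ?_ h2
      have h3 : ((del q lam - (i : ℝ) / q) * n) ^ 2 / (2 * n) = (del q lam - (i : ℝ) / q) ^ 2 * n / 2 := by
        field_simp
      rw [h3, ← mul_pow]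
      have h4 := pow_le_pow_left₀ h0 h1 2
      have h5 := mul_le_mul_of_nonneg_right h4 hn0.le
      linarith
    refine le_trans (le_of_eq ?_) (Finset.sum_le_sum hterm)
    rw [Finset.sum_const, card_range, nsmul_eq_mul, hα2]
    field_simp

theorem aux {q lam : ℕ} (hq : 2 ≤ q) (hl : 1 ≤ lam) : ∃ C : ℝ, 1 ≤ C ∧ ∀ n : ℕ, 1 ≤ n →
    ∃ P : ℕ → ℕ → ℤ[X], (∃ i b, i < q ∧ P i b ≠ 0) ∧
      (∀ i b a, (P i b).coeff a ≠ 0 →
        i < q ∧ (a : ℝ) + (n : ℝ) * b + (i : ℝ) * n / q ≤ del q lam * n) ∧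
      (∀ i b a, |((P i b).coeff a : ℝ)| ≤ C ^ n) ∧ Van q n (lam * n) P := by
  obtain ⟨δ, hδ⟩ : ∃ δ : ℝ, δ = del q lam := ⟨_, rfl⟩
  have hδ1 : 1 ≤ δ := by
    rw [hδ]
    unfold del
    have : 0 ≤ Real.sqrt (1 - 1 / (q : ℝ)) * ((lam : ℝ) + 1) := by positivity
    linarith
  have hq1 : (1 : ℝ) ≤ q := by
    have : 1 ≤ q := by omega
    exact_mod_cast this
  obtain ⟨C₁, hC₁⟩ : ∃ C₁ : ℝ, C₁ = q * (δ + 1) ^ 2 := ⟨_, rfl⟩
  have hC₁1 : 1 ≤ C₁ := by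
    rw [hC₁]
    nlinarith [sq_nonneg δ]
  refine ⟨(2 * C₁ * (q : ℝ) ^ (2 * lam)) ^ lam, ?_, fun n hn => ?_⟩
  · refine one_le_pow₀ ?_
    have h1 : (1 : ℝ) ≤ (q : ℝ) ^ (2 * lam) := one_le_pow₀ hq1
    nlinarith
  · obtain ⟨B, hB⟩ : ∃ B : ℕ, B = ⌊δ⌋₊ + 1 := ⟨_, rfl⟩
    obtain ⟨A, hA⟩ : ∃ A : ℕ, A = ⌊δ * n⌋₊ + 1 := ⟨_, rfl⟩
    have hn1 : (1 : ℝ) ≤ n := by exact_mod_cast hn
    have hB1 : δ < B := by
      rw [hB]
      push_cast
      exact Nat.lt_floor_add_one δ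
    have hA1 : δ * n < A := by
      rw [hA]
      push_cast
      exact Nat.lt_floor_add_one _
    have hB2 : (B : ℝ) ≤ δ + 1 := by
      rw [hB]
      push_cast
      linarith [Nat.floor_le (show (0 : ℝ) ≤ δ by linarith)]
    have hA2 : (A : ℝ) ≤ (δ + 1) * n := by
      rw [hA]
      push_cast
      have := Nat.floor_le (show (0 : ℝ) ≤ δ * n by positivity)
      nlinarith
    obtain ⟨hE, hU⟩ := AuxB_count (lam := lam) hq hn (B := B) (A := A) (hδ ▸ hB1) (hδ ▸ hA1)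
    rw [← hδ] at hU
    obtain ⟨c, hc⟩ : ∃ c, c = AuxB_cs q n B A δ := ⟨_, rfl⟩
    obtain ⟨r, hr⟩ : ∃ r, r = AuxB_rs q n lam := ⟨_, rfl⟩
    rw [← hc] at hU
    rw [← hr] at hE
    have hl1 : (1 : ℝ) ≤ lam := by exact_mod_cast hl
    have hq2 : (1 : ℝ) ≤ (q : ℝ) - 1 := by
      have : (2 : ℝ) ≤ q := by exact_mod_cast hq
      linarith
    have hpos : 0 < ((q : ℝ) - 1) * (lam + 1) * n / 2 := by positivity
    have hEpos : 0 < (r.card : ℝ) := by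
      rw [hE]
      positivity
    have hdiff : ((q : ℝ) - 1) * (lam + 1) * n / 2 ≤ (c.card : ℝ) - r.card := by
      rw [hE]
      nlinarith
    have hlt : r.card < c.card := by
      have : (r.card : ℝ) < c.card := by linarith
      exact_mod_cast this
    have hexp : (r.card : ℝ) ≤ lam * ((c.card : ℝ) - r.card) := by
      have h1 := mul_le_mul_of_nonneg_left hdiff (show (0 : ℝ) ≤ lam by linarith)
      refine le_trans (le_of_eq ?_) h1
      rw [hE]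
      ring
    have hQ1 : (1 : ℝ) ≤ (q : ℝ) ^ (2 * lam * n) := one_le_pow₀ hq1
    obtain ⟨t, ht0, ht1, ht2⟩ := AuxB_siegel (α := {v // v ∈ r}) (β := {u // u ∈ c})
      (Matrix.of fun v u => AuxB_f q v.1 u.1 - AuxB_g q v.1 u.1) lam
      (by rw [Fintype.card_coe, Fintype.card_coe]; exact hlt)
      (by rw [Fintype.card_coe]; exact_mod_cast hEpos)
      (by rw [Fintype.card_coe, Fintype.card_coe]; exact hexp) ((q : ℝ) ^ (2 * lam * n)) hQ1
      (fun v u => by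
        have hv : v.1 ∈ AuxB_rs q n lam := by
          rw [← hr]
          exact v.2
        unfold AuxB_rs at hv
        rw [mem_sigma, mem_filter, Finset.mem_Ico] at hv
        have h1 := AuxB_le (by omega : 1 ≤ q) v.1 u.1 hv.1.1 hv.1.2
        have h2 : ((|AuxB_f q v.1 u.1 - AuxB_g q v.1 u.1| : ℤ) : ℝ) ≤
          (((q : ℤ) ^ (2 * (v.1.2.2 + v.1.2.1)) : ℤ) : ℝ) := by exact_mod_cast h1
        rw [Int.cast_abs] at h2
        refine h2.trans ?_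
        push_cast
        refine pow_le_pow_right₀ hq1 ?_
        have h3 := hv.2.2
        have h4 : v.1.2.1 ≤ n * v.1.2.1 := Nat.le_mul_of_pos_left _ hn
        have h5 : 2 * lam * n = 2 * (lam * n) := by ring
        rw [h5]
        omega)
    obtain ⟨T, hT⟩ : ∃ T : ((_ : ℕ) × (ℕ × ℕ)) → ℤ,
        T = fun u => if h : u ∈ c then t ⟨u, h⟩ else 0 := ⟨_, rfl⟩
    have hT1 : ∀ u (h : u ∈ c), T u = t ⟨u, h⟩ := fun u h => by rw [hT]; exact dif_pos h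
    have hT0 : ∀ u, u ∉ c → T u = 0 := fun u h => by rw [hT]; exact dif_neg h
    have hk : ∀ v ∈ r, ∑ u ∈ c, (AuxB_f q v u - AuxB_g q v u) * T u = 0 := by
      intro v hv
      have h1 := congrFun ht1 ⟨v, hv⟩
      rw [← Finset.sum_coe_sort c fun u => (AuxB_f q v u - AuxB_g q v u) * T u]
      refine Eq.trans ?_ h1
      show _ = ∑ u : {u // u ∈ c}, _ * t u
      exact Finset.sum_congr rfl fun u _ => by rw [hT1 u.1 u.2]; rfl
    have hmem : ∀ i b a, T ⟨i, (b, a)⟩ ≠ 0 → i < q ∧ b < B ∧ a < A ∧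
        (a : ℝ) + (n : ℝ) * b ≤ (δ - (i : ℝ) / q) * n := by
      intro i b a h
      have h1 : (⟨i, (b, a)⟩ : (_ : ℕ) × (ℕ × ℕ)) ∈ c := by
        by_contra h2
        exact h (hT0 _ h2)
      rw [hc] at h1
      unfold AuxB_cs at h1
      rw [mem_sigma, mem_filter, mem_product, mem_range, mem_range, mem_range] at h1
      exact ⟨h1.1, h1.2.1.1, h1.2.1.2, h1.2.2⟩
    obtain ⟨P, hP⟩ : ∃ P : ℕ → ℕ → ℤ[X],
        P = fun i b => ∑ a ∈ range A, C (T ⟨i, (b, a)⟩) * X ^ a := ⟨_, rfl⟩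
    have hco : ∀ i b a, (P i b).coeff a = T ⟨i, (b, a)⟩ := by
      intro i b a
      rw [hP]
      show (∑ a' ∈ range A, C (T ⟨i, (b, a')⟩) * X ^ a').coeff a = _
      rw [Polynomial.finsetSum_coeff]
      simp only [coeff_C_mul_X_pow]
      rw [Finset.sum_ite_eq (range A) a]
      split_ifs with h
      · rfl
      · by_contra h2
        exact h (mem_range.2 (hmem i b a (Ne.symm h2)).2.2.1)
    refine ⟨P, ?_, fun i b a h => ?_, fun i b a => ?_, ?_⟩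
    · obtain ⟨u, hu⟩ := Function.ne_iff.1 ht0
      have h1 : T u.1 ≠ 0 := by
        rw [hT1 u.1 u.2]
        exact hu
      refine ⟨u.1.1, u.1.2.1, (hmem _ _ u.1.2.2 h1).1, fun h2 => h1 ?_⟩
      rw [← hco u.1.1 u.1.2.1 u.1.2.2, h2, coeff_zero]
    · rw [hco] at h
      obtain ⟨h1, -, -, h2⟩ := hmem i b a h
      refine ⟨h1, ?_⟩
      rw [← hδ]
      have h3 : (δ - (i : ℝ) / q) * n = δ * n - (i : ℝ) * n / q := by ring
      rw [h3] at h2
      linarith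
    · rw [hco]
      have hcc : (c.card : ℝ) ≤ (2 * C₁) ^ n := by
        have h1 : c.card ≤ q * (B * A) := by
          rw [hc]
          unfold AuxB_cs
          rw [Finset.card_sigma]
          refine (Finset.sum_le_card_nsmul (range q) _ (B * A) fun i _ => ?_).trans ?_
          · refine (Finset.card_filter_le _ _).trans ?_
            rw [Finset.card_product, card_range, card_range]
          · rw [card_range, smul_eq_mul]
        have h2 : (c.card : ℝ) ≤ q * (B * A) := by exact_mod_cast h1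
        have h3 : (B : ℝ) * A ≤ (δ + 1) * ((δ + 1) * n) :=
          mul_le_mul hB2 hA2 (by positivity) (by linarith)
        have h4 : (c.card : ℝ) ≤ C₁ * n := by
          refine h2.trans ?_
          rw [hC₁]
          nlinarith [mul_le_mul_of_nonneg_left h3 (show (0 : ℝ) ≤ q by linarith)]
        have h5 : (n : ℝ) ≤ 2 ^ n := by exact_mod_cast (Nat.lt_two_pow_self).le
        have h6 : C₁ ≤ C₁ ^ n := le_self_pow₀ hC₁1 (Nat.one_le_iff_ne_zero.1 hn)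
        rw [mul_pow]
        calc (c.card : ℝ) ≤ C₁ * n := h4
          _ ≤ C₁ ^ n * 2 ^ n := mul_le_mul h6 h5 (by linarith) (by linarith)
          _ = 2 ^ n * C₁ ^ n := mul_comm _ _
      have h7 : |(T ⟨i, (b, a)⟩ : ℝ)| ≤ ((c.card : ℝ) * (q : ℝ) ^ (2 * lam * n)) ^ lam := by
        by_cases h : (⟨i, (b, a)⟩ : (_ : ℕ) × (ℕ × ℕ)) ∈ c
        · rw [hT1 _ h]
          have h8 := ht2 ⟨_, h⟩
          rwa [Fintype.card_coe] at h8
        · rw [hT0 _ h, Int.cast_zero, abs_zero]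
          positivity
      refine h7.trans ?_
      have h9 : ((2 * C₁ * (q : ℝ) ^ (2 * lam)) ^ lam) ^ n =
          ((2 * C₁) ^ n * (q : ℝ) ^ (2 * lam * n)) ^ lam := by
        rw [← pow_mul, mul_comm lam n, pow_mul, mul_pow (2 * C₁), ← pow_mul]
      rw [h9]
      have h10 : 0 ≤ (c.card : ℝ) * (q : ℝ) ^ (2 * lam * n) := by positivity
      exact pow_le_pow_left₀ h10 (mul_le_mul_of_nonneg_right hcc (by positivity)) lam
    · rw [hc] at hT0 hk
      rw [hr] at hk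
      exact AuxB_van T hT0 hk P hco

end Pool.Agent.NLG
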