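import Pool.Agent.NLG.Defs2
import Pool.Agent.NLG.Kap
import Pool.Agent.NLG.Count

/-!
NLG-AuxG: the auxiliary polynomials (Siegel's lemma), all monomials of weight ≥ lam n, b < lam.

PLAN.  Model: NLG/AuxB.lean (copy and adapt; the private Siegel lemma AuxB_siegel can be copied).
Unknowns: triples (i, b, a), i < q, b < lam, lam n ≤ a + n b, a + n b + i n/q ≤ δ n (a < A = ⌊δ n⌋₊ + 1).
For fixed i, b the number of a is ≥ (δ - i/q) n - lam n (a from (lam-b) n to ⌊(δ - i/q) n - b n⌋; if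
this is < (lam - b) n the bound is ≤ 0, fine), so U ≥ lam n (q (δ-lam) - (q-1)/2).
Rows: (k, β, s), k : Fin r, lam n ≤ s + n β < (lam+eta) n; their number is
E = r n (2 eta lam + eta (eta+1))/2: by card_rows for lam+eta minus card_rows for lam (the set
{s + n β < lam n} in both), E > 0.  By hδ: U - E ≥ lam n/2, and E ≤ 2 r (eta+1) (U - E) because
eta (eta+1) ≤ lam.  Exponent G = 2 r (eta+1).
Matrix entry of row (k, β, s) at (i, b, a): ε k i q^(2(a+b)) KZ q (-i) (s-a) KZ q i (β-b) if b ≤ β,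
a ≤ s, else 0: absolute value ≤ q^(2(s+β)) ≤ q^(2 (lam+eta) n).  So |t| ≤ (U q^(2(lam+eta)n))^G,
U ≤ q lam A ≤ C₁^n.
For s + n β < lam n the sum is 0 as all coefficients of weight a + n b < lam n are 0.
(hδ implies δ > lam ≥ 0.)
-/

namespace Pool.Agent.NLG

open Finset Polynomial

attribute [local instance] Matrix.seminormedAddCommGroup

private theorem AuxG_siegel {α β : Type} [Fintype α] [Fintype β] (A : Matrix α β ℤ) (lam : ℕ)
    (hlt : Fintype.card α < Fintype.card β) (h0 : 0 < Fintype.card α)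
    (h : (Fintype.card α : ℝ) ≤ lam * ((Fintype.card β : ℝ) - Fintype.card α)) (M : ℝ) (hM : 1 ≤ M)
    (hA : ∀ i j, |(A i j : ℝ)| ≤ M) :
    ∃ t : β → ℤ, t ≠ 0 ∧ A.mulVec t = 0 ∧ ∀ j, |(t j : ℝ)| ≤ ((Fintype.card β : ℝ) * M) ^ lam := by
  obtain ⟨t, ht0, ht1, ht2⟩ := Int.Matrix.exists_ne_zero_int_vec_norm_le A hlt h0
  refine ⟨t, ht0, ht1, fun j => ?_⟩
  have hβ : (1 : ℝ) ≤ Fintype.card β := by exact_mod_cast (h0.trans hlt)
  have hAn : ‖A‖ ≤ M := by
    rw [Matrix.norm_le_iff (by linarith)]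
    intro i j
    rw [Int.norm_eq_abs]
    exact hA i j
  have hmax : max 1 ‖A‖ ≤ M := max_le hM hAn
  have hb1 : (1 : ℝ) ≤ Fintype.card β * max 1 ‖A‖ := by nlinarith [le_max_left (1 : ℝ) ‖A‖]
  have hlt' : (Fintype.card α : ℝ) < Fintype.card β := by exact_mod_cast hlt
  have hexp : (Fintype.card α : ℝ) / (Fintype.card β - Fintype.card α) ≤ lam := by
    rw [div_le_iff₀ (by linarith)]
    exact h
  have h4 := norm_le_pi_norm t j
  rw [Int.norm_eq_abs] at h4
  calc |(t j : ℝ)| ≤ ‖t‖ := h4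
    _ ≤ _ := ht2
    _ ≤ ((Fintype.card β : ℝ) * max 1 ‖A‖) ^ (lam : ℝ) := Real.rpow_le_rpow_of_exponent_le hb1 hexp
    _ = ((Fintype.card β : ℝ) * max 1 ‖A‖) ^ lam := Real.rpow_natCast _ _
    _ ≤ _ := pow_le_pow_left₀ (by linarith) (mul_le_mul_of_nonneg_left hmax (by linarith)) _

/-- the unknowns -/
private noncomputable def AuxG_cs (q n lam A : ℕ) (δ : ℝ) : Finset ((_ : ℕ) × (ℕ × ℕ)) :=
  (range q).sigma fun i => (range lam ×ˢ range A).filter
    fun p : ℕ × ℕ => lam * n ≤ p.2 + n * p.1 ∧ (p.2 : ℝ) + (n : ℝ) * p.1 ≤ (δ - (i : ℝ) / q) * n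

/-- the equations -/
private def AuxG_rs (r n lam eta : ℕ) : Finset ((_ : Fin r) × (ℕ × ℕ)) :=
  (univ : Finset (Fin r)).sigma fun _ => (range (lam + eta) ×ˢ range ((lam + eta) * n)).filter
    fun p : ℕ × ℕ => p.2 + n * p.1 < (lam + eta) * n ∧ lam * n ≤ p.2 + n * p.1

private noncomputable def AuxG_f {r : ℕ} (q : ℕ) (ε : Fin r → ℕ → ℤ) (v : (_ : Fin r) × (ℕ × ℕ))
    (u : (_ : ℕ) × (ℕ × ℕ)) : ℤ :=
  if u.2.1 ≤ v.2.1 ∧ u.2.2 ≤ v.2.2 then
    ε v.1 u.1 * ((q : ℤ) ^ (2 * (u.2.2 + u.2.1)) * KZ q (-(u.1 : ℤ)) (v.2.2 - u.2.2) *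
      KZ q (u.1 : ℤ) (v.2.1 - u.2.1)) else 0

private theorem AuxG_le {r q : ℕ} (hq : 1 ≤ q) (ε : Fin r → ℕ → ℤ) (hε : ∀ k i, |ε k i| ≤ 1)
    (v : (_ : Fin r) × (ℕ × ℕ)) (u : (_ : ℕ) × (ℕ × ℕ))
    (hu : u.1 < q) : |AuxG_f q ε v u| ≤ (q : ℤ) ^ (2 * (v.2.2 + v.2.1)) := by
  have hq0 : (0 : ℤ) < q := by exact_mod_cast hq
  unfold AuxG_f
  by_cases h1 : u.2.1 ≤ v.2.1 ∧ u.2.2 ≤ v.2.2
  · rw [if_pos h1, abs_mul, abs_mul, abs_mul, abs_of_pos (pow_pos hq0 _)]
    have h3 := abs_KZ_le hq (j := -(u.1 : ℤ)) (by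
      rw [abs_neg, abs_of_nonneg (by positivity)]
      exact_mod_cast hu.le) (v.2.2 - u.2.2)
    have h4 := abs_KZ_le hq (j := (u.1 : ℤ)) (by
      rw [abs_of_nonneg (by positivity)]
      exact_mod_cast hu.le) (v.2.1 - u.2.1)
    calc |ε v.1 u.1| * ((q : ℤ) ^ (2 * (u.2.2 + u.2.1)) * |KZ q (-(u.1 : ℤ)) (v.2.2 - u.2.2)| *
        |KZ q (u.1 : ℤ) (v.2.1 - u.2.1)|) ≤ 1 * ((q : ℤ) ^ (2 * (u.2.2 + u.2.1)) *
          (q : ℤ) ^ (2 * (v.2.2 - u.2.2)) * (q : ℤ) ^ (2 * (v.2.1 - u.2.1))) := by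
          refine mul_le_mul (hε _ _) ?_ (by positivity) zero_le_one
          refine mul_le_mul (mul_le_mul_of_nonneg_left h3 (pow_pos hq0 _).le) h4 (abs_nonneg _) ?_
          positivity
      _ = (q : ℤ) ^ (2 * (v.2.2 + v.2.1)) := by
          rw [one_mul, ← pow_add, ← pow_add]
          congr 1
          have := h1.1
          have := h1.2
          omega
  · rw [if_neg h1, abs_zero]
    positivity

private theorem AuxG_sum {r q n lam A : ℕ} {δ : ℝ} (ε : Fin r → ℕ → ℤ)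
    (T : ((_ : ℕ) × (ℕ × ℕ)) → ℤ) (hT : ∀ u, u ∉ AuxG_cs q n lam A δ → T u = 0)
    (P : ℕ → ℕ → ℤ[X]) (hP : ∀ i b a, (P i b).coeff a = T ⟨i, (b, a)⟩) (k : Fin r) (β s : ℕ) :
    ∑ u ∈ AuxG_cs q n lam A δ, AuxG_f q ε ⟨k, (β, s)⟩ u * T u =
      ∑ i ∈ range q, ε k i * cf q i (P i) β s := by
  have h1 : ∑ u ∈ AuxG_cs q n lam A δ, AuxG_f q ε ⟨k, (β, s)⟩ u * T u =
      ∑ u ∈ (range q).sigma fun _ => range (β + 1) ×ˢ range (s + 1),
        AuxG_f q ε ⟨k, (β, s)⟩ u * T u := by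
    refine Finset.sum_congr_of_eq_on_inter (fun u hu1 hu => ?_) (fun u _ hu => ?_) fun u _ _ => rfl
    · unfold AuxG_f
      rw [if_neg, zero_mul]
      rintro ⟨h2, h3⟩
      apply hu
      unfold AuxG_cs at hu1
      rw [mem_sigma] at hu1
      rw [mem_sigma, mem_product]
      exact ⟨hu1.1, mem_range.2 (Nat.lt_succ_of_le h2), mem_range.2 (Nat.lt_succ_of_le h3)⟩
    · rw [hT u hu, mul_zero]
  rw [h1, Finset.sum_sigma]
  refine Finset.sum_congr rfl fun i _ => ?_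
  unfold cf
  rw [Finset.sum_product, Finset.mul_sum]
  refine Finset.sum_congr rfl fun b hb => ?_
  rw [Finset.mul_sum]
  refine Finset.sum_congr rfl fun a ha => ?_
  unfold AuxG_f
  have h2 := Nat.lt_succ_iff.1 (mem_range.1 hb)
  have h3 := Nat.lt_succ_iff.1 (mem_range.1 ha)
  rw [if_pos ⟨h2, h3⟩, hP]
  ring

private theorem AuxG_cnt1 (L A : ℕ) (Z : ℝ) (hA : Z < A) :
    Z - L ≤ ((((range A).filter fun a : ℕ => L ≤ a ∧ (a : ℝ) ≤ Z).card : ℕ) : ℝ) := by
  rcases lt_or_ge Z L with h | h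
  · have h1 : (0 : ℝ) ≤ ((((range A).filter fun a : ℕ => L ≤ a ∧ (a : ℝ) ≤ Z).card : ℕ) : ℝ) :=
      Nat.cast_nonneg _
    linarith
  · have hZ : 0 ≤ Z := le_trans (Nat.cast_nonneg L) h
    have h1 : Icc L ⌊Z⌋₊ ⊆ (range A).filter fun a : ℕ => L ≤ a ∧ (a : ℝ) ≤ Z := by
      intro a ha
      rw [mem_Icc] at ha
      have h2 : (a : ℝ) ≤ Z := le_trans (by exact_mod_cast ha.2) (Nat.floor_le hZ)
      rw [mem_filter, mem_range]
      refine ⟨?_, ha.1, h2⟩
      have h3 : (a : ℝ) < A := lt_of_le_of_lt h2 hA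
      exact_mod_cast h3
    have h2 := card_le_card h1
    rw [Nat.card_Icc] at h2
    have h3 : L ≤ ⌊Z⌋₊ := Nat.le_floor h
    have h4 : ((⌊Z⌋₊ + 1 - L : ℕ) : ℝ) = (⌊Z⌋₊ : ℝ) + 1 - L := by
      rw [Nat.cast_sub (by omega)]
      push_cast
      ring
    have h5 : ((⌊Z⌋₊ + 1 - L : ℕ) : ℝ) ≤
        ((((range A).filter fun a : ℕ => L ≤ a ∧ (a : ℝ) ≤ Z).card : ℕ) : ℝ) := by exact_mod_cast h2
    have h6 := Nat.lt_floor_add_one Z
    linarith

private theorem AuxG_cnt2 (n lam A : ℕ) (Z : ℝ) (hA : Z < A) :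
    (lam : ℝ) * (Z - lam * n) ≤ ((((range lam ×ˢ range A).filter
      fun p : ℕ × ℕ => lam * n ≤ p.2 + n * p.1 ∧ (p.2 : ℝ) + (n : ℝ) * p.1 ≤ Z).card : ℕ) : ℝ) := by
  have hcard : ((range lam ×ˢ range A).filter
      fun p : ℕ × ℕ => lam * n ≤ p.2 + n * p.1 ∧ (p.2 : ℝ) + (n : ℝ) * p.1 ≤ Z).card =
      ∑ b ∈ range lam, ((range A).filter fun a : ℕ =>
        lam * n ≤ a + n * b ∧ (a : ℝ) + (n : ℝ) * b ≤ Z).card := by
    rw [card_filter, sum_product]
    refine sum_congr rfl fun b _ => ?_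
    rw [card_filter]
  rw [hcard, Nat.cast_sum]
  have hterm : ∀ b ∈ range lam, Z - lam * n ≤ ((((range A).filter fun a : ℕ =>
        lam * n ≤ a + n * b ∧ (a : ℝ) + (n : ℝ) * b ≤ Z).card : ℕ) : ℝ) := by
    intro b hb
    have hb1 := mem_range.1 hb
    have h1 := AuxG_cnt1 ((lam - b) * n) A (Z - n * b) (by
      have : (0 : ℝ) ≤ (n : ℝ) * b := by positivity
      linarith)
    have h2 : ((range A).filter fun a : ℕ => (lam - b) * n ≤ a ∧ (a : ℝ) ≤ Z - n * b) =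
        (range A).filter fun a : ℕ => lam * n ≤ a + n * b ∧ (a : ℝ) + (n : ℝ) * b ≤ Z := by
      refine filter_congr fun a _ => ?_
      have h3 : lam * n = (lam - b) * n + n * b := by
        rw [mul_comm n b, ← add_mul, Nat.sub_add_cancel hb1.le]
      constructor
      · rintro ⟨h4, h5⟩
        exact ⟨by omega, by linarith⟩
      · rintro ⟨h4, h5⟩
        exact ⟨by omega, by linarith⟩
    rw [h2] at h1
    refine le_trans (le_of_eq ?_) h1
    rw [Nat.cast_mul, Nat.cast_sub hb1.le]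
    ring
  refine le_trans (le_of_eq ?_) (sum_le_sum hterm)
  rw [sum_const, card_range, nsmul_eq_mul]

private theorem AuxG_gauss (q : ℕ) : ∑ i ∈ range q, (i : ℝ) = (q : ℝ) * (q - 1) / 2 := by
  induction q with
  | zero => simp
  | succ m ih =>
    rw [sum_range_succ, ih]
    push_cast
    ring

private theorem AuxG_countU {q n lam A : ℕ} {δ : ℝ} (hq : 2 ≤ q) (hA : δ * n < A) :
    (lam : ℝ) * n * (q * (δ - lam) - ((q : ℝ) - 1) / 2) ≤ ((AuxG_cs q n lam A δ).card : ℝ) := by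
  have hq0 : (0 : ℝ) < q := by
    have : 0 < q := by omega
    exact_mod_cast this
  unfold AuxG_cs
  rw [Finset.card_sigma, Nat.cast_sum]
  have hterm : ∀ i ∈ range q, (lam : ℝ) * n * (δ - lam - (i : ℝ) / q) ≤
      ((((range lam ×ˢ range A).filter fun p : ℕ × ℕ => lam * n ≤ p.2 + n * p.1 ∧
        (p.2 : ℝ) + (n : ℝ) * p.1 ≤ (δ - (i : ℝ) / q) * n).card : ℕ) : ℝ) := by
    intro i _
    have h1 := AuxG_cnt2 n lam A ((δ - (i : ℝ) / q) * n) (by
      have h2 : (0 : ℝ) ≤ (i : ℝ) / q * n := by positivity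
      nlinarith)
    refine le_trans (le_of_eq ?_) h1
    ring
  refine le_trans (le_of_eq ?_) (Finset.sum_le_sum hterm)
  rw [← Finset.mul_sum, Finset.sum_sub_distrib, Finset.sum_const, card_range, nsmul_eq_mul,
    ← Finset.sum_div, AuxG_gauss]
  field_simp

private theorem AuxG_countE {r n lam eta : ℕ} (hn : 1 ≤ n) :
    ((AuxG_rs r n lam eta).card : ℝ) = (r : ℝ) * n * (eta * lam + eta * (eta + 1) / 2) := by
  unfold AuxG_rs
  rw [Finset.card_sigma, Finset.sum_const, card_univ, Fintype.card_fin, smul_eq_mul]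
  have h1 := card_rows (lam := lam + eta) hn
  have h2 := card_rows (lam := lam) hn
  have h3 : ((range (lam + eta) ×ˢ range ((lam + eta) * n)).filter
      fun p : ℕ × ℕ => p.2 + n * p.1 < (lam + eta) * n).card =
      ((range (lam + eta) ×ˢ range ((lam + eta) * n)).filter
        fun p : ℕ × ℕ => p.2 + n * p.1 < (lam + eta) * n ∧ lam * n ≤ p.2 + n * p.1).card +
      ((range lam ×ˢ range (lam * n)).filter
        fun p : ℕ × ℕ => p.2 + n * p.1 < lam * n).card := by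
    rw [← card_union_of_disjoint]
    · congr 1
      ext p
      rw [mem_union, mem_filter, mem_filter, mem_filter, mem_product, mem_product, mem_range,
        mem_range, mem_range, mem_range]
      have h5 : (lam + eta) * n = lam * n + eta * n := by ring
      constructor
      · rintro ⟨⟨h6, h7⟩, h8⟩
        by_cases h9 : lam * n ≤ p.2 + n * p.1
        · exact Or.inl ⟨⟨h6, h7⟩, h8, h9⟩
        · refine Or.inr ⟨⟨?_, ?_⟩, by omega⟩
          · by_contra hlt
            have h10 : lam * n ≤ n * p.1 := by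
              rw [mul_comm]
              exact Nat.mul_le_mul_left n (not_lt.1 hlt)
            omega
          · have : p.2 ≤ p.2 + n * p.1 := Nat.le_add_right _ _
            omega
      · rintro (⟨⟨h6, h7⟩, h8, -⟩ | ⟨⟨h6, h7⟩, h8⟩)
        · exact ⟨⟨h6, h7⟩, h8⟩
        · refine ⟨⟨by omega, ?_⟩, ?_⟩
          · rw [h5]
            omega
          · rw [h5]
            omega
    · rw [disjoint_left]
      intro p hp hp'
      rw [mem_filter] at hp hp'
      have := hp.2.2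
      have := hp'.2
      omega
  rw [h3] at h1
  have h4 : ((2 * (((range (lam + eta) ×ˢ range ((lam + eta) * n)).filter
        fun p : ℕ × ℕ => p.2 + n * p.1 < (lam + eta) * n ∧ lam * n ≤ p.2 + n * p.1).card +
      ((range lam ×ˢ range (lam * n)).filter
        fun p : ℕ × ℕ => p.2 + n * p.1 < lam * n).card) : ℕ) : ℝ) =
      ((n * ((lam + eta) * (lam + eta + 1)) : ℕ) : ℝ) := by rw [h1]
  have h5 : ((2 * ((range lam ×ˢ range (lam * n)).filter
        fun p : ℕ × ℕ => p.2 + n * p.1 < lam * n).card : ℕ) : ℝ) =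
      ((n * (lam * (lam + 1)) : ℕ) : ℝ) := by rw [h2]
  push_cast at h4 h5
  rw [Nat.cast_mul]
  linear_combination ((r : ℝ) / 2) * (h4 - h5)

theorem auxG {q lam eta r : ℕ} {δ : ℝ} (hq : 2 ≤ q) (he : 1 ≤ eta) (hr : 1 ≤ r)
    (hl : eta * (eta + 1) ≤ lam)
    (hδ : (r : ℝ) * (eta * lam + eta * (eta + 1) / 2) + lam / 2 ≤
      lam * (q * (δ - lam) - ((q : ℝ) - 1) / 2))
    (ε : Fin r → ℕ → ℤ) (hε : ∀ k i, |ε k i| ≤ 1) : ∃ C : ℝ, 1 ≤ C ∧ ∀ n : ℕ, 1 ≤ n →
    ∃ P : ℕ → ℕ → ℤ[X], (∃ i b, i < q ∧ b < lam ∧ P i b ≠ 0) ∧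
      (∀ i b a, (P i b).coeff a ≠ 0 → i < q ∧ b < lam ∧ lam * n ≤ a + n * b ∧
        (a : ℝ) + (n : ℝ) * b + (i : ℝ) * n / q ≤ δ * n) ∧
      (∀ i b a, |((P i b).coeff a : ℝ)| ≤ C ^ n) ∧
      ∀ k β s, s + n * β < (lam + eta) * n → ∑ i ∈ range q, ε k i * cf q i (P i) β s = 0 := by
  have hq1 : (1 : ℝ) ≤ q := by
    have : 1 ≤ q := by omega
    exact_mod_cast this
  have he1 : (1 : ℝ) ≤ eta := by exact_mod_cast he
  have hr1 : (1 : ℝ) ≤ r := by exact_mod_cast hr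
  have hlR : (eta : ℝ) * (eta + 1) ≤ lam := by exact_mod_cast hl
  have hl1 : (1 : ℝ) ≤ lam := by nlinarith
  have hδ0 : 0 ≤ δ := by
    by_contra hneg
    push Not at hneg
    have h1 : (q : ℝ) * (δ - lam) - ((q : ℝ) - 1) / 2 < 0 := by nlinarith
    have h2 : (lam : ℝ) * (q * (δ - lam) - ((q : ℝ) - 1) / 2) < 0 :=
      mul_neg_of_pos_of_neg (by linarith) h1
    have h3 : 0 ≤ (r : ℝ) * (eta * lam + eta * (eta + 1) / 2) := by positivity
    linarith
  obtain ⟨C₁, hC₁⟩ : ∃ C₁ : ℝ, C₁ = q * (lam * (δ + 1)) := ⟨_, rfl⟩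
  have hC₁1 : 1 ≤ C₁ := by
    rw [hC₁]
    have h1 : 1 ≤ (lam : ℝ) * (δ + 1) := by nlinarith
    nlinarith
  obtain ⟨G, hG⟩ : ∃ G : ℕ, G = 2 * r * (eta + 1) := ⟨_, rfl⟩
  refine ⟨(2 * C₁ * (q : ℝ) ^ (2 * (lam + eta))) ^ G, ?_, fun n hn => ?_⟩
  · refine one_le_pow₀ ?_
    have h1 : (1 : ℝ) ≤ (q : ℝ) ^ (2 * (lam + eta)) := one_le_pow₀ hq1
    nlinarith
  · obtain ⟨A, hA⟩ : ∃ A : ℕ, A = ⌊δ * n⌋₊ + 1 := ⟨_, rfl⟩
    have hn1 : (1 : ℝ) ≤ n := by exact_mod_cast hn
    have hA1 : δ * n < A := by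
      rw [hA]
      push_cast
      exact Nat.lt_floor_add_one _
    have hA2 : (A : ℝ) ≤ (δ + 1) * n := by
      rw [hA]
      push_cast
      have := Nat.floor_le (show (0 : ℝ) ≤ δ * n by positivity)
      nlinarith
    have hE := AuxG_countE (r := r) (lam := lam) (eta := eta) hn
    have hU := AuxG_countU (lam := lam) hq hA1
    obtain ⟨c, hc⟩ : ∃ c, c = AuxG_cs q n lam A δ := ⟨_, rfl⟩
    obtain ⟨rs, hrs⟩ : ∃ rs, rs = AuxG_rs r n lam eta := ⟨_, rfl⟩
    rw [← hc] at hU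
    rw [← hrs] at hE
    have hEpos : 0 < (rs.card : ℝ) := by
      rw [hE]
      positivity
    have hdiff : (lam : ℝ) * n / 2 ≤ (c.card : ℝ) - rs.card := by
      have h1 := mul_le_mul_of_nonneg_right hδ (show (0 : ℝ) ≤ n by linarith)
      rw [hE]
      nlinarith
    have hlt : rs.card < c.card := by
      have h1 : 0 < (lam : ℝ) * n / 2 := by positivity
      have : (rs.card : ℝ) < c.card := by linarith
      exact_mod_cast this
    have hexp : (rs.card : ℝ) ≤ G * ((c.card : ℝ) - rs.card) := by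
      have h1 := mul_le_mul_of_nonneg_left hdiff (show (0 : ℝ) ≤ G from Nat.cast_nonneg G)
      refine le_trans ?_ h1
      rw [hE, hG]
      push_cast
      have h2 : (eta : ℝ) * lam + eta * (eta + 1) / 2 ≤ (eta + 1) * lam := by nlinarith
      have h3 := mul_le_mul_of_nonneg_left h2 (show (0 : ℝ) ≤ r * n by positivity)
      nlinarith
    have hQ1 : (1 : ℝ) ≤ (q : ℝ) ^ (2 * (lam + eta) * n) := one_le_pow₀ hq1
    obtain ⟨t, ht0, ht1, ht2⟩ := AuxG_siegel (α := {v // v ∈ rs}) (β := {u // u ∈ c})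
      (Matrix.of fun v u => AuxG_f q ε v.1 u.1) G
      (by rw [Fintype.card_coe, Fintype.card_coe]; exact hlt)
      (by rw [Fintype.card_coe]; exact_mod_cast hEpos)
      (by rw [Fintype.card_coe, Fintype.card_coe]; exact hexp) ((q : ℝ) ^ (2 * (lam + eta) * n)) hQ1
      (fun v u => by
        have hv : v.1 ∈ AuxG_rs r n lam eta := by
          rw [← hrs]
          exact v.2
        have hu : u.1 ∈ AuxG_cs q n lam A δ := by
          rw [← hc]
          exact u.2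
        unfold AuxG_rs at hv
        unfold AuxG_cs at hu
        rw [mem_sigma, mem_filter] at hv hu
        have h1 := AuxG_le (by omega : 1 ≤ q) ε hε v.1 u.1 (mem_range.1 hu.1)
        have h2 : ((|AuxG_f q ε v.1 u.1| : ℤ) : ℝ) ≤
          (((q : ℤ) ^ (2 * (v.1.2.2 + v.1.2.1)) : ℤ) : ℝ) := by exact_mod_cast h1
        rw [Int.cast_abs] at h2
        refine h2.trans ?_
        push_cast
        refine pow_le_pow_right₀ hq1 ?_
        have h3 := hv.2.2.1
        have h4 : v.1.2.1 ≤ n * v.1.2.1 := Nat.le_mul_of_pos_left _ hn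
        have h5 : 2 * (lam + eta) * n = 2 * ((lam + eta) * n) := by ring
        rw [h5]
        omega)
    obtain ⟨T, hT⟩ : ∃ T : ((_ : ℕ) × (ℕ × ℕ)) → ℤ,
        T = fun u => if h : u ∈ c then t ⟨u, h⟩ else 0 := ⟨_, rfl⟩
    have hT1 : ∀ u (h : u ∈ c), T u = t ⟨u, h⟩ := fun u h => by rw [hT]; exact dif_pos h
    have hT0 : ∀ u, u ∉ c → T u = 0 := fun u h => by rw [hT]; exact dif_neg h
    have hk : ∀ v ∈ rs, ∑ u ∈ c, AuxG_f q ε v u * T u = 0 := by
      intro v hv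
      have h1 := congrFun ht1 ⟨v, hv⟩
      rw [← Finset.sum_coe_sort c fun u => AuxG_f q ε v u * T u]
      refine Eq.trans ?_ h1
      show _ = ∑ u : {u // u ∈ c}, _ * t u
      exact Finset.sum_congr rfl fun u _ => by rw [hT1 u.1 u.2]; rfl
    have hmem : ∀ i b a, T ⟨i, (b, a)⟩ ≠ 0 → i < q ∧ b < lam ∧ a < A ∧ lam * n ≤ a + n * b ∧
        (a : ℝ) + (n : ℝ) * b ≤ (δ - (i : ℝ) / q) * n := by
      intro i b a h
      have h1 : (⟨i, (b, a)⟩ : (_ : ℕ) × (ℕ × ℕ)) ∈ c := by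
        by_contra h2
        exact h (hT0 _ h2)
      rw [hc] at h1
      unfold AuxG_cs at h1
      rw [mem_sigma, mem_filter, mem_product, mem_range, mem_range, mem_range] at h1
      exact ⟨h1.1, h1.2.1.1, h1.2.1.2, h1.2.2.1, h1.2.2.2⟩
    obtain ⟨P, hP⟩ : ∃ P : ℕ → ℕ → ℤ[X],
        P = fun i b => ∑ a ∈ range A, C (T ⟨i, (b, a)⟩) * X ^ a := ⟨_, rfl⟩
    have hco : ∀ i b a, (P i b).coeff a = T ⟨i, (b, a)⟩ := by
      intro i b a
      rw [hP]
      show (∑ a' ∈ range A, C (T ⟨i, (b, a')⟩) * X ^ a').coeff a = _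
      rw [Polynomial.finsetSum_coeff]
      simp only [coeff_C_mul_X_pow]
      rw [Finset.sum_ite_eq (range A) a]
      split_ifs with h
      · rfl
      · by_contra h2
        exact h (mem_range.2 (hmem i b a (Ne.symm h2)).2.2.1)
    refine ⟨P, ?_, fun i b a h => ?_, fun i b a => ?_, fun k β s hs => ?_⟩
    · obtain ⟨u, hu⟩ := Function.ne_iff.1 ht0
      have h1 : T u.1 ≠ 0 := by
        rw [hT1 u.1 u.2]
        exact hu
      refine ⟨u.1.1, u.1.2.1, (hmem _ _ u.1.2.2 h1).1, (hmem _ _ u.1.2.2 h1).2.1, fun h2 => h1 ?_⟩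
      rw [← hco u.1.1 u.1.2.1 u.1.2.2, h2, coeff_zero]
    · rw [hco] at h
      obtain ⟨h1, h4, -, h5, h2⟩ := hmem i b a h
      refine ⟨h1, h4, h5, ?_⟩
      have h3 : (δ - (i : ℝ) / q) * n = δ * n - (i : ℝ) * n / q := by ring
      rw [h3] at h2
      linarith
    · rw [hco]
      have hcc : (c.card : ℝ) ≤ (2 * C₁) ^ n := by
        have h1 : c.card ≤ q * (lam * A) := by
          rw [hc]
          unfold AuxG_cs
          rw [Finset.card_sigma]
          refine (Finset.sum_le_card_nsmul (range q) _ (lam * A) fun i _ => ?_).trans ?_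
          · refine (Finset.card_filter_le _ _).trans ?_
            rw [Finset.card_product, card_range, card_range]
          · rw [card_range, smul_eq_mul]
        have h2 : (c.card : ℝ) ≤ q * (lam * A) := by exact_mod_cast h1
        have h3 : (lam : ℝ) * A ≤ lam * ((δ + 1) * n) :=
          mul_le_mul_of_nonneg_left hA2 (by linarith)
        have h4 : (c.card : ℝ) ≤ C₁ * n := by
          refine h2.trans ?_
          rw [hC₁]
          nlinarith [mul_le_mul_of_nonneg_left h3 (show (0 : ℝ) ≤ q by linarith)]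
        have h5 : (n : ℝ) ≤ 2 ^ n := by exact_mod_cast (Nat.lt_two_pow_self).le
        have h6 : C₁ ≤ C₁ ^ n := le_self_pow₀ hC₁1 (Nat.one_le_iff_ne_zero.1 hn)
        rw [mul_pow]
        calc (c.card : ℝ) ≤ C₁ * n := h4
          _ ≤ C₁ ^ n * 2 ^ n := mul_le_mul h6 h5 (by linarith) (by linarith)
          _ = 2 ^ n * C₁ ^ n := mul_comm _ _
      have h7 : |(T ⟨i, (b, a)⟩ : ℝ)| ≤ ((c.card : ℝ) * (q : ℝ) ^ (2 * (lam + eta) * n)) ^ G := by
        by_cases h : (⟨i, (b, a)⟩ : (_ : ℕ) × (ℕ × ℕ)) ∈ c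
        · rw [hT1 _ h]
          have h8 := ht2 ⟨_, h⟩
          rwa [Fintype.card_coe] at h8
        · rw [hT0 _ h, Int.cast_zero, abs_zero]
          positivity
      refine h7.trans ?_
      have h9 : ((2 * C₁ * (q : ℝ) ^ (2 * (lam + eta))) ^ G) ^ n =
          ((2 * C₁) ^ n * (q : ℝ) ^ (2 * (lam + eta) * n)) ^ G := by
        rw [← pow_mul, mul_comm G n, pow_mul, mul_pow (2 * C₁), ← pow_mul]
      rw [h9]
      have h10 : 0 ≤ (c.card : ℝ) * (q : ℝ) ^ (2 * (lam + eta) * n) := by positivity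
      exact pow_le_pow_left₀ h10 (mul_le_mul_of_nonneg_right hcc (by positivity)) G
    · by_cases hs2 : lam * n ≤ s + n * β
      · have hv : (⟨k, (β, s)⟩ : (_ : Fin r) × (ℕ × ℕ)) ∈ rs := by
          rw [hrs]
          unfold AuxG_rs
          rw [mem_sigma, mem_filter, mem_product, mem_range, mem_range]
          refine ⟨mem_univ _, ⟨?_, ?_⟩, hs, hs2⟩
          · by_contra hlt2
            have h1 : (lam + eta) * n ≤ n * β := by
              rw [mul_comm]
              exact Nat.mul_le_mul_left n (not_lt.1 hlt2)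
            omega
          · exact lt_of_le_of_lt (Nat.le_add_right _ _) hs
        have h1 := hk _ hv
        rw [hc] at h1 hT0
        rw [AuxG_sum ε T hT0 P hco k β s] at h1
        exact h1
      · refine Finset.sum_eq_zero fun i _ => ?_
        have h1 : cf q i (P i) β s = 0 := by
          unfold cf
          refine Finset.sum_eq_zero fun b hb => Finset.sum_eq_zero fun a ha => ?_
          have h2 : (P i b).coeff a = 0 := by
            rw [hco]
            by_contra h3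
            have h4 := (hmem i b a h3).2.2.2.1
            have h5 := Nat.lt_succ_iff.1 (mem_range.1 hb)
            have h6 := Nat.lt_succ_iff.1 (mem_range.1 ha)
            have h7 := Nat.mul_le_mul_left n h5
            omega
          rw [h2]
          ring
        rw [h1, mul_zero]

end Pool.Agent.NLG
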