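import Pool.Agent.NLG.AuxG

/-!
NLG-AuxS: the two special cases of auxG.

PLAN.  cf_zero: KZ_zero_left, KZ_zero_right: only b = β, a = s remain.  auxE: r = q - 1,
ε k i = if i = k + 1 then 1 else if i = 0 then -1 else 0, lam = q eta (eta+1), δ = delE:
q (δ - lam) = (q-1) eta + q.  The sum over i is cf q (k+1) (P (k+1)) β s - cf q 0 (P 0) β s.
auxD: r = 1, ε = 1, δ = delD: q (δ - lam) = eta + q.
-/

namespace Pool.Agent.NLG

open Finset Polynomial

theorem cf_zero {q : ℕ} (hq : 1 ≤ q) (P : ℕ → ℤ[X]) (β s : ℕ) :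
    cf q 0 P β s = (P β).coeff s * (q : ℤ) ^ (2 * (s + β)) := by
  unfold cf
  simp only [Nat.cast_zero, neg_zero]
  rw [sum_eq_single β]
  · rw [sum_eq_single s]
    · rw [Nat.sub_self, Nat.sub_self, KZ_zero_right hq, mul_one, mul_one]
    · intro a ha hne
      have h1 : 1 ≤ s - a := by
        have := mem_range.mp ha
        omega
      rw [KZ_zero_left hq h1, mul_zero, zero_mul]
    · intro h
      exact absurd (mem_range.mpr (Nat.lt_succ_self s)) h
  · intro b hb hne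
    have h1 : 1 ≤ β - b := by
      have := mem_range.mp hb
      omega
    refine sum_eq_zero fun a _ => ?_
    rw [KZ_zero_left hq h1, mul_zero]
  · intro h
    exact absurd (mem_range.mpr (Nat.lt_succ_self β)) h

private theorem AuxS_lam {q lam eta : ℕ} (hl : lam = q * (eta * (eta + 1))) :
    (lam : ℝ) = q * (eta * (eta + 1)) := by
  rw [hl]
  push_cast
  ring

private theorem AuxS_le {q lam eta : ℕ} (hq : 2 ≤ q) (hl : lam = q * (eta * (eta + 1))) :
    eta * (eta + 1) ≤ lam := by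
  rw [hl]
  exact Nat.le_mul_of_pos_left _ (by omega)

private theorem AuxS_dE {q lam eta : ℕ} (hq : 2 ≤ q) :
    (q : ℝ) * (delE q lam eta - lam) = (q - 1) * eta + q := by
  have h0 : (q : ℝ) ≠ 0 := by
    have : q ≠ 0 := by omega
    exact_mod_cast this
  unfold delE
  field_simp
  ring

private theorem AuxS_dD {q lam eta : ℕ} (hq : 2 ≤ q) :
    (q : ℝ) * (delD q lam eta - lam) = eta + q := by
  have h0 : (q : ℝ) ≠ 0 := by
    have : q ≠ 0 := by omega
    exact_mod_cast this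
  unfold delD
  field_simp
  ring

theorem auxE {q lam eta : ℕ} (hq : 2 ≤ q) (he : 1 ≤ eta) (hl : lam = q * (eta * (eta + 1))) :
    ∃ C : ℝ, 1 ≤ C ∧ ∀ n : ℕ, 1 ≤ n →
    ∃ P : ℕ → ℕ → ℤ[X], (∃ i b, i < q ∧ b < lam ∧ P i b ≠ 0) ∧
      (∀ i b a, (P i b).coeff a ≠ 0 → i < q ∧ b < lam ∧ lam * n ≤ a + n * b ∧
        (a : ℝ) + (n : ℝ) * b + (i : ℝ) * n / q ≤ delE q lam eta * n) ∧
      (∀ i b a, |((P i b).coeff a : ℝ)| ≤ C ^ n) ∧ Van q n ((lam + eta) * n) P := by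
  have hq2 : (2 : ℝ) ≤ q := by exact_mod_cast hq
  have hlr := AuxS_lam hl
  have he0 : (0 : ℝ) ≤ (eta : ℝ) * (eta + 1) := by positivity
  have hcast : ((q - 1 : ℕ) : ℝ) = (q : ℝ) - 1 := by
    rw [Nat.cast_sub (by omega), Nat.cast_one]
  have hδ : ((q - 1 : ℕ) : ℝ) * (eta * lam + eta * (eta + 1) / 2) + lam / 2 ≤
      lam * (q * (delE q lam eta - lam) - ((q : ℝ) - 1) / 2) := by
    rw [AuxS_dE hq, hcast, hlr]
    set t : ℝ := (eta : ℝ) * (eta + 1) with ht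
    nlinarith [mul_nonneg he0 (sub_nonneg.mpr hq2), mul_nonneg (mul_nonneg he0 (sub_nonneg.mpr hq2))
      (sub_nonneg.mpr hq2)]
  obtain ⟨C, hC, h⟩ := auxG (r := q - 1) (δ := delE q lam eta) hq he (by omega) (AuxS_le hq hl) hδ
    (fun k i => (if i = (k : ℕ) + 1 then 1 else 0) - (if i = 0 then 1 else 0))
    (fun k i => by
      by_cases h1 : i = (k : ℕ) + 1
      · have h2 : i ≠ 0 := by omega
        rw [if_pos h1, if_neg h2]
        norm_num
      · rw [if_neg h1]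
        by_cases h2 : i = 0
        · rw [if_pos h2]
          norm_num
        · rw [if_neg h2]
          norm_num)
  refine ⟨C, hC, fun n hn => ?_⟩
  obtain ⟨P, h1, h2, h3, h4⟩ := h n hn
  refine ⟨P, h1, h2, h3, ?_⟩
  intro i hi1 hiq β s hs
  have hk := h4 ⟨i - 1, by omega⟩ β s hs
  have hi : i - 1 + 1 = i := by omega
  simp only [hi, sub_mul, ite_mul, one_mul, zero_mul, sum_sub_distrib] at hk
  rw [sum_ite_eq' (range q) i, sum_ite_eq' (range q) 0, if_pos (mem_range.mpr hiq),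
    if_pos (mem_range.mpr (by omega)), cf_zero (by omega)] at hk
  have hk2 := sub_eq_zero.mp hk
  unfold cf at hk2
  exact hk2

theorem auxD {q lam eta : ℕ} (hq : 2 ≤ q) (he : 1 ≤ eta) (hl : lam = q * (eta * (eta + 1))) :
    ∃ C : ℝ, 1 ≤ C ∧ ∀ n : ℕ, 1 ≤ n →
    ∃ P : ℕ → ℕ → ℤ[X], (∃ i b, i < q ∧ b < lam ∧ P i b ≠ 0) ∧
      (∀ i b a, (P i b).coeff a ≠ 0 → i < q ∧ b < lam ∧ lam * n ≤ a + n * b ∧
        (a : ℝ) + (n : ℝ) * b + (i : ℝ) * n / q ≤ delD q lam eta * n) ∧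
      (∀ i b a, |((P i b).coeff a : ℝ)| ≤ C ^ n) ∧ VanD q n ((lam + eta) * n) P := by
  have hq2 : (2 : ℝ) ≤ q := by exact_mod_cast hq
  have hlr := AuxS_lam hl
  have he0 : (0 : ℝ) ≤ (eta : ℝ) * (eta + 1) := by positivity
  have hδ : ((1 : ℕ) : ℝ) * (eta * lam + eta * (eta + 1) / 2) + lam / 2 ≤
      lam * (q * (delD q lam eta - lam) - ((q : ℝ) - 1) / 2) := by
    rw [AuxS_dD hq, Nat.cast_one, hlr]
    set t : ℝ := (eta : ℝ) * (eta + 1) with ht
    nlinarith [mul_nonneg he0 (sub_nonneg.mpr hq2), mul_nonneg (mul_nonneg he0 (sub_nonneg.mpr hq2))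
      (sub_nonneg.mpr hq2)]
  obtain ⟨C, hC, h⟩ := auxG (r := 1) (δ := delD q lam eta) hq he le_rfl (AuxS_le hq hl) hδ
    (fun _ _ => 1) (fun _ _ => by norm_num)
  refine ⟨C, hC, fun n hn => ?_⟩
  obtain ⟨P, h1, h2, h3, h4⟩ := h n hn
  refine ⟨P, h1, h2, h3, ?_⟩
  intro β s hs
  have hk := h4 0 β s hs
  simp only [one_mul] at hk
  exact hk

end Pool.Agent.NLG
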