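import Pool.Agent.NLG.Kap

/-!
NLG-DivX: if all monomials `x^a w^b` of the forms have `a + n b ≥ N1` then `x^(N1-l) ∣ vv l`.

PLAN.  It is enough to show, for an integer polynomial p = P i b (zp P i b = p.comp (1-X)) with
all coefficients of X^a zero for a + n b < N1, that x^(N1-l) divides
x^(n b) * (zp P i b).sum (fun d c => c * (1-x)^d * KZ q (q d - i) l).
Λ (g) := g.sum (fun d c => c * z^d * KZ q (q d - i) l), z = 1 - x, is additive in g : ℤ[X]
(Polynomial.sum_add_index etc.), and for g = (1 - X)^a: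
Λ ((1-X)^a) = ∑ m ≤ l, q^(2m) * choose a m * x^(a-m) * z^m * KZ q (-i) (l-m) for z = 1 - x.
Proof: (1 - X)^a = ∑ d, (-1)^d choose a d X^d and KZ q (q d - i) l = ∑ m ≤ l, KZ q (q d) m * KZ q (-i) (l-m)
(KZ_add), KZ q (q d) m = q^(2m) (-1)^m choose d m (KZ_cast, kap d m = (-1)^m choose d m:
Ring.choose_natCast), and ∑ d, (-1)^d choose a d z^d (-1)^m choose d m =
choose a m (-1)^m (-z)^m (1 - z)^(a-m) = choose a m z^m x^(a-m) (Nat.choose_mul: choose a d choose d m =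
choose a m choose (a-m) (d-m)); for m > a both sides are 0.
Alternative: induction on a with Λ_l ((1-X)^(a+1)) = x Λ_l ((1-X)^a) - z(...)Λ_(l-1): since
(1 - X) X^d: KZ q (q (d+1) - i) l = KZ q (q d - i) l - q^2 KZ q (q d - i) (l-1), one gets
Λ_(l+1) ((1-X) g) = (1 - z) Λ_(l+1) g + q^2 z Λ_l g (for every g), Λ_0 g = g(z): so x^(a-l) ∣ Λ_l ((1-X)^a) by
induction on a (x = 1 - z), with natural subtraction a - l.  This is probably the shortest way.
Then x^(a-l) ∣ Λ_l ((1-X)^a), and a + n b ≥ N1 gives (a - l) + n b ≥ N1 - l.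
-/

namespace Pool.Agent.NLG

open Finset Polynomial

private noncomputable def DivX_lam (q : ℕ) (i z : ℤ) (l : ℕ) : ℤ[X] →ₗ[ℤ] ℤ :=
  Polynomial.lsum fun d => (z ^ d * KZ q ((q : ℤ) * d - i) l) • LinearMap.id

private theorem DivX_lam_apply (q : ℕ) (i z : ℤ) (l : ℕ) (g : ℤ[X]) :
    DivX_lam q i z l g = g.sum fun d c => c * z ^ d * KZ q ((q : ℤ) * d - i) l := by
  unfold DivX_lam
  rw [Polynomial.lsum_apply]
  unfold Polynomial.sum
  refine Finset.sum_congr rfl fun d _ => ?_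
  simp only [LinearMap.smul_apply, LinearMap.id_coe, id_eq, smul_eq_mul]
  ring

private theorem DivX_lam_monomial (q : ℕ) (i z : ℤ) (l d : ℕ) (c : ℤ) :
    DivX_lam q i z l (monomial d c) = c * z ^ d * KZ q ((q : ℤ) * d - i) l := by
  rw [DivX_lam_apply, Polynomial.sum_monomial_index]
  ring

private theorem DivX_KZ {q : ℕ} (hq : 1 ≤ q) (j : ℤ) (l : ℕ) :
    KZ q ((q : ℤ) + j) (l + 1) = KZ q j (l + 1) - (q : ℤ) ^ 2 * KZ q j l := by
  rw [KZ_add hq, sum_range_succ', sum_range_succ']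
  have h : ∑ k ∈ range l, KZ q (q : ℤ) (k + 1 + 1) * KZ q j (l + 1 - (k + 1 + 1)) = 0 := by
    refine Finset.sum_eq_zero fun k _ => ?_
    rw [KZ_self hq (by omega), zero_mul]
  rw [h, KZ_self_one hq, KZ_zero_right hq]
  simp only [Nat.add_sub_cancel, Nat.sub_zero, zero_add]
  ring

private theorem DivX_step {q : ℕ} (hq : 1 ≤ q) (i z : ℤ) (l : ℕ) (g : ℤ[X]) :
    DivX_lam q i z (l + 1) ((1 - X) * g) =
      (1 - z) * DivX_lam q i z (l + 1) g + (q : ℤ) ^ 2 * z * DivX_lam q i z l g := by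
  induction g using Polynomial.induction_on' with
  | add f g hf hg =>
    rw [mul_add, map_add, map_add, map_add, hf, hg]
    ring
  | monomial d c =>
    have h1 : (1 - X) * (monomial d c : ℤ[X]) = monomial d c - monomial (d + 1) c := by
      rw [sub_mul, one_mul, Polynomial.X_mul_monomial]
    rw [h1, map_sub, DivX_lam_monomial, DivX_lam_monomial, DivX_lam_monomial]
    have h2 : (q : ℤ) * ((d + 1 : ℕ) : ℤ) - i = (q : ℤ) + ((q : ℤ) * d - i) := by
      push_cast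
      ring
    rw [h2, DivX_KZ hq]
    ring

private theorem DivX_zero {q : ℕ} (hq : 1 ≤ q) (i z : ℤ) (g : ℤ[X]) :
    DivX_lam q i z 0 g = g.eval z := by
  rw [DivX_lam_apply, Polynomial.eval_eq_sum]
  unfold Polynomial.sum
  refine Finset.sum_congr rfl fun d _ => ?_
  simp only [KZ_zero_right hq, mul_one]

private theorem DivX_pow {q : ℕ} (hq : 1 ≤ q) (i z : ℤ) (a l : ℕ) :
    (1 - z) ^ (a - l) ∣ DivX_lam q i z l ((1 - X) ^ a) := by
  induction a generalizing l with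
  | zero => rw [Nat.zero_sub, pow_zero]; exact one_dvd _
  | succ a ih =>
    rcases l with _ | l
    · rw [DivX_zero hq]
      simp
    · rw [pow_succ', DivX_step hq]
      refine dvd_add ?_ ?_
      · refine (pow_dvd_pow (1 - z) (show a + 1 - (l + 1) ≤ 1 + (a - (l + 1)) by omega)).trans ?_
        rw [pow_add, pow_one]
        exact mul_dvd_mul_left _ (ih (l + 1))
      · rw [Nat.add_sub_add_right]
        exact Dvd.dvd.mul_left (ih l) _

private theorem DivX_comp {q n N1 b : ℕ} (hq : 1 ≤ q) {p : ℤ[X]}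
    (hp : ∀ a, p.coeff a ≠ 0 → N1 ≤ a + n * b) (i x : ℤ) (l : ℕ) :
    x ^ (N1 - l) ∣ (x ^ n) ^ b * DivX_lam q i (1 - x) l (p.comp (1 - X)) := by
  rw [Polynomial.comp, Polynomial.eval₂_eq_sum]
  unfold Polynomial.sum
  rw [map_sum, Finset.mul_sum]
  refine Finset.dvd_sum fun a ha => ?_
  beta_reduce
  have h1 : (C (p.coeff a) * (1 - X) ^ a : ℤ[X]) = p.coeff a • (1 - X) ^ a := by
    rw [Polynomial.smul_eq_C_mul]
  rw [h1, map_smul, smul_eq_mul]
  have h2 := DivX_pow hq i (1 - x) a l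
  rw [sub_sub_cancel] at h2
  have h3 := hp a (Polynomial.mem_support_iff.1 ha)
  have h4 : x ^ (N1 - l) ∣ (x ^ n) ^ b * x ^ (a - l) := by
    rw [← pow_mul, ← pow_add]
    exact pow_dvd_pow x (by omega)
  refine h4.trans ?_
  exact mul_dvd_mul_left _ (Dvd.dvd.mul_left h2 _)

theorem divX {q n N1 B : ℕ} (hq : 1 ≤ q) {P : ℕ → ℕ → ℤ[X]}
    (hP : ∀ i b a, (P i b).coeff a ≠ 0 → N1 ≤ a + n * b) (x y : ℤ) (l : ℕ) :
    x ^ (N1 - l) ∣ vv q B (zp P) (1 - x) (x ^ n) y l := by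
  unfold vv zp
  refine Finset.dvd_sum fun i _ => Finset.dvd_sum fun b _ => ?_
  have h := DivX_comp hq (hP i b) (i : ℤ) x l
  rw [← DivX_lam_apply]
  have h1 : (x ^ n) ^ b * y ^ i * DivX_lam q (i : ℤ) (1 - x) l ((P i b).comp (1 - X)) =
      y ^ i * ((x ^ n) ^ b * DivX_lam q (i : ℤ) (1 - x) l ((P i b).comp (1 - X))) := by
    ring
  rw [h1]
  exact Dvd.dvd.mul_left h _

end Pool.Agent.NLG
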