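import Pool.Agent.NLG.SizeG
import Pool.Agent.NLG.DivX
import Pool.Agent.NLG.ZLem

/-!
NLG-Core: a non-zero derivative value, its size and its divisibility by a power of x.
-/

namespace Pool.Agent.NLG

open Finset Polynomial

private theorem le_pow_self2 {a : ℝ} (ha : 1 ≤ a) {n : ℕ} (hn : 1 ≤ n) : a ≤ a ^ n :=
  le_self_pow₀ ha (by omega)

private theorem nat_le_two_pow2 (n : ℕ) : (n : ℝ) ≤ 2 ^ n := by
  exact_mod_cast (Nat.lt_two_pow_self (n := n)).le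

/-- The right side of the zero estimate is at most `D3 ^ n`. -/
private theorem zbound2 {q K : ℕ} (hq : 1 ≤ q) {δ D2 : ℝ} (hδ : 0 ≤ δ) (hD2 : 1 ≤ D2) :
    ∃ D3 : ℝ, 1 ≤ D3 ∧ ∀ n R H : ℕ, 1 ≤ n → (R : ℝ) ≤ δ * n → (H : ℝ) ≤ D2 ^ n →
      (K.factorial : ℝ) * (((R : ℝ) + 1) * (H * ((q : ℝ) * R + q) ^ K)) ^ K ≤ D3 ^ n := by
  have hq1 : (1 : ℝ) ≤ q := by exact_mod_cast hq
  have hK : (1 : ℝ) ≤ K.factorial := by exact_mod_cast K.factorial_pos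
  have ha : 1 ≤ (δ + 1) * 2 := by nlinarith
  have hb : 1 ≤ q * (δ + 1) * 2 := by nlinarith
  refine ⟨K.factorial * (((δ + 1) * 2) * (D2 * (q * (δ + 1) * 2) ^ K)) ^ K, ?_, ?_⟩
  · have h1 : 1 ≤ (q * (δ + 1) * 2) ^ K := one_le_pow₀ hb
    have h2 : 1 ≤ D2 * (q * (δ + 1) * 2) ^ K := one_le_mul_of_one_le_of_one_le hD2 h1
    have h3 : 1 ≤ ((δ + 1) * 2) * (D2 * (q * (δ + 1) * 2) ^ K) :=
      one_le_mul_of_one_le_of_one_le ha h2
    exact one_le_mul_of_one_le_of_one_le hK (one_le_pow₀ h3)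
  · intro n R H hn hR hH
    have hn1 : (1 : ℝ) ≤ n := by exact_mod_cast hn
    have hR0 : (0 : ℝ) ≤ R := Nat.cast_nonneg _
    have hR1 : (R : ℝ) + 1 ≤ ((δ + 1) * 2) ^ n := by
      have h1 : (R : ℝ) + 1 ≤ (δ + 1) * n := by nlinarith
      have h2 : (δ + 1) * n ≤ (δ + 1) ^ n * 2 ^ n :=
        mul_le_mul (le_pow_self2 (by linarith) hn) (nat_le_two_pow2 n) (by positivity)
          (by positivity)
      rw [mul_pow]
      exact h1.trans h2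
    have hR2 : (q : ℝ) * R + q ≤ (q * (δ + 1) * 2) ^ n := by
      have h1 : (q : ℝ) * R + q = q * (R + 1) := by ring
      rw [h1, mul_assoc, mul_pow]
      exact mul_le_mul (le_pow_self2 hq1 hn) hR1 (by positivity) (by positivity)
    have h3 : (((R : ℝ) + 1) * (H * ((q : ℝ) * R + q) ^ K)) ≤
        (((δ + 1) * 2) * (D2 * (q * (δ + 1) * 2) ^ K)) ^ n := by
      have e1 : (((δ + 1) * 2) * (D2 * (q * (δ + 1) * 2) ^ K)) ^ n =
          ((δ + 1) * 2) ^ n * (D2 ^ n * ((q * (δ + 1) * 2) ^ n) ^ K) := by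
        rw [mul_pow _ (D2 * _), mul_pow D2, ← pow_mul, ← pow_mul, mul_comm K n]
      rw [e1]
      refine mul_le_mul hR1 (mul_le_mul hH (pow_le_pow_left₀ (by positivity) hR2 _) (by positivity)
        (by positivity)) (by positivity) (by positivity)
    have e2 : (K.factorial * (((δ + 1) * 2) * (D2 * (q * (δ + 1) * 2) ^ K)) ^ K) ^ n =
        (K.factorial : ℝ) ^ n * ((((δ + 1) * 2) * (D2 * (q * (δ + 1) * 2) ^ K)) ^ n) ^ K := by
      rw [mul_pow (K.factorial : ℝ), ← pow_mul, ← pow_mul, mul_comm K n]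
    rw [e2]
    exact mul_le_mul (le_pow_self2 hK hn) (pow_le_pow_left₀ (by positivity) h3 _) (by positivity)
      (by positivity)

theorem core {q lam : ℕ} {δ : ℝ} (hq : 2 ≤ q) (hδ : 1 ≤ δ) (hl : 1 ≤ lam) {C : ℝ} (hC : 1 ≤ C) :
    ∃ (D : ℝ) (n0 X1 : ℕ), 1 ≤ D ∧ ∀ n : ℕ, n0 ≤ n → ∀ P : ℕ → ℕ → ℤ[X],
      (∃ i b, i < q ∧ b < lam ∧ P i b ≠ 0) →
      (∀ i b a, (P i b).coeff a ≠ 0 → i < q ∧ b < lam ∧ lam * n ≤ a + n * b ∧
        (a : ℝ) + (n : ℝ) * b + (i : ℝ) * n / q ≤ δ * n) →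
      (∀ i b a, |((P i b).coeff a : ℝ)| ≤ C ^ n) →
      ∀ x y : ℕ, X1 ≤ x → 2 ≤ x → y ^ q = NL.rep x n → ∃ l : ℕ, l ≤ 2 * n ∧
        vv q lam (zp P) (1 - (x : ℤ)) ((x : ℤ) ^ n) y l ≠ 0 ∧
        |(vv q lam (zp P) (1 - x) ((x : ℤ) ^ n) y l : ℝ)| ≤ D ^ n * (x : ℝ) ^ (δ * n) ∧
        (x : ℤ) ^ (lam * n - l) ∣ vv q lam (zp P) (1 - (x : ℤ)) ((x : ℤ) ^ n) y l := by
  have hδ0 : 0 ≤ δ := by linarith
  obtain ⟨D, hD1, hD⟩ := sizeG_vv (q := q) (B := lam) hq hδ hC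
  obtain ⟨D2, hD21, hD2⟩ := coeffG_zp (q := q) hδ hC
  obtain ⟨D3, hD31, hD3⟩ := zbound2 (q := q) (K := q * lam) (by omega) hδ0 hD21
  set X1 := ⌈D3⌉₊ + ⌈D2⌉₊ + 3 with hX1
  refine ⟨D, max (q * lam) 1, X1, hD1, ?_⟩
  intro n hn P hP0 hPd' hPc x y hge hx hxy
  obtain ⟨i0, b0, hi0, hb0, hP0⟩ := hP0
  have hn1 : 1 ≤ n := (le_max_right _ _).trans hn
  have hnK : q * lam ≤ n := (le_max_left _ _).trans hn
  have hPd : ∀ i b a, (P i b).coeff a ≠ 0 →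
      i < q ∧ (a : ℝ) + (n : ℝ) * b + (i : ℝ) * n / q ≤ δ * n := fun i b a h =>
    ⟨(hPd' i b a h).1, (hPd' i b a h).2.2.2⟩
  have hxR : (1 : ℝ) ≤ x := by exact_mod_cast (by omega : 1 ≤ x)
  have hy0 : (y : ℤ) ≠ 0 := by
    intro h0
    have h1 : y = 0 := by exact_mod_cast h0
    have h2 := NL.rep_pos (x := x) (n := n) hn1
    rw [← hxy, h1, zero_pow (by omega)] at h2
    exact lt_irrefl _ h2
  have hex2 : ∃ l, l < n + q * lam ∧ vv q lam (zp P) (1 - (x : ℤ)) ((x : ℤ) ^ n) y l ≠ 0 := by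
    by_contra hcon
    push Not at hcon
    set H := ⌊D2 ^ n⌋₊ with hH
    have hHle : (H : ℝ) ≤ D2 ^ n := Nat.floor_le (by positivity)
    have hRle : ((⌊δ * n⌋₊ : ℕ) : ℝ) ≤ δ * n := Nat.floor_le (by positivity)
    have hceil2 : D2 ≤ (⌈D2⌉₊ : ℝ) := Nat.le_ceil _
    have hceil3 : D3 ≤ (⌈D3⌉₊ : ℝ) := Nat.le_ceil _
    have hxX : (X1 : ℝ) ≤ x := by exact_mod_cast hge
    have hX1R : (X1 : ℝ) = ⌈D3⌉₊ + ⌈D2⌉₊ + 3 := by rw [hX1]; push_cast; ring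
    have hzabs : |(1 - (x : ℤ))| = (x : ℤ) - 1 := by
      rw [abs_sub_comm, abs_of_nonneg (by omega)]
    have hw : (H : ℤ) + 1 < |(x : ℤ) ^ n| := by
      rw [abs_of_nonneg (by positivity)]
      have h1 : (H : ℝ) + 1 < (x : ℝ) ^ n := by
        have h2 : D2 + 2 ≤ (x : ℝ) := by
          have : (0 : ℝ) ≤ (⌈D3⌉₊ : ℝ) := Nat.cast_nonneg _
          linarith
        have h3 : (D2 + 2) ^ n ≤ (x : ℝ) ^ n := pow_le_pow_left₀ (by linarith) h2 _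
        have h4 : D2 ^ n + 2 ^ n ≤ (D2 + 2) ^ n := by
          exact pow_add_pow_le (by linarith) (by norm_num) (by omega)
        have h5 : (2 : ℝ) ≤ 2 ^ n := le_pow_self2 (by norm_num) hn1
        linarith
      exact_mod_cast h1
    have hz := zero_lemma (q := q) (B := lam) (R := ⌊δ * n⌋₊) (M := n + q * lam) (H := H) (by omega)
      (Q := zp P) (fun i b => natDegreeG_zp hPd i b) (fun i b d => by
        have h1 := hD2 n hn1 P hPd hPc i b d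
        have h2 : |(zp P i b).coeff d| ≤ ⌊D2 ^ n⌋ := by
          rw [Int.le_floor]
          push_cast
          exact h1
        have h3 : (⌊D2 ^ n⌋ : ℤ) = (H : ℤ) := by
          rw [hH]
          exact (Int.natCast_floor_eq_floor (by positivity)).symm
        rw [← h3]
        exact h2)
      ⟨i0, b0, hi0, hb0, zp_ne_zero hP0⟩ (z := 1 - (x : ℤ)) (w := (x : ℤ) ^ n)
      (y := (y : ℤ)) (by omega) hw hy0 hcon
    have h1 : n + q * lam + 1 - q * lam = n + 1 := by omega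
    rw [h1, hzabs] at hz
    have hzR : ((x : ℝ) - 1) ^ (n + 1) ≤ (((q * lam).factorial : ℕ) : ℝ) *
        ((((⌊δ * n⌋₊ : ℕ) : ℝ) + 1) * (H * ((q : ℝ) * (⌊δ * n⌋₊ : ℕ) + q) ^ (q * lam))) ^
          (q * lam) := by
      exact_mod_cast hz
    have h2 := hzR.trans (hD3 n ⌊δ * n⌋₊ H hn1 hRle hHle)
    have h3 : D3 ≤ (x : ℝ) - 1 := by
      have : (0 : ℝ) ≤ (⌈D2⌉₊ : ℝ) := Nat.cast_nonneg _
      linarith
    have h4 : (1 : ℝ) < (x : ℝ) - 1 := by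
      have : (0 : ℝ) ≤ (⌈D2⌉₊ : ℝ) := Nat.cast_nonneg _
      linarith
    have h5 : D3 ^ n ≤ ((x : ℝ) - 1) ^ n := pow_le_pow_left₀ (by linarith) h3 _
    have h6 : ((x : ℝ) - 1) ^ n < ((x : ℝ) - 1) ^ (n + 1) := pow_lt_pow_right₀ h4 (by omega)
    linarith
  obtain ⟨l, hl1, hl2⟩ := hex2
  refine ⟨l, by omega, hl2, hD n hn1 P hPd hPc x y l hx hxy (by omega), ?_⟩
  exact divX (by omega) (fun i b a h => (hPd' i b a h).2.2.1) (x : ℤ) (y : ℤ) l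

end Pool.Agent.NLG
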