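import Pool.Agent.NLG.Defs2
import Pool.Agent.NL.Defs

/-!
NLG-Decomp: x = e D f: e is prime to q (y-1), D is a divisor of gcd(x, y-1) as in GoodD, f is 1 or q^2.

PLAN.  Material: NLG/GcdB.lean (gcdB_split, gcdB_rep, the valuation arguments in div_coprime: copy).
gcdB_split with m = y - 1: x = e * D0, e coprime to y - 1, all primes of D0 divide y - 1.  e is coprime to
q (if q ∣ e ∣ x then q ∣ y^q - 1, q ∣ y - 1 by Fermat).  y^q - 1 = x (1 + x + ... + x^(n-2)), so x ∣ y^q - 1.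
Primes p ≠ q of D0: v_p(D0) ≤ v_p(y^q - 1) = v_p(y-1).  p = q: v := v_q(D0) = v_q(x); if v ≥ 1 then q ∣ y-1,
v_q(y^q - 1) = v_q(y-1) + 1 and = v_q(x) (rep x (n-1) is 1 mod x, n ≥ 2), so v_q(y-1) = v - 1 ≥ 1, v ≥ 2.
Write D0 = q^v d1 with q ∤ d1 (Nat.exists_eq_pow_mul_and_not_dvd or ordProj/ordCompl): d1 ∣ y - 1.
If v = 0: D = D0 = d1, f = 1, gcd(x, y-1) = D (a divisor of x and of y - 1 is coprime to e).  GoodD by
the first alternative.  If v ≥ 2: D = d1 q^(v-2), f = q^2: q^2 D = d1 q^v ∣ x, q D = d1 q^(v-1) ∣ y - 1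
(coprime factors), and gcd(x, y-1) ∣ q D: it is coprime to e, so divides D0 = q^v d1, and its valuation
at q is ≤ v_q(y-1) = v - 1.
-/

namespace Pool.Agent.NLG

open Finset

private theorem Decomp_split (m : ℕ) : ∀ x : ℕ, 0 < x → ∃ e D : ℕ, x = e * D ∧ Nat.Coprime e m ∧
    ∀ p : ℕ, p.Prime → p ∣ D → p ∣ m := by
  intro x
  induction x using Nat.strong_induction_on with
  | _ x ih =>
    intro hx
    by_cases hc : Nat.Coprime x m
    · refine ⟨x, 1, by simp, hc, ?_⟩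
      intro p hp hp1
      exact absurd (Nat.dvd_one.1 hp1) hp.one_lt.ne'
    · obtain ⟨p, hp, hpx, hpm⟩ := Nat.Prime.not_coprime_iff_dvd.1 hc
      obtain ⟨z, rfl⟩ := hpx
      have hz : 0 < z := Nat.pos_of_mul_pos_left hx
      have hlt : z < p * z := by
        have := hp.two_le
        nlinarith
      obtain ⟨e, D, h1, h2, h3⟩ := ih z hlt hz
      refine ⟨e, p * D, ?_, h2, ?_⟩
      · rw [h1]
        ring
      · intro r hr hrd
        rcases (Nat.Prime.dvd_mul hr).1 hrd with h | h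
        · rw [(Nat.prime_dvd_prime_iff_eq hr hp).1 h]
          exact hpm
        · exact h3 r hr h

private theorem Decomp_rep {x n : ℕ} (hn : 2 ≤ n) : ∃ k : ℕ, NL.rep x n = 1 + x * (1 + x * k) := by
  obtain ⟨m, rfl⟩ : ∃ m, n = m + 2 := ⟨n - 2, by omega⟩
  refine ⟨∑ i ∈ range m, x ^ i, ?_⟩
  unfold NL.rep
  rw [sum_range_succ', sum_range_succ']
  simp only [pow_zero, zero_add, pow_one]
  rw [mul_add, mul_one, mul_sum, mul_sum]
  have : ∀ i ∈ range m, x ^ (i + 1 + 1) = x * (x * x ^ i) := fun i _ => by ring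
  rw [sum_congr rfl this]
  ring

private theorem Decomp_ne {q y p j : ℕ} (hq : q.Prime) (hy : 2 ≤ y) (hp : p.Prime) (hpq : p ≠ q)
    (hpy : p ∣ y - 1) (h : p ^ j ∣ y ^ q - 1) : p ^ j ∣ y - 1 := by
  have hgs : (y - 1) * (∑ i ∈ range q, y ^ i) = y ^ q - 1 := by
    have h5 := NL.rep_mul (x := y) (by omega) q
    unfold NL.rep at h5
    rw [mul_comm]
    omega
  have hcs : Nat.Coprime (p ^ j) (∑ i ∈ range q, y ^ i) := by
    apply Nat.Coprime.pow_left
    rw [Nat.Prime.coprime_iff_not_dvd hp]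
    intro hcon
    have hF : Fact p.Prime := ⟨hp⟩
    have h5 : ((∑ i ∈ range q, y ^ i : ℕ) : ZMod p) = 0 := (ZMod.natCast_eq_zero_iff _ _).2 hcon
    have h6 : (y : ZMod p) = 1 := by
      have h7 : ((y - 1 : ℕ) : ZMod p) = 0 := (ZMod.natCast_eq_zero_iff _ _).2 hpy
      rw [Nat.cast_sub (by omega)] at h7
      push_cast at h7
      exact sub_eq_zero.1 h7
    push_cast at h5
    rw [h6] at h5
    simp only [one_pow, sum_const, card_range, nsmul_eq_mul, mul_one] at h5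
    have h8 : p ∣ q := (ZMod.natCast_eq_zero_iff _ _).1 h5
    exact hpq ((Nat.prime_dvd_prime_iff_eq hp hq).1 h8)
  refine hcs.dvd_of_dvd_mul_right ?_
  rw [hgs]
  exact h

private theorem Decomp_val {q y : ℕ} (hq : q.Prime) (hq3 : 3 ≤ q) (hy : 2 ≤ y) (hpy : q ∣ y - 1) :
    padicValNat q (y ^ q - 1) = padicValNat q (y - 1) + 1 := by
  have hF : Fact q.Prime := ⟨hq⟩
  have hodd : Odd q := hq.odd_of_ne_two (by omega)
  have hnd : ¬ q ∣ y := by
    intro hcon
    have h5 : q ∣ y - (y - 1) := Nat.dvd_sub hcon hpy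
    have h6 : y - (y - 1) = 1 := by omega
    rw [h6] at h5
    exact absurd (Nat.dvd_one.1 h5) hq.one_lt.ne'
  have h7 := padicValNat.pow_sub_pow (p := q) hodd (x := y) (y := 1) (by omega) hpy hnd
    (n := q) hq.ne_zero
  rw [one_pow, padicValNat_self] at h7
  exact h7

theorem decomp {q n x y : ℕ} (hq : q.Prime) (hq3 : 3 ≤ q) (hn : 2 ≤ n) (hx : 2 ≤ x)
    (h : y ^ q = NL.rep x n) : ∃ e D f : ℕ, x = e * D * f ∧ f ≤ q ^ 2 ∧ e.Coprime (D * f) ∧
      IsCoprime (e : ℤ) q ∧ IsCoprime (e : ℤ) ((y : ℤ) - 1) ∧ GoodD q D x y ∧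
      D ∣ x.gcd (y - 1) ∧ x.gcd (y - 1) ∣ q * D ∧
      ∀ p : ℕ, p.Prime → p ∣ D * f → p ∣ y - 1 := by
  obtain ⟨k, hk⟩ := Decomp_rep (x := x) hn
  rw [hk] at h
  have hF : Fact q.Prime := ⟨hq⟩
  have hxk : 2 ≤ x * (1 + x * k) := hx.trans (Nat.le_mul_of_pos_right x (by omega))
  have hy2 : 2 ≤ y := by
    by_contra hcon
    have hy1 : y ≤ 1 := by omega
    have : y ^ q ≤ 1 := Nat.pow_le_one_iff hq.ne_zero |>.2 hy1
    omega
  have hyx : y ^ q - 1 = x * (1 + x * k) := by omega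
  have hxd : x ∣ y ^ q - 1 := ⟨1 + x * k, hyx⟩
  have hcast : ((y - 1 : ℕ) : ℤ) = (y : ℤ) - 1 := by
    rw [Nat.cast_sub (by omega)]
    norm_num
  obtain ⟨e, D0, hxe, hcop, hD⟩ := Decomp_split (y - 1) x (by omega)
  have hex : e ∣ x := ⟨D0, hxe⟩
  have hDx : D0 ∣ x := ⟨e, by rw [hxe]; ring⟩
  have hD0 : D0 ≠ 0 := by
    rintro rfl
    omega
  have hqe : Nat.Coprime e q := by
    rw [Nat.coprime_comm, Nat.Prime.coprime_iff_not_dvd hq]
    intro hqe
    have h1 : q ∣ y ^ q - 1 := (hqe.trans hex).trans hxd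
    have h2 : q ∣ y - 1 := by
      have h3 : ((y ^ q - 1 : ℕ) : ZMod q) = 0 := (ZMod.natCast_eq_zero_iff _ _).2 h1
      rw [Nat.cast_sub (Nat.one_le_pow _ _ (by omega))] at h3
      push_cast at h3
      rw [ZMod.pow_card] at h3
      rw [← ZMod.natCast_eq_zero_iff, Nat.cast_sub (by omega)]
      push_cast
      exact h3
    have h4 : q ∣ Nat.gcd e (y - 1) := Nat.dvd_gcd hqe h2
    rw [hcop] at h4
    exact absurd (Nat.dvd_one.1 h4) hq.one_lt.ne'
  have hey : IsCoprime (e : ℤ) ((y : ℤ) - 1) := by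
    rw [← hcast]
    exact Nat.isCoprime_iff_coprime.2 hcop
  obtain ⟨v, d, hqd, hdv⟩ := Nat.exists_eq_pow_mul_and_not_dvd hD0 q hq.ne_one
  have hdq : Nat.Coprime d q := ((Nat.Prime.coprime_iff_not_dvd hq).2 hqd).symm
  have hdD : d ∣ D0 := ⟨q ^ v, by rw [hdv]; ring⟩
  have hdm : d ∣ y - 1 := by
    rw [Nat.dvd_iff_prime_pow_dvd_dvd]
    intro p j hp hpj
    rcases Nat.eq_zero_or_pos j with hj | hj
    · subst hj
      simp
    have hpd : p ∣ d := (dvd_pow_self p (by omega)).trans hpj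
    refine Decomp_ne hq hy2 hp ?_ (hD p hp (hpd.trans hdD)) (((hpj.trans hdD).trans hDx).trans hxd)
    rintro rfl
    exact hqd hpd
  have hged : Nat.Coprime e (x.gcd (y - 1)) := Nat.Coprime.coprime_dvd_right (Nat.gcd_dvd_right _ _) hcop
  have hgD : x.gcd (y - 1) ∣ D0 := by
    refine hged.symm.dvd_of_dvd_mul_left ?_
    rw [← hxe]
    exact Nat.gcd_dvd_left _ _
  have heD : Nat.Coprime e D0 := by
    rw [hdv]
    exact Nat.Coprime.mul_right (Nat.Coprime.pow_right v hqe) (Nat.Coprime.coprime_dvd_right hdm hcop)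
  rcases Nat.eq_zero_or_pos v with hv | hv
  · subst hv
    rw [pow_zero, one_mul] at hdv
    subst hdv
    refine ⟨e, D0, 1, by rw [mul_one]; exact hxe, Nat.one_le_pow _ _ hq.pos, by rwa [mul_one],
      Nat.isCoprime_iff_coprime.2 hqe, hey, Or.inl ⟨Nat.isCoprime_iff_coprime.2 hdq, ?_, ?_⟩, ?_, ?_, ?_⟩
    · exact_mod_cast hDx
    · rw [← hcast]
      exact_mod_cast hdm
    · exact Nat.dvd_gcd hDx hdm
    · exact hgD.trans (Dvd.intro_left q rfl)
    · intro p hp hpD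
      rw [mul_one] at hpD
      exact hD p hp hpD
  · have hqD : q ∣ D0 := by
      rw [hdv]
      exact (dvd_pow_self q (by omega)).mul_right d
    have hqm : q ∣ y - 1 := hD q hq hqD
    have hqx : q ∣ x := hqD.trans hDx
    have hval := Decomp_val hq hq3 hy2 hqm
    have hm0 : y - 1 ≠ 0 := by omega
    have hyq0 : y ^ q - 1 ≠ 0 := by omega
    have hvx : q ^ v ∣ x := (Dvd.intro d hdv.symm).trans hDx
    have h1 : v ≤ padicValNat q (y - 1) + 1 := by
      rw [← hval]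
      exact (padicValNat_dvd_iff_le hyq0).1 (hvx.trans hxd)
    have h2 : padicValNat q (y - 1) + 1 ≤ v := by
      have h3 : q ^ (padicValNat q (y - 1) + 1) ∣ x * (1 + x * k) := by
        rw [← hyx, ← hval]
        exact pow_padicValNat_dvd
      have h4 : Nat.Coprime (q ^ (padicValNat q (y - 1) + 1)) (1 + x * k) := by
        apply Nat.Coprime.pow_left
        rw [Nat.Prime.coprime_iff_not_dvd hq]
        intro h5
        have h6 : q ∣ 1 := (Nat.dvd_add_left (hqx.mul_right k)).1 h5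
        exact absurd (Nat.dvd_one.1 h6) hq.one_lt.ne'
      have h5 : q ^ (padicValNat q (y - 1) + 1) ∣ x := h4.dvd_of_dvd_mul_right h3
      rw [hxe, hdv] at h5
      have h6 : q ^ (padicValNat q (y - 1) + 1) ∣ q ^ v * d :=
        (Nat.Coprime.pow_left _ hqe.symm).dvd_of_dvd_mul_left h5
      have h7 : q ^ (padicValNat q (y - 1) + 1) ∣ q ^ v :=
        (Nat.Coprime.pow_left _ hdq.symm).dvd_of_dvd_mul_right h6
      exact (Nat.pow_dvd_pow_iff_le_right hq.one_lt).1 h7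
    have h3 : 1 ≤ padicValNat q (y - 1) := one_le_padicValNat_of_dvd hm0 hqm
    obtain ⟨w, rfl⟩ : ∃ w, v = w + 2 := ⟨v - 2, by omega⟩
    have h4 : padicValNat q (y - 1) = w + 1 := by omega
    have h5 : q ^ (w + 1) ∣ y - 1 := by
      rw [← h4]
      exact pow_padicValNat_dvd
    have h6 : q * (d * q ^ w) ∣ y - 1 := by
      have h7 : q * (d * q ^ w) = d * q ^ (w + 1) := by ring
      rw [h7]
      exact Nat.Coprime.mul_dvd_of_dvd_of_dvd (Nat.Coprime.pow_right _ hdq) hdm h5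
    have h7 : D0 = d * q ^ w * q ^ 2 := by
      rw [hdv]
      ring
    refine ⟨e, d * q ^ w, q ^ 2, by rw [hxe, h7]; ring, le_rfl, by rwa [← h7],
      Nat.isCoprime_iff_coprime.2 hqe, hey, Or.inr ⟨?_, ?_⟩, ?_, ?_, ?_⟩
    · have h8 : q ^ 2 * (d * q ^ w) ∣ x := by
        have h9 : q ^ 2 * (d * q ^ w) = D0 := by
          rw [h7]
          ring
        rw [h9]
        exact hDx
      exact_mod_cast h8
    · rw [← hcast]
      exact_mod_cast h6
    · refine Nat.dvd_gcd ?_ ((Dvd.intro_left q rfl).trans h6)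
      refine Dvd.dvd.trans ?_ hDx
      rw [h7]
      exact Dvd.intro _ rfl
    · have hg0 : x.gcd (y - 1) ≠ 0 := (Nat.gcd_pos_of_pos_left _ (by omega)).ne'
      obtain ⟨a, g, hqg, hga⟩ := Nat.exists_eq_pow_mul_and_not_dvd hg0 q hq.ne_one
      have hgq : Nat.Coprime g q := ((Nat.Prime.coprime_iff_not_dvd hq).2 hqg).symm
      have h8 : g ∣ d := by
        have h9 : g ∣ q ^ (w + 2) * d := by
          rw [← hdv]
          refine Dvd.dvd.trans ?_ hgD
          rw [hga]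
          exact Dvd.intro_left _ rfl
        exact (Nat.Coprime.pow_right _ hgq).dvd_of_dvd_mul_left h9
      have h9 : a ≤ w + 1 := by
        rw [← h4]
        refine (padicValNat_dvd_iff_le hm0).1 ?_
        refine Dvd.dvd.trans ?_ (Nat.gcd_dvd_right x (y - 1))
        rw [hga]
        exact Dvd.intro _ rfl
      rw [hga]
      have h10 : q * (d * q ^ w) = q ^ (w + 1) * d := by ring
      rw [h10]
      exact Nat.mul_dvd_mul (pow_dvd_pow q h9) h8
    · intro p hp hpD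
      rw [← h7] at hpD
      exact hD p hp hpD

end Pool.Agent.NLG
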