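import Mathlib

/-!
# NLG: the part of the base of the Nagell-Ljunggren equation made of primes with `y ≠ 1 mod p`

Definitions.  `kap ρ m` is the coefficient of `t ^ m` in `(1 - t) ^ ρ`, `KZ q j m` the integer
`q ^ (2 m) kap (j / q) m`.
-/

namespace Pool.Agent.NLG

open Finset Polynomial

/-- The coefficient of `t ^ m` in `(1 - t) ^ ρ`. -/
noncomputable def kap (ρ : ℚ) (m : ℕ) : ℚ := (-1) ^ m * Ring.choose ρ m

/-- The integer `q ^ (2 m) * kap (j / q) m`. -/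
noncomputable def KZ (q : ℕ) (j : ℤ) (m : ℕ) : ℤ := ⌊(q : ℚ) ^ (2 * m) * kap ((j : ℚ) / q) m⌋

/-- `(1 - a) ^ (j / q)`, cut at `N` terms, in a ring in which `r = q ^ (-2)`. -/
noncomputable def ev {R : Type*} [CommRing R] (q : ℕ) (j : ℤ) (N : ℕ) (r a : R) : R :=
  ∑ m ∈ range N, (KZ q j m : R) * (r * a) ^ m

/-- The value at `(z, w, y)` of the `l`-th derivative of the form
`∑ i < q, ∑ b < B, Q i b (z) w ^ b y ^ i`, `z = 1 - x`, `y = const (1 - x) ^ (-1 / q)`, times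
`q ^ (2 l)`: on `z ^ d y ^ i` it is multiplication by `KZ q (q d - i) l`. -/
noncomputable def vv (q B : ℕ) (Q : ℕ → ℕ → ℤ[X]) (z w y : ℤ) (l : ℕ) : ℤ :=
  ∑ i ∈ range q, ∑ b ∈ range B, w ^ b * y ^ i *
    (Q i b).sum fun d c => c * z ^ d * KZ q ((q : ℤ) * d - i) l

/-- The change of variable `z = 1 - x`. -/
noncomputable def zp (P : ℕ → ℕ → ℤ[X]) : ℕ → ℕ → ℤ[X] := fun i b => (P i b).comp (1 - X)

/-- The vanishing conditions: `A_i Θ ^ i = A_0` for `1 ≤ i < q` up to monomials `x ^ s w ^ β` with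
`s + n β ≥ N`, where `A_i = ∑ b, P i b (x) w ^ b` and `Θ = ((1 - w) / (1 - x)) ^ (1 / q)`. -/
def Van (q n N : ℕ) (P : ℕ → ℕ → ℤ[X]) : Prop :=
  ∀ i : ℕ, 1 ≤ i → i < q → ∀ β s : ℕ, s + n * β < N →
    ∑ b ∈ range (β + 1), ∑ a ∈ range (s + 1),
      (P i b).coeff a * (q : ℤ) ^ (2 * (a + b)) * KZ q (-i) (s - a) * KZ q i (β - b) =
    (P 0 β).coeff s * (q : ℤ) ^ (2 * (s + β))

/-- The vanishing conditions for forms `∑ i < q, p i (x) y ^ i` in one variable (`w = x ^ n`). -/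
def Van1 (q n N : ℕ) (p : ℕ → ℤ[X]) : Prop :=
  ∀ i : ℕ, 1 ≤ i → i < q → ∀ s : ℕ, s < N →
    ∑ β ∈ range (s / n + 1), ∑ a ∈ range (s - n * β + 1),
      (p i).coeff a * (q : ℤ) ^ (2 * a) * KZ q (-i) (s - n * β - a) *
        (KZ q i β * (q : ℤ) ^ (2 * (n * β) - 2 * β)) =
    (p 0).coeff s * (q : ℤ) ^ (2 * s)

/-- `α (λ + 1) + 1` with `α = √(1 - 1 / q)`. -/
noncomputable def del (q lam : ℕ) : ℝ := Real.sqrt (1 - 1 / q) * (lam + 1) + 1

end Pool.Agent.NLG
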