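import Pool.Agent.NLG.Defs

/-!
# NLG, second part: the sharp exponents

Definitions for the forms that vanish along `y = Θ` and for the divisors of `gcd (x, y - 1)`.
-/

namespace Pool.Agent.NLG

open Finset Polynomial

/-- `(1 - q ^ 2 a) ^ (j / q)`, cut at `N` terms. -/
noncomputable def evp {R : Type*} [CommRing R] (q : ℕ) (j : ℤ) (N : ℕ) (a : R) : R :=
  ∑ m ∈ range N, (KZ q j m : R) * a ^ m

/-- The coefficient of `x ^ s w ^ β` in `A Θ ^ i`, times `q ^ (2 (s + β))`, where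
`A = ∑ b, P b (x) w ^ b` and `Θ = ((1 - w) / (1 - x)) ^ (1 / q)`. -/
noncomputable def cf (q i : ℕ) (P : ℕ → ℤ[X]) (β s : ℕ) : ℤ :=
  ∑ b ∈ range (β + 1), ∑ a ∈ range (s + 1),
    (P b).coeff a * (q : ℤ) ^ (2 * (a + b)) * KZ q (-i) (s - a) * KZ q i (β - b)

/-- The same in one variable, `w = x ^ n`. -/
noncomputable def cf1 (q n i : ℕ) (p : ℤ[X]) (s : ℕ) : ℤ :=
  ∑ β ∈ range (s / n + 1), ∑ a ∈ range (s - n * β + 1),
    p.coeff a * (q : ℤ) ^ (2 * a) * KZ q (-i) (s - n * β - a) *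
      (KZ q i β * (q : ℤ) ^ (2 * (n * β) - 2 * β))

/-- `∑ i, A_i Θ ^ i = 0` up to monomials `x ^ s w ^ β` with `s + n β ≥ N`. -/
def VanD (q n N : ℕ) (P : ℕ → ℕ → ℤ[X]) : Prop :=
  ∀ β s : ℕ, s + n * β < N → ∑ i ∈ range q, cf q i (P i) β s = 0

/-- The same in one variable. -/
def VanD1 (q n N : ℕ) (p : ℕ → ℤ[X]) : Prop :=
  ∀ s : ℕ, s < N → ∑ i ∈ range q, cf1 q n i (p i) s = 0

/-- The divisors of `x` and `y - 1` used in the upper bound of the gcd. -/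
def GoodD (q D : ℕ) (x y : ℤ) : Prop :=
  (IsCoprime (D : ℤ) q ∧ (D : ℤ) ∣ x ∧ (D : ℤ) ∣ y - 1) ∨
    ((q : ℤ) ^ 2 * D ∣ x ∧ (q : ℤ) * D ∣ y - 1)

/-- `lam + (1 - 1 / q) eta + 1`. -/
noncomputable def delE (q lam eta : ℕ) : ℝ := lam + (1 - 1 / q) * eta + 1

/-- `lam + eta / q + 1`. -/
noncomputable def delD (q lam eta : ℕ) : ℝ := lam + eta / q + 1

end Pool.Agent.NLG
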