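import Pool.Agent.NLG.Defs

/-!
NLG-VanEval: the vanishing conditions, evaluated at nilpotent elements.

PLAN.  Put X' = r x, W' = r w, so x = q^2 X', w = q^2 W'.  P i b (x) = ∑ a, c q^(2a) X'^a, hence the
left side is ∑ (a, b, m, m') c_{i,b,a} q^(2(a+b)) KZ q (-i) m * KZ q i m' * X'^(a+m) W'^(b+m'),
m, m' < N.  Group by s = a + m, β = b + m'.  Monomials X'^s W'^β = r^(s+β) x^s w^β with s + n β ≥ N
are 0; if s + n β < N then s < N, β < N, all (a ≤ s, b ≤ β) occur and the coefficient is the left side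
of Van, so it is (P 0 β).coeff s q^(2(s+β)), and q^(2(s+β)) X'^s W'^β = x^s w^β.  On the right side the
monomials x^s w^β with s + n β ≥ N vanish too.  (P i b = 0 for b ≥ B: all sums over b may be taken
over a large range.)
van1_eval: the same in one variable: (1 - x^n)^(i/q) = ∑ β, KZ q i β * r^β * x^(nβ) and
r^β x^(nβ) = q^(2nβ - 2β) X'^(nβ).

Done in the polynomial rings `ℤ[X][X]` and `ℤ[X]`: the two sides are the values at `(X', W')` of two
polynomials with the same coefficients below the Newton line.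
-/

namespace Pool.Agent.NLG

open Finset Polynomial

section two

variable {R : Type*} [CommRing R]

/-- evaluation at `(u, v)` -/
private noncomputable def psi (u v : R) : ℤ[X][X] →+* R :=
  eval₂RingHom (aeval u : ℤ[X] →ₐ[ℤ] R).toRingHom v

private theorem psi_C (u v : R) (c : ℤ[X]) : psi u v (C c) = aeval u c := by
  unfold psi
  rw [coe_eval₂RingHom, eval₂_C]
  rfl

private theorem psi_X (u v : R) : psi u v X = v := by
  unfold psi
  rw [coe_eval₂RingHom, eval₂_X]

private theorem psi_zero {n N : ℕ} {u v : R} (huv : ∀ s β : ℕ, N ≤ s + n * β → u ^ s * v ^ β = 0)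
    {F : ℤ[X][X]} (hF : ∀ s β : ℕ, s + n * β < N → (F.coeff β).coeff s = 0) : psi u v F = 0 := by
  unfold psi
  rw [coe_eval₂RingHom, eval₂_eq_sum_range]
  refine sum_eq_zero fun β _ => ?_
  have h1 : (aeval u : ℤ[X] →ₐ[ℤ] R).toRingHom (F.coeff β) = aeval u (F.coeff β) := rfl
  rw [h1, aeval_eq_sum_range, sum_mul]
  refine sum_eq_zero fun s _ => ?_
  rw [smul_mul_assoc]
  rcases lt_or_ge (s + n * β) N with h | h
  · rw [hF s β h, zero_smul]
  · rw [huv s β h, smul_zero]

private noncomputable def bigA (q B : ℕ) (P : ℕ → ℕ → ℤ[X]) (i : ℕ) : ℤ[X][X] :=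
  ∑ b ∈ range B, C (C ((q : ℤ) ^ (2 * b)) * (P i b).comp (C ((q : ℤ) ^ 2) * X)) * X ^ b

private noncomputable def eOne (q N : ℕ) (j : ℤ) : ℤ[X] := ∑ m ∈ range N, C (KZ q j m) * X ^ m

private noncomputable def eTwo (q N : ℕ) (j : ℤ) : ℤ[X][X] := ∑ m ∈ range N, C (C (KZ q j m)) * X ^ m

private theorem eOne_coeff (q N : ℕ) (j : ℤ) (m : ℕ) (hm : m < N) : (eOne q N j).coeff m = KZ q j m := by
  unfold eOne
  rw [finsetSum_coeff]
  simp only [coeff_C_mul_X_pow]
  rw [sum_eq_single m]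
  · simp
  · intro b _ hb
    exact if_neg (fun h => hb h.symm)
  · intro h
    exact absurd (mem_range.mpr hm) h

private theorem eTwo_coeff (q N : ℕ) (j : ℤ) (m : ℕ) (hm : m < N) : (eTwo q N j).coeff m = C (KZ q j m) := by
  unfold eTwo
  rw [finsetSum_coeff]
  simp only [coeff_C_mul_X_pow]
  rw [sum_eq_single m]
  · simp
  · intro b _ hb
    exact if_neg (fun h => hb h.symm)
  · intro h
    exact absurd (mem_range.mpr hm) h

private theorem bigA_coeff (q B : ℕ) (P : ℕ → ℕ → ℤ[X]) (hB : ∀ i b, B ≤ b → P i b = 0) (i b : ℕ) :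
    (bigA q B P i).coeff b = C ((q : ℤ) ^ (2 * b)) * (P i b).comp (C ((q : ℤ) ^ 2) * X) := by
  unfold bigA
  rw [finsetSum_coeff]
  simp only [coeff_C_mul_X_pow]
  rcases lt_or_ge b B with h | h
  · rw [sum_eq_single b]
    · simp
    · intro b' _ hb
      exact if_neg (fun h => hb h.symm)
    · intro h'
      exact absurd (mem_range.mpr h) h'
  · rw [hB i b h, zero_comp, mul_zero]
    refine sum_eq_zero fun b' hb' => if_neg ?_
    rw [mem_range] at hb'
    omega

private theorem bigA_coeff2 (q B : ℕ) (P : ℕ → ℕ → ℤ[X]) (hB : ∀ i b, B ≤ b → P i b = 0) (i b a : ℕ) :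
    ((bigA q B P i).coeff b).coeff a = (P i b).coeff a * (q : ℤ) ^ (2 * (a + b)) := by
  rw [bigA_coeff q B P hB, coeff_C_mul, comp_C_mul_X_coeff]
  ring

private theorem psi_bigA (q B : ℕ) (P : ℕ → ℕ → ℤ[X]) (i : ℕ) {r x w : R} (hr : r * (q : R) ^ 2 = 1) :
    psi (r * x) (r * w) (bigA q B P i) = ∑ b ∈ range B, aeval x (P i b) * w ^ b := by
  unfold bigA
  rw [map_sum]
  refine sum_congr rfl fun b _ => ?_
  rw [map_mul, psi_C, map_pow (psi (r * x) (r * w)) X b, psi_X, map_mul, aeval_C, aeval_comp]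
  have h1 : aeval (r * x) (C ((q : ℤ) ^ 2) * X : ℤ[X]) = x := by
    rw [map_mul, aeval_C, aeval_X]
    simp only [map_pow, algebraMap_int_eq, eq_intCast, Int.cast_natCast]
    linear_combination x * hr
  rw [h1]
  simp only [map_pow, algebraMap_int_eq, eq_intCast, Int.cast_natCast]
  have h2 : (q : R) ^ (2 * b) * (r * w) ^ b = w ^ b := by
    rw [pow_mul, ← mul_pow]
    congr 1
    linear_combination w * hr
  rw [mul_right_comm, h2, mul_comm]

private theorem psi_eOne (q N : ℕ) (j : ℤ) (r x v : R) :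
    psi (r * x) v (C (eOne q N j)) = ev q j N r x := by
  unfold eOne ev
  rw [psi_C, map_sum]
  refine sum_congr rfl fun m _ => ?_
  rw [map_mul, aeval_C, map_pow, aeval_X]
  simp

private theorem psi_eTwo (q N : ℕ) (j : ℤ) (r u w : R) :
    psi u (r * w) (eTwo q N j) = ev q j N r w := by
  unfold eTwo ev
  rw [map_sum]
  refine sum_congr rfl fun m _ => ?_
  rw [map_mul, psi_C, aeval_C, map_pow (psi u (r * w)) X m, psi_X]
  simp

end two

theorem van_eval {R : Type*} [CommRing R] {q n N B : ℕ} {P : ℕ → ℕ → ℤ[X]}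
    (hB : ∀ i b, B ≤ b → P i b = 0) (hV : Van q n N P) {r x w : R} (hr : r * (q : R) ^ 2 = 1)
    (hxw : ∀ s β : ℕ, N ≤ s + n * β → x ^ s * w ^ β = 0) {i : ℕ} (hi1 : 1 ≤ i) (hiq : i < q)
    (hn : 1 ≤ n) :
    (∑ b ∈ range B, aeval x (P i b) * w ^ b) * (ev q (-(i : ℤ)) N r x * ev q i N r w) =
      ∑ b ∈ range B, aeval x (P 0 b) * w ^ b := by
  rw [← psi_bigA q B P i (x := x) (w := w) hr, ← psi_bigA q B P 0 (x := x) (w := w) hr,
    ← psi_eOne q N (-(i : ℤ)) r x (r * w), ← psi_eTwo q N (i : ℤ) r (r * x) w, ← map_mul, ← map_mul,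
    ← sub_eq_zero, ← map_sub]
  refine psi_zero (n := n) (N := N) ?_ ?_
  · intro s β h
    rw [mul_pow, mul_pow, mul_mul_mul_comm, hxw s β h, mul_zero]
  · intro s β h
    have hβ : β < N := by
      have : β ≤ n * β := Nat.le_mul_of_pos_left β (by omega)
      omega
    have hs : s < N := by omega
    rw [coeff_sub, coeff_sub, bigA_coeff2 q B P hB, sub_eq_zero, ← hV i hi1 hiq β s h, ← mul_assoc, coeff_mul,
      finsetSum_coeff, Finset.Nat.sum_antidiagonal_eq_sum_range_succ
        (fun b m' => (((bigA q B P i * C (eOne q N (-(i : ℤ)))).coeff b * (eTwo q N (i : ℤ)).coeff m').coeff s))]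
    refine sum_congr rfl fun b hb => ?_
    rw [mem_range] at hb
    rw [eTwo_coeff q N _ _ (by omega), coeff_mul_C, coeff_mul_C, coeff_mul,
      Finset.Nat.sum_antidiagonal_eq_sum_range_succ
        (fun a m => ((bigA q B P i).coeff b).coeff a * (eOne q N (-(i : ℤ))).coeff m), sum_mul]
    refine sum_congr rfl fun a ha => ?_
    rw [mem_range] at ha
    rw [eOne_coeff q N _ _ (by omega), bigA_coeff2 q B P hB]

private theorem aeval_zero_of {R : Type*} [CommRing R] {N : ℕ} {u : R} (hu : u ^ N = 0) {F : ℤ[X]}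
    (hF : ∀ s : ℕ, s < N → F.coeff s = 0) : aeval u F = 0 := by
  rw [aeval_eq_sum_range]
  refine sum_eq_zero fun s _ => ?_
  rcases lt_or_ge s N with h | h
  · rw [hF s h, zero_smul]
  · rw [pow_eq_zero_of_le h hu, smul_zero]

theorem van1_eval {R : Type*} [CommRing R] {q n N : ℕ} (hn : 1 ≤ n) {p : ℕ → ℤ[X]}
    (hV : Van1 q n N p) {r x : R} (hr : r * (q : R) ^ 2 = 1) (hx : x ^ N = 0)
    {i : ℕ} (hi1 : 1 ≤ i) (hiq : i < q) :
    aeval x (p i) * (ev q (-(i : ℤ)) N r x * ev q i N r (x ^ n)) = aeval x (p 0) := by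
  have hX : ∀ f : ℤ[X], aeval x f = aeval (r * x) (f.comp (C ((q : ℤ) ^ 2) * X)) := by
    intro f
    rw [aeval_comp]
    have h1 : aeval (r * x) (C ((q : ℤ) ^ 2) * X : ℤ[X]) = x := by
      rw [map_mul, aeval_C, aeval_X]
      simp only [map_pow, algebraMap_int_eq, eq_intCast, Int.cast_natCast]
      linear_combination x * hr
    rw [h1]
  have h1 : ev q (-(i : ℤ)) N r x = aeval (r * x) (eOne q N (-(i : ℤ))) := by
    unfold eOne ev
    rw [map_sum]
    refine sum_congr rfl fun m _ => ?_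
    rw [map_mul, aeval_C, map_pow, aeval_X]
    simp
  have h2 : ev q i N r (x ^ n) =
      aeval (r * x) (∑ β ∈ range N, C (KZ q i β * (q : ℤ) ^ (2 * (n * β) - 2 * β)) * X ^ (n * β)) := by
    unfold ev
    rw [map_sum]
    refine sum_congr rfl fun β _ => ?_
    rw [map_mul, aeval_C, map_pow, aeval_X]
    have hle : β ≤ n * β := Nat.le_mul_of_pos_left β (by omega)
    obtain ⟨d, hd⟩ := Nat.exists_eq_add_of_le hle
    have hd2 : 2 * (n * β) - 2 * β = 2 * d := by omega
    rw [hd2]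
    simp only [map_mul, map_pow, algebraMap_int_eq, eq_intCast, Int.cast_natCast]
    have h3 : (q : R) ^ (2 * d) * r ^ d = 1 := by
      rw [pow_mul, ← mul_pow, mul_comm, hr, one_pow]
    have h4 : (r * x) ^ (n * β) = r ^ β * r ^ d * x ^ (n * β) := by
      rw [mul_pow, ← pow_add, ← hd]
    rw [h4, mul_pow, ← pow_mul]
    linear_combination (-(KZ q i β : R) * r ^ β * x ^ (n * β)) * h3
  rw [hX (p i), hX (p 0), h1, h2, ← map_mul, ← map_mul, ← sub_eq_zero, ← map_sub]
  refine aeval_zero_of (N := N) (by rw [mul_pow, hx, mul_zero]) ?_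
  intro s hs
  rw [coeff_sub, sub_eq_zero, comp_C_mul_X_coeff, ← pow_mul, ← hV i hi1 hiq s hs, ← mul_assoc, mul_sum,
    finsetSum_coeff]
  have hsub : range (s / n + 1) ⊆ range N := by
    intro β hβ
    rw [mem_range] at hβ ⊢
    have : s / n ≤ s := Nat.div_le_self s n
    omega
  rw [← sum_subset hsub]
  · refine sum_congr rfl fun β hβ => ?_
    rw [mem_range, Nat.lt_succ_iff, Nat.le_div_iff_mul_le (by omega : 0 < n)] at hβ
    have hle : n * β ≤ s := by rw [mul_comm]; exact hβ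
    rw [mul_left_comm, coeff_C_mul, coeff_mul_X_pow', if_pos hle, coeff_mul,
      Finset.Nat.sum_antidiagonal_eq_sum_range_succ
        (fun a m => ((p i).comp (C ((q : ℤ) ^ 2) * X)).coeff a * (eOne q N (-(i : ℤ))).coeff m), mul_sum]
    refine sum_congr rfl fun a ha => ?_
    rw [mem_range] at ha
    rw [eOne_coeff q N _ _ (by omega), comp_C_mul_X_coeff, ← pow_mul]
    ring
  · intro β _ hβ
    rw [mem_range, not_lt, Nat.succ_le_iff, Nat.div_lt_iff_lt_mul (by omega : 0 < n)] at hβ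
    rw [mul_left_comm, coeff_C_mul, coeff_mul_X_pow', if_neg (by rw [mul_comm n β]; omega), mul_zero]

end Pool.Agent.NLG
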