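import Pool.Agent.NLG.NilEv
import Pool.Agent.NLG.VanEval
import Pool.Agent.NLG.VanEval

/-!
NLG-Divis: the values of the derivatives are divisible by a high power of e.

PLAN.  Ring R = (ZMod (e^N))[X] (Polynomial), t = X the variable, E = (e : R), E^N = 0.  r = C of the
inverse of q^2 in ZMod (e^N) (e and q coprime).  Let x' = x + E t (1 - x), w = x^n, Y = y ev(-1)(E t)
(with ev q (-1) N r (E*t)).  Then 1 - x' = (1-x)(1 - E t), x' is a multiple of E and w a multiple of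
E^n (e ∣ x), so x'^s w^β = 0 for s + n β ≥ N, and x'^N = 0, w^N = 0 (n ≥ 1).  Y^q (1-x') =
y^q (1-x) * (ev(-1)(Et)^q (1-Et)) = 1 - w by ev_neg_pow.  Y - 1 = (y-1) + y (ev(-1)(Et) - 1) =
unit (e, y-1 coprime) + nilpotent.  van_eval (x := x') and sum_zero with
A i = ∑ b, aeval x' (P i b) w^b give ∑ A_i Y^i = 0 in R.  Now Y^i = y^i ev(-i)(Et) (ev_natMul) and
aeval x' (P i b) = aeval ((1-x)(1 - Et)) (zp P i b) = ∑ d, c_d (1-x)^d (1-Et)^d, and
(1 - Et)^d ev(-i)(Et) = ev(q d - i)(Et) (ev_self, ev_natMul, ev_mul).  The coefficient of t^l (l < N) of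
ev(j)(Et) is KZ q j l * (r e)^l.  So the coefficient of t^l of the sum is r^l e^l vv l, hence
e^l * vv l = 0 in ZMod (e^N) (r is a unit), e^N ∣ e^l vv l, e^(N-l) ∣ vv l (e ≠ 0; if e = 0 then
IsCoprime 0 q is impossible for q ≥ 2).
-/

namespace Pool.Agent.NLG

open Finset Polynomial

private theorem Divis_coeff_ev {K : Type*} [CommRing K] (q : ℕ) (j : ℤ) {N l : ℕ} (hl : l < N)
    (β γ : K) : (ev q j N (C β) (C γ * X)).coeff l = (KZ q j l : K) * (β * γ) ^ l := by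
  unfold ev
  rw [Polynomial.finsetSum_coeff]
  have h : ∀ m ∈ range N, (((KZ q j m : ℤ) : K[X]) * (C β * (C γ * X)) ^ m).coeff l =
      if l = m then (KZ q j m : K) * (β * γ) ^ m else 0 := by
    intro m _
    have h1 : (C β * (C γ * X) : K[X]) ^ m = C ((β * γ) ^ m) * X ^ m := by
      rw [← mul_assoc, ← C_mul, mul_pow, C_pow]
    rw [coeff_intCast_mul, h1, coeff_C_mul_X_pow]
    split_ifs
    · rfl
    · rw [mul_zero]
  rw [sum_congr rfl h, sum_ite_eq, if_pos (mem_range.mpr hl)]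

/-- `A_i Y^i` as an integral combination of truncated powers. -/
private theorem Divis_term {R : Type*} [CommRing R] {q N B : ℕ} (hq : 1 ≤ q) (hN : 1 ≤ N)
    {P : ℕ → ℕ → ℤ[X]} {x y w : ℤ} {r a x' : R} (hr : r * (q : R) ^ 2 = 1) (ha : a ^ N = 0)
    (hx' : 1 - x' = ((1 - x : ℤ) : R) * (1 - a)) (i : ℕ) :
    (∑ b ∈ range B, aeval x' (P i b) * ((w : ℤ) : R) ^ b) * (((y : ℤ) : R) * ev q (-1) N r a) ^ i =
    ∑ b ∈ range B, (zp P i b).sum fun d c =>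
      ((w ^ b * y ^ i * (c * (1 - x) ^ d) : ℤ) : R) * ev q ((q : ℤ) * d - i) N r a := by
  rw [sum_mul]
  refine sum_congr rfl fun b _ => ?_
  have h1 : aeval x' (P i b) = (zp P i b).sum fun d c => (c : R) * ((((1 - x : ℤ) : R)) * (1 - a)) ^ d := by
    have h2 : aeval x' (P i b) = aeval (1 - x') (zp P i b) := by
      unfold zp
      rw [aeval_comp]
      congr 1
      simp
    rw [h2, hx', aeval_def, eval₂_eq_sum]
    refine Finset.sum_congr rfl fun d _ => ?_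
    simp
  rw [h1, Polynomial.sum_def, Polynomial.sum_def, sum_mul, sum_mul]
  refine sum_congr rfl fun d _ => ?_
  have h3 : ev q (-1) N r a ^ i = ev q (-(i : ℤ)) N r a := by
    rw [← ev_natMul hq hN i (-1) r a ha]
    congr 1
    ring
  have h4 : (1 - a) ^ d = ev q ((q : ℤ) * d) N r a := by
    rw [← ev_self hq hN hr ha, ← ev_natMul hq hN d (q : ℤ) r a ha]
    congr 1
    ring
  have h5 : ev q ((q : ℤ) * d) N r a * ev q (-(i : ℤ)) N r a = ev q ((q : ℤ) * d - i) N r a := by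
    rw [ev_mul hq _ _ r a ha, sub_eq_add_neg]
  rw [mul_pow, mul_pow, h3, h4, ← h5]
  push_cast
  ring

theorem divis {q n N B : ℕ} (hq : 2 ≤ q) (hn : 1 ≤ n) (hN : 1 ≤ N) {P : ℕ → ℕ → ℤ[X]}
    (hB : ∀ i b, B ≤ b → P i b = 0) (hV : Van q n N P) {x y : ℤ} {e : ℕ}
    (hex : (e : ℤ) ∣ x) (heq : IsCoprime (e : ℤ) q) (hey : IsCoprime (e : ℤ) (y - 1))
    (hxy : y ^ q * (1 - x) = 1 - x ^ n) {l : ℕ} (hl : l < N) :
    (e : ℤ) ^ (N - l) ∣ vv q B (zp P) (1 - x) (x ^ n) y l := by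
  have hE : (((e : ℤ) ^ N : ℤ) : ZMod (e ^ N)) = 0 := by
    rw [ZMod.intCast_zmod_eq_zero_iff_dvd]
    push_cast
    exact dvd_rfl
  have hcop : ∀ c : ℤ, IsCoprime (e : ℤ) c → ∃ b : ℤ, ((b : ℤ) : ZMod (e ^ N)) * (c : ZMod (e ^ N)) = 1 := by
    intro c hc
    obtain ⟨a, b, hab⟩ := (IsCoprime.pow_left hc : IsCoprime ((e : ℤ) ^ N) c)
    refine ⟨b, ?_⟩
    have h1 := congrArg (fun t : ℤ => (t : ZMod (e ^ N))) hab
    rw [Int.cast_add, Int.cast_mul, Int.cast_mul, hE, mul_zero, zero_add, Int.cast_one] at h1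
    exact h1
  obtain ⟨b, hb⟩ := hcop q heq
  rw [Int.cast_natCast] at hb
  have hEK : ((e : ZMod (e ^ N))) ^ N = 0 := by
    have := hE
    push_cast at this
    exact this
  -- the polynomial ring
  set r : (ZMod (e ^ N))[X] := C ((b : ZMod (e ^ N)) ^ 2) with hrdef
  set a : (ZMod (e ^ N))[X] := C (e : ZMod (e ^ N)) * X with hadef
  have hq1 : 1 ≤ q := by omega
  have hr : r * (q : (ZMod (e ^ N))[X]) ^ 2 = 1 := by
    rw [hrdef, ← C_eq_natCast, ← C_pow, ← C_mul, ← mul_pow, hb, one_pow, C_1]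
  have hEn : (C (e : ZMod (e ^ N)) : (ZMod (e ^ N))[X]) ^ N = 0 := by
    rw [← C_pow, hEK, C_0]
  have ha : a ^ N = 0 := by
    rw [hadef, mul_pow, hEn, zero_mul]
  obtain ⟨k, hk⟩ := hex
  set x' : (ZMod (e ^ N))[X] := ((x : ℤ) : (ZMod (e ^ N))[X]) + a * ((1 - x : ℤ) : (ZMod (e ^ N))[X]) with hx'def
  have hxE : ((x : ℤ) : (ZMod (e ^ N))[X]) = C (e : ZMod (e ^ N)) * ((k : ℤ) : (ZMod (e ^ N))[X]) := by
    rw [hk]
    push_cast
    rw [C_eq_natCast]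
  have hx'E : x' = C (e : ZMod (e ^ N)) *
      (((k : ℤ) : (ZMod (e ^ N))[X]) + X * ((1 - x : ℤ) : (ZMod (e ^ N))[X])) := by
    rw [hx'def, hxE, hadef]
    ring
  have hx'1 : 1 - x' = ((1 - x : ℤ) : (ZMod (e ^ N))[X]) * (1 - a) := by
    rw [hx'def]
    push_cast
    ring
  have hpow : ∀ s β : ℕ, N ≤ s + n * β → x' ^ s * (((x ^ n : ℤ)) : (ZMod (e ^ N))[X]) ^ β = 0 := by
    intro s β hs
    have h1 : (((x ^ n : ℤ)) : (ZMod (e ^ N))[X]) = (((x : ℤ) : (ZMod (e ^ N))[X])) ^ n := by push_cast; ring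
    rw [h1, hx'E, hxE, ← pow_mul, mul_pow, mul_pow]
    have h2 : (C (e : ZMod (e ^ N)) : (ZMod (e ^ N))[X]) ^ s * (C (e : ZMod (e ^ N))) ^ (n * β) = 0 := by
      rw [← pow_add]
      obtain ⟨u, hu⟩ := Nat.exists_eq_add_of_le hs
      rw [hu, pow_add, hEn, zero_mul]
    linear_combination ((((k : ℤ) : (ZMod (e ^ N))[X]) + X * ((1 - x : ℤ) : (ZMod (e ^ N))[X])) ^ s *
      ((k : ℤ) : (ZMod (e ^ N))[X]) ^ (n * β)) * h2
  have hx'N : x' ^ N = 0 := by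
    have := hpow N 0 (by omega)
    rwa [pow_zero, mul_one] at this
  have hwN : (((x ^ n : ℤ)) : (ZMod (e ^ N))[X]) ^ N = 0 := by
    have := hpow 0 N (by nlinarith)
    rwa [pow_zero, one_mul] at this
  have hevneg := ev_neg_pow hq1 hN hr ha
  have hY : (((y : ℤ) : (ZMod (e ^ N))[X]) * ev q (-1) N r a) ^ q * (1 - x') =
      1 - (((x ^ n : ℤ)) : (ZMod (e ^ N))[X]) := by
    have h1 : ((y ^ q * (1 - x) : ℤ) : (ZMod (e ^ N))[X]) = ((1 - x ^ n : ℤ) : (ZMod (e ^ N))[X]) := by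
      rw [hxy]
    rw [Int.cast_mul, Int.cast_pow, Int.cast_sub 1 (x ^ n), Int.cast_one] at h1
    rw [hx'1, ← h1, mul_pow]
    linear_combination (((y : ℤ) : (ZMod (e ^ N))[X]) ^ q * ((1 - x : ℤ) : (ZMod (e ^ N))[X])) * hevneg
  have hu : IsUnit (((y : ℤ) : (ZMod (e ^ N))[X]) * ev q (-1) N r a - 1) := by
    obtain ⟨b', hb'⟩ := hcop (y - 1) hey
    have h1 : IsUnit (((y - 1 : ℤ)) : (ZMod (e ^ N))[X]) := by
      refine IsUnit.of_mul_eq_one ((b' : ℤ) : (ZMod (e ^ N))[X]) ?_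
      rw [← C_eq_intCast, ← C_eq_intCast, ← C_mul, mul_comm, hb', C_1]
    obtain ⟨c, hc⟩ := ev_dvd hq1 hN (-1) r a (N := N) (q := q)
    have h2 : ((y : ℤ) : (ZMod (e ^ N))[X]) * ev q (-1) N r a - 1 =
        (((y - 1 : ℤ)) : (ZMod (e ^ N))[X]) + ((y : ℤ) : (ZMod (e ^ N))[X]) * (a * c) := by
      rw [← hc]
      push_cast
      ring
    rw [h2]
    refine IsNilpotent.isUnit_add_left_of_commute ⟨N, ?_⟩ h1 (Commute.all _ _)
    rw [mul_pow, mul_pow, ha]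
    ring
  have h0 := sum_zero hq1 hN hr hx'N hwN hY hu
    (fun i => ∑ b ∈ range B, aeval x' (P i b) * (((x ^ n : ℤ)) : (ZMod (e ^ N))[X]) ^ b)
    (fun i hi1 hiq => van_eval hB hV hr hpow hi1 hiq hn)
  have h1 : ∑ i ∈ range q, ∑ b ∈ range B, (zp P i b).sum (fun d c =>
      (((x ^ n) ^ b * y ^ i * (c * (1 - x) ^ d) : ℤ) : (ZMod (e ^ N))[X]) * ev q ((q : ℤ) * d - i) N r a) = 0 := by
    rw [← h0]
    exact sum_congr rfl fun i _ => (Divis_term hq1 hN hr ha hx'1 i).symm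
  have h2 := congrArg (fun p : (ZMod (e ^ N))[X] => p.coeff l) h1
  simp only [Polynomial.finsetSum_coeff, Polynomial.sum_def, coeff_zero, coeff_intCast_mul] at h2
  have h3 : ((vv q B (zp P) (1 - x) (x ^ n) y l : ℤ) : ZMod (e ^ N)) *
      ((b : ZMod (e ^ N)) ^ 2 * (e : ZMod (e ^ N))) ^ l = 0 := by
    rw [← h2]
    unfold vv
    rw [Int.cast_sum, sum_mul]
    refine sum_congr rfl fun i _ => ?_
    rw [Int.cast_sum, sum_mul]
    refine sum_congr rfl fun b' _ => ?_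
    rw [Int.cast_mul, Polynomial.sum_def, Int.cast_sum, mul_sum, sum_mul]
    refine sum_congr rfl fun d _ => ?_
    rw [hrdef, hadef, Divis_coeff_ev q _ hl]
    push_cast
    ring
  have h4 : (((e : ℤ) ^ l * vv q B (zp P) (1 - x) (x ^ n) y l : ℤ) : ZMod (e ^ N)) = 0 := by
    have h5 : ((b : ZMod (e ^ N)) ^ 2 * (q : ZMod (e ^ N)) ^ 2) = 1 := by
      rw [← mul_pow, hb, one_pow]
    have h6 : (((e : ℤ) ^ l * vv q B (zp P) (1 - x) (x ^ n) y l : ℤ) : ZMod (e ^ N)) =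
        (((b : ZMod (e ^ N)) ^ 2 * (q : ZMod (e ^ N)) ^ 2)) ^ l *
        ((e : ZMod (e ^ N)) ^ l * ((vv q B (zp P) (1 - x) (x ^ n) y l : ℤ) : ZMod (e ^ N))) := by
      rw [h5, one_pow, one_mul]
      push_cast
      ring
    rw [h6]
    have h7 : (((b : ZMod (e ^ N)) ^ 2 * (q : ZMod (e ^ N)) ^ 2)) ^ l *
        ((e : ZMod (e ^ N)) ^ l * ((vv q B (zp P) (1 - x) (x ^ n) y l : ℤ) : ZMod (e ^ N))) =
        ((q : ZMod (e ^ N)) ^ 2) ^ l * (((vv q B (zp P) (1 - x) (x ^ n) y l : ℤ) : ZMod (e ^ N)) *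
      ((b : ZMod (e ^ N)) ^ 2 * (e : ZMod (e ^ N))) ^ l) := by
      rw [mul_pow, mul_pow]
      ring
    rw [h7, h3, mul_zero]
  rw [ZMod.intCast_zmod_eq_zero_iff_dvd] at h4
  push_cast at h4
  have he : (e : ℤ) ≠ 0 := by
    intro he
    rw [he] at heq
    have h8 := isCoprime_zero_left.mp heq
    rw [Int.isUnit_iff] at h8
    omega
  have h9 : (e : ℤ) ^ N = (e : ℤ) ^ l * (e : ℤ) ^ (N - l) := by
    rw [← pow_add, Nat.add_sub_cancel' hl.le]
  rw [h9] at h4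
  exact (mul_dvd_mul_iff_left (pow_ne_zero l he)).mp h4

end Pool.Agent.NLG
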