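import Pool.Agent.NLG.NilEv
import Pool.Agent.NLG.VanEval

/-!
NLG-Divis1: the one variable version of the divisibility.
-/

namespace Pool.Agent.NLG

open Finset Polynomial

theorem divis1 {q n N : ℕ} (hq : 2 ≤ q) (hn : 1 ≤ n) (hN : 1 ≤ N) {p : ℕ → ℤ[X]}
    (hV : Van1 q n N p) {x y : ℤ} {e : ℕ}
    (hex : (e : ℤ) ∣ x) (heq : IsCoprime (e : ℤ) q) (hey : IsCoprime (e : ℤ) (y - 1))
    (hxy : y ^ q * (1 - x) = 1 - x ^ n) :
    (e : ℤ) ^ N ∣ ∑ i ∈ range q, (p i).eval x * y ^ i := by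
  have hE : (((e : ℤ) ^ N : ℤ) : ZMod (e ^ N)) = 0 := by
    rw [ZMod.intCast_zmod_eq_zero_iff_dvd]
    push_cast
    exact dvd_rfl
  have hcop : ∀ c : ℤ, IsCoprime (e : ℤ) c → ∃ b : ℤ, ((b : ℤ) : ZMod (e ^ N)) * (c : ZMod (e ^ N)) = 1 := by
    intro c hc
    obtain ⟨a, b, hab⟩ := (IsCoprime.pow_left hc : IsCoprime ((e : ℤ) ^ N) c)
    refine ⟨b, ?_⟩
    have h1 := congrArg (fun t : ℤ => (t : ZMod (e ^ N))) hab
    rw [Int.cast_add, Int.cast_mul, Int.cast_mul, hE, mul_zero, zero_add, Int.cast_one] at h1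
    exact h1
  obtain ⟨b, hb⟩ := hcop q heq
  rw [Int.cast_natCast] at hb
  have hr : ((b : ZMod (e ^ N)) ^ 2) * (q : ZMod (e ^ N)) ^ 2 = 1 := by
    rw [← mul_pow, hb, one_pow]
  have hx : ((x : ℤ) : ZMod (e ^ N)) ^ N = 0 := by
    obtain ⟨k, rfl⟩ := hex
    rw [← Int.cast_pow, mul_pow, Int.cast_mul, hE, zero_mul]
  have hw : (((x : ℤ) : ZMod (e ^ N)) ^ n) ^ N = 0 := by
    rw [← pow_mul, mul_comm, pow_mul, hx]
    exact zero_pow (by omega)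
  have hY : ((y : ℤ) : ZMod (e ^ N)) ^ q * (1 - (x : ZMod (e ^ N))) = 1 - (x : ZMod (e ^ N)) ^ n := by
    have h1 := congrArg (fun t : ℤ => (t : ZMod (e ^ N))) hxy
    simpa using h1
  have hu : IsUnit (((y : ℤ) : ZMod (e ^ N)) - 1) := by
    obtain ⟨b', hb'⟩ := hcop (y - 1) hey
    rw [Int.cast_sub, Int.cast_one] at hb'
    exact IsUnit.of_mul_eq_one _ (by rw [mul_comm]; exact hb')
  have h0 := sum_zero (by omega : 1 ≤ q) hN hr hx hw hY hu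
    (fun i => aeval ((x : ℤ) : ZMod (e ^ N)) (p i))
    (fun i hi1 hiq => van1_eval hn hV hr hx hi1 hiq)
  have h1 : ((∑ i ∈ range q, (p i).eval x * y ^ i : ℤ) : ZMod (e ^ N)) = 0 := by
    rw [← h0, Int.cast_sum]
    refine sum_congr rfl fun i _ => ?_
    rw [Int.cast_mul, Int.cast_pow]
    congr 1
    have h2 := Polynomial.eval₂_at_apply (p := p i) (Int.castRingHom (ZMod (e ^ N))) x
    exact h2.symm
  rw [ZMod.intCast_zmod_eq_zero_iff_dvd] at h1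
  push_cast at h1
  exact h1

end Pool.Agent.NLG
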