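import Pool.Agent.NLG.Defs2

/-!
NLG-VanD: the conditions VanD, VanD1 evaluated at nilpotent elements.

PLAN.  Model: NLG/VanEval.lean, whose private lemmas psi, bigA, eOne, eTwo, bigA_coeff2 ... can be copied
(with psi u v, u and v directly instead of r x and r w).  Here x = q^2 u, w = q^2 v.
P i b (q^2 u) (q^2 v)^b = ∑ a, c q^(2(a+b)) u^a v^b; the coefficient of u^s v^β of
∑ i, A_i * eOne (-i) * eTwo i is ∑ i, cf q i (P i) β s, zero for s + n β < N; the other monomials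
vanish by huv.  (P i b = 0 for b ≥ B.)
vanD1_eval: v = q^(2n-2) u^n, so (1 - q^2 v)^(i/q) = ∑ β, KZ q i β * q^(2nβ-2β) * u^(nβ).
-/

namespace Pool.Agent.NLG

open Finset Polynomial

section two

variable {R : Type*} [CommRing R]

/-- evaluation at `(u, v)` -/
private noncomputable def psiD (u v : R) : ℤ[X][X] →+* R :=
  eval₂RingHom (aeval u : ℤ[X] →ₐ[ℤ] R).toRingHom v

private theorem psiD_C (u v : R) (c : ℤ[X]) : psiD u v (C c) = aeval u c := by
  unfold psiD
  rw [coe_eval₂RingHom, eval₂_C]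
  rfl

private theorem psiD_X (u v : R) : psiD u v X = v := by
  unfold psiD
  rw [coe_eval₂RingHom, eval₂_X]

private theorem psiD_zero {n N : ℕ} {u v : R} (huv : ∀ s β : ℕ, N ≤ s + n * β → u ^ s * v ^ β = 0)
    {F : ℤ[X][X]} (hF : ∀ s β : ℕ, s + n * β < N → (F.coeff β).coeff s = 0) : psiD u v F = 0 := by
  unfold psiD
  rw [coe_eval₂RingHom, eval₂_eq_sum_range]
  refine sum_eq_zero fun β _ => ?_
  have h1 : (aeval u : ℤ[X] →ₐ[ℤ] R).toRingHom (F.coeff β) = aeval u (F.coeff β) := rfl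
  rw [h1, aeval_eq_sum_range, sum_mul]
  refine sum_eq_zero fun s _ => ?_
  rw [smul_mul_assoc]
  rcases lt_or_ge (s + n * β) N with h | h
  · rw [hF s β h, zero_smul]
  · rw [huv s β h, smul_zero]

private noncomputable def bigD (q B : ℕ) (P : ℕ → ℕ → ℤ[X]) (i : ℕ) : ℤ[X][X] :=
  ∑ b ∈ range B, C (C ((q : ℤ) ^ (2 * b)) * (P i b).comp (C ((q : ℤ) ^ 2) * X)) * X ^ b

private noncomputable def eOneD (q N : ℕ) (j : ℤ) : ℤ[X] := ∑ m ∈ range N, C (KZ q j m) * X ^ m

private noncomputable def eTwoD (q N : ℕ) (j : ℤ) : ℤ[X][X] := ∑ m ∈ range N, C (C (KZ q j m)) * X ^ m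

private theorem eOneD_coeff (q N : ℕ) (j : ℤ) (m : ℕ) (hm : m < N) : (eOneD q N j).coeff m = KZ q j m := by
  unfold eOneD
  rw [finsetSum_coeff]
  simp only [coeff_C_mul_X_pow]
  rw [sum_eq_single m]
  · simp
  · intro b _ hb
    exact if_neg (fun h => hb h.symm)
  · intro h
    exact absurd (mem_range.mpr hm) h

private theorem eTwoD_coeff (q N : ℕ) (j : ℤ) (m : ℕ) (hm : m < N) : (eTwoD q N j).coeff m = C (KZ q j m) := by
  unfold eTwoD
  rw [finsetSum_coeff]
  simp only [coeff_C_mul_X_pow]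
  rw [sum_eq_single m]
  · simp
  · intro b _ hb
    exact if_neg (fun h => hb h.symm)
  · intro h
    exact absurd (mem_range.mpr hm) h

private theorem bigD_coeff (q B : ℕ) (P : ℕ → ℕ → ℤ[X]) (hB : ∀ i b, B ≤ b → P i b = 0) (i b : ℕ) :
    (bigD q B P i).coeff b = C ((q : ℤ) ^ (2 * b)) * (P i b).comp (C ((q : ℤ) ^ 2) * X) := by
  unfold bigD
  rw [finsetSum_coeff]
  simp only [coeff_C_mul_X_pow]
  rcases lt_or_ge b B with h | h
  · rw [sum_eq_single b]
    · simp
    · intro b' _ hb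
      exact if_neg (fun h => hb h.symm)
    · intro h'
      exact absurd (mem_range.mpr h) h'
  · rw [hB i b h, zero_comp, mul_zero]
    refine sum_eq_zero fun b' hb' => if_neg ?_
    rw [mem_range] at hb'
    omega

private theorem bigD_coeff2 (q B : ℕ) (P : ℕ → ℕ → ℤ[X]) (hB : ∀ i b, B ≤ b → P i b = 0) (i b a : ℕ) :
    ((bigD q B P i).coeff b).coeff a = (P i b).coeff a * (q : ℤ) ^ (2 * (a + b)) := by
  rw [bigD_coeff q B P hB, coeff_C_mul, comp_C_mul_X_coeff]
  ring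

private theorem psiD_bigD (q B : ℕ) (P : ℕ → ℕ → ℤ[X]) (i : ℕ) (u v : R) :
    psiD u v (bigD q B P i) = ∑ b ∈ range B, aeval ((q : R) ^ 2 * u) (P i b) * ((q : R) ^ 2 * v) ^ b := by
  unfold bigD
  rw [map_sum]
  refine sum_congr rfl fun b _ => ?_
  rw [map_mul, psiD_C, map_pow (psiD u v) X b, psiD_X, map_mul, aeval_C, aeval_comp]
  have h1 : aeval u (C ((q : ℤ) ^ 2) * X : ℤ[X]) = (q : R) ^ 2 * u := by
    rw [map_mul, aeval_C, aeval_X]
    simp only [map_pow, algebraMap_int_eq, eq_intCast, Int.cast_natCast]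
  rw [h1]
  simp only [map_pow, algebraMap_int_eq, eq_intCast, Int.cast_natCast]
  rw [mul_pow, ← pow_mul]
  ring

private theorem psiD_eOneD (q N : ℕ) (j : ℤ) (u v : R) :
    psiD u v (C (eOneD q N j)) = evp q j N u := by
  unfold eOneD evp
  rw [psiD_C, map_sum]
  refine sum_congr rfl fun m _ => ?_
  rw [map_mul, aeval_C, map_pow, aeval_X]
  simp

private theorem psiD_eTwoD (q N : ℕ) (j : ℤ) (u v : R) :
    psiD u v (eTwoD q N j) = evp q j N v := by
  unfold eTwoD evp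
  rw [map_sum]
  refine sum_congr rfl fun m _ => ?_
  rw [map_mul, psiD_C, aeval_C, map_pow (psiD u v) X m, psiD_X]
  simp

end two

theorem vanD_eval {R : Type*} [CommRing R] {q n N B : ℕ} {P : ℕ → ℕ → ℤ[X]}
    (hB : ∀ i b, B ≤ b → P i b = 0) (hV : VanD q n N P) (hn : 1 ≤ n) {u v : R}
    (huv : ∀ s β : ℕ, N ≤ s + n * β → u ^ s * v ^ β = 0) :
    ∑ i ∈ range q, (∑ b ∈ range B, aeval ((q : R) ^ 2 * u) (P i b) * ((q : R) ^ 2 * v) ^ b) *
      (evp q (-(i : ℤ)) N u * evp q i N v) = 0 := by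
  have h0 : ∑ i ∈ range q, (∑ b ∈ range B, aeval ((q : R) ^ 2 * u) (P i b) * ((q : R) ^ 2 * v) ^ b) *
      (evp q (-(i : ℤ)) N u * evp q i N v) =
      psiD u v (∑ i ∈ range q, bigD q B P i * (C (eOneD q N (-(i : ℤ))) * eTwoD q N i)) := by
    rw [map_sum]
    refine sum_congr rfl fun i _ => ?_
    rw [map_mul, map_mul, psiD_bigD, psiD_eOneD, psiD_eTwoD]
  rw [h0]
  refine psiD_zero (n := n) (N := N) huv ?_
  intro s β h
  have hβ : β < N := by
    have : β ≤ n * β := Nat.le_mul_of_pos_left β (by omega)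
    omega
  have hs : s < N := by omega
  rw [finsetSum_coeff, finsetSum_coeff, ← hV β s h]
  refine sum_congr rfl fun i _ => ?_
  unfold cf
  rw [← mul_assoc, coeff_mul,
    Finset.Nat.sum_antidiagonal_eq_sum_range_succ
      (fun b m' => ((bigD q B P i * C (eOneD q N (-(i : ℤ)))).coeff b * (eTwoD q N (i : ℤ)).coeff m')),
    finsetSum_coeff]
  refine sum_congr rfl fun b hb => ?_
  rw [mem_range] at hb
  rw [eTwoD_coeff q N _ _ (by omega), coeff_mul_C, coeff_mul_C, coeff_mul,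
    Finset.Nat.sum_antidiagonal_eq_sum_range_succ
      (fun a m => ((bigD q B P i).coeff b).coeff a * (eOneD q N (-(i : ℤ))).coeff m), sum_mul]
  refine sum_congr rfl fun a ha => ?_
  rw [mem_range] at ha
  rw [eOneD_coeff q N _ _ (by omega), bigD_coeff2 q B P hB]

private theorem aevalD_zero_of {R : Type*} [CommRing R] {N : ℕ} {u : R} (hu : u ^ N = 0) {F : ℤ[X]}
    (hF : ∀ s : ℕ, s < N → F.coeff s = 0) : aeval u F = 0 := by
  rw [aeval_eq_sum_range]
  refine sum_eq_zero fun s _ => ?_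
  rcases lt_or_ge s N with h | h
  · rw [hF s h, zero_smul]
  · rw [pow_eq_zero_of_le h hu, smul_zero]

theorem vanD1_eval {R : Type*} [CommRing R] {q n N : ℕ} (hn : 1 ≤ n) {p : ℕ → ℤ[X]}
    (hV : VanD1 q n N p) {u v : R} (hu : u ^ N = 0) (hv : v = (q : R) ^ (2 * n - 2) * u ^ n) :
    ∑ i ∈ range q, aeval ((q : R) ^ 2 * u) (p i) * (evp q (-(i : ℤ)) N u * evp q i N v) = 0 := by
  have hX : ∀ f : ℤ[X], aeval ((q : R) ^ 2 * u) f = aeval u (f.comp (C ((q : ℤ) ^ 2) * X)) := by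
    intro f
    rw [aeval_comp]
    have h1 : aeval u (C ((q : ℤ) ^ 2) * X : ℤ[X]) = (q : R) ^ 2 * u := by
      rw [map_mul, aeval_C, aeval_X]
      simp only [map_pow, algebraMap_int_eq, eq_intCast, Int.cast_natCast]
    rw [h1]
  have h1 : ∀ i : ℕ, evp q (-(i : ℤ)) N u = aeval u (eOneD q N (-(i : ℤ))) := by
    intro i
    unfold eOneD evp
    rw [map_sum]
    refine sum_congr rfl fun m _ => ?_
    rw [map_mul, aeval_C, map_pow, aeval_X]
    simp
  have h2 : ∀ i : ℕ, evp q i N v =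
      aeval u (∑ β ∈ range N, C (KZ q i β * (q : ℤ) ^ (2 * (n * β) - 2 * β)) * X ^ (n * β)) := by
    intro i
    unfold evp
    rw [map_sum]
    refine sum_congr rfl fun β _ => ?_
    rw [map_mul, aeval_C, map_pow, aeval_X, hv, mul_pow, ← pow_mul, ← pow_mul]
    have hd2 : 2 * (n * β) - 2 * β = (2 * n - 2) * β := by
      rw [Nat.sub_mul, mul_assoc]
    rw [hd2]
    simp only [map_mul, map_pow, algebraMap_int_eq, eq_intCast, Int.cast_natCast]
    ring
  have h0 : ∑ i ∈ range q, aeval ((q : R) ^ 2 * u) (p i) * (evp q (-(i : ℤ)) N u * evp q i N v) =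
      aeval u (∑ i ∈ range q, (p i).comp (C ((q : ℤ) ^ 2) * X) * (eOneD q N (-(i : ℤ)) *
        ∑ β ∈ range N, C (KZ q i β * (q : ℤ) ^ (2 * (n * β) - 2 * β)) * X ^ (n * β))) := by
    rw [map_sum]
    refine sum_congr rfl fun i _ => ?_
    rw [map_mul, map_mul, ← hX, ← h1, ← h2]
  rw [h0]
  refine aevalD_zero_of (N := N) hu ?_
  intro s hs
  rw [finsetSum_coeff, ← hV s hs]
  refine sum_congr rfl fun i _ => ?_
  unfold cf1
  rw [← mul_assoc, mul_sum, finsetSum_coeff]
  have hsub : range (s / n + 1) ⊆ range N := by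
    intro β hβ
    rw [mem_range] at hβ ⊢
    have : s / n ≤ s := Nat.div_le_self s n
    omega
  rw [← sum_subset hsub]
  · refine sum_congr rfl fun β hβ => ?_
    rw [mem_range, Nat.lt_succ_iff, Nat.le_div_iff_mul_le (by omega : 0 < n)] at hβ
    have hle : n * β ≤ s := by rw [mul_comm]; exact hβ
    rw [mul_left_comm, coeff_C_mul, coeff_mul_X_pow', if_pos hle, coeff_mul,
      Finset.Nat.sum_antidiagonal_eq_sum_range_succ
        (fun a m => ((p i).comp (C ((q : ℤ) ^ 2) * X)).coeff a * (eOneD q N (-(i : ℤ))).coeff m), mul_sum]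
    refine sum_congr rfl fun a ha => ?_
    rw [mem_range] at ha
    rw [eOneD_coeff q N _ _ (by omega), comp_C_mul_X_coeff, ← pow_mul]
    ring
  · intro β _ hβ
    rw [mem_range, not_lt, Nat.succ_le_iff, Nat.div_lt_iff_lt_mul (by omega : 0 < n)] at hβ
    rw [mul_left_comm, coeff_C_mul, coeff_mul_X_pow', if_neg (by rw [mul_comm n β]; omega), mul_zero]

end Pool.Agent.NLG
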