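import Pool.Agent.NLG.EvP
import Pool.Agent.NLG.VanD

/-!
NLG-DivisD: for D ∣ gcd(x, y-1) as in GoodD, D^(N-l) divides q times the derivative values.

PLAN.  Model: NLG/Divis.lean (copy).  K = ZMod (D^N), R = K[X] (Polynomial), t = X, a = D t.
good_K: from GoodD: there are u0, h : K with (x : K) = q^2 (D u0) and (y : K) - 1 = q (D h).  First case:
q is invertible in K (IsCoprime D q), x = D x1, u0 = q^(-2) x1, h = q^(-1) h1; second case: x = q^2 D u0,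
y - 1 = q D h in ℤ.
In R: u := D u0 + D t (1-x), x' := q^2 u = x + q^2 (D t) (1-x), so 1 - x' = (1-x)(1 - q^2 a).
v := q^(2n-2) (D u0)^n, q^2 v = x^n = w.  u is a multiple of D and v of D^n, so u^s v^β = 0 for s + n β ≥ N.
Y := y * evp q (-1) N a: Y^q (1 - q^2 u) = y^q (1-x) (evp(-1)(a)^q (1 - q^2 a)) = 1 - w (evp_neg_pow).
Y - 1 = (y-1) + y (evp(-1)(a) - 1) = q (D * ...) (evp_sub_one, good_K).  vanD_eval and sumD_zero with
A i = ∑ b, aeval x' (P i b) w^b give q ∑ A_i Y^i = 0.  Y^i = y^i evp(-i)(a) (evp_natMul),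
aeval x' (P i b) = aeval ((1-x)(1 - q^2 a)) (zp P i b) = ∑ d, c_d (1-x)^d (1-q^2 a)^d and
(1-q^2 a)^d evp(-i)(a) = evp(q d - i)(a) (evp_self, evp_natMul, evp_mul); the coefficient of t^l (l < N) of
evp(j)(a) is KZ q j l * D^l.  So D^l * q * vv l = 0 in K, D^N ∣ D^l q vv l, D^(N-l) ∣ q vv l (D ≥ 1).
divisD1: the same without t (R = K, u = D u0, Y = y).
-/

namespace Pool.Agent.NLG

open Finset Polynomial

private theorem DivisD_coeff_evp {K : Type*} [CommRing K] (q : ℕ) (j : ℤ) {N l : ℕ} (hl : l < N)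
    (γ : K) : (evp q j N (C γ * X)).coeff l = (KZ q j l : K) * γ ^ l := by
  unfold evp
  rw [Polynomial.finsetSum_coeff]
  have h : ∀ m ∈ range N, (((KZ q j m : ℤ) : K[X]) * (C γ * X) ^ m).coeff l =
      if l = m then (KZ q j m : K) * γ ^ m else 0 := by
    intro m _
    have h1 : (C γ * X : K[X]) ^ m = C (γ ^ m) * X ^ m := by
      rw [mul_pow, C_pow]
    rw [coeff_intCast_mul, h1, coeff_C_mul_X_pow]
    split_ifs
    · rfl
    · rw [mul_zero]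
  rw [sum_congr rfl h, sum_ite_eq, if_pos (mem_range.mpr hl)]

/-- `A_i Y^i` as an integral combination of truncated powers. -/
private theorem DivisD_term {R : Type*} [CommRing R] {q N B : ℕ} (hq : 1 ≤ q) (hN : 1 ≤ N)
    {P : ℕ → ℕ → ℤ[X]} {x y w : ℤ} {a x' : R} (ha : a ^ N = 0)
    (hx' : 1 - x' = ((1 - x : ℤ) : R) * (1 - (q : R) ^ 2 * a)) (i : ℕ) :
    (∑ b ∈ range B, aeval x' (P i b) * ((w : ℤ) : R) ^ b) * (((y : ℤ) : R) * evp q (-1) N a) ^ i =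
    ∑ b ∈ range B, (zp P i b).sum fun d c =>
      ((w ^ b * y ^ i * (c * (1 - x) ^ d) : ℤ) : R) * evp q ((q : ℤ) * d - i) N a := by
  rw [sum_mul]
  refine sum_congr rfl fun b _ => ?_
  have h1 : aeval x' (P i b) = (zp P i b).sum fun d c => (c : R) *
      ((((1 - x : ℤ) : R)) * (1 - (q : R) ^ 2 * a)) ^ d := by
    have h2 : aeval x' (P i b) = aeval (1 - x') (zp P i b) := by
      unfold zp
      rw [aeval_comp]
      congr 1
      simp
    rw [h2, hx', aeval_def, eval₂_eq_sum]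
    refine Finset.sum_congr rfl fun d _ => ?_
    simp
  rw [h1, Polynomial.sum_def, Polynomial.sum_def, sum_mul, sum_mul]
  refine sum_congr rfl fun d _ => ?_
  have h3 : evp q (-1) N a ^ i = evp q (-(i : ℤ)) N a := by
    rw [← evp_natMul hq hN i (-1) a ha]
    congr 1
    ring
  have h4 : (1 - (q : R) ^ 2 * a) ^ d = evp q ((q : ℤ) * d) N a := by
    rw [← evp_self hq hN ha, ← evp_natMul hq hN d (q : ℤ) a ha]
    congr 1
    ring
  have h5 : evp q ((q : ℤ) * d) N a * evp q (-(i : ℤ)) N a = evp q ((q : ℤ) * d - i) N a := by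
    rw [evp_mul hq _ _ a ha, sub_eq_add_neg]
  rw [mul_pow, mul_pow, h3, h4, ← h5]
  push_cast
  ring

/-- the hypotheses in the ring of residues -/
private theorem DivisD_good {q N D : ℕ} {x y : ℤ} (hg : GoodD q D x y) :
    ∃ u0 h : ZMod (D ^ N), ((x : ℤ) : ZMod (D ^ N)) = (q : ZMod (D ^ N)) ^ 2 * ((D : ZMod (D ^ N)) * u0) ∧
      ((y : ℤ) : ZMod (D ^ N)) - 1 = (q : ZMod (D ^ N)) * ((D : ZMod (D ^ N)) * h) := by
  have hE : (((D : ℤ) ^ N : ℤ) : ZMod (D ^ N)) = 0 := by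
    rw [ZMod.intCast_zmod_eq_zero_iff_dvd]
    push_cast
    exact dvd_rfl
  rcases hg with ⟨hc, ⟨k, hk⟩, ⟨m, hm⟩⟩ | ⟨⟨k, hk⟩, ⟨m, hm⟩⟩
  · obtain ⟨b, hb⟩ : ∃ b : ℤ, ((b : ℤ) : ZMod (D ^ N)) * (q : ZMod (D ^ N)) = 1 := by
      obtain ⟨a, b, hab⟩ := (IsCoprime.pow_left hc : IsCoprime ((D : ℤ) ^ N) (q : ℤ))
      refine ⟨b, ?_⟩
      have h1 := congrArg (fun t : ℤ => (t : ZMod (D ^ N))) hab
      rw [Int.cast_add, Int.cast_mul, Int.cast_mul, hE, mul_zero, zero_add, Int.cast_one,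
        Int.cast_natCast] at h1
      exact h1
    refine ⟨(b : ZMod (D ^ N)) ^ 2 * (k : ZMod (D ^ N)), (b : ZMod (D ^ N)) * (m : ZMod (D ^ N)), ?_, ?_⟩
    · have h2 : (q : ZMod (D ^ N)) ^ 2 * ((D : ZMod (D ^ N)) * ((b : ZMod (D ^ N)) ^ 2 * (k : ZMod (D ^ N)))) =
          ((b : ZMod (D ^ N)) * (q : ZMod (D ^ N))) ^ 2 * ((D : ZMod (D ^ N)) * (k : ZMod (D ^ N))) := by ring
      rw [h2, hb, hk]
      push_cast
      ring
    · have h2 : (q : ZMod (D ^ N)) * ((D : ZMod (D ^ N)) * ((b : ZMod (D ^ N)) * (m : ZMod (D ^ N)))) =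
          ((b : ZMod (D ^ N)) * (q : ZMod (D ^ N))) * ((D : ZMod (D ^ N)) * (m : ZMod (D ^ N))) := by ring
      have h3 : ((y : ℤ) : ZMod (D ^ N)) - 1 = ((y - 1 : ℤ) : ZMod (D ^ N)) := by push_cast; ring
      rw [h2, hb, h3, hm]
      push_cast
      ring
  · refine ⟨(k : ZMod (D ^ N)), (m : ZMod (D ^ N)), ?_, ?_⟩
    · rw [hk]
      push_cast
      ring
    · have h3 : ((y : ℤ) : ZMod (D ^ N)) - 1 = ((y - 1 : ℤ) : ZMod (D ^ N)) := by push_cast; ring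
      rw [h3, hm]
      push_cast
      ring

theorem divisD {q n N B D : ℕ} (hq : q.Prime) (hq3 : 3 ≤ q) (hn : 1 ≤ n) (hN : 1 ≤ N) (hD : 1 ≤ D)
    {P : ℕ → ℕ → ℤ[X]} (hB : ∀ i b, B ≤ b → P i b = 0) (hV : VanD q n N P) {x y : ℤ}
    (hg : GoodD q D x y) (hxy : y ^ q * (1 - x) = 1 - x ^ n) {l : ℕ} (hl : l < N) :
    (D : ℤ) ^ (N - l) ∣ q * vv q B (zp P) (1 - x) (x ^ n) y l := by
  have hE : (((D : ℤ) ^ N : ℤ) : ZMod (D ^ N)) = 0 := by
    rw [ZMod.intCast_zmod_eq_zero_iff_dvd]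
    push_cast
    exact dvd_rfl
  have hDK : ((D : ZMod (D ^ N))) ^ N = 0 := by
    have := hE
    push_cast at this
    exact this
  obtain ⟨u0, h, hxK, hyK⟩ := DivisD_good (N := N) hg
  have hq1 : 1 ≤ q := by omega
  -- the polynomial ring
  set a : (ZMod (D ^ N))[X] := C (D : ZMod (D ^ N)) * X with hadef
  have hDn : (C (D : ZMod (D ^ N)) : (ZMod (D ^ N))[X]) ^ N = 0 := by
    rw [← C_pow, hDK, C_0]
  have ha : a ^ N = 0 := by
    rw [hadef, mul_pow, hDn, zero_mul]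
  have hxR : ((x : ℤ) : (ZMod (D ^ N))[X]) =
      (q : (ZMod (D ^ N))[X]) ^ 2 * (C (D : ZMod (D ^ N)) * C u0) := by
    have h1 := congrArg (fun t : ZMod (D ^ N) => (C t : (ZMod (D ^ N))[X])) hxK
    simp only [C_mul, C_pow, C_eq_intCast] at h1
    rw [h1]
    congr 1
  have hyR : ((y : ℤ) : (ZMod (D ^ N))[X]) - 1 =
      (q : (ZMod (D ^ N))[X]) * (C (D : ZMod (D ^ N)) * C h) := by
    have h1 := congrArg (fun t : ZMod (D ^ N) => (C t : (ZMod (D ^ N))[X])) hyK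
    simp only [C_mul, C_sub, C_1, C_eq_intCast] at h1
    rw [h1]
    congr 1
  set u : (ZMod (D ^ N))[X] := C (D : ZMod (D ^ N)) * C u0 + a * ((1 - x : ℤ) : (ZMod (D ^ N))[X]) with hudef
  have huE : u = C (D : ZMod (D ^ N)) * (C u0 + X * ((1 - x : ℤ) : (ZMod (D ^ N))[X])) := by
    rw [hudef, hadef]
    ring
  have hx'1 : 1 - (q : (ZMod (D ^ N))[X]) ^ 2 * u =
      ((1 - x : ℤ) : (ZMod (D ^ N))[X]) * (1 - (q : (ZMod (D ^ N))[X]) ^ 2 * a) := by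
    have h1 : (q : (ZMod (D ^ N))[X]) ^ 2 * u = ((x : ℤ) : (ZMod (D ^ N))[X]) +
        (q : (ZMod (D ^ N))[X]) ^ 2 * a * ((1 - x : ℤ) : (ZMod (D ^ N))[X]) := by
      rw [hudef, mul_add, ← hxR]
      ring
    rw [h1]
    push_cast
    ring
  set v : (ZMod (D ^ N))[X] := (q : (ZMod (D ^ N))[X]) ^ (2 * n - 2) *
    (C (D : ZMod (D ^ N)) * C u0) ^ n with hvdef
  have hvw : (q : (ZMod (D ^ N))[X]) ^ 2 * v = (((x ^ n : ℤ)) : (ZMod (D ^ N))[X]) := by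
    have h1 : (((x ^ n : ℤ)) : (ZMod (D ^ N))[X]) = (((x : ℤ) : (ZMod (D ^ N))[X])) ^ n := by push_cast; ring
    have h5 : (q : (ZMod (D ^ N))[X]) ^ 2 * (q : (ZMod (D ^ N))[X]) ^ (2 * n - 2) =
        ((q : (ZMod (D ^ N))[X]) ^ 2) ^ n := by
      rw [← pow_add, ← pow_mul]
      congr 1
      omega
    rw [h1, hxR, hvdef, mul_pow ((q : (ZMod (D ^ N))[X]) ^ 2), ← h5]
    ring
  have hpow : ∀ s β : ℕ, N ≤ s + n * β → u ^ s * v ^ β = 0 := by
    intro s β hs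
    have h2 : (C (D : ZMod (D ^ N)) : (ZMod (D ^ N))[X]) ^ s * (C (D : ZMod (D ^ N))) ^ (n * β) = 0 := by
      rw [← pow_add]
      obtain ⟨t, ht⟩ := Nat.exists_eq_add_of_le hs
      rw [ht, pow_add, hDn, zero_mul]
    have h6 : v ^ β = (q : (ZMod (D ^ N))[X]) ^ ((2 * n - 2) * β) *
        ((C (D : ZMod (D ^ N))) ^ (n * β) * (C u0) ^ (n * β)) := by
      rw [hvdef, mul_pow, ← pow_mul, ← pow_mul, mul_pow]
    rw [huE, h6, mul_pow]
    linear_combination ((C u0 + X * ((1 - x : ℤ) : (ZMod (D ^ N))[X])) ^ s *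
      (q : (ZMod (D ^ N))[X]) ^ ((2 * n - 2) * β) * (C u0) ^ (n * β)) * h2
  have huN : u ^ N = 0 := by
    have := hpow N 0 (by omega)
    rwa [pow_zero, mul_one] at this
  have hvN : v ^ N = 0 := by
    have := hpow 0 N (by nlinarith)
    rwa [pow_zero, one_mul] at this
  have hevneg := evp_neg_pow hq1 hN ha
  have hY : (((y : ℤ) : (ZMod (D ^ N))[X]) * evp q (-1) N a) ^ q * (1 - (q : (ZMod (D ^ N))[X]) ^ 2 * u) =
      1 - (q : (ZMod (D ^ N))[X]) ^ 2 * v := by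
    have h1 : ((y ^ q * (1 - x) : ℤ) : (ZMod (D ^ N))[X]) = ((1 - x ^ n : ℤ) : (ZMod (D ^ N))[X]) := by
      rw [hxy]
    rw [Int.cast_mul, Int.cast_pow, Int.cast_sub 1 (x ^ n), Int.cast_one] at h1
    rw [hx'1, hvw, ← h1, mul_pow]
    linear_combination (((y : ℤ) : (ZMod (D ^ N))[X]) ^ q * ((1 - x : ℤ) : (ZMod (D ^ N))[X])) * hevneg
  obtain ⟨c, hc⟩ := evp_sub_one hq hq3 hN (-1) a (N := N) (q := q)
  have hY1 : ((y : ℤ) : (ZMod (D ^ N))[X]) * evp q (-1) N a - 1 = (q : (ZMod (D ^ N))[X]) *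
      (C (D : ZMod (D ^ N)) * (C h + ((y : ℤ) : (ZMod (D ^ N))[X]) * X * c)) := by
    have h1 : ((y : ℤ) : (ZMod (D ^ N))[X]) * evp q (-1) N a - 1 =
        (((y : ℤ) : (ZMod (D ^ N))[X]) - 1) + ((y : ℤ) : (ZMod (D ^ N))[X]) * (evp q (-1) N a - 1) := by ring
    rw [h1, hc, hyR, hadef]
    ring
  have hg1 : IsNilpotent (C (D : ZMod (D ^ N)) * (C h + ((y : ℤ) : (ZMod (D ^ N))[X]) * X * c)) :=
    ⟨N, by rw [mul_pow, hDn, zero_mul]⟩
  have h0 := sumD_zero hq hq3 hN huN hvN hY hg1 hY1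
    (fun i => ∑ b ∈ range B, aeval ((q : (ZMod (D ^ N))[X]) ^ 2 * u) (P i b) *
      ((q : (ZMod (D ^ N))[X]) ^ 2 * v) ^ b)
    (vanD_eval hB hV hn hpow)
  rw [hvw] at h0
  have h1 : (q : (ZMod (D ^ N))[X]) * ∑ i ∈ range q, ∑ b ∈ range B, (zp P i b).sum (fun d c =>
      (((x ^ n) ^ b * y ^ i * (c * (1 - x) ^ d) : ℤ) : (ZMod (D ^ N))[X]) * evp q ((q : ℤ) * d - i) N a) = 0 := by
    rw [← h0]
    congr 1
    exact sum_congr rfl fun i _ => (DivisD_term hq1 hN ha hx'1 i).symm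
  have h2 := congrArg (fun p : (ZMod (D ^ N))[X] => p.coeff l) h1
  simp only [coeff_natCast_mul, Polynomial.finsetSum_coeff, Polynomial.sum_def, coeff_zero,
    coeff_intCast_mul] at h2
  have h3 : (q : ZMod (D ^ N)) * (((vv q B (zp P) (1 - x) (x ^ n) y l : ℤ) : ZMod (D ^ N)) *
      (D : ZMod (D ^ N)) ^ l) = 0 := by
    rw [← h2]
    congr 1
    unfold vv
    rw [Int.cast_sum, sum_mul]
    refine sum_congr rfl fun i _ => ?_
    rw [Int.cast_sum, sum_mul]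
    refine sum_congr rfl fun b' _ => ?_
    rw [Int.cast_mul, Polynomial.sum_def, Int.cast_sum, mul_sum, sum_mul]
    refine sum_congr rfl fun d _ => ?_
    rw [hadef, DivisD_coeff_evp q _ hl]
    push_cast
    ring
  have h4 : (((D : ℤ) ^ l * ((q : ℤ) * vv q B (zp P) (1 - x) (x ^ n) y l) : ℤ) : ZMod (D ^ N)) = 0 := by
    rw [← h3]
    push_cast
    ring
  rw [ZMod.intCast_zmod_eq_zero_iff_dvd] at h4
  push_cast at h4
  have hD0 : (D : ℤ) ≠ 0 := by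
    have : 0 < D := hD
    positivity
  have h9 : (D : ℤ) ^ N = (D : ℤ) ^ l * (D : ℤ) ^ (N - l) := by
    rw [← pow_add, Nat.add_sub_cancel' hl.le]
  rw [h9] at h4
  exact (mul_dvd_mul_iff_left (pow_ne_zero l hD0)).mp h4

end Pool.Agent.NLG
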