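import Pool.Agent.NLG.EvP
import Pool.Agent.NLG.VanD

/-!
NLG-DivisD1: the one variable version of the divisibility for the divisors of the gcd.
-/

namespace Pool.Agent.NLG

open Finset Polynomial

private theorem dd1_good {q N D : ℕ} {x y : ℤ} (hg : GoodD q D x y) :
    ∃ u0 h : ZMod (D ^ N), ((x : ℤ) : ZMod (D ^ N)) = (q : ZMod (D ^ N)) ^ 2 * ((D : ZMod (D ^ N)) * u0) ∧
      ((y : ℤ) : ZMod (D ^ N)) - 1 = (q : ZMod (D ^ N)) * ((D : ZMod (D ^ N)) * h) := by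
  have hE : (((D : ℤ) ^ N : ℤ) : ZMod (D ^ N)) = 0 := by
    rw [ZMod.intCast_zmod_eq_zero_iff_dvd]
    push_cast
    exact dvd_rfl
  rcases hg with ⟨hc, hx, hy⟩ | ⟨hx, hy⟩
  · obtain ⟨a, b, hab⟩ := (IsCoprime.pow_left hc : IsCoprime ((D : ℤ) ^ N) (q : ℤ))
    have h1 := congrArg (fun t : ℤ => (t : ZMod (D ^ N))) hab
    rw [Int.cast_add, Int.cast_mul, Int.cast_mul, hE, mul_zero, zero_add, Int.cast_one,
      Int.cast_natCast] at h1
    obtain ⟨k1, hk1⟩ := hx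
    obtain ⟨k2, hk2⟩ := hy
    refine ⟨(b : ZMod (D ^ N)) ^ 2 * (k1 : ZMod (D ^ N)), (b : ZMod (D ^ N)) * (k2 : ZMod (D ^ N)), ?_, ?_⟩
    · rw [hk1, Int.cast_mul, Int.cast_natCast]
      calc (D : ZMod (D ^ N)) * (k1 : ZMod (D ^ N))
          = ((b : ZMod (D ^ N)) * (q : ZMod (D ^ N))) ^ 2 * (D * k1) := by rw [h1]; ring
        _ = _ := by ring
    · have h2 := congrArg (fun t : ℤ => (t : ZMod (D ^ N))) hk2
      rw [Int.cast_sub, Int.cast_one, Int.cast_mul, Int.cast_natCast] at h2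
      rw [h2]
      calc (D : ZMod (D ^ N)) * (k2 : ZMod (D ^ N))
          = ((b : ZMod (D ^ N)) * (q : ZMod (D ^ N))) * (D * k2) := by rw [h1]; ring
        _ = _ := by ring
  · obtain ⟨k1, hk1⟩ := hx
    obtain ⟨k2, hk2⟩ := hy
    refine ⟨(k1 : ZMod (D ^ N)), (k2 : ZMod (D ^ N)), ?_, ?_⟩
    · rw [hk1, Int.cast_mul, Int.cast_mul, Int.cast_pow, Int.cast_natCast, Int.cast_natCast, mul_assoc]
    · have h2 := congrArg (fun t : ℤ => (t : ZMod (D ^ N))) hk2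
      rw [Int.cast_sub, Int.cast_one, Int.cast_mul, Int.cast_mul, Int.cast_natCast,
        Int.cast_natCast] at h2
      rw [h2, mul_assoc]

theorem divisD1 {q n N D : ℕ} (hq : q.Prime) (hq3 : 3 ≤ q) (hn : 1 ≤ n) (hN : 1 ≤ N) (hD : 1 ≤ D)
    {p : ℕ → ℤ[X]} (hV : VanD1 q n N p) {x y : ℤ}
    (hg : GoodD q D x y) (hxy : y ^ q * (1 - x) = 1 - x ^ n) :
    (D : ℤ) ^ N ∣ q * ∑ i ∈ range q, (p i).eval x * y ^ i := by
  obtain ⟨u0, h, hx0, hy0⟩ := dd1_good (N := N) hg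
  have hE : (D : ZMod (D ^ N)) ^ N = 0 := by
    rw [← Nat.cast_pow]
    exact ZMod.natCast_self _
  obtain ⟨u, hu⟩ : ∃ u : ZMod (D ^ N), u = (D : ZMod (D ^ N)) * u0 := ⟨_, rfl⟩
  rw [← hu] at hx0
  have huN : u ^ N = 0 := by rw [hu, mul_pow, hE, zero_mul]
  obtain ⟨v, hv⟩ : ∃ v : ZMod (D ^ N), v = (q : ZMod (D ^ N)) ^ (2 * n - 2) * u ^ n := ⟨_, rfl⟩
  have hvN : v ^ N = 0 := by
    rw [hv, mul_pow, ← pow_mul u, mul_comm n N, pow_mul u, huN, zero_pow (by omega), mul_zero]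
  have hxv : (q : ZMod (D ^ N)) ^ 2 * v = ((x : ℤ) : ZMod (D ^ N)) ^ n := by
    rw [hx0, hv, mul_pow, ← pow_mul, ← mul_assoc, ← pow_add]
    congr 2
    omega
  have hY : ((y : ℤ) : ZMod (D ^ N)) ^ q * (1 - (q : ZMod (D ^ N)) ^ 2 * u) =
      1 - (q : ZMod (D ^ N)) ^ 2 * v := by
    have h1 := congrArg (fun t : ℤ => (t : ZMod (D ^ N))) hxy
    rw [hxv, ← hx0]
    simpa using h1
  have hnil : IsNilpotent ((D : ZMod (D ^ N)) * h) :=
    ⟨N, by rw [mul_pow, hE, zero_mul]⟩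
  have h0 := sumD_zero hq hq3 hN huN hvN hY hnil hy0
    (fun i => aeval ((q : ZMod (D ^ N)) ^ 2 * u) (p i)) (vanD1_eval hn hV huN hv)
  have h1 : ((q * ∑ i ∈ range q, (p i).eval x * y ^ i : ℤ) : ZMod (D ^ N)) = 0 := by
    rw [← h0, Int.cast_mul, Int.cast_natCast, Int.cast_sum]
    congr 1
    refine sum_congr rfl fun i _ => ?_
    rw [Int.cast_mul, Int.cast_pow]
    congr 1
    have h2 := Polynomial.eval₂_at_apply (p := p i) (Int.castRingHom (ZMod (D ^ N))) x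
    rw [← hx0]
    exact h2.symm
  rw [ZMod.intCast_zmod_eq_zero_iff_dvd] at h1
  push_cast at h1
  exact h1

end Pool.Agent.NLG
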