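import Pool.Agent.NLG.Defs2
import Pool.Agent.NLG.Kap

/-!
NLG-EvP: the truncated power `evp q j N a = (1 - q^2 a)^(j/q)` at a nilpotent element, q NOT invertible.

PLAN.  Model: NLG/NilEv.lean (the same with r a for a, copy the proofs).  KZ_dvd: q prime, q ≥ 3, m ≥ 1:
q ∣ KZ q j m.  Proof: m! KZ q j m = q^(2m) m! kap (j/q) m = q^m ∏ (u < m) (q u - j) (kap_succ or the
product formula in NLG/Kap.lean (private Kap_prod)), so q^m ∣ m! KZ; q^m does not divide m! (the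
valuation of m! at q is ≤ (m-1)/(q-1) < m: e.g. Nat.Prime.multiplicity_factorial,
sub_one_mul_padicValNat_factorial), so q ∣ KZ: (write v_q(m! KZ) ≥ m > v_q(m!)).  If KZ = 0 trivial.
evp_sub_one: take out q and a of the terms m ≥ 1.
pow_eq_mul_zero: Y = T + q g: Y^q - T^q = ∑ k ≥ 1, choose q k T^(q-k) (q g)^k = q^2 g (T^(q-1) + g * ...)
(for k ≥ 2 the term is q^2 g * (g * choose q k T^(q-k) q^(k-2) g^(k-2))); T^(q-1) + nilpotent is a unit,
so q^2 g = 0 = q (Y - T).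
sumD_zero: T = evp (-1) u * evp 1 v, T^q (1 - q^2 u) = 1 - q^2 v (evp_neg_pow, evp_natMul, evp_self), so
Y^q = T^q (1 - q^2 u is a unit); T - 1 = q * nilpotent (evp_sub_one), so Y - T = q * nilpotent and T is
a unit; pow_eq_mul_zero: q (Y - T) = 0, q Y^i = q T^i (Y^i - T^i is a multiple of Y - T:
sub_dvd_pow_sub_pow), T^i = evp (-i) u * evp i v.
-/

namespace Pool.Agent.NLG

open Finset Polynomial

variable {R : Type*} [CommRing R]

private theorem EvP_prod (ρ : ℚ) (m : ℕ) :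
    (m.factorial : ℚ) * kap ρ m = ∏ u ∈ range m, ((u : ℚ) - ρ) := by
  induction m with
  | zero => simp [kap_zero]
  | succ m ih =>
    rw [prod_range_succ, ← ih, Nat.factorial_succ]
    have h := kap_succ ρ m
    push_cast
    linear_combination (m.factorial : ℚ) * h

private theorem EvP_fac {q : ℕ} (hq : 1 ≤ q) (j : ℤ) (m : ℕ) :
    (m.factorial : ℤ) * KZ q j m = (q : ℤ) ^ m * ∏ u ∈ range m, ((q : ℤ) * u - j) := by
  have hq0 : (q : ℚ) ≠ 0 := by
    have : q ≠ 0 := by omega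
    exact_mod_cast this
  have h : (((m.factorial : ℤ) * KZ q j m : ℤ) : ℚ) =
      (((q : ℤ) ^ m * ∏ u ∈ range m, ((q : ℤ) * u - j) : ℤ) : ℚ) := by
    push_cast
    rw [KZ_cast hq]
    have h1 : (m.factorial : ℚ) * ((q : ℚ) ^ (2 * m) * kap ((j : ℚ) / q) m) =
        (q : ℚ) ^ (2 * m) * ∏ u ∈ range m, ((u : ℚ) - (j : ℚ) / q) := by
      rw [← EvP_prod]
      ring
    have h2 : (q : ℚ) ^ (2 * m) * ∏ u ∈ range m, ((u : ℚ) - (j : ℚ) / q) =
        (q : ℚ) ^ m * ∏ u ∈ range m, ((q : ℚ) * u - j) := by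
      have h3 : ∏ u ∈ range m, ((q : ℚ) * u - j) =
          (q : ℚ) ^ m * ∏ u ∈ range m, ((u : ℚ) - (j : ℚ) / q) := by
        have h4 : (q : ℚ) ^ m = ∏ _u ∈ range m, (q : ℚ) := by
          rw [prod_const, card_range]
        rw [h4, ← prod_mul_distrib]
        refine prod_congr rfl fun u _ => ?_
        field_simp
      rw [h3, two_mul, pow_add]
      ring
    rw [h1, h2]
  exact_mod_cast h

private theorem EvP_val {q : ℕ} (hq : q.Prime) (hq3 : 3 ≤ q) {m : ℕ} (hm : 1 ≤ m) :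
    ¬ q ^ m ∣ m.factorial := by
  have hfact : Fact q.Prime := ⟨hq⟩
  intro h
  have h1 : m ≤ padicValNat q m.factorial :=
    (padicValNat_dvd_iff_le (Nat.factorial_ne_zero m)).1 h
  have h2 := sub_one_mul_padicValNat_factorial (p := q) m
  have h3 : (q - 1) * padicValNat q m.factorial ≤ m := by
    rw [h2]
    exact Nat.sub_le _ _
  have h4 : 2 * padicValNat q m.factorial ≤ (q - 1) * padicValNat q m.factorial :=
    Nat.mul_le_mul_right _ (by omega)
  omega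

theorem KZ_dvd {q : ℕ} (hq : q.Prime) (hq3 : 3 ≤ q) (j : ℤ) {m : ℕ} (hm : 1 ≤ m) :
    (q : ℤ) ∣ KZ q j m := by
  by_contra hn
  have h1 : (q : ℤ) ^ m ∣ (m.factorial : ℤ) * KZ q j m := by
    rw [EvP_fac hq.one_le j m]
    exact dvd_mul_right _ _
  have h2 : IsCoprime ((q : ℤ) ^ m) (KZ q j m) := by
    apply IsCoprime.pow_left
    exact ((Nat.prime_iff_prime_int.1 hq).coprime_iff_not_dvd).2 hn
  have h3 : (q : ℤ) ^ m ∣ (m.factorial : ℤ) := h2.dvd_of_dvd_mul_right h1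
  have h4 : q ^ m ∣ m.factorial := by exact_mod_cast h3
  exact EvP_val hq hq3 hm h4

theorem evp_mul {q N : ℕ} (hq : 1 ≤ q) (i j : ℤ) (a : R) (ha : a ^ N = 0) :
    evp q i N a * evp q j N a = evp q (i + j) N a := by
  have hb : ∀ s, N ≤ s → a ^ s = 0 := by
    intro s hs
    rw [← Nat.sub_add_cancel hs, pow_add a, ha, mul_zero]
  unfold evp
  have h1 : ∀ m ∈ range N, ∑ m' ∈ range N, (KZ q i m : R) * a ^ m * ((KZ q j m' : R) * a ^ m') =
      ∑ s ∈ Ico m N, ((KZ q i m : R) * (KZ q j (s - m) : R)) * a ^ s := by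
    intro m hm
    have hm' : m < N := mem_range.1 hm
    have e1 : ∑ m' ∈ range N, (KZ q i m : R) * a ^ m * ((KZ q j m' : R) * a ^ m') =
        ∑ s ∈ Ico m (m + N), ((KZ q i m : R) * (KZ q j (s - m) : R)) * a ^ s := by
      rw [sum_Ico_eq_sum_range, Nat.add_sub_cancel_left]
      refine sum_congr rfl fun m' _ => ?_
      rw [Nat.add_sub_cancel_left, pow_add]
      ring
    rw [e1, ← sum_Ico_consecutive _ hm'.le (Nat.le_add_left N m)]
    have e2 : ∑ s ∈ Ico N (m + N), ((KZ q i m : R) * (KZ q j (s - m) : R)) * a ^ s = 0 := by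
      refine sum_eq_zero fun s hs => ?_
      rw [hb s (mem_Ico.1 hs).1, mul_zero]
    rw [e2, add_zero]
  rw [sum_mul_sum, sum_congr rfl h1, range_eq_Ico, sum_Ico_Ico_comm]
  refine sum_congr rfl fun s _ => ?_
  rw [KZ_add hq i j s, ← sum_mul]
  push_cast
  rw [range_eq_Ico]

theorem evp_zero {q N : ℕ} (hq : 1 ≤ q) (hN : 1 ≤ N) (a : R) : evp q 0 N a = 1 := by
  unfold evp
  rw [sum_eq_single 0]
  · rw [KZ_zero_right hq, pow_zero]
    simp
  · intro m _ hm
    rw [KZ_zero_left hq (Nat.one_le_iff_ne_zero.2 hm)]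
    simp
  · intro h
    exact absurd (mem_range.2 hN) h

theorem evp_self {q N : ℕ} (hq : 1 ≤ q) (hN : 1 ≤ N) {a : R} (ha : a ^ N = 0) :
    evp q q N a = 1 - (q : R) ^ 2 * a := by
  rcases Nat.lt_or_ge N 2 with h2 | h2
  · have h3 : N = 1 := by omega
    subst h3
    rw [pow_one] at ha
    unfold evp
    rw [sum_range_one, KZ_zero_right hq, pow_zero, ha]
    simp
  · obtain ⟨M, rfl⟩ : ∃ M, N = M + 2 := ⟨N - 2, by omega⟩
    unfold evp
    rw [add_comm M 2, sum_range_add]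
    have e1 : ∑ m ∈ range M, (KZ q q (2 + m) : R) * a ^ (2 + m) = 0 := by
      refine sum_eq_zero fun m _ => ?_
      rw [KZ_self hq (Nat.le_add_right 2 m)]
      simp
    rw [e1, add_zero, sum_range_succ, sum_range_one, KZ_zero_right hq, KZ_self_one hq]
    push_cast
    ring

theorem evp_natMul {q N : ℕ} (hq : 1 ≤ q) (hN : 1 ≤ N) (i : ℕ) (j : ℤ) (a : R)
    (ha : a ^ N = 0) : evp q (i * j) N a = evp q j N a ^ i := by
  induction i with
  | zero =>
    rw [Nat.cast_zero, zero_mul, evp_zero hq hN, pow_zero]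
  | succ i ih =>
    rw [pow_succ, ← ih, evp_mul hq _ _ _ ha]
    congr 1
    push_cast
    ring

theorem evp_sub_one {q N : ℕ} (hq : q.Prime) (hq3 : 3 ≤ q) (hN : 1 ≤ N) (j : ℤ) (a : R) :
    ∃ g : R, evp q j N a - 1 = q * (a * g) := by
  obtain ⟨M, rfl⟩ : ∃ M, N = M + 1 := ⟨N - 1, by omega⟩
  have h1 : ∀ m : ℕ, ∃ c : ℤ, KZ q j (m + 1) = q * c := fun m =>
    KZ_dvd hq hq3 j (Nat.le_add_left 1 m)
  choose c hc using h1
  refine ⟨∑ m ∈ range M, (c m : R) * a ^ m, ?_⟩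
  unfold evp
  rw [sum_range_succ', KZ_zero_right hq.one_le, pow_zero]
  have e1 : ∑ m ∈ range M, (KZ q j (m + 1) : R) * a ^ (m + 1) + ((1 : ℤ) : R) * 1 - 1 =
      ∑ m ∈ range M, (KZ q j (m + 1) : R) * a ^ (m + 1) := by
    push_cast
    ring
  rw [e1, mul_sum, mul_sum]
  refine sum_congr rfl fun m _ => ?_
  rw [hc m]
  push_cast
  ring

theorem evp_neg_pow {q N : ℕ} (hq : 1 ≤ q) (hN : 1 ≤ N) {a : R} (ha : a ^ N = 0) :
    evp q (-1) N a ^ q * (1 - (q : R) ^ 2 * a) = 1 := by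
  rw [← evp_natMul hq hN q (-1) a ha, ← evp_self hq hN ha, evp_mul hq _ _ _ ha]
  have e1 : (q : ℤ) * -1 + (q : ℤ) = 0 := by ring
  rw [e1, evp_zero hq hN]

theorem pow_eq_mul_zero {q : ℕ} (hq : 1 ≤ q) {Y T g : R} (h : Y ^ q = T ^ q) (hT : IsUnit T)
    (hg : IsNilpotent g) (hYT : Y - T = q * g) : (q : R) * (Y - T) = 0 := by
  obtain ⟨Q, hQ⟩ := Polynomial.powAddExpansion T (q * g) q
  have hY : T + q * g = Y := by
    rw [← hYT]
    ring
  rw [hY, h] at hQ
  have h1 : (q : R) * (q * g) * (T ^ (q - 1) + g * Q) = 0 := by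
    linear_combination -hQ
  have h2 : IsNilpotent (g * Q) := by
    have h3 : g * Q ∈ nilradical R := Ideal.mul_mem_right Q _ (mem_nilradical.2 hg)
    exact mem_nilradical.1 h3
  have h4 : IsUnit (T ^ (q - 1) + g * Q) := by
    have h5 := h2.isUnit_add_right_of_commute (hT.pow (q - 1)) (Commute.all _ _)
    rwa [add_comm] at h5
  rw [hYT]
  exact (h4.mul_left_eq_zero).1 h1

theorem sumD_zero {q N : ℕ} (hq : q.Prime) (hq3 : 3 ≤ q) (hN : 1 ≤ N) {u v Y g : R}
    (hu : u ^ N = 0) (hv : v ^ N = 0)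
    (hY : Y ^ q * (1 - (q : R) ^ 2 * u) = 1 - (q : R) ^ 2 * v) (hg : IsNilpotent g)
    (hY1 : Y - 1 = q * g) (A : ℕ → R)
    (hA : ∑ i ∈ range q, A i * (evp q (-(i : ℤ)) N u * evp q i N v) = 0) :
    (q : R) * ∑ i ∈ range q, A i * Y ^ i = 0 := by
  have hq1 : 1 ≤ q := hq.one_le
  obtain ⟨T, hT⟩ : ∃ T, T = evp q (-1) N u * evp q 1 N v := ⟨_, rfl⟩
  have hTi : ∀ i : ℕ, T ^ i = evp q (-(i : ℤ)) N u * evp q i N v := by
    intro i
    rw [hT, mul_pow, ← evp_natMul hq1 hN i (-1) u hu, ← evp_natMul hq1 hN i 1 v hv, mul_neg_one,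
      mul_one]
  have hnu : u ∈ nilradical R := mem_nilradical.2 ⟨N, hu⟩
  have hnv : v ∈ nilradical R := mem_nilradical.2 ⟨N, hv⟩
  have hux : IsUnit (1 - (q : R) ^ 2 * u) := by
    have h1 : IsNilpotent ((q : R) ^ 2 * u) := mem_nilradical.1 (Ideal.mul_mem_left _ _ hnu)
    exact h1.isUnit_one_sub
  have hTq : Y ^ q = T ^ q := by
    have h1 : Y ^ q * (1 - (q : R) ^ 2 * u) = T ^ q * (1 - (q : R) ^ 2 * u) := by
      have h2 := evp_neg_pow hq1 hN hu
      have h3 := evp_self hq1 hN hv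
      have h4 := evp_natMul hq1 hN q 1 v hv
      rw [mul_one, h3] at h4
      rw [hY, hT, mul_pow, ← h4]
      linear_combination (-(1 - (q : R) ^ 2 * v)) * h2
    exact hux.mul_right_cancel h1
  obtain ⟨g1, hg1⟩ := evp_sub_one hq hq3 hN (-1) u
  obtain ⟨g2, hg2⟩ := evp_sub_one hq hq3 hN 1 v
  have hT1 : T - 1 = q * (u * g1 * evp q 1 N v + v * g2) := by
    have e1 : T - 1 = (evp q (-1) N u - 1) * evp q 1 N v + (evp q 1 N v - 1) := by
      rw [hT]
      ring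
    rw [e1, hg1, hg2]
    ring
  have hn1 : u * g1 * evp q 1 N v + v * g2 ∈ nilradical R :=
    Ideal.add_mem _ (Ideal.mul_mem_right _ _ (Ideal.mul_mem_right _ _ hnu)) (Ideal.mul_mem_right _ _ hnv)
  have hTu : IsUnit T := by
    have h1 : IsNilpotent (T - 1) := by
      rw [hT1]
      exact mem_nilradical.1 (Ideal.mul_mem_left _ _ hn1)
    have h2 := h1.isUnit_one_add
    rwa [add_sub_cancel] at h2
  have hYT : Y - T = q * (g - (u * g1 * evp q 1 N v + v * g2)) := by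
    rw [mul_sub, ← hT1, ← hY1]
    ring
  have hng : IsNilpotent (g - (u * g1 * evp q 1 N v + v * g2)) :=
    mem_nilradical.1 (Ideal.sub_mem _ (mem_nilradical.2 hg) hn1)
  have h0 : (q : R) * (Y - T) = 0 := pow_eq_mul_zero hq1 hTq hTu hng hYT
  have hi : ∀ i : ℕ, (q : R) * Y ^ i = q * T ^ i := by
    intro i
    obtain ⟨c, hc⟩ := sub_dvd_pow_sub_pow Y T i
    have h1 : (q : R) * (Y ^ i - T ^ i) = 0 := by
      rw [hc, ← mul_assoc, h0, zero_mul]
    linear_combination h1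
  have h2 : (q : R) * ∑ i ∈ range q, A i * Y ^ i =
      q * ∑ i ∈ range q, A i * (evp q (-(i : ℤ)) N u * evp q i N v) := by
    rw [mul_sum, mul_sum]
    refine sum_congr rfl fun i _ => ?_
    rw [← hTi i]
    linear_combination A i * hi i
  rw [h2, hA, mul_zero]

end Pool.Agent.NLG
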