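import Pool.Agent.NLG.MainE

/-!
NLG-GcdB: the lower bound for gcd(x, y - 1).

PLAN.  D = gcd(x, (y-1)^x), e = x / D: e is coprime to y - 1 (for a prime p ∣ x, p ∣ y - 1 the full power
of p in x divides (y-1)^x as v_p(x) ≤ x).  y^q ≡ 1 mod x (x ∣ rep x n - 1), so a prime p = q dividing x
divides y^q - 1 and (Fermat) y - 1: hence e is coprime to q.  D ∣ q (y-1): for a prime p ∣ D, p ∣ y - 1,
v_p(D) ≤ v_p(x) ≤ v_p(y^q - 1) = v_p(y-1) for p ≠ q and = v_q(y-1) + 1 for p = q (q odd, lifting the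
exponent: Nat/Int emultiplicity_pow_sub_pow, padicValNat.pow_sub_pow).  So D ∣ q gcd(x, y-1) and
x = D e ≤ q gcd(x,y-1) C x^(√(1-1/q)+ε) (mainE).
-/

namespace Pool.Agent.NLG

open Finset

private theorem gcdB_split (m : ℕ) : ∀ x : ℕ, 0 < x → ∃ e D : ℕ, x = e * D ∧ Nat.Coprime e m ∧
    ∀ p : ℕ, p.Prime → p ∣ D → p ∣ m := by
  intro x
  induction x using Nat.strong_induction_on with
  | _ x ih =>
    intro hx
    by_cases hc : Nat.Coprime x m
    · refine ⟨x, 1, by simp, hc, ?_⟩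
      intro p hp hp1
      exact absurd (Nat.dvd_one.1 hp1) hp.one_lt.ne'
    · obtain ⟨p, hp, hpx, hpm⟩ := Nat.Prime.not_coprime_iff_dvd.1 hc
      obtain ⟨z, rfl⟩ := hpx
      have hz : 0 < z := Nat.pos_of_mul_pos_left hx
      have hlt : z < p * z := by
        have := hp.two_le
        nlinarith
      obtain ⟨e, D, h1, h2, h3⟩ := ih z hlt hz
      refine ⟨e, p * D, ?_, h2, ?_⟩
      · rw [h1]
        ring
      · intro r hr hrd
        rcases (Nat.Prime.dvd_mul hr).1 hrd with h | h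
        · rw [(Nat.prime_dvd_prime_iff_eq hr hp).1 h]
          exact hpm
        · exact h3 r hr h

private theorem gcdB_rep {x n : ℕ} (hn : 2 ≤ n) : ∃ k : ℕ, NL.rep x n = 1 + x * (1 + k) := by
  obtain ⟨m, rfl⟩ : ∃ m, n = m + 2 := ⟨n - 2, by omega⟩
  refine ⟨∑ i ∈ range m, x ^ (i + 1), ?_⟩
  unfold NL.rep
  rw [sum_range_succ', sum_range_succ']
  simp only [pow_zero, zero_add, pow_one]
  rw [mul_add, mul_one, mul_sum]
  have : ∀ i ∈ range m, x ^ (i + 1 + 1) = x * x ^ (i + 1) := fun i _ => by ring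
  rw [sum_congr rfl this]
  ring

theorem div_coprime {q n x y : ℕ} (hq : q.Prime) (hq3 : 3 ≤ q) (hn : 2 ≤ n) (hx : 2 ≤ x)
    (h : y ^ q = NL.rep x n) : ∃ e : ℕ, e ∣ x ∧ IsCoprime (e : ℤ) q ∧
      IsCoprime (e : ℤ) ((y : ℤ) - 1) ∧ x ∣ e * (q * x.gcd (y - 1)) := by
  obtain ⟨k, hk⟩ := gcdB_rep (x := x) hn
  rw [hk] at h
  have hxk : 2 ≤ x * (1 + k) := by nlinarith
  have hy2 : 2 ≤ y := by
    by_contra hcon
    have hy1 : y ≤ 1 := by omega
    have : y ^ q ≤ 1 := Nat.pow_le_one_iff hq.ne_zero |>.2 hy1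
    omega
  have hxd : x ∣ y ^ q - 1 := ⟨1 + k, by omega⟩
  have hcast : ((y - 1 : ℕ) : ℤ) = (y : ℤ) - 1 := by
    rw [Nat.cast_sub (by omega)]
    norm_num
  obtain ⟨e, D, hxe, hcop, hD⟩ := gcdB_split (y - 1) x (by omega)
  have hex : e ∣ x := ⟨D, hxe⟩
  have hDx : D ∣ x := ⟨e, by rw [hxe]; ring⟩
  have hqe : Nat.Coprime e q := by
    rw [Nat.coprime_comm, Nat.Prime.coprime_iff_not_dvd hq]
    intro hqe
    have h1 : q ∣ y ^ q - 1 := (hqe.trans hex).trans hxd
    have h2 : q ∣ y - 1 := by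
      have hF : Fact q.Prime := ⟨hq⟩
      have h3 : ((y ^ q - 1 : ℕ) : ZMod q) = 0 := (ZMod.natCast_eq_zero_iff _ _).2 h1
      rw [Nat.cast_sub (Nat.one_le_pow _ _ (by omega))] at h3
      push_cast at h3
      rw [ZMod.pow_card] at h3
      rw [← ZMod.natCast_eq_zero_iff, Nat.cast_sub (by omega)]
      push_cast
      exact h3
    have h4 : q ∣ Nat.gcd e (y - 1) := Nat.dvd_gcd hqe h2
    rw [hcop] at h4
    exact absurd (Nat.dvd_one.1 h4) hq.one_lt.ne'
  refine ⟨e, hex, Nat.isCoprime_iff_coprime.2 hqe, ?_, ?_⟩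
  · rw [← hcast]
    exact Nat.isCoprime_iff_coprime.2 hcop
  · have hmain : D ∣ q * x.gcd (y - 1) := by
      rw [Nat.dvd_iff_prime_pow_dvd_dvd]
      intro p j hp hpj
      rcases Nat.eq_zero_or_pos j with hj | hj
      · subst hj
        simp
      have hpD : p ∣ D := (dvd_pow_self p (by omega)).trans hpj
      have hpy : p ∣ y - 1 := hD p hp hpD
      have hpx : p ^ j ∣ x := hpj.trans hDx
      have hpq : p ^ j ∣ y ^ q - 1 := hpx.trans hxd
      by_cases hpe : p = q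
      · subst hpe
        have hF : Fact p.Prime := ⟨hp⟩
        have hodd : Odd p := hp.odd_of_ne_two (by omega)
        have hnd : ¬ p ∣ y := by
          intro hcon
          have h5 : p ∣ y - (y - 1) := Nat.dvd_sub hcon hpy
          have h6 : y - (y - 1) = 1 := by omega
          rw [h6] at h5
          exact absurd (Nat.dvd_one.1 h5) hp.one_lt.ne'
        have h7 := padicValNat.pow_sub_pow (p := p) hodd (x := y) (y := 1) (by omega) hpy hnd
          (n := p) hp.ne_zero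
        rw [one_pow, padicValNat_self] at h7
        have hne : y ^ p - 1 ≠ 0 := by omega
        have h8 : j ≤ padicValNat p (y ^ p - 1) := (padicValNat_dvd_iff_le hne).1 hpq
        have h9 : p ^ (j - 1) ∣ y - 1 := (padicValNat_dvd_iff_le (by omega)).2 (by omega)
        have h10 : p ^ (j - 1) ∣ x := (pow_dvd_pow p (by omega)).trans hpx
        have h11 : p * p ^ (j - 1) ∣ p * x.gcd (y - 1) := Nat.mul_dvd_mul_left p (Nat.dvd_gcd h10 h9)
        have h12 : p * p ^ (j - 1) = p ^ j := by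
          rw [← pow_succ']
          congr 1
          omega
        rwa [h12] at h11
      · have hgs : (y - 1) * (∑ i ∈ range q, y ^ i) = y ^ q - 1 := by
          have := Nat.geomSum_eq (m := y) hy2 q
          have h5 := NL.rep_mul (x := y) (by omega) q
          unfold NL.rep at h5
          rw [mul_comm]
          omega
        have hcs : Nat.Coprime (p ^ j) (∑ i ∈ range q, y ^ i) := by
          apply Nat.Coprime.pow_left
          rw [Nat.Prime.coprime_iff_not_dvd hp]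
          intro hcon
          have hF : Fact p.Prime := ⟨hp⟩
          have h5 : ((∑ i ∈ range q, y ^ i : ℕ) : ZMod p) = 0 := (ZMod.natCast_eq_zero_iff _ _).2 hcon
          have h6 : (y : ZMod p) = 1 := by
            have h7 : ((y - 1 : ℕ) : ZMod p) = 0 := (ZMod.natCast_eq_zero_iff _ _).2 hpy
            rw [Nat.cast_sub (by omega)] at h7
            push_cast at h7
            exact sub_eq_zero.1 h7
          push_cast at h5
          rw [h6] at h5
          simp only [one_pow, sum_const, card_range, nsmul_eq_mul, mul_one] at h5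
          have h8 : p ∣ q := (ZMod.natCast_eq_zero_iff _ _).1 h5
          exact hpe ((Nat.prime_dvd_prime_iff_eq hp hq).1 h8)
        have h9 : p ^ j ∣ y - 1 := by
          refine hcs.dvd_of_dvd_mul_right ?_
          rw [hgs]
          exact hpq
        exact (Nat.dvd_gcd hpx h9).trans (Dvd.intro_left q rfl)
    calc x = e * D := hxe
      _ ∣ e * (q * x.gcd (y - 1)) := Nat.mul_dvd_mul_left e hmain

theorem gcd_lower {q : ℕ} (hq : q.Prime) (hq3 : 3 ≤ q) {ε : ℝ} (hε : 0 < ε) :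
    ∃ c : ℝ, 0 < c ∧ ∀ n x y : ℕ, 2 < n → 2 ≤ x → y ^ q = NL.rep x n →
      c * (x : ℝ) ^ (1 - Real.sqrt (1 - 1 / q) - ε) ≤ (x.gcd (y - 1) : ℝ) := by
  obtain ⟨C, hC1, hC⟩ := mainE hq hq3 hε
  have hq0 : (0 : ℝ) < q := by exact_mod_cast hq.pos
  have hC0 : (0 : ℝ) < C := by linarith
  refine ⟨1 / (q * C), by positivity, ?_⟩
  intro n x y hn hx hxy
  obtain ⟨e, hex, heq, hey, hdv⟩ := div_coprime hq hq3 (by omega) hx hxy
  have h1 := hC n x y e hn hx hxy hex heq hey
  have hg : 0 < x.gcd (y - 1) := Nat.gcd_pos_of_pos_left _ (by omega)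
  have he : 0 < e := Nat.pos_of_dvd_of_pos hex (by omega)
  have h2 : x ≤ e * (q * x.gcd (y - 1)) :=
    Nat.le_of_dvd (Nat.mul_pos he (Nat.mul_pos hq.pos hg)) hdv
  have h3 : (x : ℝ) ≤ e * (q * (x.gcd (y - 1) : ℝ)) := by exact_mod_cast h2
  have hxR : (0 : ℝ) < x := by exact_mod_cast (by omega : 0 < x)
  have hgR : (0 : ℝ) < (x.gcd (y - 1) : ℝ) := by exact_mod_cast hg
  set s := Real.sqrt (1 - 1 / q) with hs
  have h4 : (x : ℝ) ^ (1 - s - ε) * (x : ℝ) ^ (s + ε) = x := by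
    rw [← Real.rpow_add hxR]
    have : 1 - s - ε + (s + ε) = 1 := by ring
    rw [this, Real.rpow_one]
  have hpos : (0 : ℝ) < (x : ℝ) ^ (s + ε) := Real.rpow_pos_of_pos hxR _
  have h5 : (x : ℝ) ≤ C * (x : ℝ) ^ (s + ε) * (q * (x.gcd (y - 1) : ℝ)) :=
    h3.trans (mul_le_mul_of_nonneg_right h1 (by positivity))
  have h6 : (x : ℝ) ^ (1 - s - ε) * (x : ℝ) ^ (s + ε) ≤
      (q * C * (x.gcd (y - 1) : ℝ)) * (x : ℝ) ^ (s + ε) := by
    rw [h4]
    calc (x : ℝ) ≤ C * (x : ℝ) ^ (s + ε) * (q * (x.gcd (y - 1) : ℝ)) := h5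
      _ = _ := by ring
  have h7 := le_of_mul_le_mul_right h6 hpos
  rw [div_mul_eq_mul_div, one_mul, div_le_iff₀ (by positivity)]
  calc (x : ℝ) ^ (1 - s - ε) ≤ q * C * (x.gcd (y - 1) : ℝ) := h7
    _ = _ := by ring

end Pool.Agent.NLG
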