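import Pool.Agent.NLG.MainS
import Pool.Agent.NLG.Decomp

/-!
NLG-GcdS: gcd(x, y-1) = x^(1/q+o(1)).

PLAN.  decomp: x = e D f, D ∣ gcd ∣ q D, f ≤ q^2.  Lower bound: x = e (D f) with e coprime to D f, mainE2:
e ≤ C x^(1-1/q+ε), so gcd ≥ D = x/(e f) ≥ x^(1/q-ε)/(C q^2).  Upper: gcd ≤ q D ≤ q C x^(1/q+ε) by mainD2
(e coprime to D).
-/

namespace Pool.Agent.NLG

open Finset

theorem gcd_lower2 {q : ℕ} (hq : q.Prime) (hq3 : 3 ≤ q) {ε : ℝ} (hε : 0 < ε) :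
    ∃ c : ℝ, 0 < c ∧ ∀ n x y : ℕ, 2 < n → 2 ≤ x → y ^ q = NL.rep x n →
      c * (x : ℝ) ^ (1 / (q : ℝ) - ε) ≤ (x.gcd (y - 1) : ℝ) := by
  obtain ⟨C, hC, hE⟩ := mainE2 hq hq3 hε
  have hq0 : (0 : ℝ) < q := by exact_mod_cast hq.pos
  have hC0 : 0 < C := by linarith
  refine ⟨1 / (C * (q : ℝ) ^ 2), by positivity, ?_⟩
  intro n x y hn hx hxy
  obtain ⟨e, D, f, hxe, hf, hcop, hceq, hcey, -, hDg, -, -⟩ := decomp hq hq3 hn.le hx hxy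
  have h1 := hE n x y e (D * f) hn hx hxy (by rw [hxe]; ring) hcop hceq hcey
  have hx0 : (0 : ℝ) < x := by exact_mod_cast (by omega : 0 < x)
  have hg0 : 0 < x.gcd (y - 1) := Nat.gcd_pos_of_pos_left _ (by omega)
  have h2 : (D : ℝ) ≤ (x.gcd (y - 1) : ℝ) := by exact_mod_cast Nat.le_of_dvd hg0 hDg
  refine le_trans ?_ h2
  have h3 : (x : ℝ) = e * D * f := by exact_mod_cast hxe
  have h4 : (f : ℝ) ≤ (q : ℝ) ^ 2 := by exact_mod_cast hf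
  have h5 : (x : ℝ) ≤ C * (x : ℝ) ^ (1 - 1 / (q : ℝ) + ε) * D * (q : ℝ) ^ 2 := by
    calc (x : ℝ) = e * D * f := h3
      _ ≤ (C * (x : ℝ) ^ (1 - 1 / (q : ℝ) + ε)) * D * f := by gcongr
      _ ≤ C * (x : ℝ) ^ (1 - 1 / (q : ℝ) + ε) * D * (q : ℝ) ^ 2 := by gcongr
  have h6 : (x : ℝ) = (x : ℝ) ^ (1 - 1 / (q : ℝ) + ε) * (x : ℝ) ^ (1 / (q : ℝ) - ε) := by
    rw [← Real.rpow_add hx0]
    have : 1 - 1 / (q : ℝ) + ε + (1 / (q : ℝ) - ε) = 1 := by ring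
    rw [this, Real.rpow_one]
  have h7 : 0 < (x : ℝ) ^ (1 - 1 / (q : ℝ) + ε) := Real.rpow_pos_of_pos hx0 _
  have h8 : (x : ℝ) ^ (1 / (q : ℝ) - ε) ≤ C * D * (q : ℝ) ^ 2 := by
    refine le_of_mul_le_mul_left ?_ h7
    calc (x : ℝ) ^ (1 - 1 / (q : ℝ) + ε) * (x : ℝ) ^ (1 / (q : ℝ) - ε) = x := h6.symm
      _ ≤ C * (x : ℝ) ^ (1 - 1 / (q : ℝ) + ε) * D * (q : ℝ) ^ 2 := h5
      _ = (x : ℝ) ^ (1 - 1 / (q : ℝ) + ε) * (C * D * (q : ℝ) ^ 2) := by ring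
  rw [one_div, inv_mul_le_iff₀ (by positivity)]
  calc (x : ℝ) ^ (1 / (q : ℝ) - ε) ≤ C * D * (q : ℝ) ^ 2 := h8
    _ = C * (q : ℝ) ^ 2 * D := by ring

theorem gcd_upper2 {q : ℕ} (hq : q.Prime) (hq3 : 3 ≤ q) {ε : ℝ} (hε : 0 < ε) :
    ∃ C : ℝ, 1 ≤ C ∧ ∀ n x y : ℕ, 2 < n → 2 ≤ x → y ^ q = NL.rep x n →
      (x.gcd (y - 1) : ℝ) ≤ C * (x : ℝ) ^ (1 / (q : ℝ) + ε) := by
  obtain ⟨C, hC, hE⟩ := mainD2 hq hq3 hε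
  have hq1 : (1 : ℝ) ≤ q := by exact_mod_cast hq.one_lt.le
  have hC0 : 0 < C := by linarith
  refine ⟨(q : ℝ) * C, by nlinarith, ?_⟩
  intro n x y hn hx hxy
  obtain ⟨e, D, f, hxe, hf, hcop, -, -, hG, -, hgD, -⟩ := decomp hq hq3 hn.le hx hxy
  have h1 := hE n x y e D f hn hx hxy hxe (Nat.Coprime.coprime_mul_right_right hcop) hf hG
  have hD0 : 0 < D := by
    rcases Nat.eq_zero_or_pos D with h | h
    · subst h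
      simp at hxe
      omega
    · exact h
  have h2 : (x.gcd (y - 1) : ℝ) ≤ (q : ℝ) * D := by
    exact_mod_cast Nat.le_of_dvd (Nat.mul_pos hq.pos hD0) hgD
  calc (x.gcd (y - 1) : ℝ) ≤ (q : ℝ) * D := h2
    _ ≤ (q : ℝ) * (C * (x : ℝ) ^ (1 / (q : ℝ) + ε)) := by gcongr
    _ = (q : ℝ) * C * (x : ℝ) ^ (1 / (q : ℝ) + ε) := by ring

end Pool.Agent.NLG
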