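import Pool.Agent.NLG.Defs
import Pool.Agent.NL.Defs

/-!
NLG-Growth: non-vanishing for large x when n is fixed.

PLAN.  y^q = rep x n = 1 + x + ... + x^(n-1), so the real number y / x^((n-1)/q) tends to 1 as x → ∞
(y^q / x^(n-1) is between 1 and x/(x-1) ≤ 1 + 2/x).  For every i < q with p i ≠ 0, d_i = natDegree,
c_i = leading coefficient, T_i = (p i)(x) y^i is c_i x^(ρ_i) (1 + o(1)), ρ_i = d_i + i (n-1)/q.  The ρ_i
are distinct: ρ_i = ρ_j implies q ∣ (i-j)(n-1), and q is prime, q ∤ n - 1 (n % q ≠ 1, n ≥ 2... note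
n % q ≠ 1 means n ≢ 1 mod q as q ≥ 2), |i-j| < q.  So the term with maximal ρ dominates: divide by
x^(ρ_max).  Formally: for real t → ∞, (p i)(t) / t^(d_i) → c_i (Polynomial.div_tendsto_leadingCoeff_div..
or isEquivalent_atTop_lead), ∑_i (p i)(x) y^i / x^(ρ_max) → c_(i max) ≠ 0 along any sequence; use an
epsilon formulation: ∃ X0, for x ≥ X0 and every real g with |g - 1| ≤ 2/x (g = y/x^((n-1)/q)) the sum
∑ (p i)(x) x^(i (n-1)/q) g^i is not 0.
-/

namespace Pool.Agent.NLG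

open Finset Polynomial

private theorem Growth_distinct {q n : ℕ} (hq : q.Prime) (hn : 2 ≤ n) (hnq : n % q ≠ 1) {i j a b : ℕ} (hi : i < q)
    (hj : j < q) (h : q * a + i * (n - 1) = q * b + j * (n - 1)) : i = j := by
  have h1 : (q : ℤ) ∣ ((j : ℤ) - i) * ((n - 1 : ℕ) : ℤ) := by
    refine ⟨(a : ℤ) - b, ?_⟩
    have h2 : ((q * a + i * (n - 1) : ℕ) : ℤ) = ((q * b + j * (n - 1) : ℕ) : ℤ) := by rw [h]
    push_cast at h2
    rw [Nat.cast_sub (by omega)] at *
    push_cast at h2 ⊢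
    linear_combination -h2
  rcases (Nat.prime_iff_prime_int.1 hq).dvd_or_dvd h1 with h2 | h2
  · have h3 : (j : ℤ) - i = 0 := by
      refine Int.eq_zero_of_abs_lt_dvd h2 ?_
      rw [abs_lt]
      constructor <;> omega
    omega
  · exfalso
    have h3 := Int.natCast_dvd_natCast.1 h2
    obtain ⟨k, hk⟩ := h3
    apply hnq
    have h4 : n = q * k + 1 := by omega
    rw [h4, Nat.mul_add_mod, Nat.mod_eq_of_lt hq.one_lt]

private theorem Growth_deg {n : ℕ} (hn : 2 ≤ n) :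
    (∑ j ∈ range n, (X : ℝ[X]) ^ j).natDegree = n - 1 ∧ (∑ j ∈ range n, (X : ℝ[X]) ^ j) ≠ 0 := by
  have h1 : (∑ j ∈ range n, (X : ℝ[X]) ^ j) * (X - C 1) = X ^ n - C 1 := by
    rw [map_one]
    exact geom_sum_mul X n
  have h2 : (X ^ n - C 1 : ℝ[X]) ≠ 0 := X_pow_sub_C_ne_zero (by omega) 1
  have h3 : (∑ j ∈ range n, (X : ℝ[X]) ^ j) ≠ 0 := by
    intro h
    rw [h, zero_mul] at h1
    exact h2 h1.symm
  refine ⟨?_, h3⟩
  have h4 := congrArg natDegree h1
  rw [natDegree_mul h3 (X_sub_C_ne_zero 1), natDegree_X_sub_C, natDegree_X_pow_sub_C] at h4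
  omega

theorem growth {q n : ℕ} (hq : q.Prime) (hn : 2 ≤ n) (hnq : n % q ≠ 1) {p : ℕ → ℤ[X]}
    (hp : ∃ i, i < q ∧ p i ≠ 0) : ∃ X0 : ℕ, ∀ x y : ℕ, X0 ≤ x → y ^ q = NL.rep x n →
      ∑ i ∈ range q, (p i).eval (x : ℤ) * (y : ℤ) ^ i ≠ 0 := by
  classical
  set G : ℝ[X] := ∑ j ∈ range n, (X : ℝ[X]) ^ j with hG
  obtain ⟨hGd, hG0⟩ := Growth_deg hn
  rw [← hG] at hGd hG0
  set Pr : ℕ → ℝ[X] := fun i => (p i).map (Int.castRingHom ℝ) with hPr
  set W : ℕ → ℝ[X] := fun i => Pr i ^ q * G ^ i with hW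
  have hPr0 : ∀ i, p i ≠ 0 → Pr i ≠ 0 := fun i hi => by
    rw [hPr]
    exact (Polynomial.map_ne_zero_iff (Int.castRingHom ℝ).injective_int).2 hi
  have hWd : ∀ i, p i ≠ 0 → (W i).natDegree = q * (p i).natDegree + i * (n - 1) := by
    intro i hi
    rw [hW]
    simp only
    rw [natDegree_mul (pow_ne_zero _ (hPr0 i hi)) (pow_ne_zero _ hG0), natDegree_pow, natDegree_pow, hGd, hPr]
    simp only
    rw [natDegree_map_eq_of_injective (Int.castRingHom ℝ).injective_int]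
  have hW0 : ∀ i, p i ≠ 0 → W i ≠ 0 := fun i hi => mul_ne_zero (pow_ne_zero _ (hPr0 i hi)) (pow_ne_zero _ hG0)
  set S : Finset ℕ := (range q).filter fun i => p i ≠ 0 with hS
  have hSne : S.Nonempty := by
    obtain ⟨i, hi, hi0⟩ := hp
    exact ⟨i, mem_filter.2 ⟨mem_range.2 hi, hi0⟩⟩
  obtain ⟨m, hmS, hm⟩ := S.exists_max_image (fun i => q * (p i).natDegree + i * (n - 1)) hSne
  obtain ⟨hmq, hm0⟩ := mem_filter.1 hmS
  rw [mem_range] at hmq
  have hq0 : (0 : ℝ) < q := by exact_mod_cast hq.pos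
  have hlim : ∀ i ∈ S.erase m, ∀ᶠ x : ℕ in Filter.atTop, |(W i).eval (x : ℝ) / (W m).eval (x : ℝ)| < (1 / (q : ℝ)) ^ q := by
    intro i hi
    obtain ⟨him, hiS⟩ := mem_erase.1 hi
    obtain ⟨hiq, hi0⟩ := mem_filter.1 hiS
    rw [mem_range] at hiq
    have hlt : (W i).degree < (W m).degree := by
      rw [degree_eq_natDegree (hW0 i hi0), degree_eq_natDegree (hW0 m hm0), hWd i hi0, hWd m hm0]
      have h1 := hm i hiS
      have h2 : q * (p i).natDegree + i * (n - 1) ≠ q * (p m).natDegree + m * (n - 1) := fun h =>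
        him (Growth_distinct hq hn hnq hiq hmq h)
      exact_mod_cast lt_of_le_of_ne h1 h2
    have h1 := (div_tendsto_atTop_zero_of_degree_lt (W i) (W m) hlt).comp (tendsto_natCast_atTop_atTop (R := ℝ))
    have h2 := h1.abs
    rw [abs_zero] at h2
    exact h2.eventually (gt_mem_nhds (pow_pos (one_div_pos.2 hq0) q))
  have hroot : ∀ᶠ x : ℕ in Filter.atTop, ¬ (W m).IsRoot (x : ℝ) :=
    (tendsto_natCast_atTop_atTop (R := ℝ)).eventually (eventually_atTop_not_isRoot (W m) (hW0 m hm0))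
  obtain ⟨X0, hX0⟩ := Filter.eventually_atTop.1 (((Finset.eventually_all _).2 hlim).and hroot)
  refine ⟨X0, fun x y hx hy hsum => ?_⟩
  obtain ⟨hA, hB⟩ := hX0 x hx
  set T : ℕ → ℝ := fun i => ((p i).eval (x : ℤ) : ℤ) * (y : ℝ) ^ i with hT
  have hTW : ∀ i, T i ^ q = (W i).eval (x : ℝ) := by
    intro i
    have h1 : (Pr i).eval (x : ℝ) = (((p i).eval (x : ℤ) : ℤ) : ℝ) := by
      rw [hPr]
      simp only
      rw [eval_map, ← Int.cast_natCast (R := ℝ), ← eq_intCast (Int.castRingHom ℝ) (x : ℤ), eval₂_at_apply]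
      rfl
    have h2 : G.eval (x : ℝ) = (y : ℝ) ^ q := by
      rw [hG, eval_finsetSum]
      have h3 : ((y ^ q : ℕ) : ℝ) = ((NL.rep x n : ℕ) : ℝ) := by rw [hy]
      rw [Nat.cast_pow] at h3
      rw [h3, NL.rep]
      push_cast
      exact sum_congr rfl fun j _ => by rw [eval_pow, eval_X]
    rw [hT, hW]
    simp only
    rw [eval_mul, eval_pow, eval_pow, h1, h2, mul_pow, ← pow_mul, ← pow_mul, mul_comm i q]
  have hTm : T m ≠ 0 := by
    intro h
    apply hB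
    rw [IsRoot.def, ← hTW, h, zero_pow hq.ne_zero]
  have hTmp : 0 < |T m| := abs_pos.2 hTm
  have hTi : ∀ i ∈ (range q).erase m, |T i| ≤ |T m| / q := by
    intro i hi
    obtain ⟨him, hiq⟩ := mem_erase.1 hi
    by_cases hi0 : p i = 0
    · have h1 : T i = 0 := by
        rw [hT]
        simp [hi0]
      rw [h1, abs_zero]
      positivity
    · have h1 := hA i (mem_erase.2 ⟨him, mem_filter.2 ⟨hiq, hi0⟩⟩)
      rw [← hTW, ← hTW, ← div_pow, abs_pow] at h1
      have h2 := lt_of_pow_lt_pow_left₀ q (by positivity) h1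
      rw [abs_div, div_lt_div_iff₀ hTmp hq0, one_mul] at h2
      rw [le_div_iff₀ hq0]
      exact h2.le
  have hs : ∑ i ∈ range q, T i = 0 := by
    have h1 := congrArg (fun z : ℤ => (z : ℝ)) hsum
    push_cast at h1
    exact h1
  rw [← add_sum_erase _ _ (mem_range.2 hmq)] at hs
  have h1 : |T m| ≤ ∑ i ∈ (range q).erase m, |T i| := by
    have h2 : T m = -∑ i ∈ (range q).erase m, T i := by linarith
    rw [h2, abs_neg]
    exact abs_sum_le_sum_abs _ _
  have h2 : ∑ i ∈ (range q).erase m, |T i| ≤ ((q - 1 : ℕ) : ℝ) * (|T m| / q) := by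
    have h3 := sum_le_card_nsmul _ _ _ hTi
    rw [card_erase_of_mem (mem_range.2 hmq), card_range, nsmul_eq_mul] at h3
    exact h3
  have h3 : ((q - 1 : ℕ) : ℝ) * (|T m| / q) < |T m| := by
    rw [Nat.cast_sub hq.one_le, Nat.cast_one]
    have h4 : ((q : ℝ) - 1) * (|T m| / q) = |T m| - |T m| / q := by
      field_simp
    rw [h4]
    have : 0 < |T m| / q := by positivity
    linarith
  linarith

end Pool.Agent.NLG
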