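import Pool.Agent.NLG.Kap
import Pool.Agent.NL.Defs

/-!
NLG-Size: upper bounds: the values vv and the coefficients of zp P.

PLAN.  y^q = rep x n < x^n (NL.rep_lt), so y ≤ x^(n/q) (real power) and y^i ≤ x^(i n/q).
size_vv: |vv| ≤ ∑ (i,b) x^(nb) y^i ∑ d |c_d| (x-1)^d |KZ q (qd-i) l| with c_d the coefficients of
(P i b).comp(1-X), z = 1 - x, |z| = x - 1.  |KZ q (q d - i) l| ≤ q^(2l) 2^d (abs_KZ_le_two_pow),
d ≤ natDegree ≤ δ n, l ≤ 2n: ≤ q^(4n) 2^(δ n).  ∑ d |c_d| (x-1)^d ≤ ∑ a |p_a| (1 + (x-1))^a =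
∑ a |p_a| x^a ((1-z)^a expanded).  Each |p_a| x^(a+nb) y^i ≤ C^n x^(δ n) by hypothesis; the number of
(i,b,a) is ≤ q B (δ n + 1), B ≥ 1 arbitrary: D depends on q, lam, B, C (n ≤ 2^n absorbs the factor).
coeff_zp: |coeff of (P i b).comp (1-X)| ≤ ∑ a |p_a| choose a d ≤ (δ n + 1) C^n 2^(δ n).
natDegree_zp: natDegree ((P i b).comp (1-X)) ≤ ⌊δ n⌋₊.  zp_ne_zero: comp (1-X) is injective.
-/

namespace Pool.Agent.NLG

open Finset Polynomial

private theorem sz49_del_pos (q lam : ℕ) : (1 : ℝ) ≤ del q lam := by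
  unfold del
  have : 0 ≤ Real.sqrt (1 - 1 / (q : ℝ)) * ((lam : ℝ) + 1) := by positivity
  linarith

private theorem sz49_natDegree {q lam n : ℕ} {P : ℕ → ℕ → ℤ[X]}
    (hP : ∀ i b a, (P i b).coeff a ≠ 0 →
      i < q ∧ (a : ℝ) + (n : ℝ) * b + (i : ℝ) * n / q ≤ del q lam * n) (i b : ℕ) :
    (P i b).natDegree ≤ ⌊del q lam * n⌋₊ := by
  rw [natDegree_le_iff_coeff_eq_zero]
  intro a ha
  by_contra h
  have h1 := (hP i b a h).2
  have h2 : (a : ℝ) ≤ del q lam * n := by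
    have h3 : 0 ≤ (n : ℝ) * b := by positivity
    have h4 : 0 ≤ (i : ℝ) * n / q := by positivity
    linarith
  have h3 := Nat.le_floor h2
  omega

theorem natDegree_zp {q lam n : ℕ} {P : ℕ → ℕ → ℤ[X]}
    (hP : ∀ i b a, (P i b).coeff a ≠ 0 →
      i < q ∧ (a : ℝ) + (n : ℝ) * b + (i : ℝ) * n / q ≤ del q lam * n) (i b : ℕ) :
    (zp P i b).natDegree ≤ ⌊del q lam * n⌋₊ := by
  unfold zp
  refine natDegree_comp_le.trans ?_
  have h1 : (1 - X : ℤ[X]).natDegree ≤ 1 := by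
    refine (natDegree_sub_le _ _).trans ?_
    simp
  calc (P i b).natDegree * (1 - X : ℤ[X]).natDegree ≤ (P i b).natDegree * 1 :=
        Nat.mul_le_mul_left _ h1
    _ = (P i b).natDegree := mul_one _
    _ ≤ _ := sz49_natDegree hP i b

theorem zp_ne_zero {P : ℕ → ℕ → ℤ[X]} {i b : ℕ} (h : P i b ≠ 0) : zp P i b ≠ 0 := by
  intro h0
  apply h
  have h1 : (zp P i b).comp (1 - X) = P i b := by
    unfold zp
    rw [comp_assoc]
    have : (1 - X : ℤ[X]).comp (1 - X) = X := by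
      simp
    rw [this, comp_X]
  rw [← h1, h0, zero_comp]

private theorem sz49_coeff_pow (a d : ℕ) :
    |((1 - X : ℤ[X]) ^ a).coeff d| = (a.choose d : ℤ) := by
  have h1 : (1 - X : ℤ[X]) = C (-1) * (X + C (-1)) := by
    simp only [map_neg, map_one]
    ring
  rw [h1, mul_pow, ← C_pow, coeff_C_mul, coeff_X_add_C_pow, abs_mul, abs_mul, abs_pow, abs_pow]
  simp

private theorem sz49_coeff_le (p : ℤ[X]) {M : ℕ} (hM : p.natDegree ≤ M) (d : ℕ) :
    |((p.comp (1 - X)).coeff d : ℝ)| ≤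
      ∑ a ∈ range (M + 1), |(p.coeff a : ℝ)| * (a.choose d : ℝ) := by
  have h1 : (p.comp (1 - X)).coeff d =
      ∑ a ∈ range (M + 1), p.coeff a * ((1 - X : ℤ[X]) ^ a).coeff d := by
    rw [comp, eval₂_eq_sum, sum_over_range' _ _ (M + 1) (by omega), finsetSum_coeff]
    · refine sum_congr rfl fun a _ => ?_
      rw [coeff_C_mul]
    · intro a
      simp
  rw [h1]
  push_cast
  refine (abs_sum_le_sum_abs _ _).trans (sum_le_sum fun a _ => ?_)
  rw [abs_mul]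
  refine mul_le_mul_of_nonneg_left (le_of_eq ?_) (abs_nonneg _)
  have := sz49_coeff_pow a d
  exact_mod_cast congrArg (fun t : ℤ => (t : ℝ)) this

private theorem sz49_two_pow {δ : ℝ} (hδ : 0 ≤ δ) (n : ℕ) :
    (2 : ℝ) ^ ⌊δ * n⌋₊ ≤ ((2 : ℝ) ^ δ) ^ n := by
  rw [← Real.rpow_natCast ((2 : ℝ) ^ δ) n, ← Real.rpow_mul (by norm_num), ← Real.rpow_natCast]
  exact Real.rpow_le_rpow_of_exponent_le (by norm_num) (Nat.floor_le (by positivity))

private theorem sz49_count {δ : ℝ} (hδ : 0 ≤ δ) {n : ℕ} (hn : 1 ≤ n) :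
    ((⌊δ * n⌋₊ : ℕ) : ℝ) + 1 ≤ (2 * (δ + 1)) ^ n := by
  have h1 : ((⌊δ * n⌋₊ : ℕ) : ℝ) ≤ δ * n := Nat.floor_le (by positivity)
  have hn' : (1 : ℝ) ≤ n := by exact_mod_cast hn
  have h2 : (n : ℝ) ≤ 2 ^ n := by exact_mod_cast (Nat.lt_two_pow_self (n := n)).le
  have h3 : δ + 1 ≤ (δ + 1) ^ n := by
    calc δ + 1 = (δ + 1) ^ 1 := (pow_one _).symm
      _ ≤ (δ + 1) ^ n := pow_le_pow_right₀ (by linarith) hn
  calc ((⌊δ * n⌋₊ : ℕ) : ℝ) + 1 ≤ n * (δ + 1) := by nlinarith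
    _ ≤ 2 ^ n * (δ + 1) ^ n := by
        apply mul_le_mul h2 h3 (by linarith) (by positivity)
    _ = (2 * (δ + 1)) ^ n := (mul_pow _ _ _).symm

theorem coeff_zp {q lam : ℕ} (hq : 2 ≤ q) {C : ℝ} (hC : 1 ≤ C) : ∃ D : ℝ, 1 ≤ D ∧
    ∀ n : ℕ, 1 ≤ n → ∀ P : ℕ → ℕ → ℤ[X],
      (∀ i b a, (P i b).coeff a ≠ 0 →
        i < q ∧ (a : ℝ) + (n : ℝ) * b + (i : ℝ) * n / q ≤ del q lam * n) →
      (∀ i b a, |((P i b).coeff a : ℝ)| ≤ C ^ n) →
      ∀ i b d, |((zp P i b).coeff d : ℝ)| ≤ D ^ n := by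
  have hδ := sz49_del_pos q lam
  set δ := del q lam with hδd
  refine ⟨2 * (δ + 1) * C * (2 : ℝ) ^ δ, ?_, ?_⟩
  · have h2 : (1 : ℝ) ≤ (2 : ℝ) ^ δ := Real.one_le_rpow (by norm_num) (by linarith)
    have h3 : (1 : ℝ) ≤ 2 * (δ + 1) * C := by nlinarith
    nlinarith
  · intro n hn P hP hC' i b d
    have hM := sz49_natDegree hP i b
    refine (sz49_coeff_le (P i b) hM d).trans ?_
    have hCn : (0 : ℝ) ≤ C ^ n := by positivity
    calc ∑ a ∈ range (⌊δ * n⌋₊ + 1), |((P i b).coeff a : ℝ)| * (a.choose d : ℝ)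
        ≤ ∑ a ∈ range (⌊δ * n⌋₊ + 1), C ^ n * (2 : ℝ) ^ ⌊δ * n⌋₊ := by
          refine sum_le_sum fun a ha => ?_
          refine mul_le_mul (hC' i b a) ?_ (by positivity) hCn
          have h1 : a.choose d ≤ 2 ^ a := Nat.choose_le_two_pow a d
          have h2 : a ≤ ⌊δ * n⌋₊ := by
            have := mem_range.1 ha
            omega
          calc (a.choose d : ℝ) ≤ (2 : ℝ) ^ a := by exact_mod_cast h1
            _ ≤ (2 : ℝ) ^ ⌊δ * n⌋₊ := pow_le_pow_right₀ (by norm_num) h2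
      _ = (((⌊δ * n⌋₊ : ℕ) : ℝ) + 1) * (C ^ n * (2 : ℝ) ^ ⌊δ * n⌋₊) := by
          rw [sum_const, card_range, nsmul_eq_mul]
          push_cast
          ring
      _ ≤ (2 * (δ + 1)) ^ n * (C ^ n * ((2 : ℝ) ^ δ) ^ n) := by
          refine mul_le_mul (sz49_count (by linarith) hn) ?_ (by positivity) (by positivity)
          exact mul_le_mul_of_nonneg_left (sz49_two_pow (by linarith) n) hCn
      _ = (2 * (δ + 1) * C * (2 : ℝ) ^ δ) ^ n := by
          simp only [mul_pow]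
          ring

private theorem sz49_y {q x y n : ℕ} (hq : 2 ≤ q) (hx : 2 ≤ x) (hy : y ^ q = NL.rep x n) :
    (y : ℝ) ≤ (x : ℝ) ^ ((n : ℝ) / q) := by
  have h : (y : ℝ) ^ q ≤ (x : ℝ) ^ n := by
    have := (NL.rep_lt (n := n) hx).le
    rw [← hy] at this
    exact_mod_cast this
  calc (y : ℝ) = ((y : ℝ) ^ q) ^ ((q : ℝ)⁻¹) :=
        (Real.pow_rpow_inv_natCast (Nat.cast_nonneg y) (by omega)).symm
    _ ≤ ((x : ℝ) ^ n) ^ ((q : ℝ)⁻¹) := Real.rpow_le_rpow (by positivity) h (by positivity)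
    _ = (x : ℝ) ^ ((n : ℝ) / q) := by
        rw [← Real.rpow_natCast, ← Real.rpow_mul (by positivity), div_eq_mul_inv]

private theorem sz49_term {q x y n a b i : ℕ} {δ : ℝ} (hq : 2 ≤ q) (hx : 2 ≤ x)
    (hy : y ^ q = NL.rep x n) (h : (a : ℝ) + (n : ℝ) * b + (i : ℝ) * n / q ≤ δ * n) :
    (x : ℝ) ^ a * (((x : ℝ) ^ n) ^ b * (y : ℝ) ^ i) ≤ (x : ℝ) ^ (δ * n) := by
  have hx1 : (1 : ℝ) ≤ x := by exact_mod_cast (by omega : 1 ≤ x)
  have hx0 : (0 : ℝ) < x := by linarith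
  have h1 : (y : ℝ) ^ i ≤ (x : ℝ) ^ ((i : ℝ) * n / q) := by
    calc (y : ℝ) ^ i ≤ ((x : ℝ) ^ ((n : ℝ) / q)) ^ i :=
          pow_le_pow_left₀ (Nat.cast_nonneg y) (sz49_y hq hx hy) i
      _ = (x : ℝ) ^ ((i : ℝ) * n / q) := by
          rw [← Real.rpow_natCast, ← Real.rpow_mul hx0.le]
          congr 1
          ring
  have h2 : (x : ℝ) ^ a * ((x : ℝ) ^ n) ^ b = (x : ℝ) ^ ((a : ℝ) + (n : ℝ) * b) := by
    rw [← pow_mul, ← pow_add, ← Real.rpow_natCast]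
    congr 1
    push_cast
    ring
  calc (x : ℝ) ^ a * (((x : ℝ) ^ n) ^ b * (y : ℝ) ^ i)
      = (x : ℝ) ^ a * ((x : ℝ) ^ n) ^ b * (y : ℝ) ^ i := by ring
    _ ≤ (x : ℝ) ^ a * ((x : ℝ) ^ n) ^ b * (x : ℝ) ^ ((i : ℝ) * n / q) :=
        mul_le_mul_of_nonneg_left h1 (by positivity)
    _ = (x : ℝ) ^ ((a : ℝ) + (n : ℝ) * b + (i : ℝ) * n / q) := by
        rw [h2, ← Real.rpow_add hx0]
    _ ≤ (x : ℝ) ^ (δ * n) := Real.rpow_le_rpow_of_exponent_le hx1 h

private theorem sz49_inner (p : ℤ[X]) {M q i l x : ℕ} (hq : 1 ≤ q) (hi : i ≤ q) (hx : 1 ≤ x)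
    (hM : p.natDegree ≤ M) (hM' : (p.comp (1 - X)).natDegree ≤ M) :
    |(((p.comp (1 - X)).sum fun d c => c * (1 - (x : ℤ)) ^ d *
      KZ q ((q : ℤ) * d - i) l : ℤ) : ℝ)| ≤
      (q : ℝ) ^ (2 * l) * 2 ^ M * ∑ a ∈ range (M + 1), |(p.coeff a : ℝ)| * (x : ℝ) ^ a := by
  have hx1 : (1 : ℝ) ≤ x := by exact_mod_cast hx
  rw [sum_over_range' _ _ (M + 1) (by omega)]
  · push_cast
    refine (abs_sum_le_sum_abs _ _).trans ?_
    have step : ∀ d ∈ range (M + 1),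
        |((p.comp (1 - X)).coeff d : ℝ) * (1 - (x : ℝ)) ^ d *
          (KZ q ((q : ℤ) * d - i) l : ℝ)| ≤
        (q : ℝ) ^ (2 * l) * 2 ^ M * (((x : ℝ) - 1) ^ d *
          ∑ a ∈ range (M + 1), |(p.coeff a : ℝ)| * (a.choose d : ℝ)) := by
      intro d hd
      have hdM : d ≤ M := by
        have := mem_range.1 hd
        omega
      have hK : |(KZ q ((q : ℤ) * d - i) l : ℝ)| ≤ (q : ℝ) ^ (2 * l) * 2 ^ M := by
        have h1 := abs_KZ_le_two_pow hq d i l hi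
        have h2 : |(KZ q ((q : ℤ) * d - i) l : ℝ)| ≤ (q : ℝ) ^ (2 * l) * 2 ^ d := by
          exact_mod_cast h1
        refine h2.trans ?_
        exact mul_le_mul_of_nonneg_left (pow_le_pow_right₀ (by norm_num) hdM) (by positivity)
      have hc := sz49_coeff_le p hM d
      have hz : |(1 - (x : ℝ)) ^ d| = ((x : ℝ) - 1) ^ d := by
        rw [abs_pow, abs_sub_comm, abs_of_nonneg (by linarith)]
      have hnn : 0 ≤ ((x : ℝ) - 1) ^ d := pow_nonneg (by linarith) _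
      rw [abs_mul, abs_mul, hz]
      calc |((p.comp (1 - X)).coeff d : ℝ)| * ((x : ℝ) - 1) ^ d *
            |(KZ q ((q : ℤ) * d - i) l : ℝ)|
          ≤ (∑ a ∈ range (M + 1), |(p.coeff a : ℝ)| * (a.choose d : ℝ)) * ((x : ℝ) - 1) ^ d *
            ((q : ℝ) ^ (2 * l) * 2 ^ M) := by
            refine mul_le_mul (mul_le_mul_of_nonneg_right hc hnn) hK (abs_nonneg _) ?_
            exact mul_nonneg (sum_nonneg fun a _ => by positivity) hnn
        _ = _ := by ring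
    refine (sum_le_sum step).trans (le_of_eq ?_)
    rw [← mul_sum]
    congr 1
    simp_rw [mul_sum]
    rw [sum_comm]
    refine sum_congr rfl fun a ha => ?_
    have haM : a ≤ M := by
      have := mem_range.1 ha
      omega
    have hb : (x : ℝ) ^ a = ∑ d ∈ range (M + 1), ((x : ℝ) - 1) ^ d * (a.choose d : ℝ) := by
      have h1 : (x : ℝ) ^ a = (((x : ℝ) - 1) + 1) ^ a := by
        congr 1
        ring
      rw [h1, add_pow]
      have hsub : range (a + 1) ⊆ range (M + 1) := range_subset_range.2 (by omega)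
      rw [← sum_subset hsub]
      · refine sum_congr rfl fun d _ => ?_
        rw [one_pow, mul_one]
      · intro d _ hd
        have : a < d := by
          by_contra hcon
          exact hd (mem_range.2 (by omega))
        rw [Nat.choose_eq_zero_of_lt this, Nat.cast_zero, mul_zero]
    rw [hb, mul_sum]
    refine sum_congr rfl fun d _ => ?_
    ring
  · intro d
    simp

theorem size_vv {q lam B : ℕ} (hq : 2 ≤ q) {C : ℝ} (hC : 1 ≤ C) : ∃ D : ℝ, 1 ≤ D ∧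
    ∀ n : ℕ, 1 ≤ n → ∀ P : ℕ → ℕ → ℤ[X],
      (∀ i b a, (P i b).coeff a ≠ 0 →
        i < q ∧ (a : ℝ) + (n : ℝ) * b + (i : ℝ) * n / q ≤ del q lam * n) →
      (∀ i b a, |((P i b).coeff a : ℝ)| ≤ C ^ n) →
      ∀ x y l : ℕ, 2 ≤ x → y ^ q = NL.rep x n → l ≤ 2 * n →
        |(vv q B (zp P) (1 - x) ((x : ℤ) ^ n) y l : ℝ)| ≤ D ^ n * (x : ℝ) ^ (del q lam * n) := by
  have hδ := sz49_del_pos q lam
  set δ := del q lam with hδd
  have h2δ : (1 : ℝ) ≤ (2 : ℝ) ^ δ := Real.one_le_rpow (by norm_num) (by linarith)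
  have hq4 : (1 : ℝ) ≤ (q : ℝ) ^ 4 := one_le_pow₀ (by exact_mod_cast (by omega : 1 ≤ q))
  have hB : (1 : ℝ) ≤ (q : ℝ) * B + 1 := by
    have : (0 : ℝ) ≤ (q : ℝ) * B := by positivity
    linarith
  have hd1 : (1 : ℝ) ≤ 2 * (δ + 1) := by linarith
  refine ⟨((q : ℝ) * B + 1) * ((2 * (δ + 1)) * ((q : ℝ) ^ 4 * ((2 : ℝ) ^ δ * C))), ?_, ?_⟩
  · exact one_le_mul_of_one_le_of_one_le hB (one_le_mul_of_one_le_of_one_le hd1
      (one_le_mul_of_one_le_of_one_le hq4 (one_le_mul_of_one_le_of_one_le h2δ hC)))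
  · intro n hn P hP hC' x y l hx hy hl
    have hx1 : (1 : ℝ) ≤ x := by exact_mod_cast (by omega : 1 ≤ x)
    set R : ℝ := (2 * (δ + 1)) ^ n * (((q : ℝ) ^ 4) ^ n * (((2 : ℝ) ^ δ) ^ n * C ^ n)) *
      (x : ℝ) ^ (δ * n) with hR
    have hR0 : 0 ≤ R := by positivity
    have key : ∀ i ∈ range q, ∀ b ∈ range B,
        |((((x : ℤ) ^ n) ^ b * (y : ℤ) ^ i * (zp P i b).sum fun d c =>
          c * (1 - (x : ℤ)) ^ d * KZ q ((q : ℤ) * d - i) l : ℤ) : ℝ)| ≤ R := by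
      intro i hi b _
      have hiq : i ≤ q := (mem_range.1 hi).le
      have h1 := sz49_inner (P i b) (M := ⌊δ * n⌋₊) (l := l) (by omega : 1 ≤ q) hiq
        (by omega : 1 ≤ x) (sz49_natDegree hP i b) (natDegree_zp hP i b)
      push_cast
      rw [abs_mul]
      have hw : |(((x : ℝ) ^ n) ^ b * (y : ℝ) ^ i)| = ((x : ℝ) ^ n) ^ b * (y : ℝ) ^ i :=
        abs_of_nonneg (by positivity)
      rw [hw]
      have hwn : 0 ≤ ((x : ℝ) ^ n) ^ b * (y : ℝ) ^ i := by positivity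
      refine (mul_le_mul_of_nonneg_left h1 hwn).trans ?_
      have hsum : ((x : ℝ) ^ n) ^ b * (y : ℝ) ^ i *
          ∑ a ∈ range (⌊δ * n⌋₊ + 1), |((P i b).coeff a : ℝ)| * (x : ℝ) ^ a ≤
          (2 * (δ + 1)) ^ n * (C ^ n * (x : ℝ) ^ (δ * n)) := by
        rw [mul_sum]
        calc ∑ a ∈ range (⌊δ * n⌋₊ + 1), ((x : ℝ) ^ n) ^ b * (y : ℝ) ^ i *
              (|((P i b).coeff a : ℝ)| * (x : ℝ) ^ a)
            ≤ ∑ a ∈ range (⌊δ * n⌋₊ + 1), C ^ n * (x : ℝ) ^ (δ * n) := by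
              refine sum_le_sum fun a _ => ?_
              by_cases h0 : (P i b).coeff a = 0
              · rw [h0]
                simp only [Int.cast_zero, abs_zero, zero_mul, mul_zero]
                positivity
              · have ht := sz49_term hq hx hy (hP i b a h0).2
                calc ((x : ℝ) ^ n) ^ b * (y : ℝ) ^ i * (|((P i b).coeff a : ℝ)| * (x : ℝ) ^ a)
                    = |((P i b).coeff a : ℝ)| *
                      ((x : ℝ) ^ a * (((x : ℝ) ^ n) ^ b * (y : ℝ) ^ i)) := by ring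
                  _ ≤ C ^ n * (x : ℝ) ^ (δ * n) :=
                      mul_le_mul (hC' i b a) ht (by positivity) (by positivity)
          _ = (((⌊δ * n⌋₊ : ℕ) : ℝ) + 1) * (C ^ n * (x : ℝ) ^ (δ * n)) := by
              rw [sum_const, card_range, nsmul_eq_mul]
              push_cast
              ring
          _ ≤ (2 * (δ + 1)) ^ n * (C ^ n * (x : ℝ) ^ (δ * n)) :=
              mul_le_mul_of_nonneg_right (sz49_count (by linarith) hn) (by positivity)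
      have hl4 : (q : ℝ) ^ (2 * l) ≤ ((q : ℝ) ^ 4) ^ n := by
        rw [← pow_mul]
        exact pow_le_pow_right₀ (by exact_mod_cast (by omega : 1 ≤ q)) (by omega)
      have h2M := sz49_two_pow (δ := δ) (by linarith) n
      calc ((x : ℝ) ^ n) ^ b * (y : ℝ) ^ i * ((q : ℝ) ^ (2 * l) * 2 ^ ⌊δ * n⌋₊ *
            ∑ a ∈ range (⌊δ * n⌋₊ + 1), |((P i b).coeff a : ℝ)| * (x : ℝ) ^ a)
          = ((q : ℝ) ^ (2 * l) * 2 ^ ⌊δ * n⌋₊) * (((x : ℝ) ^ n) ^ b * (y : ℝ) ^ i *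
            ∑ a ∈ range (⌊δ * n⌋₊ + 1), |((P i b).coeff a : ℝ)| * (x : ℝ) ^ a) := by ring
        _ ≤ (((q : ℝ) ^ 4) ^ n * ((2 : ℝ) ^ δ) ^ n) *
            ((2 * (δ + 1)) ^ n * (C ^ n * (x : ℝ) ^ (δ * n))) := by
            refine mul_le_mul (mul_le_mul hl4 h2M (by positivity) (by positivity)) hsum ?_
              (by positivity)
            exact mul_nonneg hwn (sum_nonneg fun a _ => by positivity)
        _ = R := by rw [hR]; ring
    have htot : |(vv q B (zp P) (1 - x) ((x : ℤ) ^ n) y l : ℝ)| ≤ (q : ℝ) * B * R := by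
      unfold vv
      rw [Int.cast_sum]
      refine (abs_sum_le_sum_abs _ _).trans ?_
      calc ∑ i ∈ range q, |((∑ b ∈ range B, ((x : ℤ) ^ n) ^ b * (y : ℤ) ^ i *
            (zp P i b).sum fun d c => c * (1 - (x : ℤ)) ^ d * KZ q ((q : ℤ) * d - i) l : ℤ) : ℝ)|
          ≤ ∑ i ∈ range q, (B : ℝ) * R := by
            refine sum_le_sum fun i hi => ?_
            rw [Int.cast_sum]
            refine (abs_sum_le_sum_abs _ _).trans ?_
            calc ∑ b ∈ range B, |((((x : ℤ) ^ n) ^ b * (y : ℤ) ^ i *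
                  (zp P i b).sum fun d c => c * (1 - (x : ℤ)) ^ d *
                    KZ q ((q : ℤ) * d - i) l : ℤ) : ℝ)|
                ≤ ∑ b ∈ range B, R := by
                  refine sum_le_sum fun b hb => ?_
                  exact key i hi b hb
              _ = (B : ℝ) * R := by rw [sum_const, card_range, nsmul_eq_mul]
        _ = (q : ℝ) * B * R := by
            rw [sum_const, card_range, nsmul_eq_mul]
            ring
    refine htot.trans ?_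
    have h5 : (q : ℝ) * B ≤ ((q : ℝ) * B + 1) ^ n := by
      calc (q : ℝ) * B ≤ (q : ℝ) * B + 1 := by linarith
        _ = ((q : ℝ) * B + 1) ^ 1 := (pow_one _).symm
        _ ≤ ((q : ℝ) * B + 1) ^ n := pow_le_pow_right₀ hB hn
    calc (q : ℝ) * B * R ≤ ((q : ℝ) * B + 1) ^ n * R := mul_le_mul_of_nonneg_right h5 hR0
      _ = (((q : ℝ) * B + 1) * ((2 * (δ + 1)) * ((q : ℝ) ^ 4 * ((2 : ℝ) ^ δ * C)))) ^ n *
          (x : ℝ) ^ (δ * n) := by
          rw [hR]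
          simp only [mul_pow]
          ring

end Pool.Agent.NLG
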