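import Pool.Agent.NLG.Divis
import Pool.Agent.NLG.AuxB
import Pool.Agent.NLG.Size
import Pool.Agent.NLG.ZLem

/-!
NLG-RegB: large n, constants independent of n.

PLAN.  δ = del q lam, B = ⌊δ⌋₊ + 1 (P i b = 0 for b ≥ B since n b ≤ δ n).  aux: C, P.  size_vv: D.
coeff_zp: D2, natDegree_zp.  n ≥ n0 = max (q B) 1.  Put M = n + q B ≤ 2 n.  If x ≥ X1 then some l < M
has vv l ≠ 0: otherwise zero_lemma with Q = zp P, R = ⌊δ n⌋₊, H = ⌊D2^n⌋₊, z = 1 - x, w = x^n (> H + 1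
if x > D2 + 1), y: (x-1)^(n+1) ≤ (qB)! ((R+1) H (qR+q)^(qB))^(qB) ≤ D3^n, false if x - 1 ≥ D3.  Then
l < 2 n < lam n = N, divis: e^(N-l) ∣ vv l, so e^(lam n - 2n) ≤ e^(N-l) ≤ |vv l| ≤ D^n x^(δ n); take the
n-th root: e^(lam-2) ≤ D x^δ.  For x < X1: e ≤ x < X1, e^(lam-2) ≤ X1^(lam-2).
-/

namespace Pool.Agent.NLG

open Finset Polynomial

private theorem del_nonneg (q lam : ℕ) : 0 ≤ del q lam := by
  unfold del
  positivity

private theorem le_pow_self' {a : ℝ} (ha : 1 ≤ a) {n : ℕ} (hn : 1 ≤ n) : a ≤ a ^ n :=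
  le_self_pow₀ ha (by omega)

private theorem nat_le_two_pow (n : ℕ) : (n : ℝ) ≤ 2 ^ n := by
  exact_mod_cast (Nat.lt_two_pow_self (n := n)).le

/-- The right side of the zero estimate is at most `D3 ^ n`. -/
private theorem zbound {q K : ℕ} (hq : 1 ≤ q) {δ D2 : ℝ} (hδ : 0 ≤ δ) (hD2 : 1 ≤ D2) :
    ∃ D3 : ℝ, 1 ≤ D3 ∧ ∀ n R H : ℕ, 1 ≤ n → (R : ℝ) ≤ δ * n → (H : ℝ) ≤ D2 ^ n →
      (K.factorial : ℝ) * (((R : ℝ) + 1) * (H * ((q : ℝ) * R + q) ^ K)) ^ K ≤ D3 ^ n := by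
  have hq1 : (1 : ℝ) ≤ q := by exact_mod_cast hq
  have hK : (1 : ℝ) ≤ K.factorial := by exact_mod_cast K.factorial_pos
  have ha : 1 ≤ (δ + 1) * 2 := by nlinarith
  have hb : 1 ≤ q * (δ + 1) * 2 := by nlinarith
  refine ⟨K.factorial * (((δ + 1) * 2) * (D2 * (q * (δ + 1) * 2) ^ K)) ^ K, ?_, ?_⟩
  · have h1 : 1 ≤ (q * (δ + 1) * 2) ^ K := one_le_pow₀ hb
    have h2 : 1 ≤ D2 * (q * (δ + 1) * 2) ^ K := one_le_mul_of_one_le_of_one_le hD2 h1
    have h3 : 1 ≤ ((δ + 1) * 2) * (D2 * (q * (δ + 1) * 2) ^ K) :=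
      one_le_mul_of_one_le_of_one_le ha h2
    exact one_le_mul_of_one_le_of_one_le hK (one_le_pow₀ h3)
  · intro n R H hn hR hH
    have hn1 : (1 : ℝ) ≤ n := by exact_mod_cast hn
    have hR0 : (0 : ℝ) ≤ R := Nat.cast_nonneg _
    have hR1 : (R : ℝ) + 1 ≤ ((δ + 1) * 2) ^ n := by
      have h1 : (R : ℝ) + 1 ≤ (δ + 1) * n := by nlinarith
      have h2 : (δ + 1) * n ≤ (δ + 1) ^ n * 2 ^ n :=
        mul_le_mul (le_pow_self' (by linarith) hn) (nat_le_two_pow n) (by positivity)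
          (by positivity)
      rw [mul_pow]
      exact h1.trans h2
    have hR2 : (q : ℝ) * R + q ≤ (q * (δ + 1) * 2) ^ n := by
      have h1 : (q : ℝ) * R + q = q * (R + 1) := by ring
      rw [h1, mul_assoc, mul_pow]
      exact mul_le_mul (le_pow_self' hq1 hn) hR1 (by positivity) (by positivity)
    have h3 : (((R : ℝ) + 1) * (H * ((q : ℝ) * R + q) ^ K)) ≤
        (((δ + 1) * 2) * (D2 * (q * (δ + 1) * 2) ^ K)) ^ n := by
      have e1 : (((δ + 1) * 2) * (D2 * (q * (δ + 1) * 2) ^ K)) ^ n =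
          ((δ + 1) * 2) ^ n * (D2 ^ n * ((q * (δ + 1) * 2) ^ n) ^ K) := by
        rw [mul_pow _ (D2 * _), mul_pow D2, ← pow_mul, ← pow_mul, mul_comm K n]
      rw [e1]
      refine mul_le_mul hR1 (mul_le_mul hH (pow_le_pow_left₀ (by positivity) hR2 _) (by positivity)
        (by positivity)) (by positivity) (by positivity)
    have e2 : (K.factorial * (((δ + 1) * 2) * (D2 * (q * (δ + 1) * 2) ^ K)) ^ K) ^ n =
        (K.factorial : ℝ) ^ n * ((((δ + 1) * 2) * (D2 * (q * (δ + 1) * 2) ^ K)) ^ n) ^ K := by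
      rw [mul_pow (K.factorial : ℝ), ← pow_mul, ← pow_mul, mul_comm K n]
    rw [e2]
    exact mul_le_mul (le_pow_self' hK hn) (pow_le_pow_left₀ (by positivity) h3 _) (by positivity)
      (by positivity)

theorem regB {q lam : ℕ} (hq : 2 ≤ q) (hl : 3 ≤ lam) : ∃ (C : ℝ) (n0 : ℕ), 1 ≤ C ∧
    ∀ n x y e : ℕ, n0 ≤ n → 2 ≤ x → y ^ q = NL.rep x n → e ∣ x →
      IsCoprime (e : ℤ) q → IsCoprime (e : ℤ) ((y : ℤ) - 1) →
      (e : ℝ) ^ (lam - 2) ≤ C * (x : ℝ) ^ (del q lam) := by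
  have hδ := del_nonneg q lam
  set δ := del q lam with hδdef
  set B := ⌊δ⌋₊ + 1 with hB
  obtain ⟨C, hC1, hC⟩ := aux hq (by omega : 1 ≤ lam)
  obtain ⟨D, hD1, hD⟩ := size_vv (q := q) (lam := lam) (B := B) hq hC1
  obtain ⟨D2, hD21, hD2⟩ := coeff_zp (q := q) (lam := lam) hq hC1
  obtain ⟨D3, hD31, hD3⟩ := zbound (q := q) (K := q * B) (by omega) hδ hD21
  set X1 := ⌈D3⌉₊ + ⌈D2⌉₊ + 3 with hX1
  refine ⟨max D ((X1 : ℝ) ^ (lam - 2)), max (q * B) 1, le_max_of_le_left hD1, ?_⟩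
  intro n x y e hn hx hxy he heq hey
  have hn1 : 1 ≤ n := (le_max_right _ _).trans hn
  have hnK : q * B ≤ n := (le_max_left _ _).trans hn
  have hxR : (1 : ℝ) ≤ x := by exact_mod_cast (by omega : 1 ≤ x)
  have hxδ : (1 : ℝ) ≤ (x : ℝ) ^ δ := Real.one_le_rpow hxR hδ
  have hex : e ≤ x := Nat.le_of_dvd (by omega) he
  have he1 : 1 ≤ e := Nat.pos_of_dvd_of_pos he (by omega)
  have he1R : (1 : ℝ) ≤ e := by exact_mod_cast he1
  rcases lt_or_ge x X1 with hlt | hge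
  · have h1 : (e : ℝ) ^ (lam - 2) ≤ (X1 : ℝ) ^ (lam - 2) :=
      pow_le_pow_left₀ (by positivity) (by exact_mod_cast (by omega : e ≤ X1)) _
    calc (e : ℝ) ^ (lam - 2) ≤ (X1 : ℝ) ^ (lam - 2) := h1
      _ ≤ max D ((X1 : ℝ) ^ (lam - 2)) := le_max_right _ _
      _ ≤ max D ((X1 : ℝ) ^ (lam - 2)) * (x : ℝ) ^ δ :=
          le_mul_of_one_le_right (by positivity) hxδ
  obtain ⟨P, ⟨i0, b0, hi0, hP0⟩, hPd, hPc, hPV⟩ := hC n hn1
  have hnR : (1 : ℝ) ≤ n := by exact_mod_cast hn1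
  have hbB : ∀ i b, P i b ≠ 0 → b < B := by
    intro i b h
    obtain ⟨a, ha⟩ : ∃ a, (P i b).coeff a ≠ 0 := by
      by_contra hcon
      push Not at hcon
      exact h (Polynomial.ext fun a => by simp [hcon a])
    obtain ⟨_, h2⟩ := hPd i b a ha
    have h3 : (n : ℝ) * b ≤ δ * n := by
      have h4 : (0 : ℝ) ≤ (a : ℝ) := Nat.cast_nonneg _
      have h5 : (0 : ℝ) ≤ (i : ℝ) * n / q := by positivity
      linarith
    have h6 : (b : ℝ) ≤ δ := by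
      by_contra hcon
      push Not at hcon
      nlinarith
    have h7 : b ≤ ⌊δ⌋₊ := Nat.le_floor h6
    omega
  have hPB : ∀ i b, B ≤ b → P i b = 0 := by
    intro i b h
    by_contra hcon
    have := hbB i b hcon
    omega
  -- the equation over the integers
  have hyZ : ((y : ℤ)) ^ q * (1 - (x : ℤ)) = 1 - (x : ℤ) ^ n := by
    have h1 := NL.rep_mul_int x n
    have h2 : ((y : ℤ)) ^ q = (NL.rep x n : ℤ) := by exact_mod_cast hxy
    rw [h2]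
    linear_combination -h1
  have hy0 : (y : ℤ) ≠ 0 := by
    intro h0
    have h1 : y = 0 := by exact_mod_cast h0
    have h2 := NL.rep_pos (x := x) (n := n) hn1
    rw [← hxy, h1, zero_pow (by omega)] at h2
    exact lt_irrefl _ h2
  -- a non-zero value
  have hex2 : ∃ l, l < n + q * B ∧ vv q B (zp P) (1 - (x : ℤ)) ((x : ℤ) ^ n) y l ≠ 0 := by
    by_contra hcon
    push Not at hcon
    set H := ⌊D2 ^ n⌋₊ with hH
    have hHle : (H : ℝ) ≤ D2 ^ n := Nat.floor_le (by positivity)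
    have hRle : ((⌊δ * n⌋₊ : ℕ) : ℝ) ≤ δ * n := Nat.floor_le (by positivity)
    have hceil2 : D2 ≤ (⌈D2⌉₊ : ℝ) := Nat.le_ceil _
    have hceil3 : D3 ≤ (⌈D3⌉₊ : ℝ) := Nat.le_ceil _
    have hxX : (X1 : ℝ) ≤ x := by exact_mod_cast hge
    have hX1R : (X1 : ℝ) = ⌈D3⌉₊ + ⌈D2⌉₊ + 3 := by rw [hX1]; push_cast; ring
    have hzabs : |(1 - (x : ℤ))| = (x : ℤ) - 1 := by
      rw [abs_sub_comm, abs_of_nonneg (by omega)]
    have hw : (H : ℤ) + 1 < |(x : ℤ) ^ n| := by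
      rw [abs_of_nonneg (by positivity)]
      have h1 : (H : ℝ) + 1 < (x : ℝ) ^ n := by
        have h2 : D2 + 2 ≤ (x : ℝ) := by
          have : (0 : ℝ) ≤ (⌈D3⌉₊ : ℝ) := Nat.cast_nonneg _
          linarith
        have h3 : (D2 + 2) ^ n ≤ (x : ℝ) ^ n := pow_le_pow_left₀ (by linarith) h2 _
        have h4 : D2 ^ n + 2 ^ n ≤ (D2 + 2) ^ n := by
          exact pow_add_pow_le (by linarith) (by norm_num) (by omega)
        have h5 : (2 : ℝ) ≤ 2 ^ n := le_pow_self' (by norm_num) hn1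
        linarith
      exact_mod_cast h1
    have hz := zero_lemma (q := q) (B := B) (R := ⌊δ * n⌋₊) (M := n + q * B) (H := H) (by omega)
      (Q := zp P) (fun i b => natDegree_zp hPd i b) (fun i b d => by
        have h1 := hD2 n hn1 P hPd hPc i b d
        have h2 : |(zp P i b).coeff d| ≤ ⌊D2 ^ n⌋ := by
          rw [Int.le_floor]
          push_cast
          exact h1
        have h3 : (⌊D2 ^ n⌋ : ℤ) = (H : ℤ) := by
          rw [hH]
          exact (Int.natCast_floor_eq_floor (by positivity)).symm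
        rw [← h3]
        exact h2)
      ⟨i0, b0, hi0, hbB i0 b0 hP0, zp_ne_zero hP0⟩ (z := 1 - (x : ℤ)) (w := (x : ℤ) ^ n)
      (y := (y : ℤ)) (by omega) hw hy0 hcon
    have h1 : n + q * B + 1 - q * B = n + 1 := by omega
    rw [h1, hzabs] at hz
    have hzR : ((x : ℝ) - 1) ^ (n + 1) ≤ (((q * B).factorial : ℕ) : ℝ) *
        ((((⌊δ * n⌋₊ : ℕ) : ℝ) + 1) * (H * ((q : ℝ) * (⌊δ * n⌋₊ : ℕ) + q) ^ (q * B))) ^ (q * B) := by
      exact_mod_cast hz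
    have h2 := hzR.trans (hD3 n ⌊δ * n⌋₊ H hn1 hRle hHle)
    have h3 : D3 ≤ (x : ℝ) - 1 := by
      have : (0 : ℝ) ≤ (⌈D2⌉₊ : ℝ) := Nat.cast_nonneg _
      linarith
    have h4 : (1 : ℝ) < (x : ℝ) - 1 := by
      have : (0 : ℝ) ≤ (⌈D2⌉₊ : ℝ) := Nat.cast_nonneg _
      linarith
    have h5 : D3 ^ n ≤ ((x : ℝ) - 1) ^ n := pow_le_pow_left₀ (by linarith) h3 _
    have h6 : ((x : ℝ) - 1) ^ n < ((x : ℝ) - 1) ^ (n + 1) := pow_lt_pow_right₀ h4 (by omega)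
    linarith
  obtain ⟨l, hl1, hl2⟩ := hex2
  have hN : 3 * n ≤ lam * n := Nat.mul_le_mul_right _ hl
  have hdiv := divis (q := q) (n := n) (N := lam * n) (B := B) hq hn1 (by omega) hPB hPV
    (x := (x : ℤ)) (y := (y : ℤ)) (e := e) (by exact_mod_cast he) heq hey hyZ
    (l := l) (by omega)
  have hsize := hD n hn1 P hPd hPc x y l hx hxy (by omega)
  have hle : (e : ℤ) ^ (lam * n - l) ≤ |vv q B (zp P) (1 - (x : ℤ)) ((x : ℤ) ^ n) y l| :=
    Int.le_of_dvd (abs_pos.2 hl2) ((dvd_abs _ _).2 hdiv)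
  have hleR : (e : ℝ) ^ (lam * n - l) ≤
      |(vv q B (zp P) (1 - (x : ℤ)) ((x : ℤ) ^ n) y l : ℝ)| := by
    exact_mod_cast hle
  have h1 : ((e : ℝ) ^ (lam - 2)) ^ n ≤ (e : ℝ) ^ (lam * n - l) := by
    rw [← pow_mul]
    refine pow_le_pow_right₀ he1R ?_
    rw [Nat.sub_mul]
    omega
  have h2 : ((e : ℝ) ^ (lam - 2)) ^ n ≤ (D * (x : ℝ) ^ δ) ^ n := by
    rw [mul_pow, ← Real.rpow_natCast ((x : ℝ) ^ δ), ← Real.rpow_mul (by positivity)]
    exact h1.trans (hleR.trans hsize)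
  have h3 : (e : ℝ) ^ (lam - 2) ≤ D * (x : ℝ) ^ δ :=
    le_of_pow_le_pow_left₀ (by omega) (by positivity) h2
  exact h3.trans (mul_le_mul_of_nonneg_right (le_max_left _ _) (by positivity))

end Pool.Agent.NLG
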