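import Pool.Agent.NLG.RegA
import Pool.Agent.NLG.RegB
import Pool.Agent.NL.FixedOne

/-!
NLG-MainE: every divisor e of x with gcd(e, q (y-1)) = 1 is at most C x^(√(1-1/q) + ε).
-/

namespace Pool.Agent.NLG

open Finset Polynomial

/-- From a bound for `e ^ m` to a bound for `e`. -/
private theorem root_le {e x C a b : ℝ} (hx : 1 ≤ x) (hC : 1 ≤ C) {m : ℕ} (hm : m ≠ 0)
    (hab : a ≤ b * m) (h : e ^ m ≤ C * x ^ a) : e ≤ C * x ^ b := by
  have h1 : x ^ a ≤ (x ^ b) ^ m := by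
    rw [← Real.rpow_natCast, ← Real.rpow_mul (by linarith)]
    exact Real.rpow_le_rpow_of_exponent_le hx hab
  have h2 : C ≤ C ^ m := le_self_pow₀ hC hm
  have h3 : e ^ m ≤ (C * x ^ b) ^ m := by
    rw [mul_pow]
    refine h.trans (mul_le_mul h2 h1 ?_ ?_)
    · exact Real.rpow_nonneg (by linarith) _
    · positivity
  exact le_of_pow_le_pow_left₀ hm (mul_nonneg (by linarith) (Real.rpow_nonneg (by linarith) _)) h3

theorem mainE {q : ℕ} (hq : q.Prime) (hq3 : 3 ≤ q) {ε : ℝ} (hε : 0 < ε) : ∃ C : ℝ, 1 ≤ C ∧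
    ∀ n x y e : ℕ, 2 < n → 2 ≤ x → y ^ q = NL.rep x n → e ∣ x →
      IsCoprime (e : ℤ) q → IsCoprime (e : ℤ) ((y : ℤ) - 1) →
      (e : ℝ) ≤ C * (x : ℝ) ^ (Real.sqrt (1 - 1 / q) + ε) := by
  set α := Real.sqrt (1 - 1 / q) with hα
  have hα0 : 0 ≤ α := Real.sqrt_nonneg _
  have hα1 : α ≤ 1 := by
    rw [hα, Real.sqrt_le_one]
    have : (0 : ℝ) ≤ 1 / q := by positivity
    linarith
  obtain ⟨lam0, hlam0⟩ := exists_nat_ge ((4 + 2 * ε) / ε)
  set lam := lam0 + 3 with hlam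
  have hlamε : 4 + 2 * ε ≤ ε * lam := by
    rw [div_le_iff₀ hε] at hlam0
    rw [hlam]
    push_cast
    nlinarith
  have hdel : del q lam ≤ (α + ε) * ((lam - 2 : ℕ) : ℝ) := by
    have h1 : ((lam - 2 : ℕ) : ℝ) = (lam : ℝ) - 2 := by
      rw [Nat.cast_sub (by omega)]
      norm_num
    rw [h1]
    unfold del
    rw [← hα]
    nlinarith
  obtain ⟨CB, n0, hCB1, hB⟩ := regB (q := q) (lam := lam) hq.two_le (by omega)
  obtain ⟨x0, hx0⟩ := NL.fixed_one hq3
  have hA : ∀ n : ℕ, ∃ C : ℝ, 1 ≤ C ∧ (2 ≤ n → n % q ≠ 1 → ∀ x y e : ℕ, 2 ≤ x →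
      y ^ q = NL.rep x n → e ∣ x → IsCoprime (e : ℤ) q → IsCoprime (e : ℤ) ((y : ℤ) - 1) →
      (e : ℝ) ^ (lam * n) ≤ C * (x : ℝ) ^ (del q lam * n)) := by
    intro n
    by_cases h : 2 ≤ n ∧ n % q ≠ 1
    · obtain ⟨C, hC1, hC⟩ := regA (lam := lam) hq (by omega) h.1 h.2
      exact ⟨C, hC1, fun _ _ => hC⟩
    · exact ⟨1, le_refl _, fun h1 h2 => absurd ⟨h1, h2⟩ h⟩
  choose f hf1 hf using hA
  have hsum : ∀ n ∈ range n0, f n ≤ ∑ m ∈ range n0, f m := fun n hn =>
    single_le_sum (fun m _ => by linarith [hf1 m]) hn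
  refine ⟨CB + (∑ m ∈ range n0, f m) + x0, ?_, ?_⟩
  · have h1 : 0 ≤ ∑ m ∈ range n0, f m := sum_nonneg fun m _ => by linarith [hf1 m]
    have h2 : (0 : ℝ) ≤ x0 := Nat.cast_nonneg _
    linarith
  · intro n x y e hn hx hxy he heq hey
    have hs0 : 0 ≤ ∑ m ∈ range n0, f m := sum_nonneg fun m _ => by linarith [hf1 m]
    have hx00 : (0 : ℝ) ≤ x0 := Nat.cast_nonneg _
    have hxR : (1 : ℝ) ≤ x := by exact_mod_cast (by omega : 1 ≤ x)
    have hxp : (1 : ℝ) ≤ (x : ℝ) ^ (α + ε) := Real.one_le_rpow hxR (by positivity)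
    have hex : e ≤ x := Nat.le_of_dvd (by omega) he
    rcases Nat.lt_or_ge n n0 with hlt | hge
    · by_cases hnq : n % q = 1
      · have h1 : x < x0 := by
          by_contra hcon
          exact hx0 x y n (by omega) (by omega) hnq hxy
        have h2 : (e : ℝ) ≤ x0 := by exact_mod_cast (by omega : e ≤ x0)
        calc (e : ℝ) ≤ x0 := h2
          _ ≤ CB + (∑ m ∈ range n0, f m) + x0 := by linarith
          _ ≤ _ := le_mul_of_one_le_right (by linarith) hxp
      · have h1 := hf n (by omega) hnq x y e hx hxy he heq hey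
        have hn0 : (0 : ℝ) ≤ n := Nat.cast_nonneg _
        have h2 : del q lam * n ≤ (α + ε) * ((lam * n : ℕ) : ℝ) := by
          push_cast
          rw [← mul_assoc]
          refine mul_le_mul_of_nonneg_right (hdel.trans ?_) hn0
          refine mul_le_mul_of_nonneg_left ?_ (by positivity)
          exact_mod_cast (by omega : lam - 2 ≤ lam)
        have h3 := root_le hxR (hf1 n) (Nat.mul_ne_zero (by omega) (by omega)) h2 h1
        refine h3.trans (mul_le_mul_of_nonneg_right ?_ (by positivity))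
        have := hsum n (mem_range.2 hlt)
        linarith
    · have h1 := hB n x y e hge hx hxy he heq hey
      have h3 := root_le hxR hCB1 (by omega) hdel h1
      refine h3.trans (mul_le_mul_of_nonneg_right ?_ (by positivity))
      linarith

end Pool.Agent.NLG
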