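import Pool.Agent.NLG.Divis1
import Pool.Agent.NLG.DivisD1
import Pool.Agent.NLG.Aux1G
import Pool.Agent.NLG.Growth

/-!
NLG-RegAS: a fixed length n (constants may depend on n), sharp exponents.

PLAN.  Model: NLG/RegA.lean (copy): aux1E + divis1 give regAE, aux1D + divisD1 give regAD
(D^(lam n) ∣ q S, S ≠ 0, so D^(lam n) ≤ q |S|, |S| ≤ Cs x^(δ n)).  GoodD implies D ∣ x, so D ≤ x; for
x < X0 the bound is X0^(lam n); D = 0 is impossible (D ∣ x, x ≥ 2).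
-/

namespace Pool.Agent.NLG

open Finset Polynomial

private theorem RegAS_bound {q n : ℕ} (hq : q.Prime) {δ : ℝ} {p : ℕ → ℤ[X]}
    (hpc : ∀ i a, (p i).coeff a ≠ 0 → i < q ∧ (a : ℝ) + (i : ℝ) * n / q ≤ δ * n) :
    ∃ Cs : ℝ, 0 ≤ Cs ∧ ∀ x y : ℕ, 2 ≤ x → y ^ q = NL.rep x n →
      |((∑ i ∈ range q, (p i).eval (x : ℤ) * (y : ℤ) ^ i : ℤ) : ℝ)| ≤ Cs * (x : ℝ) ^ (δ * n) := by
  obtain ⟨Cs, hCs⟩ : ∃ Cs : ℝ, Cs = ∑ i ∈ range q, ∑ a ∈ (p i).support, |((p i).coeff a : ℝ)| :=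
    ⟨_, rfl⟩
  have hCs0 : 0 ≤ Cs := by
    rw [hCs]
    exact sum_nonneg fun i _ => sum_nonneg fun a _ => abs_nonneg _
  refine ⟨Cs, hCs0, ?_⟩
  intro x y hx hy
  have hx1 : (1 : ℝ) ≤ x := by exact_mod_cast (by omega : 1 ≤ x)
  have hx0 : (0 : ℝ) < x := by linarith
  have hyx : ∀ i : ℕ, (y : ℝ) ^ i ≤ (x : ℝ) ^ ((i : ℝ) * n / q) := by
    intro i
    have hq0 : (0 : ℝ) < q := by exact_mod_cast hq.pos
    have h3 : (y : ℝ) ^ q ≤ (x : ℝ) ^ n := by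
      have := NL.rep_lt (n := n) hx
      rw [← hy] at this
      exact_mod_cast this.le
    have h4 : (y : ℝ) ≤ (x : ℝ) ^ ((n : ℝ) / q) := by
      rw [← pow_le_pow_iff_left₀ (Nat.cast_nonneg y) (Real.rpow_nonneg hx0.le _) hq.ne_zero,
        ← Real.rpow_natCast ((x : ℝ) ^ ((n : ℝ) / q)) q, ← Real.rpow_mul hx0.le,
        div_mul_cancel₀ _ hq0.ne', Real.rpow_natCast]
      exact h3
    calc (y : ℝ) ^ i ≤ ((x : ℝ) ^ ((n : ℝ) / q)) ^ i := pow_le_pow_left₀ (Nat.cast_nonneg y) h4 i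
      _ = (x : ℝ) ^ ((i : ℝ) * n / q) := by
        rw [← Real.rpow_natCast ((x : ℝ) ^ ((n : ℝ) / q)) i, ← Real.rpow_mul hx0.le]
        congr 1
        ring
  push_cast
  rw [hCs, sum_mul]
  refine (abs_sum_le_sum_abs _ _).trans (sum_le_sum fun i _ => ?_)
  have h6 : (((p i).eval (x : ℤ) : ℤ) : ℝ) = ∑ a ∈ (p i).support, ((p i).coeff a : ℝ) * (x : ℝ) ^ a := by
    rw [eval_eq_sum, Polynomial.sum]
    push_cast
    rfl
  rw [h6, sum_mul, sum_mul]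
  refine (abs_sum_le_sum_abs _ _).trans (sum_le_sum fun a ha => ?_)
  rw [mul_assoc, abs_mul]
  refine mul_le_mul_of_nonneg_left ?_ (abs_nonneg _)
  rw [abs_of_nonneg (by positivity)]
  calc (x : ℝ) ^ a * (y : ℝ) ^ i ≤ (x : ℝ) ^ a * (x : ℝ) ^ ((i : ℝ) * n / q) :=
        mul_le_mul_of_nonneg_left (hyx i) (by positivity)
    _ = (x : ℝ) ^ ((a : ℝ) + (i : ℝ) * n / q) := by
        rw [Real.rpow_add hx0, Real.rpow_natCast]
    _ ≤ (x : ℝ) ^ (δ * n) :=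
        Real.rpow_le_rpow_of_exponent_le hx1 (hpc i a (mem_support_iff.1 ha)).2

private theorem RegAS_xy {q n x y : ℕ} (hy : y ^ q = NL.rep x n) :
    (y : ℤ) ^ q * (1 - (x : ℤ)) = 1 - (x : ℤ) ^ n := by
  have h1 := NL.rep_mul_int x n
  rw [← hy] at h1
  push_cast at h1
  linear_combination -h1

private theorem RegAS_fin {q n N : ℕ} (hq : q.Prime) (hn : 2 ≤ n) (hnq : n % q ≠ 1) {δ : ℝ}
    (hδ : 0 ≤ δ) {p : ℕ → ℤ[X]} (hp0 : ∃ i, i < q ∧ p i ≠ 0)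
    (hpc : ∀ i a, (p i).coeff a ≠ 0 → i < q ∧ (a : ℝ) + (i : ℝ) * n / q ≤ δ * n)
    {R : ℕ → ℕ → ℕ → Prop} (hR1 : ∀ x y e : ℕ, 2 ≤ x → R x y e → e ∣ x)
    (hR2 : ∀ x y e : ℕ, 2 ≤ x → y ^ q = NL.rep x n → R x y e →
      (e : ℤ) ^ N ∣ q * ∑ i ∈ range q, (p i).eval (x : ℤ) * (y : ℤ) ^ i) :
    ∃ C : ℝ, 1 ≤ C ∧ ∀ x y e : ℕ, 2 ≤ x → y ^ q = NL.rep x n → R x y e →
      (e : ℝ) ^ N ≤ C * (x : ℝ) ^ (δ * n) := by
  obtain ⟨X0, hX0⟩ := growth hq hn hnq hp0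
  obtain ⟨Cs, hCs0, hCs⟩ := RegAS_bound hq hpc
  have hX00 : 0 ≤ (X0 : ℝ) ^ N := by positivity
  have hq0 : (0 : ℝ) < q := by exact_mod_cast hq.pos
  have hqC : 0 ≤ (q : ℝ) * Cs := mul_nonneg hq0.le hCs0
  refine ⟨1 + (X0 : ℝ) ^ N + q * Cs, by linarith, ?_⟩
  intro x y e hx hy hR
  have hx1 : (1 : ℝ) ≤ x := by exact_mod_cast (by omega : 1 ≤ x)
  have hn0 : (0 : ℝ) ≤ n := Nat.cast_nonneg n
  have hR1' : 1 ≤ (x : ℝ) ^ (δ * n) := Real.one_le_rpow hx1 (mul_nonneg hδ hn0)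
  rcases lt_or_ge x X0 with h | h
  · have hex' : e ≤ x := Nat.le_of_dvd (by omega) (hR1 x y e hx hR)
    have h1 : (e : ℝ) ^ N ≤ (X0 : ℝ) ^ N :=
      pow_le_pow_left₀ (Nat.cast_nonneg e) (by exact_mod_cast (by omega : e ≤ X0)) _
    calc (e : ℝ) ^ N ≤ (X0 : ℝ) ^ N := h1
      _ ≤ (1 + (X0 : ℝ) ^ N + q * Cs) * 1 := by linarith
      _ ≤ (1 + (X0 : ℝ) ^ N + q * Cs) * (x : ℝ) ^ (δ * n) :=
          mul_le_mul_of_nonneg_left hR1' (by linarith)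
  · have hS := hX0 x y h hy
    have hq1 : (q : ℤ) ≠ 0 := by exact_mod_cast hq.ne_zero
    have h1 : (e : ℤ) ^ N ≤ |(q : ℤ) * ∑ i ∈ range q, (p i).eval (x : ℤ) * (y : ℤ) ^ i| :=
      Int.le_of_dvd (abs_pos.2 (mul_ne_zero hq1 hS)) ((dvd_abs _ _).2 (hR2 x y e hx hy hR))
    have h2 : (e : ℝ) ^ N ≤
        |(((q : ℤ) * ∑ i ∈ range q, (p i).eval (x : ℤ) * (y : ℤ) ^ i : ℤ) : ℝ)| := by
      exact_mod_cast h1
    rw [Int.cast_mul, Int.cast_natCast, abs_mul, abs_of_pos hq0] at h2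
    have h5 := mul_le_mul_of_nonneg_left (hCs x y hx hy) hq0.le
    have h7 : 0 ≤ (x : ℝ) ^ (δ * n) := by linarith
    calc (e : ℝ) ^ N ≤ q * (Cs * (x : ℝ) ^ (δ * n)) := h2.trans h5
      _ = (q * Cs) * (x : ℝ) ^ (δ * n) := by ring
      _ ≤ (1 + (X0 : ℝ) ^ N + q * Cs) * (x : ℝ) ^ (δ * n) :=
          mul_le_mul_of_nonneg_right (by linarith) h7

theorem regAE {q lam n : ℕ} (hq : q.Prime) (hl : 1 ≤ lam) (hn : 2 ≤ n) (hnq : n % q ≠ 1) :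
    ∃ C : ℝ, 1 ≤ C ∧ ∀ x y e : ℕ, 2 ≤ x → y ^ q = NL.rep x n → e ∣ x →
      IsCoprime (e : ℤ) q → IsCoprime (e : ℤ) ((y : ℤ) - 1) →
      (e : ℝ) ^ (lam * n) ≤ C * (x : ℝ) ^ (((1 - 1 / (q : ℝ)) * lam + 1) * n) := by
  obtain ⟨p, hp0, hpc, hV⟩ := aux1E (lam := lam) hq.two_le hl (by omega : 1 ≤ n)
  have hq1 : (1 : ℝ) ≤ q := by exact_mod_cast hq.one_le
  have hd0 : 0 ≤ (1 - 1 / (q : ℝ)) * lam + 1 := by
    have h1 : 1 / (q : ℝ) ≤ 1 := by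
      rw [div_le_one (by linarith)]
      exact hq1
    have h2 : 0 ≤ (1 - 1 / (q : ℝ)) * lam := mul_nonneg (by linarith) (Nat.cast_nonneg lam)
    linarith
  obtain ⟨C, hC1, hC⟩ := RegAS_fin (N := lam * n) hq hn hnq hd0 hp0 hpc
    (R := fun x y e => e ∣ x ∧ IsCoprime (e : ℤ) q ∧ IsCoprime (e : ℤ) ((y : ℤ) - 1))
    (fun x y e _ h => h.1)
    (fun x y e _ hy h => by
      refine Dvd.dvd.mul_left ?_ _
      exact divis1 hq.two_le (by omega) (Nat.mul_pos (by omega) (by omega)) hV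
        (by exact_mod_cast h.1) h.2.1 h.2.2 (RegAS_xy hy))
  exact ⟨C, hC1, fun x y e hx hy h1 h2 h3 => hC x y e hx hy ⟨h1, h2, h3⟩⟩

private theorem RegAS_good {q D x y : ℕ} (h : GoodD q D x y) : D ∣ x := by
  rcases h with ⟨_, h1, _⟩ | ⟨h1, _⟩
  · exact_mod_cast h1
  · have h2 : (D : ℤ) ∣ (x : ℤ) := (Dvd.intro_left _ rfl).trans h1
    exact_mod_cast h2

theorem regAD {q lam n : ℕ} (hq : q.Prime) (hq3 : 3 ≤ q) (hl : 1 ≤ lam) (hn : 2 ≤ n)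
    (hnq : n % q ≠ 1) :
    ∃ C : ℝ, 1 ≤ C ∧ ∀ x y D : ℕ, 2 ≤ x → y ^ q = NL.rep x n → GoodD q D x y →
      (D : ℝ) ^ (lam * n) ≤ C * (x : ℝ) ^ (((lam : ℝ) / q + 1) * n) := by
  obtain ⟨p, hp0, hpc, hV⟩ := aux1D (lam := lam) hq.two_le hl (by omega : 1 ≤ n)
  have hd0 : 0 ≤ (lam : ℝ) / q + 1 := by positivity
  exact RegAS_fin (N := lam * n) hq hn hnq hd0 hp0 hpc
    (R := fun x y D => GoodD q D x y)
    (fun x y D _ h => RegAS_good h)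
    (fun x y D hx hy h => by
      have hD : 1 ≤ D := by
        rcases Nat.eq_zero_or_pos D with h0 | h0
        · have h1 := RegAS_good h
          rw [h0] at h1
          have := Nat.eq_zero_of_zero_dvd h1
          omega
        · exact h0
      exact divisD1 hq hq3 (by omega) (Nat.mul_pos (by omega) (by omega)) hD hV h (RegAS_xy hy))

end Pool.Agent.NLG
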