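import Pool.Agent.NLG.RegS
import Pool.Agent.NLG.RegAS
import Pool.Agent.NL.FixedOne

/-!
NLG-MainS: the two bounds, e ≤ C x^(1-1/q+ε) and D ≤ C x^(1/q+ε), for all n > 2.

PLAN.  Model: NLG/MainE.lean (copy).  eta = lam ≥ 3/ε + 1: (1-1/q) eta + 3 ≤ (1-1/q+ε) eta, and
(1-1/q) lam + 1 ≤ (1-1/q+ε) lam, same for 1/q.  For n < n0 (n0 from regBE, regBD): n % q = 1 by
NL.fixed_one (x < x0), else regAE, regAD (finitely many constants); n ≥ n0: regBE, regBD.  D ≤ x since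
GoodD gives D ∣ x (x ≠ 0).
-/

namespace Pool.Agent.NLG

open Finset Polynomial

/-- From a bound for `e ^ m` to a bound for `e`. -/
private theorem mains_root {e x C a b : ℝ} (hx : 1 ≤ x) (hC : 1 ≤ C) {m : ℕ} (hm : m ≠ 0)
    (hab : a ≤ b * m) (h : e ^ m ≤ C * x ^ a) : e ≤ C * x ^ b := by
  have h1 : x ^ a ≤ (x ^ b) ^ m := by
    rw [← Real.rpow_natCast, ← Real.rpow_mul (by linarith)]
    exact Real.rpow_le_rpow_of_exponent_le hx hab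
  have h2 : C ≤ C ^ m := le_self_pow₀ hC hm
  have h3 : e ^ m ≤ (C * x ^ b) ^ m := by
    rw [mul_pow]
    refine h.trans (mul_le_mul h2 h1 ?_ ?_)
    · exact Real.rpow_nonneg (by linarith) _
    · positivity
  exact le_of_pow_le_pow_left₀ hm (mul_nonneg (by linarith) (Real.rpow_nonneg (by linarith) _)) h3

private theorem mains_glue {q : ℕ} (hq3 : 3 ≤ q) {b a1 a2 : ℝ} (hb : 0 ≤ b) {lam : ℕ}
    (hlam : 1 ≤ lam) (S : ℕ → ℕ → ℕ → ℕ → Prop)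
    (hS : ∀ n x y d, S n x y d → 2 < n ∧ 2 ≤ x ∧ y ^ q = NL.rep x n ∧ d ≤ x)
    (hA : ∀ n, 2 ≤ n → n % q ≠ 1 → ∃ C : ℝ, 1 ≤ C ∧ ∀ x y d, S n x y d →
      (d : ℝ) ^ (lam * n) ≤ C * (x : ℝ) ^ (a1 * n)) (ha1 : a1 ≤ b * lam)
    (hB : ∃ (C : ℝ) (n0 : ℕ), 1 ≤ C ∧ ∀ n x y d, n0 ≤ n → S n x y d →
      (d : ℝ) ^ lam ≤ C * (x : ℝ) ^ a2) (ha2 : a2 ≤ b * lam) :
    ∃ C : ℝ, 1 ≤ C ∧ ∀ n x y d, S n x y d → (d : ℝ) ≤ C * (x : ℝ) ^ b := by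
  obtain ⟨CB, n0, hCB1, hB⟩ := hB
  obtain ⟨x0, hx0⟩ := NL.fixed_one hq3
  have hA' : ∀ n : ℕ, ∃ C : ℝ, 1 ≤ C ∧ (2 ≤ n → n % q ≠ 1 → ∀ x y d, S n x y d →
      (d : ℝ) ^ (lam * n) ≤ C * (x : ℝ) ^ (a1 * n)) := by
    intro n
    by_cases h : 2 ≤ n ∧ n % q ≠ 1
    · obtain ⟨C, hC1, hC⟩ := hA n h.1 h.2
      exact ⟨C, hC1, fun _ _ => hC⟩
    · exact ⟨1, le_refl _, fun h1 h2 => absurd ⟨h1, h2⟩ h⟩
  choose f hf1 hf using hA'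
  have hsum : ∀ n ∈ range n0, f n ≤ ∑ m ∈ range n0, f m := fun n hn =>
    single_le_sum (fun m _ => by linarith [hf1 m]) hn
  have hs0 : 0 ≤ ∑ m ∈ range n0, f m := sum_nonneg fun m _ => by linarith [hf1 m]
  have hx00 : (0 : ℝ) ≤ x0 := Nat.cast_nonneg _
  refine ⟨CB + (∑ m ∈ range n0, f m) + x0, by linarith, ?_⟩
  intro n x y d hs
  obtain ⟨hn, hx, hxy, hdx⟩ := hS n x y d hs
  have hxR : (1 : ℝ) ≤ x := by exact_mod_cast (by omega : 1 ≤ x)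
  have hxp : (1 : ℝ) ≤ (x : ℝ) ^ b := Real.one_le_rpow hxR hb
  rcases Nat.lt_or_ge n n0 with hlt | hge
  · by_cases hnq : n % q = 1
    · have h1 : x < x0 := by
        by_contra hcon
        exact hx0 x y n (by omega) (by omega) hnq hxy
      have h2 : (d : ℝ) ≤ x0 := by exact_mod_cast (by omega : d ≤ x0)
      calc (d : ℝ) ≤ x0 := h2
        _ ≤ CB + (∑ m ∈ range n0, f m) + x0 := by linarith
        _ ≤ _ := le_mul_of_one_le_right (by linarith) hxp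
    · have h1 := hf n (by omega) hnq x y d hs
      have hn0 : (0 : ℝ) ≤ n := Nat.cast_nonneg _
      have h2 : a1 * n ≤ b * ((lam * n : ℕ) : ℝ) := by
        push_cast
        rw [← mul_assoc]
        exact mul_le_mul_of_nonneg_right ha1 hn0
      have h3 := mains_root hxR (hf1 n) (Nat.mul_ne_zero (by omega) (by omega)) h2 h1
      refine h3.trans (mul_le_mul_of_nonneg_right ?_ (by positivity))
      have := hsum n (mem_range.2 hlt)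
      linarith
  · have h1 := hB n x y d hge hs
    have h3 := mains_root hxR hCB1 (by omega) ha2 h1
    refine h3.trans (mul_le_mul_of_nonneg_right ?_ (by positivity))
    linarith

private theorem mains_lam {ε : ℝ} (hε : 0 < ε) : ∃ lam : ℕ, 1 ≤ lam ∧ 3 ≤ ε * lam := by
  obtain ⟨lam0, hlam0⟩ := exists_nat_ge (3 / ε)
  refine ⟨lam0 + 1, by omega, ?_⟩
  rw [div_le_iff₀ hε] at hlam0
  push_cast
  nlinarith

theorem mainE2 {q : ℕ} (hq : q.Prime) (hq3 : 3 ≤ q) {ε : ℝ} (hε : 0 < ε) : ∃ C : ℝ, 1 ≤ C ∧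
    ∀ n x y e f : ℕ, 2 < n → 2 ≤ x → y ^ q = NL.rep x n → x = e * f → e.Coprime f →
      IsCoprime (e : ℤ) q → IsCoprime (e : ℤ) ((y : ℤ) - 1) →
      (e : ℝ) ≤ C * (x : ℝ) ^ (1 - 1 / (q : ℝ) + ε) := by
  obtain ⟨lam, hlam1, hlamε⟩ := mains_lam hε
  have hq0 : (0 : ℝ) < q := by exact_mod_cast hq.pos
  have hqi : 1 / (q : ℝ) ≤ 1 := by
    rw [div_le_one hq0]
    exact_mod_cast hq.one_le
  suffices hsuf : ∃ C : ℝ, 1 ≤ C ∧ ∀ n x y e : ℕ, (2 < n ∧ 2 ≤ x ∧ y ^ q = NL.rep x n ∧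
      ∃ f, x = e * f ∧ e.Coprime f ∧ IsCoprime (e : ℤ) q ∧ IsCoprime (e : ℤ) ((y : ℤ) - 1)) →
      (e : ℝ) ≤ C * (x : ℝ) ^ (1 - 1 / (q : ℝ) + ε) by
    obtain ⟨C, hC1, hC⟩ := hsuf
    exact ⟨C, hC1, fun n x y e f h1 h2 h3 h4 h5 h6 h7 =>
      hC n x y e ⟨h1, h2, h3, f, h4, h5, h6, h7⟩⟩
  refine mains_glue (q := q) hq3 (b := 1 - 1 / (q : ℝ) + ε)
    (a1 := (1 - 1 / (q : ℝ)) * lam + 1) (a2 := (1 - 1 / (q : ℝ)) * lam + 3) (by linarith) hlam1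
    (fun n x y e => 2 < n ∧ 2 ≤ x ∧ y ^ q = NL.rep x n ∧ ∃ f, x = e * f ∧ e.Coprime f ∧
      IsCoprime (e : ℤ) q ∧ IsCoprime (e : ℤ) ((y : ℤ) - 1)) ?_ ?_ (by nlinarith) ?_ (by nlinarith)
  · rintro n x y e ⟨h1, h2, h3, f, h4, -, -, -⟩
    exact ⟨h1, h2, h3, Nat.le_of_dvd (by omega) ⟨f, h4⟩⟩
  · intro n hn hnq
    obtain ⟨C, hC1, hC⟩ := regAE (lam := lam) hq hlam1 hn hnq
    refine ⟨C, hC1, ?_⟩
    rintro x y e ⟨h1, h2, h3, f, h4, h5, h6, h7⟩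
    exact hC x y e h2 h3 ⟨f, h4⟩ h6 h7
  · obtain ⟨C, n0, hC1, hC⟩ := regBE (q := q) (eta := lam) hq.two_le hlam1
    refine ⟨C, n0, hC1, ?_⟩
    rintro n x y e hn ⟨h1, h2, h3, f, h4, h5, h6, h7⟩
    exact hC n x y e f hn h2 h3 h4 h5 h6 h7

theorem mainD2 {q : ℕ} (hq : q.Prime) (hq3 : 3 ≤ q) {ε : ℝ} (hε : 0 < ε) : ∃ C : ℝ, 1 ≤ C ∧
    ∀ n x y e D f : ℕ, 2 < n → 2 ≤ x → y ^ q = NL.rep x n → x = e * D * f → e.Coprime D →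
      f ≤ q ^ 2 → GoodD q D x y →
      (D : ℝ) ≤ C * (x : ℝ) ^ (1 / (q : ℝ) + ε) := by
  obtain ⟨lam, hlam1, hlamε⟩ := mains_lam hε
  have hq0 : (0 : ℝ) < q := by exact_mod_cast hq.pos
  have hqi : 0 ≤ 1 / (q : ℝ) := by positivity
  have hdiv : (lam : ℝ) / q = 1 / q * lam := by ring
  suffices hsuf : ∃ C : ℝ, 1 ≤ C ∧ ∀ n x y D : ℕ, (2 < n ∧ 2 ≤ x ∧ y ^ q = NL.rep x n ∧
      ∃ e f, x = e * D * f ∧ e.Coprime D ∧ f ≤ q ^ 2 ∧ GoodD q D x y) →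
      (D : ℝ) ≤ C * (x : ℝ) ^ (1 / (q : ℝ) + ε) by
    obtain ⟨C, hC1, hC⟩ := hsuf
    exact ⟨C, hC1, fun n x y e D f h1 h2 h3 h4 h5 h6 h7 =>
      hC n x y D ⟨h1, h2, h3, e, f, h4, h5, h6, h7⟩⟩
  refine mains_glue (q := q) hq3 (b := 1 / (q : ℝ) + ε)
    (a1 := (lam : ℝ) / q + 1) (a2 := (lam : ℝ) / q + 3) (by linarith) hlam1
    (fun n x y D => 2 < n ∧ 2 ≤ x ∧ y ^ q = NL.rep x n ∧ ∃ e f, x = e * D * f ∧ e.Coprime D ∧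
      f ≤ q ^ 2 ∧ GoodD q D x y) ?_ ?_ (by rw [hdiv]; nlinarith) ?_ (by rw [hdiv]; nlinarith)
  · rintro n x y D ⟨h1, h2, h3, e, f, h4, -, -, -⟩
    exact ⟨h1, h2, h3, Nat.le_of_dvd (by omega) ⟨e * f, by rw [h4]; ring⟩⟩
  · intro n hn hnq
    obtain ⟨C, hC1, hC⟩ := regAD (lam := lam) hq hq3 hlam1 hn hnq
    refine ⟨C, hC1, ?_⟩
    rintro x y D ⟨h1, h2, h3, e, f, h4, h5, h6, h7⟩
    exact hC x y D h2 h3 h7
  · obtain ⟨C, n0, hC1, hC⟩ := regBD (eta := lam) hq hq3 hlam1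
    refine ⟨C, n0, hC1, ?_⟩
    rintro n x y D hn ⟨h1, h2, h3, e, f, h4, h5, h6, h7⟩
    exact hC n x y e D f hn h2 h3 h4 h5 h6 h7

end Pool.Agent.NLG
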