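import Pool.Agent.NLG.PPowB
import Pool.Agent.NL.LargeExp

/-!
NLG-PFix: bases which are powers of a fixed prime, all exponents with an odd prime factor.
-/

namespace Pool.Agent.NLG

open Finset

private theorem odd_geom {z : ℤ} (hz : Odd z) (k : ℕ) : Odd (∑ i ∈ range (2 * k + 1), z ^ i) := by
  induction k with
  | zero => simp
  | succ k ih =>
    have e : 2 * (k + 1) + 1 = 2 * k + 1 + 1 + 1 := by ring
    rw [e, sum_range_succ, sum_range_succ]
    have h1 : Odd (z ^ (2 * k + 1)) := hz.pow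
    have h2 : Odd (z ^ (2 * k + 1 + 1)) := hz.pow
    exact (ih.add_odd h1).add_odd h2

private theorem two_no_sol {q y n : ℕ} (hq : Odd q) (hq1 : 1 < q) (hy : 1 < y) :
    y ^ q ≠ NL.rep 2 n := by
  intro h
  have h0 := NL.rep_mul (x := 2) (by norm_num) n
  have h1 : y ^ q + 1 = 2 ^ n := by
    rw [h]
    omega
  have h2 : y + 1 ∣ 2 ^ n := by
    rw [← h1]
    have := Odd.nat_add_dvd_pow_add_pow y 1 hq
    rwa [one_pow] at this
  obtain ⟨k, hk, hk2⟩ := (Nat.dvd_prime_pow Nat.prime_two).1 h2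
  have hk1 : 2 ≤ k := by
    rcases (by omega : k = 0 ∨ k = 1 ∨ 2 ≤ k) with rfl | rfl | h'
    · simp at hk2
      omega
    · simp at hk2
      omega
    · exact h'
  -- the cofactor is odd, so it is one
  have hodd : Odd y := by
    rw [← Nat.not_even_iff_odd]
    intro he
    have h3 : Even (y + 1) := by
      rw [hk2]
      exact (Nat.even_pow.2 ⟨even_two, by omega⟩)
    rw [Nat.even_add_one] at h3
    exact h3 he
  have hcong : (y : ℤ) ^ q + 1 = ((y : ℤ) + 1) * ∑ i ∈ range q, (-(y : ℤ)) ^ i := by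
    have h3 := mul_neg_geom_sum (-(y : ℤ)) q
    rw [hq.neg_pow] at h3
    linarith
  set S := ∑ i ∈ range q, (-(y : ℤ)) ^ i with hS
  have hSodd : Odd S := by
    obtain ⟨k, hk⟩ := hq
    rw [hS, hk]
    refine odd_geom ?_ k
    rw [odd_neg]
    exact_mod_cast hodd
  have hSdvd : S ∣ 2 ^ n := ⟨(y : ℤ) + 1, by
    rw [mul_comm, ← hcong]
    exact_mod_cast h1.symm⟩
  have hS1 : S.natAbs = 1 := by
    have h10 : S.natAbs ∣ 2 ^ n := by
      have := Int.natAbs_dvd_natAbs.2 hSdvd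
      simpa [Int.natAbs_pow] using this
    obtain ⟨j, -, hj2⟩ := (Nat.dvd_prime_pow Nat.prime_two).1 h10
    rcases Nat.eq_zero_or_pos j with rfl | h'
    · simpa using hj2
    · exfalso
      have h11 : Odd S.natAbs := Int.natAbs_odd.2 hSodd
      rw [hj2] at h11
      exact (Nat.not_even_iff_odd.2 h11) (Nat.even_pow.2 ⟨even_two, by omega⟩)
  have hle : (y : ℤ) ^ q + 1 ≤ (y : ℤ) + 1 := by
    rcases Int.natAbs_eq S with h5 | h5
    · rw [hcong, h5, hS1]
      simp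
    · rw [hcong, h5, hS1]
      have : (0 : ℤ) ≤ y := by positivity
      push_cast
      linarith
  have hlt : (y : ℤ) < (y : ℤ) ^ q := by
    have : y ^ 1 < y ^ q := Nat.pow_lt_pow_right hy hq1
    rw [pow_one] at this
    exact_mod_cast this
  linarith

/-- For a prime `p` there are only finitely many solutions with `x` a power of `p` and an exponent
`m` which is not a power of two. -/
theorem pfix_finite {p : ℕ} (hp : p.Prime) :
    {t : ℕ × ℕ × ℕ × ℕ | 1 < t.1 ∧ 1 < t.2.1 ∧ (∃ q : ℕ, q.Prime ∧ q ≠ 2 ∧ q ∣ t.2.2.1) ∧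
      t.2.2.1 ≠ 0 ∧ 2 < t.2.2.2 ∧ t.2.1 ^ t.2.2.1 * (t.1 - 1) = t.1 ^ t.2.2.2 - 1 ∧
      ∃ k : ℕ, t.1 = p ^ k}.Finite := by
  obtain ⟨Q, hQ⟩ := H44.NL.large 1 one_pos
  set Q' := Q + p + 1 with hQ'
  -- the pairs (x, n) for one prime q
  have hF : ∀ q : ℕ, q.Prime → 3 ≤ q → {s : ℕ × ℕ | 1 < s.1 ∧ 2 < s.2 ∧ (∃ k : ℕ, s.1 = p ^ k) ∧
      ∃ y : ℕ, 1 < y ∧ y ^ q = NL.rep s.1 s.2}.Finite := by
    intro q hq hq3
    have hqR : (3 : ℝ) ≤ q := by exact_mod_cast hq3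
    have hα1 : Real.sqrt (1 - 1 / q) < 1 := by
      rw [Real.sqrt_lt' one_pos]
      have : (0 : ℝ) < 1 / q := by positivity
      linarith
    set β := (1 + max (Real.sqrt (1 - 1 / (q : ℝ))) (13 / 15)) / 2 with hβ
    have hmax : max (Real.sqrt (1 - 1 / (q : ℝ))) (13 / 15) < 1 := max_lt hα1 (by norm_num)
    have h1 : Real.sqrt (1 - 1 / q) < β := by
      have := le_max_left (Real.sqrt (1 - 1 / (q : ℝ))) (13 / 15)
      rw [hβ]
      linarith
    have h2 : (13 : ℝ) / 15 < β := by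
      have := le_max_right (Real.sqrt (1 - 1 / (q : ℝ))) (13 / 15)
      rw [hβ]
      linarith
    have h3 : β ≤ 1 := by rw [hβ]; linarith
    have hfin := (ppb_finite hq hq3 (dvd_refl q) hq.ne_zero h1 h2).image
      (fun t : ℕ × ℕ × ℕ => (t.1, t.2.2))
    refine hfin.subset ?_
    rintro ⟨x, n⟩ ⟨hx, hn, ⟨k, hk⟩, y, hy, hxy⟩
    simp only at hx hn hk hxy
    refine ⟨(x, y, n), ⟨hx, hy, hn, ?_, p, k, hp, ?_, ?_⟩, rfl⟩
    · have h4 := NL.rep_mul (x := x) (by omega) n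
      simp only
      rw [hxy]
      omega
    · simp only
      rw [hk]
    · simp only
      have hxR : (1 : ℝ) ≤ x := by exact_mod_cast (by omega : 1 ≤ x)
      rw [← hk]
      calc (x : ℝ) ^ β ≤ (x : ℝ) ^ (1 : ℝ) := Real.rpow_le_rpow_of_exponent_le hxR h3
        _ = x := Real.rpow_one _
  have hall : (⋃ q ∈ {q : ℕ | q.Prime ∧ 3 ≤ q ∧ q < Q'}, {s : ℕ × ℕ | 1 < s.1 ∧ 2 < s.2 ∧
      (∃ k : ℕ, s.1 = p ^ k) ∧ ∃ y : ℕ, 1 < y ∧ y ^ q = NL.rep s.1 s.2}).Finite := by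
    refine Set.Finite.biUnion ((Set.finite_Iio Q').subset fun q hq => hq.2.2) ?_
    intro q hq
    exact hF q hq.1 hq.2.1
  have hfin2 : (⋃ s ∈ (⋃ q ∈ {q : ℕ | q.Prime ∧ 3 ≤ q ∧ q < Q'}, {s : ℕ × ℕ | 1 < s.1 ∧ 2 < s.2 ∧
      (∃ k : ℕ, s.1 = p ^ k) ∧ ∃ y : ℕ, 1 < y ∧ y ^ q = NL.rep s.1 s.2}),
      (fun u : ℕ × ℕ => (s.1, u.1, u.2, s.2)) ''
        (Set.Iic (NL.rep s.1 s.2) ×ˢ Set.Iic (NL.rep s.1 s.2))).Finite := by
    refine Set.Finite.biUnion hall ?_
    intro s _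
    exact ((Set.finite_Iic _).prod (Set.finite_Iic _)).image _
  refine hfin2.subset ?_
  rintro ⟨x, y, m, n⟩ ⟨hx, hy, ⟨q, hq, hq2, k, rfl⟩, hm0, hn, h, hpow⟩
  simp only at hx hy hm0 hn h hpow
  have hq3 : 3 ≤ q := by
    have := hq.two_le
    omega
  have hk0 : k ≠ 0 := by
    rintro rfl
    exact hm0 (mul_zero _)
  have hrep : y ^ (q * k) = NL.rep x n := by
    have h1 := NL.rep_mul (x := x) (by omega) n
    have h2 : y ^ (q * k) * (x - 1) = NL.rep x n * (x - 1) := by omega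
    exact Nat.eq_of_mul_eq_mul_right (by omega) h2
  have hrep2 : (y ^ k) ^ q = NL.rep x n := by rw [← pow_mul, mul_comm k q, hrep]
  have hyk : 1 < y ^ k := Nat.one_lt_pow hk0 hy
  have hqQ : q < Q' := by
    by_contra hcon
    push Not at hcon
    rcases (by omega : x = 2 ∨ 2 < x) with h2 | h2
    · rw [h2] at hrep2
      exact two_no_sol (hq.odd_of_ne_two hq2) hq.one_lt hyk hrep2
    · have h3 : (y ^ k) ^ q * (x - 1) = x ^ n - 1 := by
        rw [← pow_mul, mul_comm k q]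
        exact h
      obtain ⟨j, hj⟩ := hpow
      have hj0 : j ≠ 0 := by
        rintro rfl
        rw [pow_zero] at hj
        omega
      have h4 : Nat.Coprime q (x * x.totient) := by
        rw [hj, Nat.totient_prime_pow hp (Nat.pos_of_ne_zero hj0)]
        have hqp : q ≠ p := by omega
        refine Nat.Coprime.mul_right (Nat.Coprime.pow_right _ ((Nat.coprime_primes hq hp).2 hqp)) ?_
        refine Nat.Coprime.mul_right (Nat.Coprime.pow_right _ ((Nat.coprime_primes hq hp).2 hqp)) ?_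
        rw [Nat.Prime.coprime_iff_not_dvd hq]
        intro hdvd
        have h5 := Nat.le_of_dvd (by have := hp.two_le; omega) hdvd
        omega
      have h6 := hQ q n x (y ^ k) x (by omega) hn h2 hyk h3 (dvd_refl x) h4
      rw [Real.rpow_one] at h6
      exact lt_irrefl _ h6
  simp only [Set.mem_iUnion]
  refine ⟨(x, n), ⟨q, ⟨hq, hq3, hqQ⟩, hx, hn, hpow, y ^ k, hyk, hrep2⟩, (y, q * k), ⟨?_, ?_⟩, rfl⟩
  · rw [Set.mem_Iic, ← hrep]
    exact Nat.le_self_pow hm0 y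
  · rw [Set.mem_Iic, ← hrep]
    exact (Nat.lt_pow_self hy).le

end Pool.Agent.NLG
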