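import Pool.Agent.NLG.GcdS
import Pool.Agent.NLG.FixB
import Pool.Agent.H44.NL.Unify

/-!
NLG-UniS: bases with a large divisor P with gcd(q, P φ(P)) = 1, all exponents at once.

PLAN.  uni_bounded: y^q = rep x n, P ∣ x, gcd(q, P φ(P)) = 1: y^q = 1 mod P (rep x n = 1 mod x) and
y^φ(P) = 1 mod P (y is coprime to P), so y = 1 mod P (q coprime to φ(P); compare the proof of
H44.NL.fixed or of large_exponent in NL for the same step), P ∣ gcd(x, y-1) ≤ C x^(1/q+ε) (gcd_upper2),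
and x^β ≤ P bounds x if 1/q + ε < β (PPowB.lean: bdd_of_le).
uni_finite: Q from H44.NL.large β: for q ≥ Q and x > 2 there is no solution with P ≥ x^β (k = q, y^(m/q)
for y).  So q < Q or x = 2; x = 2: no solution with an odd exponent q > 1 (NLG/PFix.lean: private lemma
two_no_sol, copy it).  For each prime 3 ≤ q < Q: x ≤ X_q (uni_bounded, 1/q ≤ 1/3 < β), then finitely
many n (fixed_base), and y, m ≤ rep x n (as at the end of NLG/PFix.lean, pfix_finite).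
-/

namespace Pool.Agent.NLG

open Finset

/-- `x ^ β ≤ K x ^ θ` with `θ < β` bounds `x`. -/
private theorem bdd_of_le {x K θ β : ℝ} (hx : 1 ≤ x) (hθ : θ < β)
    (h : x ^ β ≤ K * x ^ θ) : x ≤ K ^ (1 / (β - θ)) := by
  have hx0 : 0 < x := by linarith
  have h1 : x ^ (β - θ) ≤ K := by
    rw [Real.rpow_sub hx0, div_le_iff₀ (Real.rpow_pos_of_pos hx0 _)]
    exact h
  have h2 : 0 < β - θ := by linarith
  calc x = (x ^ (β - θ)) ^ (1 / (β - θ)) := by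
        rw [← Real.rpow_mul hx0.le, mul_one_div_cancel h2.ne', Real.rpow_one]
    _ ≤ K ^ (1 / (β - θ)) := Real.rpow_le_rpow (by positivity) h1 (by positivity)

private theorem two_le_y {q x y n : ℕ} (hx : 2 ≤ x) (hn : 2 < n)
    (h : y ^ q = NL.rep x n) : 2 ≤ y := by
  by_contra hcon
  have h1 : 1 < NL.rep x n := by
    obtain ⟨k, rfl⟩ : ∃ k, n = k + 2 := ⟨n - 2, by omega⟩
    rw [NL.rep_succ, NL.rep_succ]
    have h2 : 0 < x ^ k := by positivity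
    have h3 : 0 < x ^ (k + 1) := by positivity
    omega
  have h2 : y ^ q ≤ 1 := by
    have : y ≤ 1 := by omega
    calc y ^ q ≤ 1 ^ q := Nat.pow_le_pow_left this q
      _ = 1 := one_pow q
  omega

private theorem odd_geom {z : ℤ} (hz : Odd z) (k : ℕ) : Odd (∑ i ∈ range (2 * k + 1), z ^ i) := by
  induction k with
  | zero => simp
  | succ k ih =>
    have e : 2 * (k + 1) + 1 = 2 * k + 1 + 1 + 1 := by ring
    rw [e, sum_range_succ, sum_range_succ]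
    have h1 : Odd (z ^ (2 * k + 1)) := hz.pow
    have h2 : Odd (z ^ (2 * k + 1 + 1)) := hz.pow
    exact (ih.add_odd h1).add_odd h2

private theorem two_no_sol {q y n : ℕ} (hq : Odd q) (hq1 : 1 < q) (hy : 1 < y) :
    y ^ q ≠ NL.rep 2 n := by
  intro h
  have h0 := NL.rep_mul (x := 2) (by norm_num) n
  have h1 : y ^ q + 1 = 2 ^ n := by
    rw [h]
    omega
  have h2 : y + 1 ∣ 2 ^ n := by
    rw [← h1]
    have := Odd.nat_add_dvd_pow_add_pow y 1 hq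
    rwa [one_pow] at this
  obtain ⟨k, hk, hk2⟩ := (Nat.dvd_prime_pow Nat.prime_two).1 h2
  have hk1 : 2 ≤ k := by
    rcases (by omega : k = 0 ∨ k = 1 ∨ 2 ≤ k) with rfl | rfl | h'
    · simp at hk2
      omega
    · simp at hk2
      omega
    · exact h'
  -- the cofactor is odd, so it is one
  have hodd : Odd y := by
    rw [← Nat.not_even_iff_odd]
    intro he
    have h3 : Even (y + 1) := by
      rw [hk2]
      exact (Nat.even_pow.2 ⟨even_two, by omega⟩)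
    rw [Nat.even_add_one] at h3
    exact h3 he
  have hcong : (y : ℤ) ^ q + 1 = ((y : ℤ) + 1) * ∑ i ∈ range q, (-(y : ℤ)) ^ i := by
    have h3 := mul_neg_geom_sum (-(y : ℤ)) q
    rw [hq.neg_pow] at h3
    linarith
  set S := ∑ i ∈ range q, (-(y : ℤ)) ^ i with hS
  have hSodd : Odd S := by
    obtain ⟨k, hk⟩ := hq
    rw [hS, hk]
    refine odd_geom ?_ k
    rw [odd_neg]
    exact_mod_cast hodd
  have hSdvd : S ∣ 2 ^ n := ⟨(y : ℤ) + 1, by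
    rw [mul_comm, ← hcong]
    exact_mod_cast h1.symm⟩
  have hS1 : S.natAbs = 1 := by
    have h10 : S.natAbs ∣ 2 ^ n := by
      have := Int.natAbs_dvd_natAbs.2 hSdvd
      simpa [Int.natAbs_pow] using this
    obtain ⟨j, -, hj2⟩ := (Nat.dvd_prime_pow Nat.prime_two).1 h10
    rcases Nat.eq_zero_or_pos j with rfl | h'
    · simpa using hj2
    · exfalso
      have h11 : Odd S.natAbs := Int.natAbs_odd.2 hSodd
      rw [hj2] at h11
      exact (Nat.not_even_iff_odd.2 h11) (Nat.even_pow.2 ⟨even_two, by omega⟩)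
  have hle : (y : ℤ) ^ q + 1 ≤ (y : ℤ) + 1 := by
    rcases Int.natAbs_eq S with h5 | h5
    · rw [hcong, h5, hS1]
      simp
    · rw [hcong, h5, hS1]
      have : (0 : ℤ) ≤ y := by positivity
      push_cast
      linarith
  have hlt : (y : ℤ) < (y : ℤ) ^ q := by
    have : y ^ 1 < y ^ q := Nat.pow_lt_pow_right hy hq1
    rw [pow_one] at this
    exact_mod_cast this
  linarith

theorem uni_bounded {q : ℕ} (hq : q.Prime) (hq3 : 3 ≤ q) {β : ℝ} (hβ : 1 / (q : ℝ) < β) :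
    ∃ X : ℕ, ∀ n x y P : ℕ, 2 < n → 2 ≤ x → P ∣ x → Nat.Coprime q (P * P.totient) →
      (x : ℝ) ^ β ≤ (P : ℝ) → y ^ q = NL.rep x n → x ≤ X := by
  have hε : 0 < (β - 1 / (q : ℝ)) / 2 := by linarith
  obtain ⟨C, -, hC⟩ := gcd_upper2 hq hq3 hε
  refine ⟨⌈C ^ (1 / (β - (1 / (q : ℝ) + (β - 1 / (q : ℝ)) / 2)))⌉₊, ?_⟩
  intro n x y P hn hx hP hco hβx hxy
  have hxR : (1 : ℝ) ≤ x := by exact_mod_cast (by omega : 1 ≤ x)
  have hy2 := two_le_y hx hn hxy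
  have h1 := NL.base_modEq hco hP (by omega : 1 ≤ n) hxy
  have h2 : P ∣ y - 1 := by
    have h3 : (P : ℤ) ∣ ((y - 1 : ℕ) : ℤ) := by
      rw [Nat.cast_sub (by omega : 1 ≤ y), Nat.cast_one]
      exact h1
    exact_mod_cast h3
  have h3 : P ∣ x.gcd (y - 1) := Nat.dvd_gcd hP h2
  have h4 : P ≤ x.gcd (y - 1) := Nat.le_of_dvd (Nat.gcd_pos_of_pos_left _ (by omega)) h3
  have h5 : (P : ℝ) ≤ (x.gcd (y - 1) : ℝ) := by exact_mod_cast h4
  have h6 := hC n x y hn hx hxy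
  have h7 := bdd_of_le hxR (by linarith) ((hβx.trans h5).trans h6)
  exact_mod_cast h7.trans (Nat.le_ceil _)

/-- All exponents at once: finitely many solutions with a divisor `P ≥ x ^ (1 / q + ε)` of `x` such
that `gcd(q, P φ(P)) = 1`. -/
theorem uni_finite2 {ε : ℝ} (hε : 0 < ε) :
    {t : ℕ × ℕ × ℕ × ℕ | 1 < t.1 ∧ 1 < t.2.1 ∧ 1 < t.2.2.1 ∧ 2 < t.2.2.2 ∧
      t.2.1 ^ t.2.2.1 * (t.1 - 1) = t.1 ^ t.2.2.2 - 1 ∧
      ∃ q P : ℕ, q.Prime ∧ q ≠ 2 ∧ q ∣ t.2.2.1 ∧ P ∣ t.1 ∧ Nat.Coprime q (P * P.totient) ∧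
        (t.1 : ℝ) ^ (1 / (q : ℝ) + ε) ≤ (P : ℝ)}.Finite := by
  obtain ⟨Q, hQ⟩ := H44.NL.large ε hε
  have hF : ∀ q : ℕ, q.Prime → 3 ≤ q → {s : ℕ × ℕ | 1 < s.1 ∧ 2 < s.2 ∧
      ∃ y P : ℕ, P ∣ s.1 ∧ Nat.Coprime q (P * P.totient) ∧ (s.1 : ℝ) ^ (1 / (q : ℝ) + ε) ≤ (P : ℝ) ∧
        y ^ q = NL.rep s.1 s.2}.Finite := by
    intro q hq hq3
    have h1 : 1 / (q : ℝ) < 1 / (q : ℝ) + ε := by linarith
    obtain ⟨X, hX⟩ := uni_bounded hq hq3 h1
    have hfin : (⋃ x ∈ {x : ℕ | 2 ≤ x ∧ x ≤ X},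
        (fun n : ℕ => (x, n)) '' {n : ℕ | ∃ y : ℕ, y ^ q = NL.rep x n}).Finite := by
      refine Set.Finite.biUnion ((Set.finite_Iic X).subset fun x hx => hx.2) ?_
      intro x hx
      exact (fixed_base hq3 hx.1).image _
    refine hfin.subset ?_
    rintro ⟨x, n⟩ ⟨hx, hn, y, P, hP, hco, hβx, hxy⟩
    simp only at hx hn hP hβx hxy
    simp only [Set.mem_iUnion]
    exact ⟨x, ⟨by omega, hX n x y P hn (by omega) hP hco hβx hxy⟩, n, ⟨y, hxy⟩, rfl⟩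
  have hall : (⋃ q ∈ {q : ℕ | q.Prime ∧ 3 ≤ q ∧ q < Q}, {s : ℕ × ℕ | 1 < s.1 ∧ 2 < s.2 ∧
      ∃ y P : ℕ, P ∣ s.1 ∧ Nat.Coprime q (P * P.totient) ∧ (s.1 : ℝ) ^ (1 / (q : ℝ) + ε) ≤ (P : ℝ) ∧
        y ^ q = NL.rep s.1 s.2}).Finite := by
    refine Set.Finite.biUnion ((Set.finite_Iio Q).subset fun q hq => hq.2.2) ?_
    intro q hq
    exact hF q hq.1 hq.2.1
  have hfin2 : (⋃ s ∈ (⋃ q ∈ {q : ℕ | q.Prime ∧ 3 ≤ q ∧ q < Q}, {s : ℕ × ℕ | 1 < s.1 ∧ 2 < s.2 ∧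
      ∃ y P : ℕ, P ∣ s.1 ∧ Nat.Coprime q (P * P.totient) ∧ (s.1 : ℝ) ^ (1 / (q : ℝ) + ε) ≤ (P : ℝ) ∧
        y ^ q = NL.rep s.1 s.2}),
      (fun u : ℕ × ℕ => (s.1, u.1, u.2, s.2)) ''
        (Set.Iic (NL.rep s.1 s.2) ×ˢ Set.Iic (NL.rep s.1 s.2))).Finite := by
    refine Set.Finite.biUnion hall ?_
    intro s _
    exact ((Set.finite_Iic _).prod (Set.finite_Iic _)).image _
  refine hfin2.subset ?_
  rintro ⟨x, y, m, n⟩ ⟨hx, hy, hm, hn, h, q, P, hq, hq2, ⟨k, rfl⟩, hP, hco, hβx⟩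
  simp only at hx hy hm hn h hP hβx
  have hq3 : 3 ≤ q := by
    have := hq.two_le
    omega
  have hk0 : k ≠ 0 := by
    rintro rfl
    omega
  have hm0 : q * k ≠ 0 := by omega
  have hrep : y ^ (q * k) = NL.rep x n := by
    have h1 := NL.rep_mul (x := x) (by omega) n
    have h2 : y ^ (q * k) * (x - 1) = NL.rep x n * (x - 1) := by omega
    exact Nat.eq_of_mul_eq_mul_right (by omega) h2
  have hrep2 : (y ^ k) ^ q = NL.rep x n := by rw [← pow_mul, mul_comm k q, hrep]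
  have hyk : 1 < y ^ k := Nat.one_lt_pow hk0 hy
  have hqQ : q < Q := by
    by_contra hcon
    push Not at hcon
    rcases (by omega : x = 2 ∨ 2 < x) with h2 | h2
    · rw [h2] at hrep2
      exact two_no_sol (hq.odd_of_ne_two hq2) hq.one_lt hyk hrep2
    · have h3 : (y ^ k) ^ q * (x - 1) = x ^ n - 1 := by
        rw [← pow_mul, mul_comm k q]
        exact h
      have h6 := hQ q n x (y ^ k) P hcon hn h2 hyk h3 hP hco
      have hxR : (1 : ℝ) ≤ x := by exact_mod_cast (by omega : 1 ≤ x)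
      have h7 : (x : ℝ) ^ ε ≤ (x : ℝ) ^ (1 / (q : ℝ) + ε) :=
        Real.rpow_le_rpow_of_exponent_le hxR (by
          have : (0 : ℝ) ≤ 1 / (q : ℝ) := by positivity
          linarith)
      linarith
  simp only [Set.mem_iUnion]
  refine ⟨(x, n), ⟨q, ⟨hq, hq3, hqQ⟩, hx, hn, y ^ k, P, hP, hco, hβx, hrep2⟩, (y, q * k), ⟨?_, ?_⟩, rfl⟩
  · rw [Set.mem_Iic, ← hrep]
    exact Nat.le_self_pow hm0 y
  · rw [Set.mem_Iic, ← hrep]
    exact (Nat.lt_pow_self hy).le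

theorem uni_finite {β : ℝ} (hβ : 1 / 3 < β) :
    {t : ℕ × ℕ × ℕ × ℕ | 1 < t.1 ∧ 1 < t.2.1 ∧ 1 < t.2.2.1 ∧ 2 < t.2.2.2 ∧
      t.2.1 ^ t.2.2.1 * (t.1 - 1) = t.1 ^ t.2.2.2 - 1 ∧
      ∃ q P : ℕ, q.Prime ∧ q ≠ 2 ∧ q ∣ t.2.2.1 ∧ P ∣ t.1 ∧ Nat.Coprime q (P * P.totient) ∧
        (t.1 : ℝ) ^ β ≤ (P : ℝ)}.Finite := by
  refine (uni_finite2 (ε := β - 1 / 3) (by linarith)).subset ?_
  rintro ⟨x, y, m, n⟩ ⟨hx, hy, hm, hn, h, q, P, hq, hq2, hqm, hP, hco, hβx⟩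
  refine ⟨hx, hy, hm, hn, h, q, P, hq, hq2, hqm, hP, hco, le_trans ?_ hβx⟩
  simp only at hx ⊢
  have hxR : (1 : ℝ) ≤ x := by exact_mod_cast (by omega : 1 ≤ x)
  refine Real.rpow_le_rpow_of_exponent_le hxR ?_
  have hq3 : 3 ≤ q := by
    have := hq.two_le
    omega
  have hqR : (3 : ℝ) ≤ q := by exact_mod_cast hq3
  have h1 : 1 / (q : ℝ) ≤ 1 / 3 := one_div_le_one_div_of_le (by norm_num) hqR
  linarith

end Pool.Agent.NLG
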