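import Pool.Agent.NLG.PPowS
import Pool.Agent.NLG.UniS

/-!
NLG-PFixS: bases with a large power of a fixed prime p, all exponents which are not powers of two.

PLAN.  Let q be an odd prime factor of m, p^k ∣ x, x^β ≤ p^k, β > 1 - 1/p ≥ 1/2.  k ≥ 1 (else x^β ≤ 1).
If q ∤ p (p-1): Nat.Coprime q (p^k * totient (p^k)) (totient_prime_pow), so the solution is in the finite set
uni_finite (β > 1/3) with P = p^k.  Otherwise q ≤ p: finitely many q, 1 - 1/q ≤ 1 - 1/p < β, and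
ppS_finite (m := q, y^(m/q) for y) gives finitely many (x, n), then y, m ≤ rep x n (as at the end of
NLG/PFix.lean, pfix_finite).
-/

namespace Pool.Agent.NLG

open Finset

theorem pfixS_finite {p : ℕ} (hp : p.Prime) {β : ℝ} (hβ : 1 - 1 / (p : ℝ) < β) :
    {t : ℕ × ℕ × ℕ × ℕ | 1 < t.1 ∧ 1 < t.2.1 ∧ 1 < t.2.2.1 ∧ 2 < t.2.2.2 ∧
      t.2.1 ^ t.2.2.1 * (t.1 - 1) = t.1 ^ t.2.2.2 - 1 ∧
      (∃ q : ℕ, q.Prime ∧ q ≠ 2 ∧ q ∣ t.2.2.1) ∧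
      ∃ k : ℕ, p ^ k ∣ t.1 ∧ (t.1 : ℝ) ^ β ≤ ((p ^ k : ℕ) : ℝ)}.Finite := by
  have hp2 : (2 : ℝ) ≤ p := by exact_mod_cast hp.two_le
  have hhalf : (1 : ℝ) / 2 < β := by
    have : (1 : ℝ) / p ≤ 1 / 2 := one_div_le_one_div_of_le (by norm_num) hp2
    linarith
  have hA := uni_finite (β := β) (by linarith)
  -- the pairs (x, n) for one prime q ≤ p
  have hF : ∀ q : ℕ, q.Prime → 3 ≤ q → q ≤ p → {s : ℕ × ℕ | 1 < s.1 ∧ 2 < s.2 ∧
      (∃ k : ℕ, p ^ k ∣ s.1 ∧ (s.1 : ℝ) ^ β ≤ ((p ^ k : ℕ) : ℝ)) ∧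
      ∃ y : ℕ, 1 < y ∧ y ^ q = NL.rep s.1 s.2}.Finite := by
    intro q hq hq3 hqp
    have hqR : (0 : ℝ) < q := by exact_mod_cast hq.pos
    have hqpR : (q : ℝ) ≤ p := by exact_mod_cast hqp
    have h1 : 1 - 1 / (q : ℝ) < β := by
      have : (1 : ℝ) / p ≤ 1 / q := one_div_le_one_div_of_le hqR hqpR
      linarith
    have hfin := (ppS_finite hq hq3 (dvd_refl q) hq.ne_zero h1).image
      (fun t : ℕ × ℕ × ℕ => (t.1, t.2.2))
    refine hfin.subset ?_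
    rintro ⟨x, n⟩ ⟨hx, hn, ⟨k, hk, hkx⟩, y, hy, hxy⟩
    simp only at hx hn hk hkx hxy
    refine ⟨(x, y, n), ⟨hx, hy, hn, ?_, p, k, hp, hk, hkx⟩, rfl⟩
    have h4 := NL.rep_mul (x := x) (by omega) n
    simp only
    rw [hxy]
    omega
  have hall : (⋃ q ∈ {q : ℕ | q.Prime ∧ 3 ≤ q ∧ q ≤ p}, {s : ℕ × ℕ | 1 < s.1 ∧ 2 < s.2 ∧
      (∃ k : ℕ, p ^ k ∣ s.1 ∧ (s.1 : ℝ) ^ β ≤ ((p ^ k : ℕ) : ℝ)) ∧
      ∃ y : ℕ, 1 < y ∧ y ^ q = NL.rep s.1 s.2}).Finite := by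
    refine Set.Finite.biUnion ((Set.finite_Iic p).subset fun q hq => hq.2.2) ?_
    intro q hq
    exact hF q hq.1 hq.2.1 hq.2.2
  have hfin2 : (⋃ s ∈ (⋃ q ∈ {q : ℕ | q.Prime ∧ 3 ≤ q ∧ q ≤ p}, {s : ℕ × ℕ | 1 < s.1 ∧ 2 < s.2 ∧
      (∃ k : ℕ, p ^ k ∣ s.1 ∧ (s.1 : ℝ) ^ β ≤ ((p ^ k : ℕ) : ℝ)) ∧
      ∃ y : ℕ, 1 < y ∧ y ^ q = NL.rep s.1 s.2}),
      (fun u : ℕ × ℕ => (s.1, u.1, u.2, s.2)) ''
        (Set.Iic (NL.rep s.1 s.2) ×ˢ Set.Iic (NL.rep s.1 s.2))).Finite := by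
    refine Set.Finite.biUnion hall ?_
    intro s _
    exact ((Set.finite_Iic _).prod (Set.finite_Iic _)).image _
  refine (hA.union hfin2).subset ?_
  rintro ⟨x, y, m, n⟩ ⟨hx, hy, hm1, hn, h, ⟨q, hq, hq2, hqm⟩, k, hk, hkx⟩
  simp only at hx hy hm1 hn h hqm hk hkx
  have hq3 : 3 ≤ q := by
    have := hq.two_le
    omega
  have hk0 : k ≠ 0 := by
    rintro rfl
    have hx1 : (1 : ℝ) < x := by exact_mod_cast hx
    have h1 : (1 : ℝ) < (x : ℝ) ^ β := Real.one_lt_rpow hx1 (by linarith)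
    simp only [pow_zero, Nat.cast_one] at hkx
    linarith
  rcases Nat.lt_or_ge p q with hpq | hqp
  · left
    refine ⟨hx, hy, hm1, hn, h, q, p ^ k, hq, hq2, hqm, hk, ?_, hkx⟩
    rw [Nat.totient_prime_pow hp (Nat.pos_of_ne_zero hk0)]
    have hne : q ≠ p := by omega
    refine Nat.Coprime.mul_right (Nat.Coprime.pow_right _ ((Nat.coprime_primes hq hp).2 hne)) ?_
    refine Nat.Coprime.mul_right (Nat.Coprime.pow_right _ ((Nat.coprime_primes hq hp).2 hne)) ?_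
    rw [Nat.Prime.coprime_iff_not_dvd hq]
    intro hdvd
    have h5 := Nat.le_of_dvd (by have := hp.two_le; omega) hdvd
    omega
  · right
    obtain ⟨j, rfl⟩ := hqm
    have hm0 : q * j ≠ 0 := by omega
    have hj0 : j ≠ 0 := by
      rintro rfl
      exact hm0 (mul_zero _)
    have hrep : y ^ (q * j) = NL.rep x n := by
      have h1 := NL.rep_mul (x := x) (by omega) n
      have h2 : y ^ (q * j) * (x - 1) = NL.rep x n * (x - 1) := by omega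
      exact Nat.eq_of_mul_eq_mul_right (by omega) h2
    have hrep2 : (y ^ j) ^ q = NL.rep x n := by rw [← pow_mul, mul_comm j q, hrep]
    have hyj : 1 < y ^ j := Nat.one_lt_pow hj0 hy
    simp only [Set.mem_iUnion]
    refine ⟨(x, n), ⟨q, ⟨hq, hq3, hqp⟩, hx, hn, ⟨k, hk, hkx⟩, y ^ j, hyj, hrep2⟩, (y, q * j),
      ⟨?_, ?_⟩, rfl⟩
    · rw [Set.mem_Iic, ← hrep]
      exact Nat.le_self_pow hm0 y
    · rw [Set.mem_Iic, ← hrep]
      exact (Nat.lt_pow_self hy).le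

end Pool.Agent.NLG
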