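import Pool.Agent.NLG.GcdB
import Pool.Agent.NLG.FixB
import Pool.Agent.H44.NL.Unify

/-!
NLG-PPow: bases which are prime powers.

PLAN.  x = p^j.  If p ∤ y - 1 then gcd(x, y-1) = 1 and gcd_lower (ε = (1-√(1-1/q))/2) bounds x.  If
p ∣ y - 1: div_coprime gives e ∣ x with IsCoprime e (y-1), so e = 1 (a divisor of p^j coprime to y - 1)
and x ∣ q gcd(x, y-1): d = gcd(x,y-1) ≥ x/q divides x and y - 1.  H44.NL.fixed (k = q): for q ≥ 5,
m = 2: d ≤ c x^(1/3 + 1/q + 1/n) with 1/3+1/5+1/3 < 1 (m(m+1) = 6 ≤ 2q); for q = 3, m = 1 or 2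
(m(m+1) = 6 ≤ 6): exponent 2/3 + 1/n < 1 for n ≥ 4; n = 3, q = 3: d ≤ y - 1 and y^3 = 1 + x + x^2 < 2 x^2,
x/3 ≤ d < y: x^3/27 < 2 x^2, x < 54.  So x is bounded in all cases.
-/

namespace Pool.Agent.NLG

open Finset

/-- `x ≤ K x ^ θ` with `θ < 1` bounds `x`. -/
private theorem bdd_of_le {x K θ : ℝ} (hx : 1 ≤ x) (hθ : θ < 1)
    (h : x ≤ K * x ^ θ) : x ≤ K ^ (1 / (1 - θ)) := by
  have hx0 : 0 < x := by linarith
  have h1 : x ^ (1 - θ) ≤ K := by
    rw [Real.rpow_sub hx0, Real.rpow_one, div_le_iff₀ (Real.rpow_pos_of_pos hx0 _)]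
    exact h
  have h2 : 0 < 1 - θ := by linarith
  calc x = (x ^ (1 - θ)) ^ (1 / (1 - θ)) := by
        rw [← Real.rpow_mul hx0.le, mul_one_div_cancel h2.ne', Real.rpow_one]
    _ ≤ K ^ (1 / (1 - θ)) := Real.rpow_le_rpow (by positivity) h1 (by positivity)

private theorem rep_of_eq {x y m n : ℕ} (hx : 2 ≤ x) (h : y ^ m * (x - 1) = x ^ n - 1) :
    y ^ m = NL.rep x n := by
  have h1 := NL.rep_mul (x := x) (by omega) n
  have h2 : y ^ m * (x - 1) = NL.rep x n * (x - 1) := by omega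
  exact Nat.eq_of_mul_eq_mul_right (by omega) h2

private theorem eq_of_rep {x y m n : ℕ} (hx : 2 ≤ x) (h : y ^ m = NL.rep x n) :
    y ^ m * (x - 1) = x ^ n - 1 := by
  have h1 := NL.rep_mul (x := x) (by omega) n
  rw [h]
  omega

theorem pp_bounded {q : ℕ} (hq : q.Prime) (hq3 : 3 ≤ q) : ∃ X : ℕ, ∀ n x y : ℕ, 2 < n → 2 ≤ x →
    IsPrimePow x → y ^ q = NL.rep x n → x ≤ X := by
  have hqR : (3 : ℝ) ≤ q := by exact_mod_cast hq3
  set α := Real.sqrt (1 - 1 / q) with hα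
  have hα1 : α < 1 := by
    rw [hα, Real.sqrt_lt' one_pos]
    have : (0 : ℝ) < 1 / q := by positivity
    linarith
  set η := (1 - α) / 2 with hη
  have hη0 : 0 < η := by rw [hη]; linarith
  obtain ⟨c, hc0, hc⟩ := gcd_lower hq hq3 hη0
  have hexp : 1 - α - η = η := by rw [hη]; ring
  rw [← hα, hexp] at hc
  -- the second case
  have hsec : ∃ K : ℝ, 0 ≤ K ∧ ∀ n x y : ℕ, 2 < n → 2 ≤ x → y ^ q = NL.rep x n →
      x ≤ q * x.gcd (y - 1) → (x : ℝ) ≤ K := by
    rcases Nat.lt_or_ge q 5 with hlt | hge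
    · have hq' : q = 3 := by
        have h4 : q ≠ 4 := by
          rintro rfl
          norm_num at hq
        omega
      subst hq'
      obtain ⟨c2, hc20, hc2⟩ := H44.NL.fixed (k := 3) (m := 2) (by norm_num) (by norm_num)
      refine ⟨max 18 ((3 * c2) ^ (1 / (1 - (11 / 12 : ℝ)))), by positivity, ?_⟩
      intro n x y hn hx hxy hg
      have hy2 : 2 ≤ y := by
        by_contra hcon
        have h1 : 1 < NL.rep x n := by
          obtain ⟨k, rfl⟩ : ∃ k, n = k + 2 := ⟨n - 2, by omega⟩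
          rw [NL.rep_succ, NL.rep_succ]
          have h2 : 0 < x ^ k := by positivity
          have h3 : 0 < x ^ (k + 1) := by positivity
          omega
        have h2 : y ^ 3 ≤ 1 := by
          have : y ≤ 1 := by omega
          calc y ^ 3 ≤ 1 ^ 3 := Nat.pow_le_pow_left this 3
            _ = 1 := one_pow 3
        omega
      have hgy : x.gcd (y - 1) ≤ y - 1 := Nat.gcd_le_right _ (by omega)
      rcases Nat.lt_or_ge n 4 with hn4 | hn4
      · have hn3 : n = 3 := by omega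
        subst hn3
        have h1 : x + 3 ≤ 3 * y := by omega
        have h2 : (x + 3) ^ 3 ≤ 27 * y ^ 3 := by
          calc (x + 3) ^ 3 ≤ (3 * y) ^ 3 := Nat.pow_le_pow_left h1 3
            _ = 27 * y ^ 3 := by ring
        have h3 : NL.rep x 3 = 1 + x + x ^ 2 := by
          simp [NL.rep, sum_range_succ]
        rw [hxy, h3] at h2
        have h4 : x ≤ 18 := by
          by_contra hcon
          push Not at hcon
          nlinarith [sq_nonneg x, Nat.mul_le_mul hcon.le (le_refl (x ^ 2))]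
        exact le_max_of_le_left (by exact_mod_cast h4)
      · have h1 := hc2 n x y (x.gcd (y - 1)) hn (by omega) (by omega) (eq_of_rep hx hxy)
          (Nat.gcd_dvd_left _ _) (Or.inl (Nat.gcd_dvd_right _ _))
        have hxR : (1 : ℝ) ≤ x := by exact_mod_cast (by omega : 1 ≤ x)
        have h2 : (x : ℝ) ^ ((1 : ℝ) / ((2 : ℕ) + 1) + (2 : ℕ) / (2 * (3 : ℕ)) + 1 / n) ≤
            (x : ℝ) ^ ((11 : ℝ) / 12) := by
          refine Real.rpow_le_rpow_of_exponent_le hxR ?_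
          have h3 : (4 : ℝ) ≤ n := by exact_mod_cast hn4
          have h4 : (1 : ℝ) / n ≤ 1 / 4 := one_div_le_one_div_of_le (by norm_num) h3
          push_cast
          linarith
        have h3 : (x : ℝ) ≤ 3 * (x.gcd (y - 1) : ℝ) := by exact_mod_cast hg
        have h4 : (x : ℝ) ≤ (3 * c2) * (x : ℝ) ^ ((11 : ℝ) / 12) := by
          have h5 := mul_le_mul_of_nonneg_left h2 hc20.le
          linarith
        exact le_max_of_le_right (bdd_of_le hxR (by norm_num) h4)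
    · obtain ⟨c2, hc20, hc2⟩ := H44.NL.fixed (k := q) (m := 2) (by omega) (by omega)
      refine ⟨(q * c2) ^ (1 / (1 - (13 / 15 : ℝ))), by positivity, ?_⟩
      intro n x y hn hx hxy hg
      have hy2 : 2 ≤ y := by
        by_contra hcon
        have h1 : 1 < NL.rep x n := by
          obtain ⟨k, rfl⟩ : ∃ k, n = k + 2 := ⟨n - 2, by omega⟩
          rw [NL.rep_succ, NL.rep_succ]
          have h2 : 0 < x ^ k := by positivity
          have h3 : 0 < x ^ (k + 1) := by positivity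
          omega
        have h2 : y ^ q ≤ 1 := by
          have : y ≤ 1 := by omega
          calc y ^ q ≤ 1 ^ q := Nat.pow_le_pow_left this q
            _ = 1 := one_pow q
        omega
      have h1 := hc2 n x y (x.gcd (y - 1)) hn (by omega) (by omega) (eq_of_rep hx hxy)
        (Nat.gcd_dvd_left _ _) (Or.inl (Nat.gcd_dvd_right _ _))
      have hxR : (1 : ℝ) ≤ x := by exact_mod_cast (by omega : 1 ≤ x)
      have hq5 : (5 : ℝ) ≤ q := by exact_mod_cast hge
      have h2 : (x : ℝ) ^ ((1 : ℝ) / ((2 : ℕ) + 1) + (2 : ℕ) / (2 * (q : ℕ)) + 1 / n) ≤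
          (x : ℝ) ^ ((13 : ℝ) / 15) := by
        refine Real.rpow_le_rpow_of_exponent_le hxR ?_
        have h3 : (3 : ℝ) ≤ n := by exact_mod_cast hn
        have h4 : (1 : ℝ) / n ≤ 1 / 3 := one_div_le_one_div_of_le (by norm_num) h3
        have h5 : (2 : ℝ) / (2 * q) ≤ 1 / 5 := by
          rw [div_le_div_iff₀ (by positivity) (by norm_num)]
          linarith
        push_cast
        linarith
      have h3 : (x : ℝ) ≤ q * (x.gcd (y - 1) : ℝ) := by exact_mod_cast hg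
      have h4 : (x : ℝ) ≤ (q * c2) * (x : ℝ) ^ ((13 : ℝ) / 15) := by
        have h5 := mul_le_mul_of_nonneg_left h2 hc20.le
        have h6 := mul_le_mul_of_nonneg_left (h1.trans h5) (by positivity : (0 : ℝ) ≤ q)
        linarith
      exact bdd_of_le hxR (by norm_num) h4
  obtain ⟨K, hK0, hK⟩ := hsec
  refine ⟨⌈K⌉₊ + ⌈(1 / c) ^ (1 / η)⌉₊, ?_⟩
  intro n x y hn hx hpp hxy
  have hxR : (1 : ℝ) ≤ x := by exact_mod_cast (by omega : 1 ≤ x)
  by_cases hg : x.gcd (y - 1) = 1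
  · have h1 := hc n x y hn hx hxy
    rw [hg] at h1
    have h2 : (x : ℝ) ^ η ≤ 1 / c := by
      rw [le_div_iff₀ hc0, mul_comm]
      exact_mod_cast h1
    have h3 : (x : ℝ) ≤ (1 / c) ^ (1 / η) := by
      calc (x : ℝ) = ((x : ℝ) ^ η) ^ (1 / η) := by
            rw [← Real.rpow_mul (by positivity), mul_one_div_cancel hη0.ne', Real.rpow_one]
        _ ≤ (1 / c) ^ (1 / η) := Real.rpow_le_rpow (by positivity) h2 (by positivity)
    have h4 : x ≤ ⌈(1 / c) ^ (1 / η)⌉₊ := by exact_mod_cast h3.trans (Nat.le_ceil _)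
    omega
  · obtain ⟨e, hex, -, hey, hxe⟩ := div_coprime hq hq3 (by omega) hx hxy
    have he1 : e = 1 := by
      by_contra hne
      obtain ⟨p, j, hp, hj, rfl⟩ := hpp
      have hpn : p.Prime := hp.nat_prime
      obtain ⟨k, hk, rfl⟩ := (Nat.dvd_prime_pow hpn).1 hex
      have hk0 : k ≠ 0 := by
        rintro rfl
        exact hne (pow_zero p)
      obtain ⟨k', hk', hgk⟩ := (Nat.dvd_prime_pow hpn).1 (Nat.gcd_dvd_left (p ^ j) (y - 1))
      have hk'0 : k' ≠ 0 := by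
        rintro rfl
        exact hg (by rw [hgk, pow_zero])
      have h1 : p ∣ y - 1 := by
        have h2 : p ∣ (p ^ j).gcd (y - 1) := by
          rw [hgk]
          exact dvd_pow_self p hk'0
        exact h2.trans (Nat.gcd_dvd_right _ _)
      have hy1 : 1 ≤ y := by
        rcases Nat.eq_zero_or_pos y with h0 | h0
        · have h2 := NL.rep_pos (x := p ^ j) (n := n) (by omega)
          rw [← hxy, h0, zero_pow hq.ne_zero] at h2
          exact absurd h2 (lt_irrefl _)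
        · exact h0
      have h3 : (p : ℤ) ∣ (y : ℤ) - 1 := by
        have h4 : (p : ℤ) ∣ ((y - 1 : ℕ) : ℤ) := by exact_mod_cast h1
        rwa [Nat.cast_sub hy1, Nat.cast_one] at h4
      have h5 : (p : ℤ) ∣ ((p ^ k : ℕ) : ℤ) := by exact_mod_cast dvd_pow_self p hk0
      have h6 := hey.isUnit_of_dvd' h5 h3
      exact hpn.one_lt.ne' (by simpa [Int.isUnit_iff_natAbs_eq] using h6)
    rw [he1, one_mul] at hxe
    have hgpos : 0 < q * x.gcd (y - 1) :=
      Nat.mul_pos hq.pos (Nat.gcd_pos_of_pos_left _ (by omega))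
    have h1 := hK n x y hn hx hxy (Nat.le_of_dvd hgpos hxe)
    have h2 : x ≤ ⌈K⌉₊ := by exact_mod_cast h1.trans (Nat.le_ceil _)
    omega

theorem pp_finite {q : ℕ} (hq : q.Prime) (hq3 : 3 ≤ q) : ∀ m : ℕ, q ∣ m → m ≠ 0 →
    {t : ℕ × ℕ × ℕ | 1 < t.1 ∧ 1 < t.2.1 ∧ 2 < t.2.2 ∧ IsPrimePow t.1 ∧
      t.2.1 ^ m * (t.1 - 1) = t.1 ^ t.2.2 - 1}.Finite := by
  intro m hqm hm0
  obtain ⟨k, rfl⟩ := hqm
  have hk : k ≠ 0 := by
    rintro rfl
    exact hm0 (mul_zero _)
  obtain ⟨X, hX⟩ := pp_bounded hq hq3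
  have hfin : (⋃ x ∈ {x : ℕ | 2 ≤ x ∧ x ≤ X}, ⋃ n ∈ {n : ℕ | ∃ y : ℕ, y ^ q = NL.rep x n},
      (fun y : ℕ => (x, y, n)) '' Set.Iic (x ^ n)).Finite := by
    refine Set.Finite.biUnion ((Set.finite_Iic X).subset fun x hx => hx.2) ?_
    intro x hx
    refine Set.Finite.biUnion (fixed_base hq3 hx.1) ?_
    intro n _
    exact (Set.finite_Iic _).image _
  refine hfin.subset ?_
  rintro ⟨x, y, n⟩ ⟨hx, hy, hn, hpp, h⟩
  simp only at hx hy hn hpp h
  have hrep := rep_of_eq (by omega : 2 ≤ x) h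
  have hrep2 : (y ^ k) ^ q = NL.rep x n := by rw [← pow_mul, mul_comm k q, hrep]
  have hxX := hX n x (y ^ k) hn (by omega) hpp hrep2
  simp only [Set.mem_iUnion, Set.mem_image, Set.mem_Iic]
  refine ⟨x, ⟨by omega, hxX⟩, n, ⟨y ^ k, hrep2⟩, y, ?_, rfl⟩
  have h1 : y ≤ y ^ (q * k) := Nat.le_self_pow (Nat.mul_ne_zero hq.ne_zero hk) y
  have h2 := NL.rep_lt (x := x) (n := n) (by omega)
  omega

end Pool.Agent.NLG
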