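import Pool.Agent.NLG.GcdB
import Pool.Agent.NLG.FixB
import Pool.Agent.H44.NL.Unify

/-!
NLG-PPowB: bases with a large prime power divisor.
-/

namespace Pool.Agent.NLG

open Finset

/-- `x ^ β ≤ K x ^ θ` with `θ < β` bounds `x`. -/
private theorem bdd_of_le {x K θ β : ℝ} (hx : 1 ≤ x) (hθ : θ < β)
    (h : x ^ β ≤ K * x ^ θ) : x ≤ K ^ (1 / (β - θ)) := by
  have hx0 : 0 < x := by linarith
  have h1 : x ^ (β - θ) ≤ K := by
    rw [Real.rpow_sub hx0, div_le_iff₀ (Real.rpow_pos_of_pos hx0 _)]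
    exact h
  have h2 : 0 < β - θ := by linarith
  calc x = (x ^ (β - θ)) ^ (1 / (β - θ)) := by
        rw [← Real.rpow_mul hx0.le, mul_one_div_cancel h2.ne', Real.rpow_one]
    _ ≤ K ^ (1 / (β - θ)) := Real.rpow_le_rpow (by positivity) h1 (by positivity)

private theorem rep_of_eq {x y m n : ℕ} (hx : 2 ≤ x) (h : y ^ m * (x - 1) = x ^ n - 1) :
    y ^ m = NL.rep x n := by
  have h1 := NL.rep_mul (x := x) (by omega) n
  have h2 : y ^ m * (x - 1) = NL.rep x n * (x - 1) := by omega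
  exact Nat.eq_of_mul_eq_mul_right (by omega) h2

private theorem eq_of_rep {x y m n : ℕ} (hx : 2 ≤ x) (h : y ^ m = NL.rep x n) :
    y ^ m * (x - 1) = x ^ n - 1 := by
  have h1 := NL.rep_mul (x := x) (by omega) n
  rw [h]
  omega

private theorem two_le_y {q x y n : ℕ} (hx : 2 ≤ x) (hn : 2 < n)
    (h : y ^ q = NL.rep x n) : 2 ≤ y := by
  by_contra hcon
  have h1 : 1 < NL.rep x n := by
    obtain ⟨k, rfl⟩ : ∃ k, n = k + 2 := ⟨n - 2, by omega⟩
    rw [NL.rep_succ, NL.rep_succ]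
    have h2 : 0 < x ^ k := by positivity
    have h3 : 0 < x ^ (k + 1) := by positivity
    omega
  have h2 : y ^ q ≤ 1 := by
    have : y ≤ 1 := by omega
    calc y ^ q ≤ 1 ^ q := Nat.pow_le_pow_left this q
      _ = 1 := one_pow q
  omega

/-- Divisors of `x` and `y - 1` are at most `K x ^ (13/15)`. -/
private theorem visible {q : ℕ} (hq : q.Prime) (hq3 : 3 ≤ q) : ∃ K : ℝ, 0 ≤ K ∧
    ∀ n x y d : ℕ, 2 < n → 2 ≤ x → y ^ q = NL.rep x n → d ∣ x → d ∣ y - 1 →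
      (d : ℝ) ≤ K * (x : ℝ) ^ ((13 : ℝ) / 15) := by
  rcases Nat.lt_or_ge q 5 with hlt | hge
  · have hq' : q = 3 := by
      have h4 : q ≠ 4 := by
        rintro rfl
        norm_num at hq
      omega
    subst hq'
    obtain ⟨c2, hc20, hc2⟩ := H44.NL.fixed (k := 3) (m := 2) (by norm_num) (by norm_num)
    obtain ⟨x0, hx0⟩ := NL.fixed_one (le_refl 3)
    refine ⟨2 + x0 + c2, by positivity, ?_⟩
    intro n x y d hn hx hxy hdx hdy
    have hy2 := two_le_y hx hn hxy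
    have hxR : (1 : ℝ) ≤ x := by exact_mod_cast (by omega : 1 ≤ x)
    have hxp : (1 : ℝ) ≤ (x : ℝ) ^ ((13 : ℝ) / 15) := Real.one_le_rpow hxR (by norm_num)
    have hx00 : (0 : ℝ) ≤ x0 := Nat.cast_nonneg _
    have hdx' : d ≤ x := Nat.le_of_dvd (by omega) hdx
    have hdy' : d ≤ y - 1 := Nat.le_of_dvd (by omega) hdy
    rcases (by omega : n = 3 ∨ n = 4 ∨ 5 ≤ n) with h3 | h4 | h5
    · subst h3
      have h3 : NL.rep x 3 = 1 + x + x ^ 2 := by
        simp [NL.rep, sum_range_succ]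
      have h1 : d ^ 3 ≤ 3 * x ^ 2 := by
        have h2 : d ^ 3 ≤ y ^ 3 := Nat.pow_le_pow_left (by omega) 3
        rw [hxy, h3] at h2
        nlinarith
      have h2 : (d : ℝ) ^ 3 ≤ (2 * (x : ℝ) ^ ((13 : ℝ) / 15)) ^ 3 := by
        have h4 : (d : ℝ) ^ 3 ≤ 3 * (x : ℝ) ^ 2 := by exact_mod_cast h1
        have h5 : (x : ℝ) ^ 2 ≤ ((x : ℝ) ^ ((13 : ℝ) / 15)) ^ 3 := by
          rw [← Real.rpow_natCast, ← Real.rpow_natCast, ← Real.rpow_mul (by positivity)]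
          exact Real.rpow_le_rpow_of_exponent_le hxR (by norm_num)
        rw [mul_pow]
        nlinarith [pow_nonneg (by positivity : (0 : ℝ) ≤ (x : ℝ) ^ ((13 : ℝ) / 15)) 3]
      have h6 : (d : ℝ) ≤ 2 * (x : ℝ) ^ ((13 : ℝ) / 15) :=
        le_of_pow_le_pow_left₀ (by norm_num) (by positivity) h2
      refine h6.trans (mul_le_mul_of_nonneg_right ?_ (by positivity))
      linarith
    · subst h4
      have h1 : x < x0 := by
        by_contra hcon
        exact hx0 x y 4 (by omega) (by omega) (by norm_num) hxy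
      have h2 : (d : ℝ) ≤ x0 := by exact_mod_cast (by omega : d ≤ x0)
      calc (d : ℝ) ≤ x0 := h2
        _ ≤ 2 + x0 + c2 := by linarith
        _ ≤ _ := le_mul_of_one_le_right (by positivity) hxp
    · have h1 := hc2 n x y d hn (by omega) (by omega) (eq_of_rep hx hxy) hdx (Or.inl hdy)
      have h2 : (x : ℝ) ^ ((1 : ℝ) / ((2 : ℕ) + 1) + (2 : ℕ) / (2 * (3 : ℕ)) + 1 / n) ≤
          (x : ℝ) ^ ((13 : ℝ) / 15) := by
        refine Real.rpow_le_rpow_of_exponent_le hxR ?_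
        have h3 : (5 : ℝ) ≤ n := by exact_mod_cast h5
        have h4 : (1 : ℝ) / n ≤ 1 / 5 := one_div_le_one_div_of_le (by norm_num) h3
        push_cast
        linarith
      refine h1.trans (mul_le_mul ?_ h2 (by positivity) (by positivity))
      linarith
  · obtain ⟨c2, hc20, hc2⟩ := H44.NL.fixed (k := q) (m := 2) (by omega) (by omega)
    refine ⟨c2, hc20.le, ?_⟩
    intro n x y d hn hx hxy hdx hdy
    have hy2 := two_le_y hx hn hxy
    have h1 := hc2 n x y d hn (by omega) (by omega) (eq_of_rep hx hxy) hdx (Or.inl hdy)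
    have hxR : (1 : ℝ) ≤ x := by exact_mod_cast (by omega : 1 ≤ x)
    have hq5 : (5 : ℝ) ≤ q := by exact_mod_cast hge
    have h2 : (x : ℝ) ^ ((1 : ℝ) / ((2 : ℕ) + 1) + (2 : ℕ) / (2 * (q : ℕ)) + 1 / n) ≤
        (x : ℝ) ^ ((13 : ℝ) / 15) := by
      refine Real.rpow_le_rpow_of_exponent_le hxR ?_
      have h3 : (3 : ℝ) ≤ n := by exact_mod_cast hn
      have h4 : (1 : ℝ) / n ≤ 1 / 3 := one_div_le_one_div_of_le (by norm_num) h3
      have h5 : (2 : ℝ) / (2 * q) ≤ 1 / 5 := by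
        rw [div_le_div_iff₀ (by positivity) (by norm_num)]
        linarith
      push_cast
      linarith
    exact h1.trans (mul_le_mul_of_nonneg_left h2 hc20.le)

theorem ppb_bounded {q : ℕ} (hq : q.Prime) (hq3 : 3 ≤ q) {β : ℝ}
    (hβ1 : Real.sqrt (1 - 1 / q) < β) (hβ2 : 13 / 15 < β) : ∃ X : ℕ, ∀ n x y p k : ℕ,
    2 < n → 2 ≤ x → p.Prime → p ^ k ∣ x → (x : ℝ) ^ β ≤ ((p ^ k : ℕ) : ℝ) →
      y ^ q = NL.rep x n → x ≤ X := by
  set α := Real.sqrt (1 - 1 / q) with hα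
  set ε := (β - α) / 2 with hε
  have hε0 : 0 < ε := by rw [hε]; linarith
  obtain ⟨C, hC1, hC⟩ := mainE hq hq3 hε0
  rw [← hα] at hC
  obtain ⟨K, hK0, hK⟩ := visible hq hq3
  have hqR : (3 : ℝ) ≤ q := by exact_mod_cast hq3
  refine ⟨⌈C ^ (1 / (β - (α + ε)))⌉₊ + ⌈(q * K) ^ (1 / (β - 13 / 15))⌉₊, ?_⟩
  intro n x y p k hn hx hp hpk hβ hxy
  have hxR : (1 : ℝ) ≤ x := by exact_mod_cast (by omega : 1 ≤ x)
  have hy2 := two_le_y hx hn hxy
  have hpos : 0 < p ^ k := Nat.pow_pos hp.pos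
  by_cases hpy : p ∣ y - 1
  · obtain ⟨e, hex, -, hey, hxe⟩ := div_coprime hq hq3 (by omega) hx hxy
    have hep : Nat.Coprime (p ^ k) e := by
      refine Nat.Coprime.pow_left k ((Nat.Prime.coprime_iff_not_dvd hp).2 fun hpe => ?_)
      have h3 : (p : ℤ) ∣ (y : ℤ) - 1 := by
        have h4 : (p : ℤ) ∣ ((y - 1 : ℕ) : ℤ) := by exact_mod_cast hpy
        rwa [Nat.cast_sub (by omega), Nat.cast_one] at h4
      have h5 : (p : ℤ) ∣ (e : ℤ) := by exact_mod_cast hpe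
      have h6 := hey.isUnit_of_dvd' h5 h3
      exact hp.one_lt.ne' (by simpa [Int.isUnit_iff_natAbs_eq] using h6)
    have h1 : p ^ k ∣ q * x.gcd (y - 1) := hep.dvd_of_dvd_mul_left (hpk.trans hxe)
    have h2 : p ^ k ∣ q * (p ^ k).gcd (x.gcd (y - 1)) := by
      rw [← Nat.gcd_mul_left]
      exact Nat.dvd_gcd (Dvd.intro_left q rfl) h1
    set d := (p ^ k).gcd (x.gcd (y - 1)) with hd
    have hd0 : 0 < d := Nat.gcd_pos_of_pos_left _ hpos
    have hdx : d ∣ x := (Nat.gcd_dvd_left _ _).trans hpk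
    have hdy : d ∣ y - 1 := (Nat.gcd_dvd_right _ _).trans (Nat.gcd_dvd_right _ _)
    have h3 := hK n x y d hn hx hxy hdx hdy
    have h4 : ((p ^ k : ℕ) : ℝ) ≤ q * d := by
      exact_mod_cast Nat.le_of_dvd (Nat.mul_pos hq.pos hd0) h2
    have h5 : (x : ℝ) ^ β ≤ (q * K) * (x : ℝ) ^ ((13 : ℝ) / 15) := by
      have h6 := mul_le_mul_of_nonneg_left h3 (by positivity : (0 : ℝ) ≤ q)
      linarith
    have h6 := bdd_of_le hxR hβ2 h5
    have h7 : x ≤ ⌈(q * K) ^ (1 / (β - 13 / 15))⌉₊ := by exact_mod_cast h6.trans (Nat.le_ceil _)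
    omega
  · have hk0 : k ≠ 0 := by
      rintro rfl
      rw [pow_zero] at hβ
      have h1 : (1 : ℝ) < (x : ℝ) ^ β :=
        Real.one_lt_rpow (by exact_mod_cast (by omega : 1 < x)) (by linarith)
      have h2 : ((1 : ℕ) : ℝ) = 1 := by norm_num
      linarith
    have hpx : p ∣ x := (dvd_pow_self p hk0).trans hpk
    have hpq : p ≠ q := by
      rintro rfl
      have : Fact p.Prime := ⟨hp⟩
      have h1 : ((y : ZMod p)) ^ p = 1 := by
        have h2 : ((y ^ p : ℕ) : ZMod p) = ((NL.rep x n : ℕ) : ZMod p) := by rw [hxy]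
        have h3 : ((x : ℕ) : ZMod p) = 0 := (ZMod.natCast_eq_zero_iff _ _).2 hpx
        obtain ⟨k, rfl⟩ : ∃ k, n = k + 1 := ⟨n - 1, by omega⟩
        unfold NL.rep at h2
        push_cast at h2
        rw [sum_range_succ', h3] at h2
        simpa using h2
      rw [ZMod.pow_card] at h1
      apply hpy
      rw [← ZMod.natCast_eq_zero_iff, Nat.cast_sub (by omega), h1]
      simp
    have h1 : IsCoprime ((p ^ k : ℕ) : ℤ) (q : ℤ) := by
      rw [Nat.isCoprime_iff_coprime]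
      exact Nat.Coprime.pow_left k ((Nat.coprime_primes hp hq).2 hpq)
    have h2 : IsCoprime ((p ^ k : ℕ) : ℤ) ((y : ℤ) - 1) := by
      have h3 : Nat.Coprime (p ^ k) (y - 1) :=
        Nat.Coprime.pow_left k ((Nat.Prime.coprime_iff_not_dvd hp).2 hpy)
      have h4 := Nat.isCoprime_iff_coprime.2 h3
      rwa [Nat.cast_sub (by omega), Nat.cast_one] at h4
    have h3 := hC n x y (p ^ k) hn hx hxy hpk h1 h2
    have h4 := bdd_of_le hxR (by rw [hε]; linarith) (hβ.trans h3)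
    have h5 : x ≤ ⌈C ^ (1 / (β - (α + ε)))⌉₊ := by exact_mod_cast h4.trans (Nat.le_ceil _)
    omega

/-- For an exponent with the odd prime factor `q` there are only finitely many solutions for which
`x` has a prime power divisor `≥ x ^ β`. -/
theorem ppb_finite {q : ℕ} (hq : q.Prime) (hq3 : 3 ≤ q) {m : ℕ} (hqm : q ∣ m) (hm0 : m ≠ 0)
    {β : ℝ} (hβ1 : Real.sqrt (1 - 1 / q) < β) (hβ2 : 13 / 15 < β) :
    {t : ℕ × ℕ × ℕ | 1 < t.1 ∧ 1 < t.2.1 ∧ 2 < t.2.2 ∧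
      t.2.1 ^ m * (t.1 - 1) = t.1 ^ t.2.2 - 1 ∧
      ∃ p k : ℕ, p.Prime ∧ p ^ k ∣ t.1 ∧ (t.1 : ℝ) ^ β ≤ ((p ^ k : ℕ) : ℝ)}.Finite := by
  obtain ⟨k, rfl⟩ := hqm
  have hk : k ≠ 0 := by
    rintro rfl
    exact hm0 (mul_zero _)
  obtain ⟨X, hX⟩ := ppb_bounded hq hq3 hβ1 hβ2
  have hfin : (⋃ x ∈ {x : ℕ | 2 ≤ x ∧ x ≤ X}, ⋃ n ∈ {n : ℕ | ∃ y : ℕ, y ^ q = NL.rep x n},
      (fun y : ℕ => (x, y, n)) '' Set.Iic (x ^ n)).Finite := by
    refine Set.Finite.biUnion ((Set.finite_Iic X).subset fun x hx => hx.2) ?_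
    intro x hx
    refine Set.Finite.biUnion (fixed_base hq3 hx.1) ?_
    intro n _
    exact (Set.finite_Iic _).image _
  refine hfin.subset ?_
  rintro ⟨x, y, n⟩ ⟨hx, hy, hn, h, p, j, hp, hpj, hβ⟩
  simp only at hx hy hn h hpj hβ
  have hrep := rep_of_eq (by omega : 2 ≤ x) h
  have hrep2 : (y ^ k) ^ q = NL.rep x n := by rw [← pow_mul, mul_comm k q, hrep]
  have hxX := hX n x (y ^ k) p j hn (by omega) hp hpj hβ hrep2
  simp only [Set.mem_iUnion, Set.mem_image, Set.mem_Iic]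
  refine ⟨x, ⟨by omega, hxX⟩, n, ⟨y ^ k, hrep2⟩, y, ?_, rfl⟩
  have h1 : y ≤ y ^ (q * k) := Nat.le_self_pow (Nat.mul_ne_zero hq.ne_zero hk) y
  have h2 := NL.rep_lt (x := x) (n := n) (by omega)
  omega

end Pool.Agent.NLG
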