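import Pool.Agent.NLG.GcdS
import Pool.Agent.NLG.FixB

/-!
NLG-PPowS: bases with a large prime power divisor, fixed exponent.

PLAN.  Model: NLG/PPowB.lean (copy the private lemmas bdd_of_le, rep_of_eq, two_le_y and the proof of
ppb_finite).  P = p^k ∣ x, P ≥ x^β, β > 1 - 1/q.  decomp: x = e D f.  If p ∣ y - 1: p does not divide e
(IsCoprime e (y-1)), so P is coprime to e and P ∣ D f, P ≤ q^2 D ≤ q^2 C x^(1/q+ε) (mainD2), and
1/q + ε < β for ε = (β - (1-1/q))/2 as 1/q < 1 - 1/q (q ≥ 3).  If p ∤ y - 1: p ∤ D f, so P is coprime to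
D f, P ∣ e, P ≤ e ≤ C x^(1-1/q+ε) (mainE2 with x = e (D f)).
-/

namespace Pool.Agent.NLG

open Finset

/-- `x ^ β ≤ K x ^ θ` with `θ < β` bounds `x`. -/
private theorem bdd_of_le {x K θ β : ℝ} (hx : 1 ≤ x) (hθ : θ < β)
    (h : x ^ β ≤ K * x ^ θ) : x ≤ K ^ (1 / (β - θ)) := by
  have hx0 : 0 < x := by linarith
  have h1 : x ^ (β - θ) ≤ K := by
    rw [Real.rpow_sub hx0, div_le_iff₀ (Real.rpow_pos_of_pos hx0 _)]
    exact h
  have h2 : 0 < β - θ := by linarith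
  calc x = (x ^ (β - θ)) ^ (1 / (β - θ)) := by
        rw [← Real.rpow_mul hx0.le, mul_one_div_cancel h2.ne', Real.rpow_one]
    _ ≤ K ^ (1 / (β - θ)) := Real.rpow_le_rpow (by positivity) h1 (by positivity)

private theorem rep_of_eq {x y m n : ℕ} (hx : 2 ≤ x) (h : y ^ m * (x - 1) = x ^ n - 1) :
    y ^ m = NL.rep x n := by
  have h1 := NL.rep_mul (x := x) (by omega) n
  have h2 : y ^ m * (x - 1) = NL.rep x n * (x - 1) := by omega
  exact Nat.eq_of_mul_eq_mul_right (by omega) h2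

private theorem two_le_y {q x y n : ℕ} (hx : 2 ≤ x) (hn : 2 < n)
    (h : y ^ q = NL.rep x n) : 2 ≤ y := by
  by_contra hcon
  have h1 : 1 < NL.rep x n := by
    obtain ⟨k, rfl⟩ : ∃ k, n = k + 2 := ⟨n - 2, by omega⟩
    rw [NL.rep_succ, NL.rep_succ]
    have h2 : 0 < x ^ k := by positivity
    have h3 : 0 < x ^ (k + 1) := by positivity
    omega
  have h2 : y ^ q ≤ 1 := by
    have : y ≤ 1 := by omega
    calc y ^ q ≤ 1 ^ q := Nat.pow_le_pow_left this q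
      _ = 1 := one_pow q
  omega

theorem ppS_bounded {q : ℕ} (hq : q.Prime) (hq3 : 3 ≤ q) {β : ℝ} (hβ : 1 - 1 / (q : ℝ) < β) :
    ∃ X : ℕ, ∀ n x y p k : ℕ, 2 < n → 2 ≤ x → p.Prime → p ^ k ∣ x →
      (x : ℝ) ^ β ≤ ((p ^ k : ℕ) : ℝ) → y ^ q = NL.rep x n → x ≤ X := by
  set ε : ℝ := (β - (1 - 1 / (q : ℝ))) / 2 with hε
  have hε0 : 0 < ε := by rw [hε]; linarith
  obtain ⟨C1, hC1, hE⟩ := mainE2 hq hq3 hε0
  obtain ⟨C2, hC2, hD⟩ := mainD2 hq hq3 hε0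
  have hqR : (3 : ℝ) ≤ q := by exact_mod_cast hq3
  have hqi : 1 / (q : ℝ) ≤ 1 / 3 := one_div_le_one_div_of_le (by norm_num) hqR
  have hθ1 : 1 - 1 / (q : ℝ) + ε < β := by rw [hε]; linarith
  have hθ2 : 1 / (q : ℝ) + ε < β := by linarith
  refine ⟨⌈C1 ^ (1 / (β - (1 - 1 / (q : ℝ) + ε)))⌉₊ +
    ⌈((q : ℝ) ^ 2 * C2) ^ (1 / (β - (1 / (q : ℝ) + ε)))⌉₊, ?_⟩
  intro n x y p k hn hx hp hpk hβx hxy
  have hxR : (1 : ℝ) ≤ x := by exact_mod_cast (by omega : 1 ≤ x)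
  have hy2 := two_le_y hx hn hxy
  obtain ⟨e, D, f, hxe, hf, hcop, heq, hey, hG, -, -, hpr⟩ := decomp hq hq3 (by omega) hx hxy
  have hxe' : x = e * (D * f) := by rw [hxe, mul_assoc]
  have hDf0 : 0 < D * f := by
    rcases Nat.eq_zero_or_pos (D * f) with h0 | h0
    · rw [h0, mul_zero] at hxe'
      omega
    · exact h0
  have he0 : 0 < e := by
    rcases Nat.eq_zero_or_pos e with h0 | h0
    · rw [h0, zero_mul] at hxe'
      omega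
    · exact h0
  by_cases hpy : p ∣ y - 1
  · have hep : Nat.Coprime (p ^ k) e := by
      refine Nat.Coprime.pow_left k ((Nat.Prime.coprime_iff_not_dvd hp).2 fun hpe => ?_)
      have h3 : (p : ℤ) ∣ (y : ℤ) - 1 := by
        have h4 : (p : ℤ) ∣ ((y - 1 : ℕ) : ℤ) := by exact_mod_cast hpy
        rwa [Nat.cast_sub (by omega), Nat.cast_one] at h4
      have h5 : (p : ℤ) ∣ (e : ℤ) := by exact_mod_cast hpe
      have h6 := hey.isUnit_of_dvd' h5 h3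
      exact hp.one_lt.ne' (by simpa [Int.isUnit_iff_natAbs_eq] using h6)
    have h1 : p ^ k ∣ D * f := by
      rw [hxe'] at hpk
      exact hep.dvd_of_dvd_mul_left hpk
    have h2 : p ^ k ≤ D * f := Nat.le_of_dvd hDf0 h1
    have h3 : ((p ^ k : ℕ) : ℝ) ≤ D * (q : ℝ) ^ 2 := by
      have h4 : p ^ k ≤ D * q ^ 2 := h2.trans (Nat.mul_le_mul_left D hf)
      exact_mod_cast h4
    have h4 := hD n x y e D f hn hx hxy hxe (Nat.Coprime.coprime_mul_right_right hcop) hf hG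
    have h5 : (x : ℝ) ^ β ≤ ((q : ℝ) ^ 2 * C2) * (x : ℝ) ^ (1 / (q : ℝ) + ε) := by
      have h6 := mul_le_mul_of_nonneg_right h4 (by positivity : (0 : ℝ) ≤ (q : ℝ) ^ 2)
      calc (x : ℝ) ^ β ≤ D * (q : ℝ) ^ 2 := hβx.trans h3
        _ ≤ C2 * (x : ℝ) ^ (1 / (q : ℝ) + ε) * (q : ℝ) ^ 2 := h6
        _ = _ := by ring
    have h6 := bdd_of_le hxR hθ2 h5
    have h7 : x ≤ ⌈((q : ℝ) ^ 2 * C2) ^ (1 / (β - (1 / (q : ℝ) + ε)))⌉₊ := by
      exact_mod_cast h6.trans (Nat.le_ceil _)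
    omega
  · have hpc : Nat.Coprime (p ^ k) (D * f) :=
      Nat.Coprime.pow_left k ((Nat.Prime.coprime_iff_not_dvd hp).2 fun hpd => hpy (hpr p hp hpd))
    have h1 : p ^ k ∣ e := by
      rw [hxe'] at hpk
      exact hpc.dvd_of_dvd_mul_right hpk
    have h2 : ((p ^ k : ℕ) : ℝ) ≤ e := by exact_mod_cast Nat.le_of_dvd he0 h1
    have h3 := hE n x y e (D * f) hn hx hxy hxe' hcop heq hey
    have h4 := bdd_of_le hxR hθ1 ((hβx.trans h2).trans h3)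
    have h5 : x ≤ ⌈C1 ^ (1 / (β - (1 - 1 / (q : ℝ) + ε)))⌉₊ := by
      exact_mod_cast h4.trans (Nat.le_ceil _)
    omega

theorem ppS_finite {q : ℕ} (hq : q.Prime) (hq3 : 3 ≤ q) {m : ℕ} (hqm : q ∣ m) (hm0 : m ≠ 0)
    {β : ℝ} (hβ : 1 - 1 / (q : ℝ) < β) :
    {t : ℕ × ℕ × ℕ | 1 < t.1 ∧ 1 < t.2.1 ∧ 2 < t.2.2 ∧
      t.2.1 ^ m * (t.1 - 1) = t.1 ^ t.2.2 - 1 ∧
      ∃ p k : ℕ, p.Prime ∧ p ^ k ∣ t.1 ∧ (t.1 : ℝ) ^ β ≤ ((p ^ k : ℕ) : ℝ)}.Finite := by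
  obtain ⟨k, rfl⟩ := hqm
  have hk : k ≠ 0 := by
    rintro rfl
    exact hm0 (mul_zero _)
  obtain ⟨X, hX⟩ := ppS_bounded hq hq3 hβ
  have hfin : (⋃ x ∈ {x : ℕ | 2 ≤ x ∧ x ≤ X}, ⋃ n ∈ {n : ℕ | ∃ y : ℕ, y ^ q = NL.rep x n},
      (fun y : ℕ => (x, y, n)) '' Set.Iic (x ^ n)).Finite := by
    refine Set.Finite.biUnion ((Set.finite_Iic X).subset fun x hx => hx.2) ?_
    intro x hx
    refine Set.Finite.biUnion (fixed_base hq3 hx.1) ?_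
    intro n _
    exact (Set.finite_Iic _).image _
  refine hfin.subset ?_
  rintro ⟨x, y, n⟩ ⟨hx, hy, hn, h, p, j, hp, hpj, hβx⟩
  simp only at hx hy hn h hpj hβx
  have hrep := rep_of_eq (by omega : 2 ≤ x) h
  have hrep2 : (y ^ k) ^ q = NL.rep x n := by rw [← pow_mul, mul_comm k q, hrep]
  have hxX := hX n x (y ^ k) p j hn (by omega) hp hpj hβx hrep2
  simp only [Set.mem_iUnion, Set.mem_image, Set.mem_Iic]
  refine ⟨x, ⟨by omega, hxX⟩, n, ⟨y ^ k, hrep2⟩, y, ?_, rfl⟩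
  have h1 : y ≤ y ^ (q * k) := Nat.le_self_pow (Nat.mul_ne_zero hq.ne_zero hk) y
  have h2 := NL.rep_lt (x := x) (n := n) (by omega)
  omega

end Pool.Agent.NLG
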