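import Pool.Agent.NLG.Divis1
import Pool.Agent.NLG.Aux1
import Pool.Agent.NLG.Growth

/-!
NLG-RegA: a fixed length n (constants may depend on n).

PLAN.  aux1 gives p, growth gives X0 with S = ∑ (p i)(x) y^i ≠ 0 for x ≥ X0.  divis1 (N = lam n, hxy from
NL.rep_mul_int and y^q = rep x n): e^(lam n) ∣ S, so e^(lam n) ≤ |S| ≤ ∑ (i, a) |p_(i,a)| x^a y^i ≤
C x^(δ n), since y^i ≤ x^(i n/q) (y^q = rep x n < x^n, NL.rep_lt) and a + i n/q ≤ δ n, δ = del q lam.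
For x < X0: e ≤ x < X0 (e ∣ x, x > 0), e^(lam n) ≤ X0^(lam n) =: constant, x^(δ n) ≥ 1.
-/

namespace Pool.Agent.NLG

open Finset Polynomial

theorem regA {q lam n : ℕ} (hq : q.Prime) (hl : 1 ≤ lam) (hn : 2 ≤ n) (hnq : n % q ≠ 1) :
    ∃ C : ℝ, 1 ≤ C ∧ ∀ x y e : ℕ, 2 ≤ x → y ^ q = NL.rep x n → e ∣ x →
      IsCoprime (e : ℤ) q → IsCoprime (e : ℤ) ((y : ℤ) - 1) →
      (e : ℝ) ^ (lam * n) ≤ C * (x : ℝ) ^ (del q lam * n) := by
  classical
  obtain ⟨p, hp0, hpc, hV⟩ := aux1 (lam := lam) hq.two_le hl (by omega : 1 ≤ n)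
  obtain ⟨X0, hX0⟩ := growth hq hn hnq hp0
  have hd0 : 0 ≤ del q lam := by
    unfold del
    have : 0 ≤ Real.sqrt (1 - 1 / (q : ℝ)) * ((lam : ℝ) + 1) := by positivity
    linarith
  obtain ⟨Cs, hCs⟩ : ∃ Cs : ℝ, Cs = ∑ i ∈ range q, ∑ a ∈ (p i).support, |((p i).coeff a : ℝ)| :=
    ⟨_, rfl⟩
  have hCs0 : 0 ≤ Cs := by
    rw [hCs]
    exact sum_nonneg fun i _ => sum_nonneg fun a _ => abs_nonneg _
  have hX00 : 0 ≤ (X0 : ℝ) ^ (lam * n) := by positivity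
  refine ⟨1 + (X0 : ℝ) ^ (lam * n) + Cs, by linarith, ?_⟩
  intro x y e hx hy hex heq hey
  have hx1 : (1 : ℝ) ≤ x := by exact_mod_cast (by omega : 1 ≤ x)
  have hx0 : (0 : ℝ) < x := by linarith
  have hn0 : (0 : ℝ) ≤ n := Nat.cast_nonneg n
  have hR1 : 1 ≤ (x : ℝ) ^ (del q lam * n) := Real.one_le_rpow hx1 (mul_nonneg hd0 hn0)
  rcases lt_or_ge x X0 with h | h
  · have hex' : e ≤ x := Nat.le_of_dvd (by omega) hex
    have h1 : (e : ℝ) ^ (lam * n) ≤ (X0 : ℝ) ^ (lam * n) :=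
      pow_le_pow_left₀ (Nat.cast_nonneg e) (by exact_mod_cast (by omega : e ≤ X0)) _
    calc (e : ℝ) ^ (lam * n) ≤ (X0 : ℝ) ^ (lam * n) := h1
      _ ≤ (1 + (X0 : ℝ) ^ (lam * n) + Cs) * 1 := by linarith
      _ ≤ (1 + (X0 : ℝ) ^ (lam * n) + Cs) * (x : ℝ) ^ (del q lam * n) :=
          mul_le_mul_of_nonneg_left hR1 (by linarith)
  · have hS := hX0 x y h hy
    have hxy : (y : ℤ) ^ q * (1 - (x : ℤ)) = 1 - (x : ℤ) ^ n := by
      have h1 := NL.rep_mul_int x n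
      rw [← hy] at h1
      push_cast at h1
      linear_combination -h1
    have hdiv : (e : ℤ) ^ (lam * n) ∣ ∑ i ∈ range q, (p i).eval (x : ℤ) * (y : ℤ) ^ i :=
      divis1 hq.two_le (by omega) (Nat.mul_pos (by omega) (by omega)) hV
        (by exact_mod_cast hex) heq hey hxy
    have h1 : (e : ℤ) ^ (lam * n) ≤ |∑ i ∈ range q, (p i).eval (x : ℤ) * (y : ℤ) ^ i| :=
      Int.le_of_dvd (abs_pos.2 hS) ((dvd_abs _ _).2 hdiv)
    have h2 : (e : ℝ) ^ (lam * n) ≤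
        |((∑ i ∈ range q, (p i).eval (x : ℤ) * (y : ℤ) ^ i : ℤ) : ℝ)| := by exact_mod_cast h1
    have hyx : ∀ i : ℕ, (y : ℝ) ^ i ≤ (x : ℝ) ^ ((i : ℝ) * n / q) := by
      intro i
      have hq0 : (0 : ℝ) < q := by exact_mod_cast hq.pos
      have h3 : (y : ℝ) ^ q ≤ (x : ℝ) ^ n := by
        have := NL.rep_lt (n := n) hx
        rw [← hy] at this
        exact_mod_cast this.le
      have h4 : (y : ℝ) ≤ (x : ℝ) ^ ((n : ℝ) / q) := by
        rw [← pow_le_pow_iff_left₀ (Nat.cast_nonneg y) (Real.rpow_nonneg hx0.le _) hq.ne_zero,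
          ← Real.rpow_natCast ((x : ℝ) ^ ((n : ℝ) / q)) q, ← Real.rpow_mul hx0.le,
          div_mul_cancel₀ _ hq0.ne', Real.rpow_natCast]
        exact h3
      calc (y : ℝ) ^ i ≤ ((x : ℝ) ^ ((n : ℝ) / q)) ^ i := pow_le_pow_left₀ (Nat.cast_nonneg y) h4 i
        _ = (x : ℝ) ^ ((i : ℝ) * n / q) := by
          rw [← Real.rpow_natCast ((x : ℝ) ^ ((n : ℝ) / q)) i, ← Real.rpow_mul hx0.le]
          congr 1
          ring
    have h5 : |((∑ i ∈ range q, (p i).eval (x : ℤ) * (y : ℤ) ^ i : ℤ) : ℝ)| ≤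
        Cs * (x : ℝ) ^ (del q lam * n) := by
      push_cast
      rw [hCs, sum_mul]
      refine (abs_sum_le_sum_abs _ _).trans (sum_le_sum fun i _ => ?_)
      have h6 : (((p i).eval (x : ℤ) : ℤ) : ℝ) = ∑ a ∈ (p i).support, ((p i).coeff a : ℝ) * (x : ℝ) ^ a := by
        rw [eval_eq_sum, Polynomial.sum]
        push_cast
        rfl
      rw [h6, sum_mul, sum_mul]
      refine (abs_sum_le_sum_abs _ _).trans (sum_le_sum fun a ha => ?_)
      rw [mul_assoc, abs_mul]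
      refine mul_le_mul_of_nonneg_left ?_ (abs_nonneg _)
      rw [abs_of_nonneg (by positivity)]
      calc (x : ℝ) ^ a * (y : ℝ) ^ i ≤ (x : ℝ) ^ a * (x : ℝ) ^ ((i : ℝ) * n / q) :=
            mul_le_mul_of_nonneg_left (hyx i) (by positivity)
        _ = (x : ℝ) ^ ((a : ℝ) + (i : ℝ) * n / q) := by
            rw [Real.rpow_add hx0, Real.rpow_natCast]
        _ ≤ (x : ℝ) ^ (del q lam * n) :=
            Real.rpow_le_rpow_of_exponent_le hx1 (hpc i a (mem_support_iff.1 ha)).2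
    have h7 : 0 ≤ (x : ℝ) ^ (del q lam * n) := by linarith
    calc (e : ℝ) ^ (lam * n) ≤ Cs * (x : ℝ) ^ (del q lam * n) := h2.trans h5
      _ ≤ (1 + (X0 : ℝ) ^ (lam * n) + Cs) * (x : ℝ) ^ (del q lam * n) :=
          mul_le_mul_of_nonneg_right (by linarith) h7

end Pool.Agent.NLG
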