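import Pool.Agent.NLG.Core
import Pool.Agent.NLG.AuxS
import Pool.Agent.NLG.Divis
import Pool.Agent.NLG.DivisD

/-!
NLG-RegS: large n, constants independent of n, sharp exponents.
-/

namespace Pool.Agent.NLG

open Finset Polynomial

private theorem lam_big {q eta : ℕ} (hq : 2 ≤ q) (he : 1 ≤ eta) : 4 ≤ q * (eta * (eta + 1)) := by
  have h1 : 2 ≤ eta * (eta + 1) := by nlinarith
  nlinarith

private theorem eqZ {q x y n : ℕ} (hxy : y ^ q = NL.rep x n) :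
    ((y : ℤ)) ^ q * (1 - (x : ℤ)) = 1 - (x : ℤ) ^ n := by
  have h1 := NL.rep_mul_int x n
  have h2 : ((y : ℤ)) ^ q = (NL.rep x n : ℤ) := by exact_mod_cast hxy
  rw [h2]
  linear_combination -h1

/-- From `(A x^(lam-2))^n ≤ (C x^δ)^n` to `A ≤ C x^κ`. -/
private theorem root_step {A C x δ κ : ℝ} {lam n : ℕ} (hA : 0 ≤ A) (hC : 0 ≤ C) (hx : 1 ≤ x)
    (hn : 1 ≤ n) (hl : 2 ≤ lam) (hκ : κ = δ - lam + 2)
    (h : A ^ n * x ^ ((lam - 2) * n) ≤ C ^ n * x ^ (δ * n)) : A ≤ C * x ^ κ := by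
  have hx0 : 0 < x := by linarith
  have h2 : (A * x ^ (lam - 2)) ^ n ≤ (C * x ^ δ) ^ n := by
    rw [mul_pow, mul_pow, ← pow_mul, ← Real.rpow_natCast (x ^ δ), ← Real.rpow_mul hx0.le]
    exact h
  have h3 : A * x ^ (lam - 2) ≤ C * x ^ δ := le_of_pow_le_pow_left₀ (by omega) (by positivity) h2
  have h4 : x ^ κ * x ^ (lam - 2) = x ^ δ := by
    rw [← Real.rpow_natCast x (lam - 2), ← Real.rpow_add hx0]
    congr 1
    rw [hκ, Nat.cast_sub hl]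
    push_cast
    ring
  have h5 : 0 < x ^ (lam - 2) := pow_pos hx0 _
  refine le_of_mul_le_mul_right ?_ h5
  rw [mul_assoc, h4]
  exact h3

theorem regBE {q eta : ℕ} (hq : 2 ≤ q) (he : 1 ≤ eta) : ∃ (C : ℝ) (n0 : ℕ), 1 ≤ C ∧
    ∀ n x y e f : ℕ, n0 ≤ n → 2 ≤ x → y ^ q = NL.rep x n → x = e * f → e.Coprime f →
      IsCoprime (e : ℤ) q → IsCoprime (e : ℤ) ((y : ℤ) - 1) →
      (e : ℝ) ^ eta ≤ C * (x : ℝ) ^ ((1 - 1 / (q : ℝ)) * eta + 3) := by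
  obtain ⟨lam, hlam⟩ : ∃ lam, lam = q * (eta * (eta + 1)) := ⟨_, rfl⟩
  have hlam4 : 4 ≤ lam := by
    rw [hlam]
    exact lam_big hq he
  have hq0 : (0 : ℝ) < q := by exact_mod_cast (by omega : 0 < q)
  have hqi : 1 / (q : ℝ) ≤ 1 := by
    rw [div_le_one hq0]
    exact_mod_cast (by omega : 1 ≤ q)
  have hδ1 : 1 ≤ delE q lam eta := by
    unfold delE
    have h1 : (0 : ℝ) ≤ lam := Nat.cast_nonneg _
    have h2 : 0 ≤ (1 - 1 / (q : ℝ)) * eta := mul_nonneg (by linarith) (Nat.cast_nonneg _)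
    linarith
  obtain ⟨C, hC1, hC⟩ := auxE hq he hlam
  obtain ⟨D, n0, X1, hD1, hD⟩ := core (lam := lam) hq hδ1 (by omega) hC1
  refine ⟨max D ((X1 : ℝ) ^ eta), max n0 1, le_max_of_le_left hD1, ?_⟩
  intro n x y e f hn hx hxy hef hco heq hey
  have hn0 : n0 ≤ n := (le_max_left _ _).trans hn
  have hn1 : 1 ≤ n := (le_max_right _ _).trans hn
  have hxR : (1 : ℝ) ≤ x := by exact_mod_cast (by omega : 1 ≤ x)
  have hexp0 : 0 ≤ (1 - 1 / (q : ℝ)) * eta + 3 := by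
    have h2 : 0 ≤ (1 - 1 / (q : ℝ)) * eta := mul_nonneg (by linarith) (Nat.cast_nonneg _)
    linarith
  have hxκ : (1 : ℝ) ≤ (x : ℝ) ^ ((1 - 1 / (q : ℝ)) * eta + 3) := Real.one_le_rpow hxR hexp0
  have hex : e ∣ x := ⟨f, hef⟩
  have hfx : f ∣ x := ⟨e, by rw [hef]; ring⟩
  have hexle : e ≤ x := Nat.le_of_dvd (by omega) hex
  rcases lt_or_ge x X1 with hlt | hge
  · have h1 : (e : ℝ) ^ eta ≤ (X1 : ℝ) ^ eta :=
      pow_le_pow_left₀ (by positivity) (by exact_mod_cast (by omega : e ≤ X1)) _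
    calc (e : ℝ) ^ eta ≤ (X1 : ℝ) ^ eta := h1
      _ ≤ max D ((X1 : ℝ) ^ eta) := le_max_right _ _
      _ ≤ _ := le_mul_of_one_le_right (by positivity) hxκ
  obtain ⟨P, hP0, hPd, hPc, hPV⟩ := hC n hn1
  obtain ⟨l, hl, hv0, hvs, hvx⟩ := hD n hn0 P hP0 hPd hPc x y hge hx hxy
  set v := vv q lam (zp P) (1 - (x : ℤ)) ((x : ℤ) ^ n) y l with hv
  have hPB : ∀ i b, lam ≤ b → P i b = 0 := by
    intro i b h
    ext a
    by_contra hcon
    have := (hPd i b a (by simpa using hcon)).2.1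
    omega
  have hN : 4 * n ≤ lam * n := Nat.mul_le_mul_right _ hlam4
  have hNN : (lam + eta) * n = lam * n + eta * n := by ring
  have hdiv := divis (q := q) (n := n) (N := (lam + eta) * n) (B := lam) hq hn1 (by omega) hPB hPV
    (x := (x : ℤ)) (y := (y : ℤ)) (e := e) (by exact_mod_cast hex) heq hey (eqZ hxy)
    (l := l) (by omega)
  have hdivf : (f : ℤ) ^ (lam * n - l) ∣ v :=
    (pow_dvd_pow_of_dvd (by exact_mod_cast hfx) _).trans hvx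
  have hcop : IsCoprime ((e : ℤ) ^ ((lam + eta) * n - l)) ((f : ℤ) ^ (lam * n - l)) :=
    (Nat.isCoprime_iff_coprime.2 hco).pow
  have hprod : (e : ℤ) ^ ((lam + eta) * n - l) * (f : ℤ) ^ (lam * n - l) ∣ v :=
    hcop.mul_dvd hdiv hdivf
  have hle : (e : ℤ) ^ ((lam + eta) * n - l) * (f : ℤ) ^ (lam * n - l) ≤ |v| :=
    Int.le_of_dvd (abs_pos.2 hv0) ((dvd_abs _ _).2 hprod)
  have hleR : (e : ℝ) ^ ((lam + eta) * n - l) * (f : ℝ) ^ (lam * n - l) ≤ |(v : ℝ)| := by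
    exact_mod_cast hle
  have hsplit : (e : ℝ) ^ ((lam + eta) * n - l) * (f : ℝ) ^ (lam * n - l) =
      ((e : ℝ) ^ eta) ^ n * (x : ℝ) ^ (lam * n - l) := by
    have h1 : (lam + eta) * n - l = eta * n + (lam * n - l) := by omega
    have h2 : (x : ℝ) = e * f := by exact_mod_cast hef
    rw [h1, pow_add, h2, mul_pow, pow_mul (e : ℝ) eta n]
    ring
  have h3 : ((e : ℝ) ^ eta) ^ n * (x : ℝ) ^ ((lam - 2) * n) ≤ D ^ n * (x : ℝ) ^ (delE q lam eta * n) := by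
    have h4 : (x : ℝ) ^ ((lam - 2) * n) ≤ (x : ℝ) ^ (lam * n - l) := by
      refine pow_le_pow_right₀ hxR ?_
      rw [Nat.sub_mul]
      omega
    calc ((e : ℝ) ^ eta) ^ n * (x : ℝ) ^ ((lam - 2) * n) ≤
        ((e : ℝ) ^ eta) ^ n * (x : ℝ) ^ (lam * n - l) :=
          mul_le_mul_of_nonneg_left h4 (by positivity)
      _ ≤ |(v : ℝ)| := by rw [← hsplit]; exact hleR
      _ ≤ _ := hvs
  have h5 := root_step (κ := (1 - 1 / (q : ℝ)) * eta + 3) (by positivity : (0 : ℝ) ≤ (e : ℝ) ^ eta)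
    (by linarith : (0 : ℝ) ≤ D) hxR hn1 (by omega : 2 ≤ lam) (by unfold delE; ring) h3
  exact h5.trans (mul_le_mul_of_nonneg_right (le_max_left _ _) (by positivity))

theorem regBD {q eta : ℕ} (hq : q.Prime) (hq3 : 3 ≤ q) (he : 1 ≤ eta) :
    ∃ (C : ℝ) (n0 : ℕ), 1 ≤ C ∧
    ∀ n x y e D f : ℕ, n0 ≤ n → 2 ≤ x → y ^ q = NL.rep x n → x = e * D * f → e.Coprime D →
      f ≤ q ^ 2 → GoodD q D x y →
      (D : ℝ) ^ eta ≤ C * (x : ℝ) ^ ((eta : ℝ) / q + 3) := by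
  have hq2 : 2 ≤ q := by omega
  obtain ⟨lam, hlam⟩ : ∃ lam, lam = q * (eta * (eta + 1)) := ⟨_, rfl⟩
  have hlam4 : 4 ≤ lam := by
    rw [hlam]
    exact lam_big hq2 he
  have hq0 : (0 : ℝ) < q := by exact_mod_cast (by omega : 0 < q)
  have hq1 : (1 : ℝ) ≤ q := by exact_mod_cast (by omega : 1 ≤ q)
  have hδ1 : 1 ≤ delD q lam eta := by
    unfold delD
    have h1 : (0 : ℝ) ≤ lam := Nat.cast_nonneg _
    have h2 : 0 ≤ (eta : ℝ) / q := by positivity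
    linarith
  obtain ⟨C, hC1, hC⟩ := auxD hq2 he hlam
  obtain ⟨K, n0, X1, hK1, hK⟩ := core (lam := lam) hq2 hδ1 (by omega) hC1
  have hqK : 1 ≤ (q : ℝ) ^ (2 * lam) * q * K := by
    have h1 : 1 ≤ (q : ℝ) ^ (2 * lam) * q := one_le_mul_of_one_le_of_one_le (one_le_pow₀ hq1) hq1
    exact one_le_mul_of_one_le_of_one_le h1 hK1
  refine ⟨max ((q : ℝ) ^ (2 * lam) * q * K) ((X1 : ℝ) ^ eta), max n0 1, le_max_of_le_left hqK, ?_⟩
  intro n x y e D f hn hx hxy hef hco hf hg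
  have hn0 : n0 ≤ n := (le_max_left _ _).trans hn
  have hn1 : 1 ≤ n := (le_max_right _ _).trans hn
  have hxR : (1 : ℝ) ≤ x := by exact_mod_cast (by omega : 1 ≤ x)
  have hexp0 : 0 ≤ (eta : ℝ) / q + 3 := by positivity
  have hxκ : (1 : ℝ) ≤ (x : ℝ) ^ ((eta : ℝ) / q + 3) := Real.one_le_rpow hxR hexp0
  have hex : e ∣ x := ⟨D * f, by rw [hef]; ring⟩
  have hDx : D ∣ x := ⟨e * f, by rw [hef]; ring⟩
  have hDle : D ≤ x := Nat.le_of_dvd (by omega) hDx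
  have hD1 : 1 ≤ D := Nat.pos_of_dvd_of_pos hDx (by omega)
  rcases lt_or_ge x X1 with hlt | hge
  · have h1 : (D : ℝ) ^ eta ≤ (X1 : ℝ) ^ eta :=
      pow_le_pow_left₀ (by positivity) (by exact_mod_cast (by omega : D ≤ X1)) _
    calc (D : ℝ) ^ eta ≤ (X1 : ℝ) ^ eta := h1
      _ ≤ max ((q : ℝ) ^ (2 * lam) * q * K) ((X1 : ℝ) ^ eta) := le_max_right _ _
      _ ≤ _ := le_mul_of_one_le_right (by positivity) hxκ
  obtain ⟨P, hP0, hPd, hPc, hPV⟩ := hC n hn1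
  obtain ⟨l, hl, hv0, hvs, hvx⟩ := hK n hn0 P hP0 hPd hPc x y hge hx hxy
  set v := vv q lam (zp P) (1 - (x : ℤ)) ((x : ℤ) ^ n) y l with hv
  have hPB : ∀ i b, lam ≤ b → P i b = 0 := by
    intro i b h
    ext a
    by_contra hcon
    have := (hPd i b a (by simpa using hcon)).2.1
    omega
  have hN : 4 * n ≤ lam * n := Nat.mul_le_mul_right _ hlam4
  have hNN : (lam + eta) * n = lam * n + eta * n := by ring
  have hdiv := divisD (q := q) (n := n) (N := (lam + eta) * n) (B := lam) hq hq3 hn1 (by omega) hD1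
    hPB hPV (x := (x : ℤ)) (y := (y : ℤ)) hg (eqZ hxy) (l := l) (by omega)
  have hdive : (e : ℤ) ^ (lam * n - l) ∣ q * v :=
    ((pow_dvd_pow_of_dvd (by exact_mod_cast hex) _).trans hvx).trans (Dvd.intro_left _ rfl)
  have hcop : IsCoprime ((e : ℤ) ^ (lam * n - l)) ((D : ℤ) ^ ((lam + eta) * n - l)) :=
    (Nat.isCoprime_iff_coprime.2 hco).pow
  have hprod : (e : ℤ) ^ (lam * n - l) * (D : ℤ) ^ ((lam + eta) * n - l) ∣ q * v :=
    hcop.mul_dvd hdive hdiv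
  have hqv0 : (q : ℤ) * v ≠ 0 := mul_ne_zero (by exact_mod_cast (by omega : q ≠ 0)) hv0
  have hle : (e : ℤ) ^ (lam * n - l) * (D : ℤ) ^ ((lam + eta) * n - l) ≤ |(q : ℤ) * v| :=
    Int.le_of_dvd (abs_pos.2 hqv0) ((dvd_abs _ _).2 hprod)
  have hleR : (e : ℝ) ^ (lam * n - l) * (D : ℝ) ^ ((lam + eta) * n - l) ≤ q * |(v : ℝ)| := by
    have h1 : (e : ℝ) ^ (lam * n - l) * (D : ℝ) ^ ((lam + eta) * n - l) ≤ |(q : ℝ) * (v : ℝ)| := by
      exact_mod_cast hle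
    rwa [abs_mul, abs_of_pos hq0] at h1
  have hxg : (x : ℝ) ≤ (e * D) * (q : ℝ) ^ 2 := by
    have h1 : x ≤ e * D * q ^ 2 := by
      rw [hef]
      exact Nat.mul_le_mul_left _ hf
    exact_mod_cast h1
  have hsplit : ((D : ℝ) ^ eta) ^ n * (x : ℝ) ^ (lam * n - l) ≤
      ((q : ℝ) ^ (2 * lam)) ^ n * ((e : ℝ) ^ (lam * n - l) * (D : ℝ) ^ ((lam + eta) * n - l)) := by
    have h1 : (lam + eta) * n - l = eta * n + (lam * n - l) := by omega
    have h2 : (x : ℝ) ^ (lam * n - l) ≤ ((e * D) * (q : ℝ) ^ 2) ^ (lam * n - l) :=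
      pow_le_pow_left₀ (by linarith) hxg _
    have h3 : ((q : ℝ) ^ 2) ^ (lam * n - l) ≤ ((q : ℝ) ^ (2 * lam)) ^ n := by
      rw [← pow_mul, ← pow_mul]
      refine pow_le_pow_right₀ hq1 ?_
      have : 2 * (lam * n - l) ≤ 2 * (lam * n) := by omega
      calc 2 * (lam * n - l) ≤ 2 * (lam * n) := this
        _ = 2 * lam * n := by ring
    rw [h1, pow_add, pow_mul (D : ℝ) eta n]
    calc ((D : ℝ) ^ eta) ^ n * (x : ℝ) ^ (lam * n - l) ≤
        ((D : ℝ) ^ eta) ^ n * ((e * D) * (q : ℝ) ^ 2) ^ (lam * n - l) :=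
          mul_le_mul_of_nonneg_left h2 (by positivity)
      _ = ((q : ℝ) ^ 2) ^ (lam * n - l) * ((e : ℝ) ^ (lam * n - l) *
          (((D : ℝ) ^ eta) ^ n * (D : ℝ) ^ (lam * n - l))) := by
          rw [mul_pow, mul_pow]
          ring
      _ ≤ _ := mul_le_mul_of_nonneg_right h3 (by positivity)
  have h3 : ((D : ℝ) ^ eta) ^ n * (x : ℝ) ^ ((lam - 2) * n) ≤
      ((q : ℝ) ^ (2 * lam) * q * K) ^ n * (x : ℝ) ^ (delD q lam eta * n) := by
    have h4 : (x : ℝ) ^ ((lam - 2) * n) ≤ (x : ℝ) ^ (lam * n - l) := by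
      refine pow_le_pow_right₀ hxR ?_
      rw [Nat.sub_mul]
      omega
    have h5 : (q : ℝ) ≤ (q : ℝ) ^ n := le_self_pow₀ hq1 (by omega)
    calc ((D : ℝ) ^ eta) ^ n * (x : ℝ) ^ ((lam - 2) * n) ≤
        ((D : ℝ) ^ eta) ^ n * (x : ℝ) ^ (lam * n - l) :=
          mul_le_mul_of_nonneg_left h4 (by positivity)
      _ ≤ ((q : ℝ) ^ (2 * lam)) ^ n *
          ((e : ℝ) ^ (lam * n - l) * (D : ℝ) ^ ((lam + eta) * n - l)) := hsplit
      _ ≤ ((q : ℝ) ^ (2 * lam)) ^ n * (q * |(v : ℝ)|) :=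
          mul_le_mul_of_nonneg_left hleR (by positivity)
      _ ≤ ((q : ℝ) ^ (2 * lam)) ^ n * ((q : ℝ) ^ n * (K ^ n * (x : ℝ) ^ (delD q lam eta * n))) := by
          refine mul_le_mul_of_nonneg_left ?_ (by positivity)
          exact mul_le_mul h5 hvs (abs_nonneg _) (by positivity)
      _ = _ := by
          rw [mul_pow, mul_pow]
          ring
  have h5 := root_step (κ := (eta : ℝ) / q + 3) (by positivity : (0 : ℝ) ≤ (D : ℝ) ^ eta)
    (by linarith : (0 : ℝ) ≤ (q : ℝ) ^ (2 * lam) * q * K) hxR hn1 (by omega : 2 ≤ lam)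
    (by unfold delD; ring) h3
  exact h5.trans (mul_le_mul_of_nonneg_right (le_max_left _ _) (by positivity))

end Pool.Agent.NLG
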